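import Pool.Agent.Lib_helper2.KSSP.Main
import Pool.Agent.Lib_helper77.KSSP.JE
import Pool.Agent.Lib_helper77.KSSP.FB
import Pool.Agent.Lib_helper77.KSSP.FV
import Pool.Agent.Lib_helper77.KSSP.SM

/-!
# KSS: assembly
-/

namespace Pool.Agent.KSS

open MvPolynomial
open scoped ENNReal

theorem asm_cancel {a b : ℕ∞} (h : 1 + a = 1 + b) : a = b :=
  ENat.add_right_injective_of_ne_top (by simp : (1 : ℕ∞) ≠ ⊤) h

theorem asm_level {n k : ℕ} (d : Fin k → ℕ) (hd : ∀ i, 1 ≤ d i) (hF : ∑ i, d i ≤ n + k)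
    (f : Fin k → MvPolynomial (Fin (n + k + 1)) ℂ) (hf : Gen d f) (E : DivisorOver f n) (ℓ : ℕ)
    (hℓ : E.A = 1 + ℓ) (m : ℕ) (hm : 1 ≤ m) (L : ℕ) :
    ((n : ℝ) + k + 1 - ∑ i, (d i : ℝ)) *
        ∑ l ∈ Finset.Icc 1 L, (Module.finrank ℂ (E.Fl m l) : ℝ)
      ≤ m * Module.finrank ℂ (Sec f m) * (1 + ℓ) := by
  classical
  have hhom : ∀ i, ∃ e, (f i).IsHomogeneous e := fun i => ⟨d i, hf.1 i⟩
  -- dimension of the sections
  have hcard : (Finset.univ : Finset (Fin k)).card ≤ n + k + 1 := by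
    rw [Finset.card_univ, Fintype.card_fin]; omega
  have hIM : (Module.finrank ℂ (IM (Set.range f) m) : ℤ) =
      NN d (n + k + 1) ∅ m - NN d (n + k + 1) Finset.univ m := by
    have := hilb_pr d hd (n + k + 1) Finset.univ hcard ℂ f hf m
    rwa [Finset.coe_univ, Set.image_univ] at this
  have hSec : (Module.finrank ℂ (Sec f m) : ℤ) = NN d (n + k + 1) Finset.univ m := by
    have h1 := fb_sec f hhom m
    have h2 := finrank_hom_pr ℂ d (n + k + 1) m
    have h3 : (Module.finrank ℂ (Sec f m) : ℤ) + (Module.finrank ℂ (IM (Set.range f) m) : ℤ) =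
      (Module.finrank ℂ (homogeneousSubmodule (Fin (n + k + 1)) ℂ m) : ℤ) := by exact_mod_cast h1
    rw [h2, hIM] at h3
    linarith
  -- the case of no sections
  rcases Nat.eq_zero_or_pos (Module.finrank ℂ (Sec f m)) with h0 | hpos
  · have hfin : Module.Finite ℂ (Sec f m) := by
      unfold Sec
      have : Module.Finite ℂ (homogeneousSubmodule (Fin (n + k + 1)) ℂ m) :=
        Module.Finite.iff_fg.2 (homogeneousSubmodule_fg (Fin (n + k + 1)) ℂ m)
      exact Module.Finite.map _ _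
    have h1 : ∀ l, Module.finrank ℂ (E.Fl m l) = 0 := by
      intro l
      have : Module.finrank ℂ (E.Fl m l) ≤ Module.finrank ℂ (Sec f m) :=
        Submodule.finrank_mono inf_le_left
      omega
    simp [h1, h0]
  -- jets
  obtain ⟨q, hq⟩ : ∃ q : ℕ, n = q + 1 := by
    have h := E.trdeg
    rcases Nat.eq_zero_or_pos n with rfl | hn
    · exfalso
      have h1 : (1 : Cardinal) ≤ Algebra.trdeg ℂ (IsLocalRing.ResidueField E.O) + 1 :=
        self_le_add_left _ _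
      rw [h] at h1
      simp at h1
    · exact ⟨n - 1, by omega⟩
  have htr : Algebra.trdeg ℂ (IsLocalRing.ResidueField E.O) = (q : Cardinal) := by
    have h : ∀ c : Cardinal, c + 1 = (n : Cardinal) → c = q := by
      intro c hc
      rw [hq] at hc
      push_cast at hc
      exact Cardinal.add_one_inj.1 hc
    exact h _ E.trdeg
  let alg : Algebra (Chart f E.j) E.O := E.φ.toRingHom.toAlgebra
  have tower : @IsScalarTower ℂ (Chart f E.j) E.O Algebra.toSMul Algebra.toSMul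
      Algebra.toSMul :=
    IsScalarTower.of_algebraMap_eq fun c => (E.φ.commutes c).symm
  have hlen : Module.length E.O (Ω[E.O⁄Chart f E.j]) = (ℓ : ℕ∞) := by
    have h1 : E.A = 1 + Module.length E.O (Ω[E.O⁄Chart f E.j]) := rfl
    rw [hℓ] at h1
    exact (asm_cancel h1).symm
  obtain ⟨κ, _, _, x, hx1, hx2⟩ := je_jets (k0 := ℂ) E.j (Chart f E.j) E.O
    (Ideal.Quotient.mkₐ ℂ _) Ideal.Quotient.mk_surjective (by
      have : (X E.j - 1 : MvPolynomial (Fin (n + k + 1)) ℂ) ∈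
          Ideal.span (insert (X E.j - 1) (Set.range f)) :=
        Ideal.subset_span (Set.mem_insert _ _)
      have h1 := (Ideal.Quotient.mk_eq_mk_iff_sub_mem (X E.j)
        (1 : MvPolynomial (Fin (n + k + 1)) ℂ)).2 this
      simpa using h1) q htr ℓ hlen L
  have hx1' : ∀ (m l : ℕ) (s : MvPolynomial (Fin (n + k + 1)) ℂ), s.IsHomogeneous m → l ≤ L →
      E.loc (Ideal.Quotient.mk _ s) ∈ IsLocalRing.maximalIdeal E.O ^ l →
        (PowerSeries.X : PowerSeries κ) ^ l ∣ ev x s := by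
    intro m l s hs hl h
    exact hx1 m l s hs hl h
  -- the main estimate
  set H : ℝ := (NN d (n + k + 1) Finset.univ m : ℝ) with hH
  have hSecR : (Module.finrank ℂ (Sec f m) : ℝ) = H := by
    rw [hH]; exact_mod_cast hSec
  have hHpos : 0 < H := by
    rw [← hSecR]; exact_mod_cast hpos
  set r : ℝ := (n : ℝ) + k + 1 - ∑ i, (d i : ℝ) with hr
  have hr0 : 0 ≤ r := by
    have : (∑ i, (d i : ℝ)) ≤ n + k := by exact_mod_cast hF
    rw [hr]; linarith
  have hmpos : (0 : ℝ) < m := by exact_mod_cast hm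
  set ν : ℕ → ℝ := fun i => if i = m then r / (m * H) else 0 with hν
  have hsum : ∀ g : ℕ → ℝ, ∑ i ∈ Finset.range (m + 1), ν i * g i = r / (m * H) * g m := by
    intro g
    rw [Finset.sum_eq_single m]
    · simp [hν]
    · intro b _ hb; simp [hν, hb]
    · intro h; simp at h
  have hReg : Reg d (n + k + 1) Finset.univ m (fun _ => 0) ν := by
    refine ⟨fun _ => le_rfl, ?_, ?_, ?_⟩
    · intro i
      simp only [hν]
      split_ifs
      · positivity
      · exact le_rfl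
    · rw [hsum]
      simp only [Finset.compl_univ, Finset.sum_empty, zero_add]
      rw [← hH, div_mul_cancel₀ _ (by positivity)]
      rw [hr]; push_cast; linarith
    · intro i hi
      simp at hi
  have hB : ∑ i ∈ (Finset.univ : Finset (Fin k)), d i < n + k + 1 := by omega
  have hSS := SS_main d hd (n + k + 1) Finset.univ hB m (fun _ => 0) ν hReg ℂ f hf κ L x
    (by
      intro i _
      refine hx1' (d i) L (f i) (hf.1 i) le_rfl ?_
      have : (Ideal.Quotient.mk (Ideal.span (Set.range f))) (f i) = 0 :=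
        Ideal.Quotient.eq_zero_iff_mem.2 (Ideal.subset_span ⟨i, rfl⟩)
      rw [this, map_zero]
      exact Ideal.zero_mem _)
  rw [hsum] at hSS
  simp only [Finset.compl_univ, Finset.sum_empty, zero_add, Finset.card_univ,
    Fintype.card_fin] at hSS
  have hsig : ∑ l ∈ Finset.Icc 1 L, (Module.finrank ℂ (E.Fl m l) : ℝ) ≤
      sigB ℂ d Finset.univ x m := by
    unfold sigB
    apply Finset.sum_le_sum
    intro l hl
    rw [Finset.mem_Icc] at hl
    have h1 := fb_lift f hhom E κ L x hx1' m l hl.2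
    have h2 : (Module.finrank ℂ (E.Fl m l) : ℝ) + (Module.finrank ℂ (IM (Set.range f) m) : ℝ)
      ≤ (Module.finrank ℂ (Fil ℂ x m l) : ℝ) := by exact_mod_cast h1
    have h3 : (Module.finrank ℂ (IM (Set.range f) m) : ℝ) =
      (NN d (n + k + 1) ∅ m : ℝ) - (NN d (n + k + 1) Finset.univ m : ℝ) := by
      exact_mod_cast hIM
    rw [h3] at h2
    linarith
  have hx2' : ((n : ℝ) + 1) * L ≤ tauJ ℂ x + 1 + ℓ := by
    have h : (((q + 2) * L : ℕ) : ℝ) ≤ ((tauJ ℂ x + 1 + ℓ : ℕ) : ℝ) := by exact_mod_cast hx2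
    push_cast at h
    have hqR : (n : ℝ) = q + 1 := by exact_mod_cast hq
    have : ((n : ℝ) + 1) * L = ((q : ℝ) + 2) * L := by rw [hqR]; ring
    linarith
  have h5 : r / (m * H) * sigB ℂ d Finset.univ x m ≤ 1 + ℓ := by
    refine hSS.trans ?_
    push_cast
    nlinarith [hx2']
  have h6 : r / (m * H) * ∑ l ∈ Finset.Icc 1 L, (Module.finrank ℂ (E.Fl m l) : ℝ) ≤ 1 + ℓ :=
    (mul_le_mul_of_nonneg_left hsig (by positivity)).trans h5
  rw [div_mul_eq_mul_div, div_le_iff₀ (by positivity)] at h6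
  rw [hSecR]
  linarith

/-- the level `M` inequality -/
theorem asm_S {n k : ℕ} (d : Fin k → ℕ) (hd : ∀ i, 1 ≤ d i) (hF : ∑ i, d i ≤ n + k)
    (f : Fin k → MvPolynomial (Fin (n + k + 1)) ℂ) (hf : Gen d f) (E : DivisorOver f n)
    (M : ℕ) (hM : 1 ≤ M) : E.S (n + k + 1 - ∑ i, d i) M ≤ (E.A : ℝ≥0∞) := by
  classical
  rcases eq_or_ne E.A ⊤ with htop | hne
  · rw [htop]; simp
  obtain ⟨a, ha⟩ := ENat.ne_top_iff_exists.1 hne
  have hA1 : 1 ≤ E.A := by
    have : E.A = 1 + (letI : Algebra (Chart f E.j) E.O := E.φ.toRingHom.toAlgebra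
      Module.length E.O (Ω[E.O⁄Chart f E.j])) := rfl
    rw [this]
    exact self_le_add_right _ _
  obtain ⟨ℓ, hℓ⟩ : ∃ ℓ : ℕ, E.A = 1 + ℓ := by
    rw [← ha] at hA1 ⊢
    have h1 : 1 ≤ a := by exact_mod_cast hA1
    exact ⟨a - 1, by norm_cast; omega⟩
  set r := n + k + 1 - ∑ i, d i with hr
  have hr1 : 1 ≤ r := by omega
  have hrR : (r : ℝ) = (n : ℝ) + k + 1 - ∑ i, (d i : ℝ) := by
    have : (r : ℝ) + ∑ i, (d i : ℝ) = (n : ℝ) + k + 1 := by
      have h : r + ∑ i, d i = n + k + 1 := by omega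
      exact_mod_cast h
    linarith
  unfold DivisorOver.S
  apply ENNReal.div_le_of_le_mul
  rw [hℓ]
  refine ENNReal.tsum_le_of_sum_range_le fun L => ?_
  have h1 := asm_level d hd hF f hf E ℓ hℓ (r * M) (Nat.one_le_iff_ne_zero.2 (by positivity)) L
  rw [← hrR] at h1
  have h2 : r * ∑ l ∈ Finset.Icc 1 L, Module.finrank ℂ (E.Fl (r * M) l) ≤
      r * M * Module.finrank ℂ (Sec f (r * M)) * (1 + ℓ) := by
    have : ((r * ∑ l ∈ Finset.Icc 1 L, Module.finrank ℂ (E.Fl (r * M) l) : ℕ) : ℝ) ≤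
      ((r * M * Module.finrank ℂ (Sec f (r * M)) * (1 + ℓ) : ℕ) : ℝ) := by
      push_cast
      push_cast at h1
      exact h1
    exact_mod_cast this
  have h3 : ∑ l ∈ Finset.Icc 1 L, Module.finrank ℂ (E.Fl (r * M) l) ≤
      M * Module.finrank ℂ (Sec f (r * M)) * (1 + ℓ) := by
    have : r * ∑ l ∈ Finset.Icc 1 L, Module.finrank ℂ (E.Fl (r * M) l) ≤
      r * (M * Module.finrank ℂ (Sec f (r * M)) * (1 + ℓ)) := by
      calc _ ≤ _ := h2
        _ = _ := by ring
    exact Nat.le_of_mul_le_mul_left this hr1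
  have h4 : ∑ l ∈ Finset.range L, Module.finrank ℂ (E.Fl (r * M) (l + 1)) =
      ∑ l ∈ Finset.Icc 1 L, Module.finrank ℂ (E.Fl (r * M) l) := by
    rw [Finset.range_eq_Ico, Finset.sum_Ico_add' (fun l => Module.finrank ℂ (E.Fl (r * M) l)) 0 L 1]
    rfl
  rw [← h4] at h3
  have h5 : ((∑ l ∈ Finset.range L, Module.finrank ℂ (E.Fl (r * M) (l + 1)) : ℕ) : ℝ≥0∞) ≤
      ((M * Module.finrank ℂ (Sec f (r * M)) * (1 + ℓ) : ℕ) : ℝ≥0∞) := by
    exact_mod_cast h3
  push_cast at h5 ⊢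
  calc _ ≤ _ := h5
    _ = _ := by ring

/-- the final theorem -/
theorem asm_final {n k : ℕ} (d : Fin k → ℕ) (hd : ∀ i, 1 ≤ d i) (hF : ∑ i, d i ≤ n + k)
    (f : Fin k → MvPolynomial (Fin (n + k + 1)) ℂ) (hf : Gen d f) :
    SmoothCI f ∧ ∀ E : DivisorOver f n,
      (∀ M : ℕ, 1 ≤ M → E.S (n + k + 1 - ∑ i, d i) M ≤ (E.A : ℝ≥0∞)) ∧
      E.Svol (n + k + 1 - ∑ i, d i) ≤ (E.A : ℝ≥0∞) :=
  ⟨sm_smooth d hd f hf, fun E => ⟨fun M hM => asm_S d hd hF f hf E M hM,
    fv_vol f E _ fun M hM => asm_S d hd hF f hf E M hM⟩⟩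

end Pool.Agent.KSS
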