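import Pool.Agent.Lib_helper77.KSZ.Asm

/-!
# KSS, final step: the filtration of a divisor
-/

namespace Pool.Agent.KSS

open MvPolynomial MeasureTheory Filter
open scoped ENNReal Topology

variable {N n k : ℕ}

theorem fin_Fl0 {f : Fin k → MvPolynomial (Fin N) ℂ} (E : DivisorOver f n) (m : ℕ) :
    E.Fl m 0 = Sec f m := by
  unfold DivisorOver.Fl
  rw [inf_eq_left, pow_zero]
  intro s _
  show E.loc.toLinearMap s ∈ (1 : Ideal E.O)
  rw [Ideal.one_eq_top]
  exact Submodule.mem_top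

theorem fin_anti {f : Fin k → MvPolynomial (Fin N) ℂ} (E : DivisorOver f n) (m : ℕ) {l l' : ℕ}
    (h : l ≤ l') : E.Fl m l' ≤ E.Fl m l := by
  unfold DivisorOver.Fl
  refine inf_le_inf_left _ (Submodule.comap_mono ?_)
  intro x hx
  exact Ideal.pow_le_pow_right h hx

theorem fin_Fl_finite {f : Fin k → MvPolynomial (Fin N) ℂ} (E : DivisorOver f n) (m l : ℕ) :
    Module.Finite ℂ (E.Fl m l) := by
  have := fv_sec_finite f m
  exact Submodule.finiteDimensional_of_le (inf_le_left : E.Fl m l ≤ Sec f m)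

/-- Fatou -/
theorem fin_fatou {f : Fin k → MvPolynomial (Fin N) ℂ} (E : DivisorOver f n) (r : ℕ) :
    ∫⁻ t in Set.Ioi (0 : ℝ), E.vol r t ≤
      liminf (fun M : ℕ => (n.factorial : ℝ≥0∞) *
        (∑' l : ℕ, (Module.finrank ℂ (E.Fl (r * M) (l + 1)) : ℝ≥0∞)) / (M : ℝ≥0∞) ^ (n + 1))
        atTop := by
  set g : ℕ → ℝ → ℝ≥0∞ := fun M t => (n.factorial : ℝ≥0∞) *
    (Module.finrank ℂ (E.Fl (r * M) ⌈(M : ℝ) * t⌉₊) : ℝ≥0∞) / (M : ℝ≥0∞) ^ n with hg
  have hmeas : ∀ M, Measurable (g M) := by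
    intro M
    have h1 : Measurable (fun t : ℝ => ⌈(M : ℝ) * t⌉₊) :=
      Nat.measurable_ceil.comp (measurable_const.mul measurable_id)
    exact (measurable_from_nat (f := fun l : ℕ => (n.factorial : ℝ≥0∞) *
      (Module.finrank ℂ (E.Fl (r * M) l) : ℝ≥0∞) / (M : ℝ≥0∞) ^ n)).comp h1
  have hvol : ∀ t, E.vol r t = liminf (fun M => g M t) atTop := fun t => rfl
  calc ∫⁻ t in Set.Ioi (0 : ℝ), E.vol r t
      = ∫⁻ t in Set.Ioi (0 : ℝ), liminf (fun M => g M t) atTop := by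
        refine lintegral_congr fun t => hvol t
    _ ≤ liminf (fun M => ∫⁻ t in Set.Ioi (0 : ℝ), g M t) atTop := lintegral_liminf_le hmeas
    _ ≤ _ := by
      refine liminf_le_liminf ?_
      filter_upwards [eventually_ge_atTop 1] with M hM
      have hM0 : (M : ℝ≥0∞) ≠ 0 := by
        have : M ≠ 0 := by omega
        exact_mod_cast this
      have hMt : (M : ℝ≥0∞) ≠ ⊤ := ENNReal.natCast_ne_top M
      have h1 := fv_step (fun l : ℕ => (n.factorial : ℝ≥0∞) *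
        (Module.finrank ℂ (E.Fl (r * M) l) : ℝ≥0∞) / (M : ℝ≥0∞) ^ n) hM
      refine h1.trans (le_of_eq ?_)
      have h7 : ∑' l : ℕ, (n.factorial : ℝ≥0∞) *
          (Module.finrank ℂ (E.Fl (r * M) (l + 1)) : ℝ≥0∞) / (M : ℝ≥0∞) ^ n =
          (n.factorial : ℝ≥0∞) / (M : ℝ≥0∞) ^ n *
            ∑' l : ℕ, (Module.finrank ℂ (E.Fl (r * M) (l + 1)) : ℝ≥0∞) := by
        rw [← ENNReal.tsum_mul_left]
        congr 1
        funext l
        rw [div_eq_mul_inv, div_eq_mul_inv]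
        ring
      rw [h7]
      rw [pow_succ, div_eq_mul_inv, div_eq_mul_inv, ENNReal.mul_inv (Or.inr hMt) (Or.inr hM0)]
      ring

section

variable (d : Fin k → ℕ) (hd : ∀ i, 1 ≤ d i) (hF : ∑ i, d i ≤ n + k)
    {f : Fin k → MvPolynomial (Fin (n + k + 1)) ℂ} (hf : Gen d f) (E : DivisorOver f n)
    (ℓ : ℕ) (hℓ : E.A = 1 + ℓ)

include hd hF hf hℓ

/-- the filtration is exhausted -/
theorem fin_exh (m : ℕ) (hm : 1 ≤ m) : ∃ L0 : ℕ, E.Fl m L0 = ⊥ := by
  by_contra hcon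
  push Not at hcon
  have hpos : ∀ l, 1 ≤ Module.finrank ℂ (E.Fl m l) := by
    intro l
    have := fin_Fl_finite E m l
    have h1 := hcon l
    by_contra h2
    have h3 : Module.finrank ℂ (E.Fl m l) = 0 := by omega
    exact h1 (Submodule.finrank_eq_zero.1 h3)
  set C : ℝ := m * Module.finrank ℂ (Sec f m) * (1 + ℓ) with hC
  obtain ⟨L, hL⟩ := exists_nat_gt C
  have h1 := asm_level d hd hF f hf E ℓ hℓ m hm L
  have hr : (1 : ℝ) ≤ (n : ℝ) + k + 1 - ∑ i, (d i : ℝ) := by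
    have : (∑ i, (d i : ℝ)) ≤ n + k := by exact_mod_cast hF
    linarith
  have h2 : (L : ℝ) ≤ ∑ l ∈ Finset.Icc 1 L, (Module.finrank ℂ (E.Fl m l) : ℝ) := by
    calc (L : ℝ) = ∑ l ∈ Finset.Icc 1 L, (1 : ℝ) := by simp
      _ ≤ _ := by
        gcongr with l hl
        exact_mod_cast hpos l
  have h3 : (0 : ℝ) ≤ L := by positivity
  nlinarith

/-- sections are determined by their expression on the chart -/
theorem fin_inj (m : ℕ) (hm : 1 ≤ m) (s : CoordRing f) (hs : s ∈ Sec f m)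
    (h0 : E.loc s = 0) : s = 0 := by
  obtain ⟨L0, hL0⟩ := fin_exh d hd hF hf E ℓ hℓ m hm
  have : s ∈ E.Fl m L0 := by
    refine ⟨hs, ?_⟩
    show E.loc s ∈ (IsLocalRing.maximalIdeal E.O ^ L0 : Ideal E.O)
    rw [h0]
    exact Ideal.zero_mem _
  rw [hL0] at this
  simpa using this

theorem fin_mono (m : ℕ) (hm : 1 ≤ m) (l : ℕ) :
    Module.finrank ℂ (E.Fl m l) ≤ Module.finrank ℂ (E.Fl (m + 1) l) := by
  have hfin := fin_Fl_finite E (m + 1) l
  set xj : CoordRing f := Ideal.Quotient.mk _ (X E.j) with hxj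
  have hloc : E.loc xj = 1 := by
    have h1 : E.loc xj = E.φ (Ideal.Quotient.mk _ (X E.j)) := rfl
    have h2 : (X E.j - 1 : MvPolynomial (Fin (n + k + 1)) ℂ) ∈
        Ideal.span (insert (X E.j - 1) (Set.range f)) :=
      Ideal.subset_span (Set.mem_insert _ _)
    have h3 := (Ideal.Quotient.mk_eq_mk_iff_sub_mem (X E.j)
      (1 : MvPolynomial (Fin (n + k + 1)) ℂ)).2 h2
    rw [h1, h3, map_one, map_one]
  have hmem : ∀ s ∈ E.Fl m l, xj * s ∈ E.Fl (m + 1) l := by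
    rintro s ⟨hs1, hs2⟩
    refine ⟨?_, ?_⟩
    · obtain ⟨F, hF1, rfl⟩ := hs1
      refine ⟨X E.j * F, ?_, ?_⟩
      · have h1 : (X E.j * F).IsHomogeneous (1 + m) := (isHomogeneous_X ℂ E.j).mul hF1
        rwa [Nat.add_comm 1 m] at h1
      · show Ideal.Quotient.mk _ (X E.j * F) = xj * Ideal.Quotient.mk _ F
        rw [map_mul]
    · show E.loc (xj * s) ∈ (IsLocalRing.maximalIdeal E.O ^ l : Ideal E.O)
      rw [map_mul, hloc, one_mul]
      exact hs2
  let T : E.Fl m l →ₗ[ℂ] E.Fl (m + 1) l :=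
    ((LinearMap.mulLeft ℂ xj).restrict hmem)
  have hT : Function.Injective T := by
    rw [← LinearMap.ker_eq_bot, LinearMap.ker_eq_bot']
    rintro ⟨s, hs⟩ h
    have h1 : xj * s = 0 := congrArg Subtype.val h
    have h2 : E.loc s = 0 := by
      have := congrArg E.loc h1
      rwa [map_mul, hloc, one_mul, map_zero] at this
    have h3 := fin_inj d hd hF hf E ℓ hℓ m hm s hs.1 h2
    exact Subtype.ext h3
  exact LinearMap.finrank_le_finrank_of_injective hT

end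

end Pool.Agent.KSS
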