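import Pool.Agent.Lib_helper80.KSX.Defs
import Pool.Agent.Lib_helper56.KSS.Tau
import Pool.Agent.Lib_helper2.KSSP.Main

/-!
# Strictness: definitions of the block interface
-/

namespace Pool.Agent.KSX

open MvPolynomial Pool.Agent.KSS Filter Topology

/-- the record of a jet -/
noncomputable def recJ {p v L : ℕ} {k κ : Type} [Field k] [Field κ] [Algebra k κ]
    (G : Fin p → MvPolynomial (Fin v) k) (x : Fin v → Fin L → κ) : Rec p where
  L := L
  τ := tauJ k x
  fil := fun m l => Module.finrank k (Fil k x m l)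
  g := fun i => ordL L (ev x (G i))
  c0 := c0J x

/-- the coefficients of `t^c` of the coordinates of a jet -/
noncomputable def lead {κ : Type} [Field κ] {v L : ℕ} (x : Fin v → Fin L → κ) (c : ℕ) :
    Fin v → κ :=
  fun i => PowerSeries.coeff c (arc (x i))

/-- gradient of `G i` at the point `pt` -/
noncomputable def grad {p v : ℕ} {k κ : Type} [Field k] [Field κ] [Algebra k κ]
    (G : Fin p → MvPolynomial (Fin v) k) (pt : Fin v → κ) (i : Fin p) : Fin v → κ :=
  fun q => aeval pt (pderiv q (G i))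

/-! ### the same for records -/

/-- (BAS) elementary properties of records of jets; uses the Hilbert function `hilb` -/
structure Bas {p : ℕ} (d : Fin p → ℕ) (v : ℕ) (R : Rec p) : Prop where
  le : ∀ m l, l ≤ R.L → (R.fil m l : ℤ) ≤ NN d v ∅ m
  ge : ∀ B : Finset (Fin p), B.card ≤ v → (∀ i ∈ B, R.g i = R.L) → ∀ m l, l ≤ R.L →
    NN d v ∅ m - NN d v B m ≤ R.fil m l
  full : ∀ m l, l ≤ R.L → l ≤ R.c0 * m → (R.fil m l : ℤ) = NN d v ∅ m
  anti : ∀ m l l', l ≤ l' → l' ≤ R.L → R.fil m l' ≤ R.fil m l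
  g_le : ∀ i, R.g i ≤ R.L
  c0_le : R.c0 ≤ R.L
  g_ge : ∀ i, min R.L (d i * R.c0) ≤ R.g i
  tau_le : R.τ ≤ v * R.L

end Pool.Agent.KSX

namespace Pool.Agent.KSX

open MvPolynomial Pool.Agent.KSS Filter Topology

/-! ### generating functions -/

/-! ### the torus step -/

/-- conditions imposed by the torus-graded filtration -/
noncomputable def NT {p : ℕ} (d : Fin p → ℕ) (v : ℕ) (j : Fin p) (R' : Rec p)
    (e : Fin (d j) → ℕ) (η : ℕ) (m l : ℕ) : ℝ :=
  ∑ a ∈ Exps (d j) m, ((NN d (v - d j) ∅ (m - ∑ i, a i) : ℝ)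
    - R'.fil (m - ∑ i, a i) (l - wt e η a))

/-- `(1-q)^{-n} (q/(1-q) - q^n/(1-q^n)) = ∑_a q^{|a|} (a_l - min a)` -/
noncomputable def Kq (n : ℕ) (q : ℝ) : ℝ :=
  ((1 - q) ^ n)⁻¹ * (q / (1 - q) - q ^ n / (1 - q ^ n))

end Pool.Agent.KSX

namespace Pool.Agent.KSX

open MvPolynomial Pool.Agent.KSS Filter Topology

/-- the substitution `X_last := - ∑ (a_i / a_last) X_i` -/
noncomputable def linSub {k : Type} [Field k] {v : ℕ} (a : Fin (v + 1) → k) :
    MvPolynomial (Fin (v + 1)) k →ₐ[k] MvPolynomial (Fin v) k :=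
  aeval (Fin.lastCases (-∑ i : Fin v, C (a i.castSucc / a (Fin.last v)) * X i) (fun i => X i))

end Pool.Agent.KSX
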