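import Pool.Agent.Lib_helper77.KSZ.Fin1
import Pool.Agent.Lib_helper77.KSF.Abel
import Pool.Agent.Lib_helper77.KSZ.XBase

/-!
# KSS, final step: records of a divisor
-/

namespace Pool.Agent.KSS

open MvPolynomial MeasureTheory Filter Pool.Agent.KSX
open scoped ENNReal Topology

variable {n k : ℕ}

/-- the record of the generic jet of `E` of level `L` -/
theorem fin_rec (d : Fin k → ℕ) (hd : ∀ i, 1 ≤ d i) (hF : ∑ i, d i ≤ n + k)
    {f : Fin k → MvPolynomial (Fin (n + k + 1)) ℂ} (hf : Gen d f) (E : DivisorOver f n)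
    (ℓ : ℕ) (hℓ : E.A = 1 + ℓ) (L : ℕ) (hL : 1 ≤ L) :
    ∃ R : Rec k, R.Of d (n + k + 1) ∧ R.L = L ∧ (∀ i, R.g i = R.L) ∧ R.c0 = 0 ∧
      R.cd (n + k + 1) Finset.univ ≤ 1 + ℓ ∧
      ∀ m l, 1 ≤ l → l ≤ L → (Module.finrank ℂ (E.Fl m l) : ℝ) ≤
        (R.fil m l : ℝ) - (NN d (n + k + 1) ∅ m : ℝ) + (NN d (n + k + 1) Finset.univ m : ℝ) := by
  classical
  have hhom : ∀ i, ∃ e, (f i).IsHomogeneous e := fun i => ⟨d i, hf.1 i⟩
  have hcard : (Finset.univ : Finset (Fin k)).card ≤ n + k + 1 := by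
    rw [Finset.card_univ, Fintype.card_fin]; omega
  have hIM : ∀ m, (Module.finrank ℂ (IM (Set.range f) m) : ℤ) =
      NN d (n + k + 1) ∅ m - NN d (n + k + 1) Finset.univ m := by
    intro m
    have := hilb_pr d hd (n + k + 1) Finset.univ hcard ℂ f hf m
    rwa [Finset.coe_univ, Set.image_univ] at this
  obtain ⟨q, hq⟩ : ∃ q : ℕ, n = q + 1 := by
    have h := E.trdeg
    rcases Nat.eq_zero_or_pos n with rfl | hn
    · exfalso
      have h1 : (1 : Cardinal) ≤ Algebra.trdeg ℂ (IsLocalRing.ResidueField E.O) + 1 :=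
        self_le_add_left _ _
      rw [h] at h1
      simp at h1
    · exact ⟨n - 1, by omega⟩
  have htr : Algebra.trdeg ℂ (IsLocalRing.ResidueField E.O) = (q : Cardinal) := by
    have h : ∀ c : Cardinal, c + 1 = (n : Cardinal) → c = q := by
      intro c hc
      rw [hq] at hc
      push_cast at hc
      exact Cardinal.add_one_inj.1 hc
    exact h _ E.trdeg
  let alg : Algebra (Chart f E.j) E.O := E.φ.toRingHom.toAlgebra
  have tower : @IsScalarTower ℂ (Chart f E.j) E.O Algebra.toSMul Algebra.toSMul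
      Algebra.toSMul :=
    IsScalarTower.of_algebraMap_eq fun c => (E.φ.commutes c).symm
  have hlen : Module.length E.O (Ω[E.O⁄Chart f E.j]) = (ℓ : ℕ∞) := by
    have h1 : E.A = 1 + Module.length E.O (Ω[E.O⁄Chart f E.j]) := rfl
    rw [hℓ] at h1
    exact (asm_cancel h1).symm
  obtain ⟨κ, _, _, x, hx0, hx1, hx2⟩ := je_jets2 (k0 := ℂ) E.j (Chart f E.j) E.O
    (Ideal.Quotient.mkₐ ℂ _) Ideal.Quotient.mk_surjective (by
      have : (X E.j - 1 : MvPolynomial (Fin (n + k + 1)) ℂ) ∈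
          Ideal.span (insert (X E.j - 1) (Set.range f)) :=
        Ideal.subset_span (Set.mem_insert _ _)
      have h1 := (Ideal.Quotient.mk_eq_mk_iff_sub_mem (X E.j)
        (1 : MvPolynomial (Fin (n + k + 1)) ℂ)).2 this
      simpa using h1) q htr ℓ hlen L
  have hx1' : ∀ (m l : ℕ) (s : MvPolynomial (Fin (n + k + 1)) ℂ), s.IsHomogeneous m → l ≤ L →
      E.loc (Ideal.Quotient.mk _ s) ∈ IsLocalRing.maximalIdeal E.O ^ l →
        (PowerSeries.X : PowerSeries κ) ^ l ∣ ev x s := by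
    intro m l s hs hl h
    exact hx1 m l s hs hl h
  refine ⟨recJ f x, ⟨ℂ, inferInstance, inferInstance, f, κ, inferInstance, inferInstance, x, hf,
    rfl, fun _ _ _ => rfl, fun _ => rfl, rfl⟩, rfl, ?_, ?_, ?_, ?_⟩
  · intro i
    have h1 : (PowerSeries.X : PowerSeries κ) ^ L ∣ ev x (f i) := by
      refine hx1' (d i) L (f i) (hf.1 i) le_rfl ?_
      have : (Ideal.Quotient.mk (Ideal.span (Set.range f))) (f i) = 0 :=
        Ideal.Quotient.eq_zero_iff_mem.2 (Ideal.subset_span ⟨i, rfl⟩)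
      rw [this, map_zero]
      exact Ideal.zero_mem _
    show ordL L (ev x (f i)) = L
    unfold ordL
    have h2 : (L : ℕ∞) ≤ (ev x (f i)).order := PowerSeries.nat_le_order _ L (PowerSeries.X_pow_dvd_iff.1 h1)
    rw [min_eq_left h2]
    rfl
  · show c0J x = 0
    unfold c0J
    have h1 : ordL L (arc (x E.j)) = 0 := by
      unfold ordL
      have h2 : (arc (x E.j)).order = 0 := by
        rw [PowerSeries.order_eq_nat (n := 0) |>.2]
        · rfl
        · refine ⟨?_, fun i hi => absurd hi (by omega)⟩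
          unfold arc
          rw [PowerSeries.coeff_mk, dif_pos (by omega)]
          exact hx0 _
      rw [h2]
      simp
    exact Nat.le_zero.1 (h1 ▸ ciInf_le ⟨0, by rintro _ ⟨i, rfl⟩; exact Nat.zero_le _⟩ E.j)
  · unfold Rec.cd
    show ((((n + k + 1 : ℕ) : ℝ)) - (Finset.univ : Finset (Fin k)).card) * (L : ℝ) -
      (tauJ ℂ x : ℝ) ≤ 1 + ℓ
    have h : (((q + 2) * L : ℕ) : ℝ) ≤ ((tauJ ℂ x + 1 + ℓ : ℕ) : ℝ) := by exact_mod_cast hx2
    push_cast at h
    have hqR : (n : ℝ) = q + 1 := by exact_mod_cast hq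
    rw [Finset.card_univ, Fintype.card_fin]
    push_cast
    have : ((n : ℝ) + k + 1 - k) * L = ((q : ℝ) + 2) * L := by rw [hqR]; ring
    rw [this]
    linarith
  · intro m l _ hl2
    have h1 := fb_lift f hhom E κ L x hx1' m l hl2
    have h2 : (Module.finrank ℂ (E.Fl m l) : ℝ) + (Module.finrank ℂ (IM (Set.range f) m) : ℝ)
      ≤ (Module.finrank ℂ (Fil ℂ x m l) : ℝ) := by exact_mod_cast h1
    have h3 : (Module.finrank ℂ (IM (Set.range f) m) : ℝ) =
      (NN d (n + k + 1) ∅ m : ℝ) - (NN d (n + k + 1) Finset.univ m : ℝ) := by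
      exact_mod_cast hIM m
    rw [h3] at h2
    show (Module.finrank ℂ (E.Fl m l) : ℝ) ≤ (Module.finrank ℂ (Fil ℂ x m l) : ℝ) - _ + _
    linarith

end Pool.Agent.KSS
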