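import Pool.Agent.Lib_helper77.KSSP.Base
import Pool.Agent.Lib_helper77.KSS.Final

/-!
# KSS: block VO
-/

namespace Pool.Agent.KSS

open MvPolynomial
open scoped ENNReal Topology

/-- `(m + c)/m → 1` -/
theorem vo_ratio (c : ℝ) :
    Filter.Tendsto (fun m : ℕ => ((m : ℝ) + c) / (m : ℝ)) Filter.atTop (𝓝 1) := by
  have h1 : Filter.Tendsto (fun m : ℕ => 1 + c / (m : ℝ)) Filter.atTop (𝓝 (1 + 0)) :=
    tendsto_const_nhds.add (tendsto_const_div_atTop_nhds_zero_nat c)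
  rw [add_zero] at h1
  refine h1.congr' ?_
  filter_upwards [Filter.eventually_gt_atTop 0] with m hm
  have : (m : ℝ) ≠ 0 := by exact_mod_cast hm.ne'
  field_simp

theorem vo_base (n : ℕ) :
    Filter.Tendsto (fun m : ℕ => (((m + 1).ascFactorial n : ℕ) : ℝ) / (m : ℝ) ^ n)
      Filter.atTop (𝓝 1) := by
  induction n with
  | zero => simp
  | succ n ih =>
    have h1 := (vo_ratio (1 + n)).mul ih
    rw [one_mul] at h1
    refine h1.congr (fun m => ?_)
    rw [Nat.ascFactorial_succ]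
    push_cast
    rw [pow_succ', div_mul_div_comm]
    ring

/-- shift of a sequence of growth `m^n` -/
theorem vo_shift {n : ℕ} {a : ℕ → ℝ} {c : ℝ}
    (ha : Filter.Tendsto (fun m : ℕ => a m / (m : ℝ) ^ n) Filter.atTop (𝓝 c)) (j : ℕ) :
    Filter.Tendsto (fun m : ℕ => a (m - j) / (m : ℝ) ^ n) Filter.atTop (𝓝 c) := by
  have h1 : Filter.Tendsto (fun m : ℕ => a (m - j) / ((m - j : ℕ) : ℝ) ^ n) Filter.atTop (𝓝 c) :=
    ha.comp (Filter.tendsto_sub_atTop_nat j)
  have h2 := (vo_ratio (-(j : ℝ))).pow n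
  have h3 := h1.mul h2
  rw [one_pow, mul_one] at h3
  refine h3.congr' ?_
  filter_upwards [Filter.eventually_gt_atTop j] with m hm
  have h4 : ((m - j : ℕ) : ℝ) = (m : ℝ) + -(j : ℝ) := by
    rw [Nat.cast_sub hm.le]; ring
  rw [h4, div_pow]
  have h5 : (m : ℝ) + -(j : ℝ) ≠ 0 := by
    rw [← h4]
    exact_mod_cast (by omega : m - j ≠ 0)
  have h6 : (m : ℝ) ≠ 0 := by exact_mod_cast (by omega : m ≠ 0)
  field_simp

theorem vo_sum {n : ℕ} {a : ℕ → ℝ} {c : ℝ}
    (ha : Filter.Tendsto (fun m : ℕ => a m / (m : ℝ) ^ n) Filter.atTop (𝓝 c)) (d : ℕ) :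
    Filter.Tendsto (fun m : ℕ => (∑ j ∈ Finset.range d, if j ≤ m then a (m - j) else 0) /
      (m : ℝ) ^ n) Filter.atTop (𝓝 (d * c)) := by
  have h1 : Filter.Tendsto (fun m : ℕ => ∑ j ∈ Finset.range d, a (m - j) / (m : ℝ) ^ n)
      Filter.atTop (𝓝 (∑ j ∈ Finset.range d, c)) :=
    tendsto_finsetSum _ (fun j _ => vo_shift ha j)
  rw [Finset.sum_const, Finset.card_range, nsmul_eq_mul] at h1
  refine h1.congr' ?_
  filter_upwards [Filter.eventually_ge_atTop d] with m hm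
  rw [Finset.sum_div]
  refine Finset.sum_congr rfl (fun j hj => ?_)
  rw [if_pos (by have := Finset.mem_range.1 hj; omega)]

theorem vo_HS {p : ℕ} (d : Fin p → ℕ) (v : ℕ) (B : Finset (Fin p)) (i : Fin p) (hi : i ∉ B) :
    HS d (v + 1) (insert i B) =
      (∑ j ∈ Finset.range (d i), (PowerSeries.X : PowerSeries ℤ) ^ j) * HS d v B := by
  unfold HS
  rw [Finset.prod_insert hi]
  have h1 := PowerSeries.one_sub_pow_mul_invOneSubPow_val_add_eq_invOneSubPow_val ℤ v 1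
  rw [pow_one] at h1
  rw [← h1]
  have h2 : (1 - (PowerSeries.X : PowerSeries ℤ) ^ (d i)) =
      (∑ j ∈ Finset.range (d i), (PowerSeries.X : PowerSeries ℤ) ^ j) * (1 - PowerSeries.X) :=
    (geom_sum_mul_neg _ _).symm
  rw [h2]
  ring

theorem vo_NNsum {p : ℕ} (d : Fin p → ℕ) (v : ℕ) (B : Finset (Fin p)) (i : Fin p) (hi : i ∉ B)
    (m : ℕ) :
    NN d (v + 1) (insert i B) m =
      ∑ j ∈ Finset.range (d i), if j ≤ m then NN d v B (m - j) else 0 := by
  unfold NN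
  rw [vo_HS d v B i hi, Finset.sum_mul, map_sum]
  refine Finset.sum_congr rfl (fun j _ => ?_)
  rw [PowerSeries.coeff_X_pow_mul']

theorem vo_gen {n p : ℕ} (d : Fin p → ℕ) (B : Finset (Fin p)) :
    Filter.Tendsto (fun m : ℕ => ((n.factorial : ℝ) * (NN d (n + B.card + 1) B m : ℝ)) /
      (m : ℝ) ^ n) Filter.atTop (𝓝 ((∏ i ∈ B, d i : ℕ) : ℝ)) := by
  classical
  induction B using Finset.induction_on with
  | empty =>
    rw [Finset.prod_empty, Nat.cast_one]
    refine (vo_base n).congr (fun m => ?_)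
    congr 1
    rw [Nat.ascFactorial_eq_factorial_mul_choose]
    unfold NN HS
    rw [Finset.prod_empty, one_mul, Finset.card_empty, add_zero,
      PowerSeries.invOneSubPow_val_succ_eq_mk_add_choose, PowerSeries.coeff_mk]
    push_cast
    rw [add_comm n m]
  | insert i B hi ih =>
    rw [Finset.prod_insert hi, Finset.card_insert_of_notMem hi]
    have h1 := vo_sum ih (d i)
    rw [Nat.cast_mul]
    refine h1.congr (fun m => ?_)
    congr 1
    rw [show n + (B.card + 1) + 1 = (n + B.card + 1) + 1 by ring, vo_NNsum d _ B i hi]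
    push_cast
    rw [Finset.mul_sum]
    refine Finset.sum_congr rfl (fun j _ => ?_)
    split_ifs <;> simp

/-- (VO) leading term of the Hilbert function of a complete intersection of dimension `n` -/
theorem vo_NN_pr {n k : ℕ} (d : Fin k → ℕ) :
    Filter.Tendsto (fun m : ℕ => ((n.factorial : ℝ) * (NN d (n + k + 1) Finset.univ m : ℝ)) /
      (m : ℝ) ^ n) Filter.atTop (𝓝 ((∏ i, d i : ℕ) : ℝ)) := by
  have h := vo_gen (n := n) d Finset.univ
  rw [Finset.card_univ, Fintype.card_fin] at h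
  exact h

theorem vo_Fl {N n k : ℕ} {f : Fin k → MvPolynomial (Fin N) ℂ} (E : DivisorOver f n) (m : ℕ) :
    E.Fl m 0 = Sec f m := by
  unfold DivisorOver.Fl
  rw [pow_zero, Ideal.one_eq_top]
  ext x
  simp

/-- (VO) the volume of `𝒪(r)` on `X_f` -/
theorem vo_vol_pr {N n k : ℕ} (d : Fin k → ℕ) (r : ℕ) (hr : 1 ≤ r)
    (f : Fin k → MvPolynomial (Fin N) ℂ)
    (hSec : ∀ m, (Module.finrank ℂ (Sec f m) : ℤ) = NN d (n + k + 1) Finset.univ m)
    (E : DivisorOver f n) :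
    E.vol r 0 = ((r ^ n * ∏ i, d i : ℕ) : ℝ≥0∞) := by
  have h1 := vo_NN_pr (n := n) d
  have h2 : Filter.Tendsto (fun M : ℕ => r * M) Filter.atTop Filter.atTop :=
    Filter.tendsto_id.const_mul_atTop' (by omega)
  have h3 := (h1.comp h2).const_mul ((r : ℝ) ^ n)
  have h4 := ENNReal.tendsto_ofReal h3
  have h5 : ENNReal.ofReal ((r : ℝ) ^ n * ((∏ i, d i : ℕ) : ℝ)) =
      ((r ^ n * ∏ i, d i : ℕ) : ℝ≥0∞) := by
    rw [← Nat.cast_pow, ← Nat.cast_mul, ENNReal.ofReal_natCast]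
  rw [h5] at h4
  unfold DivisorOver.vol
  refine Filter.Tendsto.liminf_eq (h4.congr' ?_)
  filter_upwards [Filter.eventually_gt_atTop 0] with M hM
  have hc : ⌈(M : ℝ) * 0⌉₊ = 0 := by simp
  rw [hc, vo_Fl]
  have h6 : (NN d (n + k + 1) Finset.univ (r * M) : ℝ) =
      (Module.finrank ℂ (Sec f (r * M)) : ℝ) := by
    rw [← hSec]; simp
  have hM0 : (M : ℝ) ≠ 0 := by exact_mod_cast hM.ne'
  have hr0 : (r : ℝ) ≠ 0 := by exact_mod_cast (by omega : r ≠ 0)
  simp only [Function.comp]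
  rw [h6]
  have h7 : (r : ℝ) ^ n * ((n.factorial : ℝ) * (Module.finrank ℂ (Sec f (r * M)) : ℝ) /
      ((r * M : ℕ) : ℝ) ^ n) =
      ((n.factorial * Module.finrank ℂ (Sec f (r * M)) : ℕ) : ℝ) / ((M ^ n : ℕ) : ℝ) := by
    push_cast
    field_simp
    rw [mul_pow]
    ring
  rw [h7, ENNReal.ofReal_div_of_pos (by positivity), ENNReal.ofReal_natCast,
    ENNReal.ofReal_natCast]
  push_cast
  rfl

alias vo_NN := vo_NN_pr

alias vo_vol := vo_vol_pr

end Pool.Agent.KSS
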