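import Pool.Agent.Lib_helper77.KSZ.Fin2
import Pool.Agent.Lib_helper77.KSZ.VO

/-!
# KSS, final step: one divisor
-/

namespace Pool.Agent.KSS

open MvPolynomial MeasureTheory Filter Pool.Agent.KSX
open scoped ENNReal Topology

variable {n k : ℕ}

section

variable (d : Fin k → ℕ) (hd : ∀ i, 1 ≤ d i) (hF : ∑ i, d i ≤ n + k)
    {f : Fin k → MvPolynomial (Fin (n + k + 1)) ℂ} (hf : Gen d f) (E : DivisorOver f n)
    (ℓ : ℕ) (hℓ : E.A = 1 + ℓ)

include hd hF hf hℓ

/-- the sums `∑_{l ≥ 1} dim F^l` are finite and nondecreasing -/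
theorem fin_sums : ∃ (t L0 : ℕ → ℕ), Monotone t ∧
    (∀ m, 1 ≤ m → ∑' l : ℕ, (Module.finrank ℂ (E.Fl m (l + 1)) : ℝ≥0∞) = (t m : ℝ≥0∞)) ∧
    ∀ m L, L0 m ≤ L → (t m : ℝ) ≤ ∑ l ∈ Finset.Icc 1 L, (Module.finrank ℂ (E.Fl m l) : ℝ) := by
  classical
  have hex : ∀ m : ℕ, ∃ L0 : ℕ, 1 ≤ m → E.Fl m L0 = ⊥ := by
    intro m
    by_cases hm : 1 ≤ m
    · obtain ⟨L0, h⟩ := fin_exh d hd hF hf E ℓ hℓ m hm
      exact ⟨L0, fun _ => h⟩
    · exact ⟨0, fun h => absurd h hm⟩
  choose L0 hL0 using hex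
  set t : ℕ → ℕ := fun m => if m = 0 then 0 else
    ∑ l ∈ Finset.range (L0 m), Module.finrank ℂ (E.Fl m (l + 1)) with ht
  have hts : ∀ m, 1 ≤ m →
      ∑' l : ℕ, (Module.finrank ℂ (E.Fl m (l + 1)) : ℝ≥0∞) = (t m : ℝ≥0∞) := by
    intro m hm
    have h1 : ∑' l : ℕ, (Module.finrank ℂ (E.Fl m (l + 1)) : ℝ≥0∞) =
        ∑ l ∈ Finset.range (L0 m), (Module.finrank ℂ (E.Fl m (l + 1)) : ℝ≥0∞) := by
      apply tsum_eq_sum
      intro l hl
      rw [Finset.mem_range, not_lt] at hl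
      have h2 : E.Fl m (l + 1) = ⊥ := by
        rw [eq_bot_iff, ← hL0 m hm]
        exact fin_anti E m (by omega)
      rw [h2, finrank_bot, Nat.cast_zero]
    rw [h1, ht]
    simp only
    rw [if_neg (by omega)]
    push_cast
    rfl
  refine ⟨t, L0, ?_, hts, ?_⟩
  · refine monotone_nat_of_le_succ ?_
    intro m
    rcases Nat.eq_zero_or_pos m with rfl | hm
    · simp [ht]
    · have h1 : (t m : ℝ≥0∞) ≤ (t (m + 1) : ℝ≥0∞) := by
        rw [← hts m hm, ← hts (m + 1) (by omega)]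
        refine ENNReal.tsum_le_tsum fun l => ?_
        exact_mod_cast fin_mono d hd hF hf E ℓ hℓ m hm (l + 1)
      exact_mod_cast h1
  · intro m L hL
    rcases Nat.eq_zero_or_pos m with rfl | hm
    · have : (t 0 : ℝ) = 0 := by simp [ht]
      rw [this]
      positivity
    · have h1 : (t m : ℝ) = ∑ l ∈ Finset.range (L0 m), (Module.finrank ℂ (E.Fl m (l + 1)) : ℝ) := by
        rw [ht]
        simp only
        rw [if_neg (by omega)]
        push_cast
        rfl
      have h2 : ∑ l ∈ Finset.Icc 1 L, (Module.finrank ℂ (E.Fl m l) : ℝ) =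
          ∑ l ∈ Finset.range L, (Module.finrank ℂ (E.Fl m (l + 1)) : ℝ) := by
        rw [Finset.range_eq_Ico,
          Finset.sum_Ico_add' (fun l => (Module.finrank ℂ (E.Fl m l) : ℝ)) 0 L 1]
        rfl
      rw [h1, h2]
      refine Finset.sum_le_sum_of_subset_of_nonneg ?_ fun _ _ _ => by positivity
      intro l hl
      rw [Finset.mem_range] at hl ⊢
      omega

/-- growth of the sums from a lower bound for the expected vanishing order -/
theorem fin_growth (S : ℝ) (hS0 : 0 < S)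
    (hS : ENNReal.ofReal S < E.Svol (n + k + 1 - ∑ i, d i)) (t : ℕ → ℕ) (ht : Monotone t)
    (hts : ∀ m, 1 ≤ m →
      ∑' l : ℕ, (Module.finrank ℂ (E.Fl m (l + 1)) : ℝ≥0∞) = (t m : ℝ≥0∞))
    (c : ℝ) (hc : c * (n.factorial * ((n + k + 1 - ∑ i, d i : ℕ) : ℝ)) <
      S * ((∏ i, d i : ℕ) : ℝ)) :
    ∀ᶠ m : ℕ in atTop, c * (m : ℝ) ^ (n + 1) ≤ t m := by
  set r : ℕ := n + k + 1 - ∑ i, d i with hr
  have hr1 : 1 ≤ r := by omega
  have hrR : (0 : ℝ) < r := by exact_mod_cast hr1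
  have hfac : (0 : ℝ) < n.factorial := by exact_mod_cast Nat.factorial_pos _
  set D : ℕ := ∏ i, d i with hD
  have hD1 : 1 ≤ D := Finset.one_le_prod' fun i _ => hd i
  have hDR : (0 : ℝ) < D := by exact_mod_cast hD1
  -- the volume of the polarisation
  have hhom : ∀ i, ∃ e, (f i).IsHomogeneous e := fun i => ⟨d i, hf.1 i⟩
  have hcard : (Finset.univ : Finset (Fin k)).card ≤ n + k + 1 := by
    rw [Finset.card_univ, Fintype.card_fin]; omega
  have hSec : ∀ m, (Module.finrank ℂ (Sec f m) : ℤ) = NN d (n + k + 1) Finset.univ m := by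
    intro m
    have h0 := hilb_pr d hd (n + k + 1) Finset.univ hcard ℂ f hf m
    rw [Finset.coe_univ, Set.image_univ] at h0
    have h1 := fb_sec f hhom m
    have h2 := finrank_hom_pr ℂ d (n + k + 1) m
    have h3 : (Module.finrank ℂ (Sec f m) : ℤ) + (Module.finrank ℂ (IM (Set.range f) m) : ℤ) =
      (Module.finrank ℂ (homogeneousSubmodule (Fin (n + k + 1)) ℂ m) : ℤ) := by exact_mod_cast h1
    rw [h2, h0] at h3
    linarith
  have hvol := vo_vol d r hr1 f hSec E
  -- lower bound along multiples of r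
  have h1 : ∀ᶠ M : ℕ in atTop, S * ((r ^ n * D : ℕ) : ℝ) * (M : ℝ) ^ (n + 1) ≤
      n.factorial * (t (r * M) : ℝ) := by
    have h2 : ENNReal.ofReal S * E.vol r 0 < ∫⁻ t in Set.Ioi (0 : ℝ), E.vol r t := by
      have h3 : ENNReal.ofReal S < (∫⁻ t in Set.Ioi (0 : ℝ), E.vol r t) / E.vol r 0 := hS
      rw [ENNReal.lt_div_iff_mul_lt] at h3
      · exact h3
      · right; exact ne_top_of_lt hS |> fun _ => ENNReal.ofReal_ne_top
      · right
        rw [Ne, ENNReal.ofReal_eq_zero, not_le]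
        exact hS0
    have h4 := h2.trans_le (fin_fatou E r)
    have h5 := eventually_lt_of_lt_liminf h4
    filter_upwards [h5, eventually_ge_atTop 1] with M h6 hM
    rw [hts (r * M) (Nat.one_le_iff_ne_zero.2 (by positivity)), hvol] at h6
    have hMR : (0 : ℝ) < M := by exact_mod_cast hM
    have h7 : ENNReal.ofReal (S * ((r ^ n * D : ℕ) : ℝ)) <
        ENNReal.ofReal (n.factorial * (t (r * M) : ℝ) / (M : ℝ) ^ (n + 1)) := by
      rw [ENNReal.ofReal_mul hS0.le, ENNReal.ofReal_natCast,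
        ENNReal.ofReal_div_of_pos (by positivity), ENNReal.ofReal_mul (by positivity),
        ENNReal.ofReal_natCast, ENNReal.ofReal_natCast, ENNReal.ofReal_pow (by positivity),
        ENNReal.ofReal_natCast]
      exact h6
    have h8 := (ENNReal.ofReal_lt_ofReal_iff_of_nonneg (by positivity)).1 h7
    rw [lt_div_iff₀ (by positivity)] at h8
    exact h8.le
  obtain ⟨M1, hM1⟩ := eventually_atTop.1 h1
  -- all m
  have h2 : ∀ m : ℕ, r * (M1 + 1) ≤ m →
      S * ((r ^ n * D : ℕ) : ℝ) / n.factorial * (((m : ℝ) - r) / r) ^ (n + 1) ≤ t m := by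
    intro m hm
    have h3 : M1 ≤ m / r := by
      rw [Nat.le_div_iff_mul_le hr1]
      nlinarith
    have h4 := hM1 (m / r) h3
    have h5 : (t (r * (m / r)) : ℝ) ≤ t m := by
      exact_mod_cast ht (Nat.mul_div_le m r)
    have h6 : ((m : ℝ) - r) / r ≤ ((m / r : ℕ) : ℝ) := by
      rw [div_le_iff₀ hrR]
      have h7 : m ≤ r * (m / r) + r := by
        have := Nat.div_add_mod m r
        have := Nat.mod_lt m hr1
        omega
      have h8 : (m : ℝ) ≤ r * ((m / r : ℕ) : ℝ) + r := by exact_mod_cast h7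
      linarith
    have h7 : 0 ≤ ((m : ℝ) - r) / r := by
      apply div_nonneg _ hrR.le
      have : r ≤ m := by nlinarith
      have : (r : ℝ) ≤ m := by exact_mod_cast this
      linarith
    calc S * ((r ^ n * D : ℕ) : ℝ) / n.factorial * (((m : ℝ) - r) / r) ^ (n + 1)
        ≤ S * ((r ^ n * D : ℕ) : ℝ) / n.factorial * ((m / r : ℕ) : ℝ) ^ (n + 1) := by
          gcongr
      _ = (S * ((r ^ n * D : ℕ) : ℝ) * ((m / r : ℕ) : ℝ) ^ (n + 1)) / n.factorial := by ring
      _ ≤ (n.factorial * (t (r * (m / r)) : ℝ)) / n.factorial := by gcongr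
      _ = t (r * (m / r)) := by field_simp
      _ ≤ t m := h5
  -- the limit
  have hlim : Tendsto (fun m : ℕ => S * ((r ^ n * D : ℕ) : ℝ) / n.factorial *
      ((((m : ℝ) - r) / r) / m) ^ (n + 1)) atTop
      (𝓝 (S * ((r ^ n * D : ℕ) : ℝ) / n.factorial * (1 / r) ^ (n + 1))) := by
    have h3 : Tendsto (fun m : ℕ => (((m : ℝ) - r) / r) / m) atTop (𝓝 (1 / r)) := by
      have h4 : Tendsto (fun m : ℕ => 1 / (r : ℝ) - 1 / (m : ℝ)) atTop (𝓝 (1 / r - 0)) :=
        tendsto_const_nhds.sub (tendsto_const_div_atTop_nhds_zero_nat 1)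
      rw [sub_zero] at h4
      refine h4.congr' ?_
      filter_upwards [eventually_gt_atTop 0] with m hm
      have : (m : ℝ) ≠ 0 := by exact_mod_cast hm.ne'
      field_simp
    exact (h3.pow (n + 1)).const_mul _
  have hval : c < S * ((r ^ n * D : ℕ) : ℝ) / n.factorial * (1 / r) ^ (n + 1) := by
    have h3 : S * ((r ^ n * D : ℕ) : ℝ) / n.factorial * (1 / r) ^ (n + 1) =
        S * D / (n.factorial * r) := by
      push_cast
      rw [one_div, inv_pow, pow_succ]
      field_simp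
    rw [h3, lt_div_iff₀ (by positivity)]
    exact hc
  filter_upwards [hlim.eventually (lt_mem_nhds hval), eventually_ge_atTop (r * (M1 + 1)),
    eventually_gt_atTop 0] with m h3 h4 h5
  have hm : (0 : ℝ) < m := by exact_mod_cast h5
  refine le_trans ?_ (h2 m h4)
  rw [div_pow _ (m : ℝ), ← mul_div_assoc, lt_div_iff₀ (by positivity)] at h3
  exact h3.le

end

end Pool.Agent.KSS
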