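import Pool.Agent.Lib_helper77.KSZ.XBase

/-!
# KSX, block ASY: asymptotics for `q → 1`
-/

namespace Pool.Agent.KSX

open MvPolynomial Pool.Agent.KSS Filter Topology

/-- geometric sums -/
theorem asy_geom (n : ℕ) (q : ℝ) : 1 - q ^ n = (1 - q) * ∑ k ∈ Finset.range n, q ^ k := by
  rw [mul_comm]
  exact (geom_sum_mul_neg q n).symm

theorem asy_geom_lim (n : ℕ) :
    Tendsto (fun q : ℝ => ∑ k ∈ Finset.range n, q ^ k) (𝓝[<] 1) (𝓝 (n : ℝ)) := by
  have h : Continuous (fun q : ℝ => ∑ k ∈ Finset.range n, q ^ k) := by fun_prop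
  have h1 : Tendsto (fun q : ℝ => ∑ k ∈ Finset.range n, q ^ k) (𝓝[<] 1)
      (𝓝 (∑ k ∈ Finset.range n, (1 : ℝ) ^ k)) := h.continuousAt.continuousWithinAt
  simpa using h1

theorem asy_ev : ∀ᶠ q : ℝ in 𝓝[<] 1, 0 < q ∧ q < 1 := by
  filter_upwards [Ioo_mem_nhdsLT (show (0 : ℝ) < 1 by norm_num)] with q hq
  exact hq

theorem asy_H_pr {p : ℕ} (d : Fin p → ℕ) (hd : ∀ i, 1 ≤ d i) (v : ℕ) (B : Finset (Fin p))
    (hB : B.card ≤ v) :
    Tendsto (fun q : ℝ => (1 - q) ^ (v - B.card) * Hq d v B q) (𝓝[<] 1)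
      (𝓝 (∏ i ∈ B, (d i : ℝ))) := by
  have h : Tendsto (fun q : ℝ => ∏ i ∈ B, ∑ k ∈ Finset.range (d i), q ^ k) (𝓝[<] 1)
      (𝓝 (∏ i ∈ B, (d i : ℝ))) := tendsto_finset_prod _ fun i _ => asy_geom_lim (d i)
  refine h.congr' ?_
  filter_upwards [asy_ev] with q hq
  have h1 : (1 - q) ≠ 0 := by linarith [hq.2]
  unfold Hq
  rw [Finset.prod_congr rfl (fun i _ => asy_geom (d i) q), Finset.prod_mul_distrib,
    Finset.prod_const]
  have h2 : (1 - q) ^ v = (1 - q) ^ (v - B.card) * (1 - q) ^ B.card := by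
    rw [← pow_add, Nat.sub_add_cancel hB]
  rw [h2]
  have h3 : (1 - q) ^ (v - B.card) ≠ 0 := pow_ne_zero _ h1
  have h4 : (1 - q) ^ B.card ≠ 0 := pow_ne_zero _ h1
  field_simp

/-- the second factor of `Wq` -/
theorem asy_fac {p : ℕ} (d : Fin p → ℕ) (hd : ∀ i, 1 ≤ d i) (v : ℕ) (B : Finset (Fin p)) :
    Tendsto (fun q : ℝ => (1 - q) *
      (v * q / (1 - q) - ∑ i ∈ B, (d i : ℝ) * q ^ (d i) / (1 - q ^ (d i)))) (𝓝[<] 1)
      (𝓝 ((v : ℝ) - B.card)) := by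
  have hid : Tendsto (fun q : ℝ => q) (𝓝[<] 1) (𝓝 1) :=
    (continuous_id.continuousAt.continuousWithinAt : ContinuousWithinAt _ _ _)
  have h : Tendsto (fun q : ℝ => (v : ℝ) * q - ∑ i ∈ B, (d i : ℝ) * q ^ (d i) /
      ∑ k ∈ Finset.range (d i), q ^ k) (𝓝[<] 1)
      (𝓝 ((v : ℝ) * 1 - ∑ i ∈ B, (d i : ℝ) * 1 ^ (d i) / (d i : ℝ))) := by
    apply Tendsto.sub (hid.const_mul _)
    apply tendsto_finset_sum
    intro i _
    apply Tendsto.div
    · exact (hid.pow _).const_mul _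
    · exact asy_geom_lim _
    · have := hd i
      positivity
  have h2 : (v : ℝ) * 1 - ∑ i ∈ B, (d i : ℝ) * 1 ^ (d i) / (d i : ℝ) = (v : ℝ) - B.card := by
    rw [Finset.sum_congr rfl (g := fun _ => (1 : ℝ))]
    · simp
    · intro i _
      have : (d i : ℝ) ≠ 0 := by have := hd i; positivity
      rw [one_pow, mul_one, div_self this]
  rw [h2] at h
  refine h.congr' ?_
  filter_upwards [asy_ev] with q hq
  have h1 : (1 - q) ≠ 0 := by linarith [hq.2]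
  rw [mul_sub, mul_div_cancel₀ _ h1, Finset.mul_sum]
  congr 1
  apply Finset.sum_congr rfl
  intro i _
  have h3 : ∑ k ∈ Finset.range (d i), q ^ k ≠ 0 := by
    have : 0 < ∑ k ∈ Finset.range (d i), q ^ k := by
      apply Finset.sum_pos
      · intro k _
        exact pow_pos hq.1 _
      · exact ⟨0, Finset.mem_range.2 (hd i)⟩
    exact this.ne'
  rw [asy_geom (d i) q]
  field_simp

theorem asy_W_pr {p : ℕ} (d : Fin p → ℕ) (hd : ∀ i, 1 ≤ d i) (v : ℕ) (B : Finset (Fin p))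
    (hB : B.card ≤ v) :
    Tendsto (fun q : ℝ => (1 - q) ^ (v - B.card + 1) * Wq d v B q) (𝓝[<] 1)
      (𝓝 (((v : ℝ) - B.card) * ∏ i ∈ B, (d i : ℝ))) := by
  have h := (asy_fac d hd v B).mul (asy_H_pr d hd v B hB)
  refine h.congr' (Eventually.of_forall fun q => ?_)
  simp only
  unfold Wq
  rw [pow_succ]
  ring

theorem asy_G_pr {p : ℕ} (d : Fin p → ℕ) (hd : ∀ i, 1 ≤ d i) (v : ℕ) (B : Finset (Fin p))
    (hB : B.card < v) (e : ℕ) (he : 1 ≤ e) :
    Tendsto (fun q : ℝ => q ^ e / (1 - q ^ e) * Hq d v B q / Wq d v B q) (𝓝[<] 1)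
      (𝓝 (1 / (e * ((v : ℝ) - B.card)))) := by
  have hid : Tendsto (fun q : ℝ => q) (𝓝[<] 1) (𝓝 1) :=
    (continuous_id.continuousAt.continuousWithinAt : ContinuousWithinAt _ _ _)
  have he' : (e : ℝ) ≠ 0 := by positivity
  have hv : (v : ℝ) - B.card ≠ 0 := by
    have : (B.card : ℝ) < v := by exact_mod_cast hB
    linarith
  have h : Tendsto (fun q : ℝ => (q ^ e / ∑ k ∈ Finset.range e, q ^ k) / ((1 - q) *
      (v * q / (1 - q) - ∑ i ∈ B, (d i : ℝ) * q ^ (d i) / (1 - q ^ (d i))))) (𝓝[<] 1)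
      (𝓝 ((1 ^ e / (e : ℝ)) / ((v : ℝ) - B.card))) := by
    apply Tendsto.div _ (asy_fac d hd v B) hv
    exact Tendsto.div (hid.pow e) (asy_geom_lim e) he'
  have h2 : (1 ^ e / (e : ℝ)) / ((v : ℝ) - B.card) = 1 / (e * ((v : ℝ) - B.card)) := by
    rw [one_pow, div_div]
  rw [h2] at h
  refine h.congr' ?_
  filter_upwards [asy_ev] with q hq
  have h1 : (1 - q) ≠ 0 := by linarith [hq.2]
  have hH : Hq d v B q ≠ 0 := by
    unfold Hq
    apply div_ne_zero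
    · apply Finset.prod_ne_zero_iff.2
      intro i _
      have : q ^ (d i) < 1 := pow_lt_one₀ hq.1.le hq.2 (by have := hd i; omega)
      linarith
    · exact pow_ne_zero _ h1
  unfold Wq
  rw [mul_comm (q ^ e / (1 - q ^ e)), mul_div_mul_left _ _ hH, asy_geom e q]
  rw [div_div, div_div]
  congr 1
  ring

alias asy_H := asy_H_pr

alias asy_W := asy_W_pr

alias asy_G := asy_G_pr

end Pool.Agent.KSX
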