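import Pool.Agent.Lib_helper77.KSZ.XBase

/-! # KSX, block SER: generating functions -/

set_option autoImplicit false

namespace Pool.Agent.KSX

open MvPolynomial Pool.Agent.KSS Filter Topology

/-- absolutely convergent power series with value `s` -/
def ser_P (F : PowerSeries ℤ) (q s : ℝ) : Prop :=
  Summable (fun n => ‖((PowerSeries.coeff n F : ℤ) : ℝ) * q ^ n‖) ∧
    HasSum (fun n => ((PowerSeries.coeff n F : ℤ) : ℝ) * q ^ n) s

theorem ser_mul {F G : PowerSeries ℤ} {q s t : ℝ} (hF : ser_P F q s) (hG : ser_P G q t) :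
    ser_P (F * G) q (s * t) := by
  have e : ∀ n, ((PowerSeries.coeff n (F * G) : ℤ) : ℝ) * q ^ n =
      ∑ kl ∈ Finset.HasAntidiagonal.antidiagonal n, (((PowerSeries.coeff kl.1 F : ℤ) : ℝ) * q ^ kl.1) *
        (((PowerSeries.coeff kl.2 G : ℤ) : ℝ) * q ^ kl.2) := by
    intro n
    rw [PowerSeries.coeff_mul]
    push_cast
    rw [Finset.sum_mul]
    apply Finset.sum_congr rfl
    intro kl hkl
    rw [Finset.HasAntidiagonal.mem_antidiagonal] at hkl
    rw [← hkl, pow_add]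
    ring
  have h1 := summable_norm_sum_mul_antidiagonal_of_summable_norm hF.1 hG.1
  have h2 := tsum_mul_tsum_eq_tsum_sum_antidiagonal_of_summable_norm hF.1 hG.1
  refine ⟨?_, ?_⟩
  · simp_rw [e]
    exact h1
  · simp_rw [e]
    rw [hF.2.tsum_eq, hG.2.tsum_eq] at h2
    rw [h2]
    exact h1.of_norm.hasSum

theorem ser_fin {F : PowerSeries ℤ} {q s : ℝ} (S : Finset ℕ)
    (h : ∀ n, n ∉ S → PowerSeries.coeff n F = 0)
    (hs : ∑ n ∈ S, ((PowerSeries.coeff n F : ℤ) : ℝ) * q ^ n = s) : ser_P F q s := by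
  refine ⟨?_, ?_⟩
  · apply summable_of_ne_finset_zero (s := S)
    intro n hn
    rw [h n hn]
    simp
  · rw [← hs]
    apply hasSum_sum_of_ne_finset_zero
    intro n hn
    rw [h n hn]
    simp

/-- the derivation `X d/dX` -/
noncomputable def ser_D (F : PowerSeries ℤ) : PowerSeries ℤ :=
  PowerSeries.mk fun n => (n : ℤ) * PowerSeries.coeff n F

theorem ser_D_mul (F G : PowerSeries ℤ) : ser_D (F * G) = ser_D F * G + F * ser_D G := by
  ext n
  rw [map_add, PowerSeries.coeff_mul, PowerSeries.coeff_mul]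
  unfold ser_D
  simp only [PowerSeries.coeff_mk]
  rw [PowerSeries.coeff_mul, Finset.mul_sum, ← Finset.sum_add_distrib]
  apply Finset.sum_congr rfl
  intro kl hkl
  rw [Finset.HasAntidiagonal.mem_antidiagonal] at hkl
  rw [← hkl]
  push_cast
  ring

/-- value `s` and logarithmic derivative `l` -/
def ser_L (F : PowerSeries ℤ) (q s l : ℝ) : Prop := ser_P F q s ∧ ser_P (ser_D F) q (s * l)

theorem ser_P_add {F G : PowerSeries ℤ} {q s t : ℝ} (hF : ser_P F q s) (hG : ser_P G q t) :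
    ser_P (F + G) q (s + t) := by
  have e : ∀ n, ((PowerSeries.coeff n (F + G) : ℤ) : ℝ) * q ^ n =
      ((PowerSeries.coeff n F : ℤ) : ℝ) * q ^ n + ((PowerSeries.coeff n G : ℤ) : ℝ) * q ^ n := by
    intro n
    rw [map_add]
    push_cast
    ring
  refine ⟨?_, ?_⟩
  · simp_rw [e]
    exact Summable.of_nonneg_of_le (fun n => norm_nonneg _) (fun n => norm_add_le _ _)
      (hF.1.add hG.1)
  · simp_rw [e]
    exact hF.2.add hG.2

theorem ser_L_mul {F G : PowerSeries ℤ} {q s t l m : ℝ} (hF : ser_L F q s l) (hG : ser_L G q t m) :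
    ser_L (F * G) q (s * t) (l + m) := by
  refine ⟨ser_mul hF.1 hG.1, ?_⟩
  rw [ser_D_mul]
  have h := ser_P_add (ser_mul hF.2 hG.1) (ser_mul hF.1 hG.2)
  have e : s * t * (l + m) = s * l * t + s * (t * m) := by ring
  rw [e]
  exact h

theorem ser_L_one (q : ℝ) : ser_L 1 q 1 0 := by
  refine ⟨?_, ?_⟩
  · apply ser_fin {0}
    · intro n hn
      rw [PowerSeries.coeff_one, if_neg (by simpa using hn)]
    · simp
  · apply ser_fin {0}
    · intro n hn
      unfold ser_D
      rw [PowerSeries.coeff_mk, PowerSeries.coeff_one, if_neg (by simpa using hn), mul_zero]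
    · unfold ser_D
      simp

theorem ser_L_sub {d : ℕ} (hd : 1 ≤ d) {q : ℝ} (hq0 : 0 ≤ q) (hq1 : q < 1) :
    ser_L (1 - (PowerSeries.X : PowerSeries ℤ) ^ d) q (1 - q ^ d)
      (-((d : ℝ) * q ^ d / (1 - q ^ d))) := by
  have hqd : q ^ d < 1 := pow_lt_one₀ hq0 hq1 (by omega)
  have hne : 1 - q ^ d ≠ 0 := by linarith
  have hd0 : (0 : ℕ) ≠ d := by omega
  have hd0' : d ≠ 0 := by omega
  refine ⟨?_, ?_⟩
  · apply ser_fin {0, d}
    · intro n hn
      simp only [Finset.mem_insert, Finset.mem_singleton, not_or] at hn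
      rw [map_sub, PowerSeries.coeff_one, PowerSeries.coeff_X_pow, if_neg hn.1, if_neg hn.2, sub_zero]
    · rw [Finset.sum_pair hd0]
      simp [PowerSeries.coeff_one, PowerSeries.coeff_X_pow, hd0, hd0']
      ring
  · apply ser_fin {0, d}
    · intro n hn
      simp only [Finset.mem_insert, Finset.mem_singleton, not_or] at hn
      unfold ser_D
      rw [PowerSeries.coeff_mk, map_sub, PowerSeries.coeff_one, PowerSeries.coeff_X_pow,
        if_neg hn.1, if_neg hn.2, sub_zero, mul_zero]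
    · rw [Finset.sum_pair hd0]
      unfold ser_D
      simp [PowerSeries.coeff_one, PowerSeries.coeff_X_pow, hd0, hd0']
      field_simp

theorem ser_L_inv1 {q : ℝ} (hq0 : 0 ≤ q) (hq1 : q < 1) :
    ser_L ((PowerSeries.invOneSubPow ℤ 1 : (PowerSeries ℤ)ˣ) : PowerSeries ℤ) q (1 / (1 - q))
      (q / (1 - q)) := by
  have hn : ‖q‖ < 1 := by rw [Real.norm_eq_abs, abs_of_nonneg hq0]; exact hq1
  have hne : 1 - q ≠ 0 := by linarith
  have hc : ∀ n, PowerSeries.coeff n ((PowerSeries.invOneSubPow ℤ 1 : (PowerSeries ℤ)ˣ) :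
      PowerSeries ℤ) = 1 := by
    intro n
    rw [PowerSeries.invOneSubPow_val_eq_mk_sub_one_add_choose_of_pos ℤ 1 one_pos,
      PowerSeries.coeff_mk]
    simp
  refine ⟨⟨?_, ?_⟩, ⟨?_, ?_⟩⟩
  · simp_rw [hc]
    have := (summable_geometric_of_norm_lt_one hn).norm
    simpa using this
  · simp_rw [hc]
    have := hasSum_geometric_of_norm_lt_one hn
    simpa using this
  · unfold ser_D
    simp_rw [PowerSeries.coeff_mk, hc]
    have := (hasSum_coe_mul_geometric_of_norm_lt_one hn).summable.norm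
    simpa using this
  · unfold ser_D
    simp_rw [PowerSeries.coeff_mk, hc]
    have := hasSum_coe_mul_geometric_of_norm_lt_one hn
    have e : 1 / (1 - q) * (q / (1 - q)) = q / (1 - q) ^ 2 := by field_simp
    rw [e]
    simpa using this

theorem ser_L_inv {q : ℝ} (hq0 : 0 ≤ q) (hq1 : q < 1) (v : ℕ) :
    ser_L ((PowerSeries.invOneSubPow ℤ v : (PowerSeries ℤ)ˣ) : PowerSeries ℤ) q
      (1 / (1 - q) ^ v) (v * q / (1 - q)) := by
  have hne : 1 - q ≠ 0 := by linarith
  induction v with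
  | zero =>
    have h := ser_L_one q
    rw [PowerSeries.invOneSubPow_zero]
    simpa using h
  | succ v ih =>
    have h := ser_L_mul ih (ser_L_inv1 hq0 hq1)
    rw [PowerSeries.invOneSubPow_add, Units.val_mul]
    have e1 : 1 / (1 - q) ^ (v + 1) = 1 / (1 - q) ^ v * (1 / (1 - q)) := by
      rw [pow_succ]
      field_simp
    have e2 : ((v + 1 : ℕ) : ℝ) * q / (1 - q) = v * q / (1 - q) + q / (1 - q) := by
      push_cast
      ring
    rw [e1, e2]
    exact h

theorem ser_L_prod {p : ℕ} (d : Fin p → ℕ) (hd : ∀ i, 1 ≤ d i) (B : Finset (Fin p)) {q : ℝ}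
    (hq0 : 0 ≤ q) (hq1 : q < 1) :
    ser_L (∏ i ∈ B, (1 - (PowerSeries.X : PowerSeries ℤ) ^ (d i))) q (∏ i ∈ B, (1 - q ^ (d i)))
      (∑ i ∈ B, -((d i : ℝ) * q ^ (d i) / (1 - q ^ (d i)))) := by
  classical
  induction B using Finset.induction_on with
  | empty => simpa using ser_L_one q
  | insert i B hi ih =>
    rw [Finset.prod_insert hi, Finset.prod_insert hi, Finset.sum_insert hi]
    exact ser_L_mul (ser_L_sub (hd i) hq0 hq1) ih

theorem ser_L_HS {p : ℕ} (d : Fin p → ℕ) (hd : ∀ i, 1 ≤ d i) (v : ℕ) (B : Finset (Fin p)) {q : ℝ}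
    (hq0 : 0 ≤ q) (hq1 : q < 1) :
    ser_L (HS d v B) q (Hq d v B q)
      (v * q / (1 - q) - ∑ i ∈ B, (d i : ℝ) * q ^ (d i) / (1 - q ^ (d i))) := by
  have h := ser_L_mul (ser_L_prod d hd B hq0 hq1) (ser_L_inv hq0 hq1 v)
  rw [mul_one_div] at h
  have e : ∑ i ∈ B, -((d i : ℝ) * q ^ (d i) / (1 - q ^ (d i))) + v * q / (1 - q) =
      v * q / (1 - q) - ∑ i ∈ B, (d i : ℝ) * q ^ (d i) / (1 - q ^ (d i)) := by
    rw [Finset.sum_neg_distrib]
    ring
  rw [e] at h
  exact h

theorem ser_H_pr {p : ℕ} (d : Fin p → ℕ) (hd : ∀ i, 1 ≤ d i) (v : ℕ) (B : Finset (Fin p)) (q : ℝ)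
    (hq0 : 0 ≤ q) (hq1 : q < 1) :
    HasSum (fun m : ℕ => (NN d v B m : ℝ) * q ^ m) (Hq d v B q) :=
  (ser_L_HS d hd v B hq0 hq1).1.2

theorem ser_W_pr {p : ℕ} (d : Fin p → ℕ) (hd : ∀ i, 1 ≤ d i) (v : ℕ) (B : Finset (Fin p)) (q : ℝ)
    (hq0 : 0 ≤ q) (hq1 : q < 1) :
    HasSum (fun m : ℕ => (m : ℝ) * (NN d v B m : ℝ) * q ^ m) (Wq d v B q) := by
  have h := (ser_L_HS d hd v B hq0 hq1).2.2
  unfold ser_D at h
  simp_rw [PowerSeries.coeff_mk] at h
  unfold Wq
  refine h.congr_fun ?_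
  intro m
  unfold NN
  push_cast
  rfl

theorem ser_P_E {e : ℕ} (he : 1 ≤ e) {q : ℝ} (hq0 : 0 ≤ q) (hq1 : q < 1) :
    ser_P (PowerSeries.mk fun n => if 0 < n ∧ e ∣ n then (1 : ℤ) else 0) q (q ^ e / (1 - q ^ e)) := by
  have hqe : q ^ e < 1 := pow_lt_one₀ hq0 hq1 (by omega)
  have hqe0 : 0 ≤ q ^ e := pow_nonneg hq0 e
  have hn : ‖q ^ e‖ < 1 := by rw [Real.norm_eq_abs, abs_of_nonneg hqe0]; exact hqe
  have hinj : Function.Injective (fun b : ℕ => e * (b + 1)) := by
    intro a b hab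
    simp only at hab
    have := Nat.eq_of_mul_eq_mul_left (by omega : 0 < e) hab
    omega
  have hs : HasSum (fun n => ((PowerSeries.coeff n (PowerSeries.mk fun n => if 0 < n ∧ e ∣ n
      then (1 : ℤ) else 0) : ℤ) : ℝ) * q ^ n) (q ^ e / (1 - q ^ e)) := by
    rw [← hinj.hasSum_iff]
    · have h1 := (hasSum_geometric_of_norm_lt_one hn).mul_left (q ^ e)
      rw [← div_eq_mul_inv] at h1
      refine h1.congr_fun ?_
      intro b
      simp only [Function.comp, PowerSeries.coeff_mk]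
      rw [if_pos ⟨by positivity, Dvd.intro _ rfl⟩, pow_mul, pow_succ]
      push_cast
      ring
    · intro n hn
      rw [PowerSeries.coeff_mk, if_neg]
      · simp
      · rintro ⟨h0, c, hc⟩
        apply hn
        refine ⟨c - 1, ?_⟩
        simp only
        have : 1 ≤ c := by
          rcases Nat.eq_zero_or_pos c with h | h
          · rw [h, mul_zero] at hc; omega
          · exact h
        rw [Nat.sub_add_cancel this, hc]
  refine ⟨?_, hs⟩
  refine hs.summable.congr ?_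
  intro n
  rw [Real.norm_eq_abs, abs_of_nonneg]
  apply mul_nonneg _ (pow_nonneg hq0 n)
  rw [PowerSeries.coeff_mk]
  split_ifs <;> simp

theorem ser_HSum {p : ℕ} (d : Fin p → ℕ) (v : ℕ) (B : Finset (Fin p)) {e : ℕ} (he : 1 ≤ e) (M : ℕ) :
    HSum d v B e M = PowerSeries.coeff M
      ((PowerSeries.mk fun n => if 0 < n ∧ e ∣ n then (1 : ℤ) else 0) * HS d v B) := by
  rw [PowerSeries.coeff_mul, Finset.Nat.sum_antidiagonal_eq_sum_range_succ_mk]
  unfold HSum
  simp_rw [PowerSeries.coeff_mk]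
  simp_rw [ite_mul, one_mul, zero_mul]
  rw [← Finset.sum_filter, ← Finset.sum_filter]
  apply Finset.sum_bij' (fun b _ => b * e) (fun n _ => n / e)
  · intro b hb
    simp only [Finset.mem_filter, Finset.mem_Icc, Finset.mem_range] at hb ⊢
    exact ⟨by omega, Nat.mul_pos (by omega) (by omega), Dvd.intro_left b rfl⟩
  · intro n hn
    simp only [Finset.mem_filter, Finset.mem_Icc, Finset.mem_range] at hn ⊢
    obtain ⟨h1, h2, c, hc⟩ := hn
    have h3 : n / e = c := by rw [hc]; exact Nat.mul_div_cancel_left c (by omega)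
    rw [h3]
    have h4 : 1 ≤ c := by
      rcases Nat.eq_zero_or_pos c with h | h
      · rw [h, mul_zero] at hc; omega
      · exact h
    have h5 : c ≤ e * c := Nat.le_mul_of_pos_left c (by omega)
    refine ⟨⟨h4, by omega⟩, ?_⟩
    rw [mul_comm, ← hc]; omega
  · intro b hb
    exact Nat.mul_div_cancel b (by omega)
  · intro n hn
    simp only [Finset.mem_filter, Finset.mem_range] at hn
    exact Nat.div_mul_cancel hn.2.2
  · intro b hb
    rfl

theorem ser_G_pr {p : ℕ} (d : Fin p → ℕ) (hd : ∀ i, 1 ≤ d i) (v : ℕ) (B : Finset (Fin p))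
    (e : ℕ) (he : 1 ≤ e) (q : ℝ) (hq0 : 0 ≤ q) (hq1 : q < 1) :
    HasSum (fun m : ℕ => (HSum d v B e m : ℝ) * q ^ m) (q ^ e / (1 - q ^ e) * Hq d v B q) := by
  have h := (ser_mul (ser_P_E he hq0 hq1) (ser_L_HS d hd v B hq0 hq1).1).2
  simp_rw [← ser_HSum d v B he] at h
  exact h

alias ser_H := ser_H_pr

alias ser_W := ser_W_pr

alias ser_G := ser_G_pr

end Pool.Agent.KSX
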