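import Pool.Agent.Lib_helper77.KSZ.XBase
import Pool.Agent.Lib_helper77.KSZ.XSER

/-!
# KSX block EXQ (helper26): the main estimate with exponential weights, for records
-/

namespace Pool.Agent.KSX

open MvPolynomial Pool.Agent.KSS Filter Topology

theorem exq_dvd {κ : Type} [Field κ] {L : ℕ} {f : PowerSeries κ} (h : ordL L f = L) :
    (PowerSeries.X : PowerSeries κ) ^ L ∣ f := by
  rw [PowerSeries.X_pow_dvd_iff]
  intro m hm
  refine PowerSeries.coeff_of_lt_order m ?_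
  have h1 : (L : ℕ∞) ≤ f.order := by
    by_contra hc
    rw [not_le] at hc
    have hne : f.order ≠ ⊤ := ne_top_of_lt hc
    unfold ordL at h
    rw [min_eq_right hc.le] at h
    have : ((f.order.toNat : ℕ) : ℕ∞) = f.order := ENat.natCast_toNat hne
    rw [h] at this
    rw [← this] at hc
    exact lt_irrefl _ hc
  exact lt_of_lt_of_le (by exact_mod_cast hm) h1

theorem exq_HSum_nonneg {p : ℕ} (d : Fin p → ℕ) (hd : ∀ i, 1 ≤ d i) (v : ℕ)
    (B : Finset (Fin p)) (hB : ∑ i ∈ B, d i ≤ v) (e m : ℕ) : 0 ≤ HSum d v B e m := by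
  unfold HSum
  refine Finset.sum_nonneg fun b _ => ?_
  split_ifs
  · exact nb_nonneg d hd v B hB _
  · exact le_refl _

theorem exq_sig {p v : ℕ} (d : Fin p → ℕ) (B : Finset (Fin p)) (R : Rec p) {k κ : Type}
    [Field k] [Field κ] [Algebra k κ] (x : Fin v → Fin R.L → κ)
    (hfil : ∀ m l, l ≤ R.L → Module.finrank k (Fil k x m l) = R.fil m l) (m : ℕ) :
    sigB k d B x m = R.sig d v B m := by
  unfold sigB Rec.sig
  refine Finset.sum_congr rfl fun l hl => ?_
  rw [hfil m l (Finset.mem_Icc.1 hl).2]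

/-- (EXQ) KSS with exponential weights, for records; from `SS_main`, `ser_W`, `ser_G` -/
theorem ss_exp_pr {p : ℕ} (d : Fin p → ℕ) (hd : ∀ i, 1 ≤ d i) (v : ℕ) (B : Finset (Fin p))
    (hB : ∑ i ∈ B, d i < v) (q : ℝ) (hq0 : 0 < q) (hq1 : q < 1) (M0 : ℕ) (a : Fin p → ℝ)
    (ha : ∀ i, 0 ≤ a i) (ρ : ℝ) (hρ : 0 ≤ ρ)
    (hdeg : ∑ i ∈ Bᶜ, a i * d i + ρ ≤ Ind d v B)
    (hβ : ∀ i ∈ Bᶜ, a i + ρ * (q ^ (d i) / (1 - q ^ (d i)) * Hq d v B q / Wq d v B q) ≤ 1)
    (R : Rec p) (hR : R.Of d v) (hRB : ∀ i ∈ B, R.g i = R.L) :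
    ∑ i ∈ Bᶜ, a i * R.g i + ρ * R.s d v B q M0 ≤ R.cd v B := by
  obtain ⟨k, _, _, G, κ, _, _, x, hG, hτ, hfil, hg, -⟩ := hR
  have hW := ser_W d hd v B q hq0.le hq1
  have hN0 : ∀ m, 0 ≤ (NN d v B m : ℝ) := fun m => by exact_mod_cast nb_nonneg d hd v B hB.le m
  have hW0 : 0 ≤ Wq d v B q := by
    refine hW.nonneg fun m => ?_
    have := hN0 m
    positivity
  have hν0 : 0 ≤ ρ / Wq d v B q := div_nonneg hρ hW0
  have hReg : Reg d v B M0 a (fun m => ρ / Wq d v B q * q ^ m) := by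
    refine ⟨ha, fun m => by positivity, ?_, ?_⟩
    · have h1 : ∑ m ∈ Finset.range (M0 + 1),
          ρ / Wq d v B q * q ^ m * ((m : ℝ) * (NN d v B m : ℝ)) ≤ ρ := by
        have h2 : ∑ m ∈ Finset.range (M0 + 1), (m : ℝ) * (NN d v B m : ℝ) * q ^ m
            ≤ Wq d v B q := by
          refine sum_le_hasSum _ (fun m _ => ?_) hW
          have := hN0 m
          positivity
        have h3 : ∑ m ∈ Finset.range (M0 + 1),
            ρ / Wq d v B q * q ^ m * ((m : ℝ) * (NN d v B m : ℝ))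
            = ρ / Wq d v B q * ∑ m ∈ Finset.range (M0 + 1), (m : ℝ) * (NN d v B m : ℝ) * q ^ m := by
          rw [Finset.mul_sum]
          refine Finset.sum_congr rfl fun m _ => ?_
          ring
        rw [h3]
        refine le_trans (mul_le_mul_of_nonneg_left h2 hν0) ?_
        rcases hW0.eq_or_lt with h0 | h0
        · rw [← h0]; simpa using hρ
        · rw [div_mul_cancel₀ _ h0.ne']
      unfold Ind at hdeg
      linarith
    · intro i hi
      have hG' := ser_G d hd v B (d i) (hd i) q hq0.le hq1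
      have h2 : ∑ m ∈ Finset.range (M0 + 1), (HSum d v B (d i) m : ℝ) * q ^ m
          ≤ q ^ (d i) / (1 - q ^ (d i)) * Hq d v B q := by
        refine sum_le_hasSum _ (fun m _ => ?_) hG'
        have : 0 ≤ (HSum d v B (d i) m : ℝ) := by
          exact_mod_cast exq_HSum_nonneg d hd v B hB.le (d i) m
        positivity
      have h3 : ∑ m ∈ Finset.range (M0 + 1),
          ρ / Wq d v B q * q ^ m * (HSum d v B (d i) m : ℝ)
          = ρ / Wq d v B q * ∑ m ∈ Finset.range (M0 + 1), (HSum d v B (d i) m : ℝ) * q ^ m := by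
        rw [Finset.mul_sum]
        refine Finset.sum_congr rfl fun m _ => ?_
        ring
      have h4 := hβ i hi
      have h5 := mul_le_mul_of_nonneg_left h2 hν0
      have h6 : ρ / Wq d v B q * (q ^ (d i) / (1 - q ^ (d i)) * Hq d v B q)
          = ρ * (q ^ (d i) / (1 - q ^ (d i)) * Hq d v B q / Wq d v B q) := by
        ring
      rw [h3]
      rw [h6] at h5
      linarith
  have key := SS_main d hd v B hB M0 a _ hReg k G hG κ R.L x
    (fun i hi => exq_dvd ((hg i).trans (hRB i hi)))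
  have e1 : ∑ i ∈ Bᶜ, a i * (ordL R.L (ev x (G i)) : ℝ) = ∑ i ∈ Bᶜ, a i * (R.g i : ℝ) := by
    refine Finset.sum_congr rfl fun i _ => ?_
    rw [hg i]
  have e2 : ∑ m ∈ Finset.range (M0 + 1), ρ / Wq d v B q * q ^ m * sigB k d B x m
      = ρ * R.s d v B q M0 := by
    unfold Rec.s Rec.Lam
    rw [Finset.sum_div, Finset.mul_sum]
    refine Finset.sum_congr rfl fun m _ => ?_
    rw [exq_sig d B R x hfil m]
    ring
  have e3 : ((v : ℝ) - B.card) * R.L - tauJ k x = R.cd v B := by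
    unfold Rec.cd
    rw [hτ]
  rw [e1, e3] at key
  have key' : ∑ i ∈ Bᶜ, a i * (R.g i : ℝ) +
      ∑ m ∈ Finset.range (M0 + 1), ρ / Wq d v B q * q ^ m * sigB k d B x m ≤ R.cd v B := key
  rw [e2] at key'
  exact key'

alias ss_exp := ss_exp_pr

end Pool.Agent.KSX
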