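import Pool.Agent.Lib_helper77.KSZ.Fin3
import Pool.Agent.Lib_helper77.KSZ.XASY
import Pool.Agent.Lib_helper77.KSZ.XEXQ

/-!
# KSS, final step: from relative strictness to K-stability
-/

namespace Pool.Agent.KSS

open MvPolynomial MeasureTheory Filter Pool.Agent.KSX
open scoped ENNReal Topology

variable {n k : ℕ}

/-- one divisor with `A < (1 + ε) S` gives a record with small defect -/
theorem fin_one (d : Fin k → ℕ) (hd : ∀ i, 1 ≤ d i) (hF : ∑ i, d i ≤ n + k)
    {f : Fin k → MvPolynomial (Fin (n + k + 1)) ℂ} (hf : Gen d f) (E : DivisorOver f n)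
    (ε : ℝ) (hε : 0 < ε)
    (h : (E.A : ℝ≥0∞) < ENNReal.ofReal (1 + ε) * E.Svol (n + k + 1 - ∑ i, d i)) (T : ℝ) :
    ∃ (R : Rec k) (q : ℝ) (M0 : ℕ), R.Of d (n + k + 1) ∧ (∀ i, R.g i = R.L) ∧ R.c0 = 0 ∧
      0 < q ∧ q < 1 ∧ 1 - q < ε ∧ T ≤ (1 - q) * M0 ∧
      0 < R.s d (n + k + 1) Finset.univ q M0 ∧
      T ≤ (1 - q) * R.L / R.s d (n + k + 1) Finset.univ q M0 ∧
      Ind d (n + k + 1) Finset.univ ≤
        R.cd (n + k + 1) Finset.univ / R.s d (n + k + 1) Finset.univ q M0 ∧
      R.cd (n + k + 1) Finset.univ / R.s d (n + k + 1) Finset.univ q M0 ≤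
        Ind d (n + k + 1) Finset.univ * (1 + 2 * ε) := by
  classical
  set r : ℕ := n + k + 1 - ∑ i, d i with hr
  have hr1 : 1 ≤ r := by omega
  have hrR : (0 : ℝ) < r := by exact_mod_cast hr1
  have hInd : Ind d (n + k + 1) Finset.univ = r := by
    unfold Ind
    have h1 : r + ∑ i, d i = n + k + 1 := by omega
    have h2 : (r : ℝ) + ∑ i, (d i : ℝ) = ((n + k + 1 : ℕ) : ℝ) := by exact_mod_cast h1
    linarith
  -- the log discrepancy is finite
  have hne : E.A ≠ ⊤ := by
    intro htop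
    rw [htop] at h
    exact absurd h (by simp)
  have hA1 : 1 ≤ E.A := by
    have : E.A = 1 + (letI : Algebra (Chart f E.j) E.O := E.φ.toRingHom.toAlgebra
      Module.length E.O (Ω[E.O⁄Chart f E.j])) := rfl
    rw [this]
    exact self_le_add_right _ _
  obtain ⟨ℓ, hℓ⟩ : ∃ ℓ : ℕ, E.A = 1 + ℓ := by
    obtain ⟨a, ha⟩ := ENat.ne_top_iff_exists.1 hne
    rw [← ha] at hA1 ⊢
    have h1 : 1 ≤ a := by exact_mod_cast hA1
    exact ⟨a - 1, by norm_cast; omega⟩
  set a : ℝ := 1 + ℓ with ha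
  have ha0 : 0 < a := by rw [ha]; positivity
  -- lower bound for S
  set S : ℝ := a / (1 + ε) with hS
  have hS0 : 0 < S := by rw [hS]; positivity
  have hSS : ENNReal.ofReal S < E.Svol r := by
    have h1 : (E.A : ℝ≥0∞) = ENNReal.ofReal a := by
      rw [hℓ, ha, ENNReal.ofReal_add (by norm_num) (by positivity), ENNReal.ofReal_one,
        ENNReal.ofReal_natCast]
      simp
    rw [h1] at h
    rw [hS, ENNReal.ofReal_div_of_pos (by positivity)]
    rw [mul_comm] at h
    exact ENNReal.div_lt_of_lt_mul h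
  obtain ⟨t, L0, htm, hts, htL⟩ := fin_sums d hd hF hf E ℓ hℓ
  set D : ℕ := ∏ i, d i with hD
  have hD1 : 1 ≤ D := Finset.one_le_prod' fun i _ => hd i
  have hDR : (0 : ℝ) < D := by exact_mod_cast hD1
  have hfac : (0 : ℝ) < n.factorial := by exact_mod_cast Nat.factorial_pos _
  have hnR : (0 : ℝ) < (n : ℝ) + 1 := by positivity
  -- the constants
  set θ : ℝ := a / (r * (1 + 2 * ε)) with hθ
  have hθ0 : 0 < θ := by rw [hθ]; positivity
  have hθS : θ < S / r := by
    rw [hθ, hS, div_div]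
    apply div_lt_div_of_pos_left ha0 (by positivity)
    nlinarith
  obtain ⟨c1, hc1, hc1'⟩ := exists_between hθS
  obtain ⟨c2, hc2, hc2'⟩ := exists_between hc1'
  have hc10 : 0 < c1 := hθ0.trans hc1
  have hc20 : 0 < c2 := hc10.trans hc2
  -- growth
  have hgr := fin_growth d hd hF hf E ℓ hℓ S hS0 hSS t htm hts (c2 * D / n.factorial) (by
    rw [← hr, ← hD]
    have h1 : c2 * (D : ℝ) / n.factorial * (n.factorial * (r : ℝ)) = c2 * r * D := by
      field_simp
    rw [h1]
    have h2 : c2 * r < S := (lt_div_iff₀ hrR).1 hc2'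
    exact mul_lt_mul_of_pos_right h2 hDR)
  have hab := Pool.Agent.KSF.fin_abel n (fun m => (t m : ℝ)) (fun m => by positivity) (c2 * D / n.factorial)
    (by positivity) hgr (c1 * ((n + 1) * D)) (by
      rw [Nat.factorial_succ]
      push_cast
      have h1 : c2 * (D : ℝ) / n.factorial * (((n : ℝ) + 1) * n.factorial) =
        c2 * ((n + 1) * D) := by field_simp
      rw [h1]
      exact mul_lt_mul_of_pos_right hc2 (by positivity))
  -- the denominator
  have hcardk : (Finset.univ : Finset (Fin k)).card ≤ n + k + 1 := by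
    rw [Finset.card_univ, Fintype.card_fin]; omega
  have hW := asy_W d hd (n + k + 1) Finset.univ hcardk
  have hexp : n + k + 1 - (Finset.univ : Finset (Fin k)).card + 1 = n + 2 := by
    rw [Finset.card_univ, Fintype.card_fin]; omega
  have hWlim : (((n + k + 1 : ℕ) : ℝ) - (Finset.univ : Finset (Fin k)).card) *
      ∏ i, (d i : ℝ) = (n + 1) * D := by
    rw [Finset.card_univ, Fintype.card_fin, hD]
    push_cast
    ring
  rw [hexp, hWlim] at hW
  have hW1 : ∀ᶠ q : ℝ in 𝓝[<] 1, (1 - q) ^ (n + 2) * Wq d (n + k + 1) Finset.univ q <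
      c1 / θ * ((n + 1) * D) := by
    apply hW.eventually (gt_mem_nhds _)
    have : 1 < c1 / θ := by rw [lt_div_iff₀ hθ0]; linarith
    nlinarith [mul_pos hnR hDR]
  have hW0 : ∀ᶠ q : ℝ in 𝓝[<] 1, 0 < (1 - q) ^ (n + 2) * Wq d (n + k + 1) Finset.univ q :=
    hW.eventually (lt_mem_nhds (by positivity))
  have hq1 : ∀ᶠ q : ℝ in 𝓝[<] 1, q < 1 := self_mem_nhdsWithin
  have hq0 : ∀ᶠ q : ℝ in 𝓝[<] 1, 0 < q :=
    nhdsWithin_le_nhds (Ioi_mem_nhds (show (0 : ℝ) < 1 by norm_num))
  have hqε : ∀ᶠ q : ℝ in 𝓝[<] 1, 1 - ε < q :=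
    nhdsWithin_le_nhds (Ioi_mem_nhds (show 1 - ε < (1 : ℝ) by linarith))
  obtain ⟨q, h1, h2, h3, h4, h5, h6⟩ :=
    (hab.and (hW1.and (hW0.and (hq1.and (hq0.and hqε))))).exists
  have hpos : 0 < 1 - q := by linarith
  have hWpos : 0 < Wq d (n + k + 1) Finset.univ q := by
    by_contra hcon
    push Not at hcon
    have : (1 - q) ^ (n + 2) * Wq d (n + k + 1) Finset.univ q ≤ 0 :=
      mul_nonpos_of_nonneg_of_nonpos (by positivity) hcon
    linarith
  have hM : ∀ᶠ M0 : ℕ in atTop, T ≤ (1 - q) * (M0 : ℝ) := by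
    have : Tendsto (fun M0 : ℕ => (1 - q) * (M0 : ℝ)) atTop atTop :=
      tendsto_natCast_atTop_atTop.const_mul_atTop hpos
    exact this.eventually_ge_atTop T
  obtain ⟨M0, h7, h8⟩ := (h1.and hM).exists
  -- the level
  obtain ⟨L1, hL1⟩ := exists_nat_ge (T * a / (r * (1 - q)))
  set L : ℕ := (∑ m ∈ Finset.range (M0 + 1), L0 m) + L1 + 1 with hL
  obtain ⟨R, hRof, hRL, hRg, hRc, hRcd, hRfil⟩ := fin_rec d hd hF hf E ℓ hℓ L (by omega)
  have hLam : ∑ m ∈ Finset.range (M0 + 1), q ^ m * (t m : ℝ) ≤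
      R.Lam d (n + k + 1) Finset.univ q M0 := by
    unfold Rec.Lam
    refine Finset.sum_le_sum fun m hm => ?_
    have h9 : (t m : ℝ) ≤ R.sig d (n + k + 1) Finset.univ m := by
      have h10 : L0 m ≤ R.L := by
        rw [hRL, hL]
        have := Finset.single_le_sum (f := L0) (fun i _ => Nat.zero_le _) hm
        omega
      refine (htL m R.L h10).trans ?_
      unfold Rec.sig
      refine Finset.sum_le_sum fun l hl => ?_
      rw [Finset.mem_Icc] at hl
      exact hRfil m l hl.1 (hRL ▸ hl.2)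
    have : 0 ≤ q ^ m := by positivity
    gcongr
  have hcdR : R.cd (n + k + 1) Finset.univ ≤ a := hRcd
  -- the slope
  set s : ℝ := R.s d (n + k + 1) Finset.univ q M0 with hs
  have hsθ : θ < s := by
    have h9 : c1 * ((n + 1) * D) ≤ (1 - q) ^ (n + 2) * R.Lam d (n + k + 1) Finset.univ q M0 :=
      h7.trans (by gcongr)
    rw [hs]
    unfold Rec.s
    rw [lt_div_iff₀ hWpos]
    have h10 : θ * ((1 - q) ^ (n + 2) * Wq d (n + k + 1) Finset.univ q) <
        c1 * ((n + 1) * D) := by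
      calc θ * ((1 - q) ^ (n + 2) * Wq d (n + k + 1) Finset.univ q)
          < θ * (c1 / θ * ((n + 1) * D)) := by gcongr
        _ = c1 * ((n + 1) * D) := by field_simp
    have h11 : (1 - q) ^ (n + 2) * (θ * Wq d (n + k + 1) Finset.univ q) <
        (1 - q) ^ (n + 2) * R.Lam d (n + k + 1) Finset.univ q M0 := by
      calc _ = θ * ((1 - q) ^ (n + 2) * Wq d (n + k + 1) Finset.univ q) := by ring
        _ < _ := h10.trans_le h9
    exact lt_of_mul_lt_mul_left h11 (by positivity)
  have hs0 : 0 < s := hθ0.trans hsθ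
  have hBsum : ∑ i ∈ (Finset.univ : Finset (Fin k)), d i < n + k + 1 := by omega
  have hKSS : (r : ℝ) * s ≤ R.cd (n + k + 1) Finset.univ := by
    have h9 := ss_exp d hd (n + k + 1) Finset.univ hBsum q h5 h4 M0 (fun _ => 0)
      (fun _ => le_rfl) r hrR.le (by rw [hInd]; simp) (by simp) R hRof (fun i _ => hRg i)
    simpa using h9
  refine ⟨R, q, M0, hRof, hRg, hRc, h5, h4, by linarith, h8, hs0, ?_, ?_, ?_⟩
  · rw [le_div_iff₀ hs0]
    have h9 : s ≤ a / r := by
      rw [le_div_iff₀ hrR]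
      linarith
    rcases le_total T 0 with hT | hT
    · have : T * s ≤ 0 := mul_nonpos_of_nonpos_of_nonneg hT hs0.le
      have : (0 : ℝ) ≤ (1 - q) * R.L := by positivity
      linarith
    · have h10 : T * s ≤ T * (a / r) := by gcongr
      have h11 : (L1 : ℝ) ≤ R.L := by
        rw [hRL, hL]
        push_cast
        have : (0 : ℝ) ≤ ∑ m ∈ Finset.range (M0 + 1), (L0 m : ℝ) := by positivity
        linarith
      have h12 : T * a / (r * (1 - q)) ≤ R.L := hL1.trans h11
      rw [div_le_iff₀ (by positivity)] at h12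
      have h13 : T * (a / r) = T * a / r := by ring
      rw [h13] at h10
      have h14 : T * a / r ≤ (1 - q) * R.L := by
        rw [div_le_iff₀ hrR]
        linarith
      linarith
  · rw [hInd, le_div_iff₀ hs0]
    exact hKSS
  · rw [hInd, div_le_iff₀ hs0]
    have h9 : a ≤ r * (1 + 2 * ε) * s := by
      have h10 : a = r * (1 + 2 * ε) * θ := by
        rw [hθ]; field_simp
      rw [h10]
      gcongr
    linarith

/-- K-stability from relative strictness -/
theorem fin_main (d : Fin k → ℕ) (hd : ∀ i, 1 ≤ d i) (hF : ∑ i, d i ≤ n + k)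
    (hP : Pst d (n + k + 1) Finset.univ ∅) :
    ∃ ε : ℝ, 0 < ε ∧ ∀ f : Fin k → MvPolynomial (Fin (n + k + 1)) ℂ, Gen d f →
      ∀ E : DivisorOver f n,
        ENNReal.ofReal (1 + ε) * E.Svol (n + k + 1 - ∑ i, d i) ≤ (E.A : ℝ≥0∞) := by
  by_contra hcon
  push Not at hcon
  have hstep : ∀ i : ℕ, ∃ (R : Rec k) (q : ℝ) (M0 : ℕ), R.Of d (n + k + 1) ∧
      (∀ i, R.g i = R.L) ∧ R.c0 = 0 ∧
      0 < q ∧ q < 1 ∧ 1 - q < 1 / ((i : ℝ) + 1) ∧ (i : ℝ) ≤ (1 - q) * M0 ∧
      0 < R.s d (n + k + 1) Finset.univ q M0 ∧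
      (i : ℝ) ≤ (1 - q) * R.L / R.s d (n + k + 1) Finset.univ q M0 ∧
      Ind d (n + k + 1) Finset.univ ≤
        R.cd (n + k + 1) Finset.univ / R.s d (n + k + 1) Finset.univ q M0 ∧
      R.cd (n + k + 1) Finset.univ / R.s d (n + k + 1) Finset.univ q M0 ≤
        Ind d (n + k + 1) Finset.univ * (1 + 2 * (1 / ((i : ℝ) + 1))) := by
    intro i
    have hpos : (0 : ℝ) < 1 / ((i : ℝ) + 1) := by positivity
    obtain ⟨f, hf, E, hE⟩ := hcon (1 / ((i : ℝ) + 1)) hpos
    exact fin_one d hd hF hf E _ hpos hE i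
  choose R q M0 h1 h2 h3 h4 h5 h6 h7 h8 h9 h10 h11 using hstep
  set U : Ultrafilter ℕ := Filter.hyperfilter ℕ with hU
  have hUle : (U : Filter ℕ) ≤ atTop := by
    rw [hU, ← Nat.cofinite_eq_atTop]
    exact Filter.hyperfilter_le_cofinite
  have hinv : Tendsto (fun i : ℕ => 1 / ((i : ℝ) + 1)) atTop (𝓝 0) :=
    tendsto_one_div_add_atTop_nhds_zero_nat
  have hNE : NE d (n + k + 1) Finset.univ ∅ U R q M0 :=
    { of := Eventually.of_forall h1
      gB := Eventually.of_forall fun i j _ => h2 i j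
      q01 := Eventually.of_forall fun i => ⟨h4 i, h5 i⟩
      qlim := by
        have h12 : Tendsto q atTop (𝓝 1) := by
          have h13 : Tendsto (fun i : ℕ => 1 - 1 / ((i : ℝ) + 1)) atTop (𝓝 (1 - 0)) :=
            tendsto_const_nhds.sub hinv
          rw [sub_zero] at h13
          refine tendsto_of_tendsto_of_tendsto_of_le_of_le h13 tendsto_const_nhds
            (fun i => ?_) (fun i => (h5 i).le)
          have := h6 i
          simp only
          linarith
        exact h12.mono_left hUle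
      M0lim := (tendsto_atTop_mono h7 tendsto_natCast_atTop_atTop).mono_left hUle
      spos := Eventually.of_forall h8
      Llim := (tendsto_atTop_mono h9 tendsto_natCast_atTop_atTop).mono_left hUle
      cdlim := by
        have h12 : Tendsto (fun i : ℕ => Ind d (n + k + 1) Finset.univ *
            (1 + 2 * (1 / ((i : ℝ) + 1)))) atTop
            (𝓝 (Ind d (n + k + 1) Finset.univ * (1 + 2 * 0))) :=
          ((hinv.const_mul 2).const_add 1).const_mul _
        rw [mul_zero, add_zero, mul_one] at h12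
        exact (tendsto_of_tendsto_of_tendsto_of_le_of_le tendsto_const_nhds h12 h10
          h11).mono_left hUle
      glim := by simp }
  have hlim := hP ℕ U R q M0 hNE
  have hzero : (fun i => ((R i).c0 : ℝ) / sn d (n + k + 1) Finset.univ R q M0 i) =
      fun _ => (0 : ℝ) := by
    funext i
    rw [h3 i]
    simp
  rw [hzero] at hlim
  have := tendsto_nhds_unique hlim tendsto_const_nhds
  norm_num at this

end Pool.Agent.KSS
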