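import Pool.Agent.Lib_helper77.KSS.Final

/-!
# Uniform K-stability of complete intersections: the statement
-/

namespace Pool.Agent.KSS

open MvPolynomial
open scoped ENNReal

variable {N k n : ℕ}

/-- The expected vanishing order
`S(E) = (1 / (-K_X)^n) ∫_0^∞ vol(-K_X - t E) dt` of a divisor `E` over a complete intersection
`X ⊂ ℙ^{n+k}` of degrees `d_1, …, d_k`, where `-K_X = 𝒪(r)`, `r = n + k + 1 - ∑ d_i`, and
`(-K_X)^n = r^n d_1 ⋯ d_k`. -/
noncomputable def ExpVan (d : Fin k → ℕ) {f : Fin k → MvPolynomial (Fin N) ℂ}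
    (E : DivisorOver f n) : ℝ≥0∞ :=
  (∫⁻ t in Set.Ioi (0 : ℝ), E.vol (n + k + 1 - ∑ i, d i) t) /
    (((n + k + 1 - ∑ i, d i) ^ n * ∏ i, d i : ℕ) : ℝ≥0∞)

end Pool.Agent.KSS
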