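import Pool.Agent.Lib_helper77.KSZ.XBase

/-!
# Block GLQ: generic rational coordinates
-/

namespace Pool.Agent.KSX

open MvPolynomial Pool.Agent.KSS Filter Topology

/-- linear substitution by a rational matrix -/
noncomputable def glq_sub {v : ℕ} (k : Type) [Field k] (h : Matrix (Fin v) (Fin v) ℚ) :
    MvPolynomial (Fin v) k →ₐ[k] MvPolynomial (Fin v) k :=
  aeval (fun q => ∑ q', C ((h q q' : ℚ) : k) * X q')

/-- linear change of a jet by a rational matrix -/
noncomputable def glq_x {v L : ℕ} {κ : Type} [Field κ] (h : Matrix (Fin v) (Fin v) ℚ)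
    (x : Fin v → Fin L → κ) : Fin v → Fin L → κ :=
  fun q μ => ∑ q', ((h q q' : ℚ) : κ) * x q' μ

theorem glq_aeval {v : ℕ} {k A : Type} [Field k] [CommRing A] [Algebra k A]
    (h : Matrix (Fin v) (Fin v) ℚ) (y : Fin v → A) (F : MvPolynomial (Fin v) k) :
    aeval y (glq_sub k h F) = aeval (fun q => ∑ q', algebraMap k A ((h q q' : ℚ) : k) * y q') F := by
  unfold glq_sub
  rw [← AlgHom.comp_apply]
  congr 1
  apply MvPolynomial.algHom_ext
  intro q
  rw [AlgHom.comp_apply, aeval_X, aeval_X, map_sum]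
  simp only [map_mul, aeval_C, aeval_X]

theorem glq_comp {v : ℕ} {k : Type} [Field k] [CharZero k] (h g : Matrix (Fin v) (Fin v) ℚ)
    (F : MvPolynomial (Fin v) k) : glq_sub k h (glq_sub k g F) = glq_sub k (g * h) F := by
  have h1 : (glq_sub k h).comp (glq_sub k g) = glq_sub k (g * h) := by
    apply MvPolynomial.algHom_ext
    intro q
    rw [AlgHom.comp_apply]
    have h2 : glq_sub k g (X q) = ∑ q', C ((g q q' : ℚ) : k) * X q' := by
      unfold glq_sub
      rw [aeval_X]
    have h3 : glq_sub k (g * h) (X q) = ∑ q', C (((g * h) q q' : ℚ) : k) * X q' := by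
      unfold glq_sub
      rw [aeval_X]
    rw [h2, h3, map_sum]
    have h4 : ∀ q', glq_sub k h (C ((g q q' : ℚ) : k) * X q') =
        ∑ q'', C ((g q q' : ℚ) : k) * (C ((h q' q'' : ℚ) : k) * X q'') := by
      intro q'
      have h5 : glq_sub k h (C ((g q q' : ℚ) : k)) = C ((g q q' : ℚ) : k) := by
        unfold glq_sub
        rw [aeval_C, MvPolynomial.algebraMap_eq]
      have h6 : glq_sub k h (X q') = ∑ q'', C ((h q' q'' : ℚ) : k) * X q'' := by
        unfold glq_sub
        rw [aeval_X]
      rw [map_mul, h5, h6, Finset.mul_sum]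
    rw [Finset.sum_congr rfl (fun q' _ => h4 q')]
    rw [Finset.sum_comm]
    apply Finset.sum_congr rfl
    intro q' _
    rw [Matrix.mul_apply]
    push_cast
    rw [map_sum, Finset.sum_mul]
    apply Finset.sum_congr rfl
    intro q'' _
    rw [C_mul, mul_assoc]
  rw [← h1, AlgHom.comp_apply]

theorem glq_one {v : ℕ} {k : Type} [Field k] [CharZero k] (F : MvPolynomial (Fin v) k) :
    glq_sub k 1 F = F := by
  have h1 : glq_sub (v := v) k 1 = AlgHom.id k _ := by
    apply MvPolynomial.algHom_ext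
    intro q
    unfold glq_sub
    rw [aeval_X, AlgHom.id_apply, Finset.sum_eq_single q]
    · simp
    · intro q' _ hq
      rw [Matrix.one_apply_ne hq.symm]
      simp
    · intro hq
      exact absurd (Finset.mem_univ q) hq
  rw [h1, AlgHom.id_apply]

theorem glq_homog {v : ℕ} {k : Type} [Field k] (h : Matrix (Fin v) (Fin v) ℚ)
    {F : MvPolynomial (Fin v) k} {n : ℕ} (hF : F.IsHomogeneous n) :
    (glq_sub k h F).IsHomogeneous n := by
  have h1 := hF.aeval (τ := Fin v) (fun q => ∑ q', C ((h q q' : ℚ) : k) * X q') (n := 1) (by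
    intro q
    apply IsHomogeneous.sum
    intro q' _
    have := (isHomogeneous_C (Fin v) ((h q q' : ℚ) : k)).mul (isHomogeneous_X k q')
    simpa using this)
  rw [one_mul] at h1
  exact h1

theorem glq_arc {v L : ℕ} {κ : Type} [Field κ] (h : Matrix (Fin v) (Fin v) ℚ)
    (x : Fin v → Fin L → κ) (q : Fin v) :
    arc (glq_x h x q) = ∑ q', PowerSeries.C ((h q q' : ℚ) : κ) * arc (x q') := by
  ext n
  rw [map_sum]
  simp only [PowerSeries.coeff_C_mul]
  unfold arc glq_x
  simp only [PowerSeries.coeff_mk]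
  split_ifs with hn
  · rfl
  · simp

theorem glq_x_comp {v L : ℕ} {κ : Type} [Field κ] [CharZero κ] (h g : Matrix (Fin v) (Fin v) ℚ)
    (x : Fin v → Fin L → κ) : glq_x h (glq_x g x) = glq_x (h * g) x := by
  funext q μ
  unfold glq_x
  simp only [Finset.mul_sum]
  rw [Finset.sum_comm]
  apply Finset.sum_congr rfl
  intro q' _
  rw [Matrix.mul_apply]
  push_cast
  rw [Finset.sum_mul]
  apply Finset.sum_congr rfl
  intro q'' _
  ring

theorem glq_x_one {v L : ℕ} {κ : Type} [Field κ] (x : Fin v → Fin L → κ) :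
    glq_x 1 x = x := by
  funext q μ
  unfold glq_x
  rw [Finset.sum_eq_single q]
  · simp
  · intro q' _ hq
    rw [Matrix.one_apply_ne hq.symm]
    simp
  · intro hq
    exact absurd (Finset.mem_univ q) hq

theorem glq_ev {v L : ℕ} {k κ : Type} [Field k] [Field κ] [Algebra k κ]
    (h : Matrix (Fin v) (Fin v) ℚ) (x : Fin v → Fin L → κ) (F : MvPolynomial (Fin v) k) :
    ev x (glq_sub k h F) = ev (glq_x h x) F := by
  unfold ev
  rw [glq_aeval]
  congr 2
  funext q
  rw [glq_arc]
  apply Finset.sum_congr rfl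
  intro q' _
  rw [PowerSeries.algebraMap_apply, map_ratCast]

theorem glq_lead {v L : ℕ} {κ : Type} [Field κ] (h : Matrix (Fin v) (Fin v) ℚ)
    (x : Fin v → Fin L → κ) (c : ℕ) (q : Fin v) :
    lead (glq_x h x) c q = ∑ q', ((h q q' : ℚ) : κ) * lead x c q' := by
  unfold lead
  rw [glq_arc, map_sum]
  simp only [PowerSeries.coeff_C_mul]

theorem glq_pderiv {v : ℕ} {k : Type} [Field k] (h : Matrix (Fin v) (Fin v) ℚ) (q : Fin v)
    (F : MvPolynomial (Fin v) k) :
    pderiv q (glq_sub k h F) = ∑ q', C ((h q' q : ℚ) : k) * glq_sub k h (pderiv q' F) := by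
  induction F using MvPolynomial.induction_on with
  | C a => simp [glq_sub]
  | add p r hp hr =>
    rw [map_add, map_add, hp, hr, ← Finset.sum_add_distrib]
    apply Finset.sum_congr rfl
    intro q' _
    rw [map_add, map_add, mul_add]
  | mul_X p n hp =>
    rw [map_mul, Derivation.leibniz, hp]
    have h1 : pderiv q (glq_sub k h (X n)) = C ((h n q : ℚ) : k) := by
      unfold glq_sub
      rw [aeval_X, map_sum, Finset.sum_eq_single q]
      · rw [pderiv_C_mul, pderiv_X_self, mul_one]
      · intro q' _ hq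
        rw [pderiv_C_mul, pderiv_X_of_ne hq, mul_zero]
      · intro hq
        exact absurd (Finset.mem_univ q) hq
    rw [h1]
    simp only [Derivation.leibniz, smul_eq_mul, map_add, map_mul]
    simp only [mul_add, Finset.sum_add_distrib]
    congr 1
    · rw [Finset.sum_eq_single n]
      · rw [pderiv_X_self, map_one]
        ring
      · intro q' _ hq
        rw [pderiv_X_of_ne (Ne.symm hq), map_zero]
        ring
      · intro hq
        exact absurd (Finset.mem_univ n) hq
    · rw [Finset.mul_sum]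
      apply Finset.sum_congr rfl
      intro q' _
      ring

theorem glq_grad {p v L : ℕ} {k κ : Type} [Field k] [CharZero k] [Field κ] [Algebra k κ]
    (G : Fin p → MvPolynomial (Fin v) k) (h g : Matrix (Fin v) (Fin v) ℚ) (hg : h * g = 1)
    (x : Fin v → Fin L → κ) (i : Fin p) (q : Fin v) :
    grad (fun i => glq_sub k h (G i)) (lead (glq_x g x) 0) i q =
      ∑ q', grad G (lead x 0) i q' * ((h q' q : ℚ) : κ) := by
  have : CharZero κ := charZero_of_injective_algebraMap (algebraMap k κ).injective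
  unfold grad
  rw [glq_pderiv, map_sum]
  apply Finset.sum_congr rfl
  intro q' _
  rw [map_mul, aeval_C, map_ratCast, mul_comm, glq_aeval]
  congr 3
  funext r
  have h1 := glq_lead h (glq_x g x) 0 r
  rw [glq_x_comp, hg, glq_x_one] at h1
  rw [h1]
  simp only [map_ratCast]

theorem glq_ordL {κ : Type} [Field κ] {L c : ℕ} (hc : c ≤ L) (f : PowerSeries κ) :
    c ≤ ordL L f ↔ (PowerSeries.X : PowerSeries κ) ^ c ∣ f := by
  unfold ordL
  have h1 : (min (L : ℕ∞) f.order) ≠ ⊤ := by
    intro h
    have h2 := min_le_left (L : ℕ∞) f.order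
    rw [h, top_le_iff] at h2
    exact ENat.natCast_ne_top L h2
  rw [← ENat.natCast_le_natCast, ENat.natCast_toNat h1, le_min_iff]
  constructor
  · rintro ⟨-, h2⟩
    rw [PowerSeries.X_pow_dvd_iff]
    intro m hm
    apply PowerSeries.coeff_of_lt_order
    exact lt_of_lt_of_le (by exact_mod_cast hm) h2
  · intro h2
    refine ⟨by exact_mod_cast hc, ?_⟩
    rw [PowerSeries.X_pow_dvd_iff] at h2
    exact PowerSeries.nat_le_order _ _ h2

theorem glq_ordL_le {κ : Type} [Field κ] (L : ℕ) (f : PowerSeries κ) : ordL L f ≤ L := by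
  unfold ordL
  have h2 := min_le_left (L : ℕ∞) f.order
  have h3 := ENat.toNat_le_toNat h2 (ENat.natCast_ne_top L)
  rwa [ENat.toNat_natCast] at h3

theorem glq_c0_le {v L : ℕ} {κ : Type} [Field κ] (h : Matrix (Fin v) (Fin v) ℚ)
    (x : Fin v → Fin L → κ) : c0J x ≤ c0J (glq_x h x) := by
  unfold c0J
  rcases isEmpty_or_nonempty (Fin v) with hv | hv
  · rw [iInf_of_isEmpty, Nat.sInf_empty]
    exact Nat.zero_le _
  · have h0 : ∀ q, (⨅ i, ordL L (arc (x i))) ≤ ordL L (arc (x q)) := fun q =>
      ciInf_le ⟨0, by rintro _ ⟨_, rfl⟩; exact Nat.zero_le _⟩ q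
    have hL : (⨅ i, ordL L (arc (x i))) ≤ L :=
      (h0 (Classical.arbitrary _)).trans (glq_ordL_le _ _)
    apply le_ciInf
    intro q
    rw [glq_ordL hL, glq_arc]
    apply Finset.dvd_sum
    intro q' _
    apply Dvd.dvd.mul_left
    rw [← glq_ordL hL]
    exact h0 q'

theorem glq_tau_eq (k : Type) {κ J : Type} [Field k] [Field κ] [Algebra k κ] [Fintype J]
    (x : J → κ) : Pool.Agent.KSS.tau k x = Pool.Agent.Lib_helper56.KSS.tau k x := by
  unfold Pool.Agent.KSS.tau
  apply le_antisymm
  · apply csSup_le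
    · obtain ⟨s, hs1, hs2⟩ := Pool.Agent.Lib_helper56.KSS.exists_tau (K := k) x
      exact ⟨_, s, hs1, hs2⟩
    · rintro n ⟨S, rfl, hS⟩
      have := Pool.Agent.Lib_helper56.KSS.card_le_tau' (K := k) x (fun s : S => (s : J)) hS
      rwa [Nat.card_eq_fintype_card, Fintype.card_coe] at this
  · obtain ⟨s, hs1, hs2⟩ := Pool.Agent.Lib_helper56.KSS.exists_tau (K := k) x
    apply le_csSup
    · refine ⟨Fintype.card J, ?_⟩
      rintro n ⟨S, rfl, -⟩
      exact Finset.card_le_univ S
    · exact ⟨s, hs1, hs2⟩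

theorem glq_tauJ_le {v L : ℕ} {k κ : Type} [Field k] [CharZero k] [Field κ] [Algebra k κ]
    (h : Matrix (Fin v) (Fin v) ℚ) (x : Fin v → Fin L → κ) :
    tauJ k (glq_x h x) ≤ tauJ k x := by
  unfold tauJ
  rw [glq_tau_eq, glq_tau_eq]
  apply Pool.Agent.Lib_helper56.KSS.tau_le_of_closure
  rintro ⟨q, μ⟩
  apply Pool.Agent.Lib_helper56.KSS.mem_closure_of_adjoin
  unfold glq_x
  apply Subalgebra.sum_mem
  intro q' _
  have h1 : ((h q q' : ℚ) : κ) = algebraMap k κ ((h q q' : ℚ) : k) := by rw [map_ratCast]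
  change ((h q q' : ℚ) : κ) * x q' μ ∈ _
  rw [h1, ← Algebra.smul_def]
  apply Subalgebra.smul_mem
  exact Algebra.subset_adjoin ⟨(q', μ), rfl⟩

theorem glq_finrank_le {v L : ℕ} {k κ : Type} [Field k] [CharZero k] [Field κ] [Algebra k κ]
    (h g : Matrix (Fin v) (Fin v) ℚ) (hg : h * g = 1) (gh : g * h = 1) (x : Fin v → Fin L → κ)
    (m l : ℕ) :
    Module.finrank k (Fil k (glq_x g x) m l) = Module.finrank k (Fil k x m l) := by
  have : CharZero κ := charZero_of_injective_algebraMap (algebraMap k κ).injective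
  let e : MvPolynomial (Fin v) k ≃ₗ[k] MvPolynomial (Fin v) k :=
    LinearEquiv.ofLinearMap (glq_sub k h).toLinearMap (glq_sub k g).toLinearMap
      (by
        ext1 F
        apply LinearMap.ext
        intro y
        simp only [LinearMap.comp_apply, AlgHom.toLinearMap_apply, LinearMap.id_apply]
        rw [glq_comp, gh, glq_one])
      (by
        ext1 F
        apply LinearMap.ext
        intro y
        simp only [LinearMap.comp_apply, AlgHom.toLinearMap_apply, LinearMap.id_apply]
        rw [glq_comp, hg, glq_one])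
  have h1 : Fil k (glq_x g x) m l = (Fil k x m l).map (e : MvPolynomial (Fin v) k →ₗ[k] _) := by
    ext F
    rw [Submodule.mem_map]
    constructor
    · rintro ⟨hF1, hF2⟩
      refine ⟨glq_sub k g F, ⟨glq_homog g hF1, ?_⟩, ?_⟩
      · rw [glq_ev]
        exact hF2
      · change glq_sub k h (glq_sub k g F) = F
        rw [glq_comp, gh, glq_one]
    · rintro ⟨F', ⟨hF1, hF2⟩, rfl⟩
      refine ⟨glq_homog h hF1, ?_⟩
      change _ ∣ ev _ (glq_sub k h F')
      rw [glq_ev, glq_x_comp, hg, glq_x_one]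
      exact hF2
  rw [h1]
  exact LinearEquiv.finrank_map_eq e _

theorem glq_coeffs {v : ℕ} {k : Type} [Field k] [CharZero k] (A : Subalgebra ℚ k)
    (g : Matrix (Fin v) (Fin v) ℚ) (P : MvPolynomial (Fin v) k) (hP : ∀ α, P.coeff α ∈ A)
    (α : Fin v →₀ ℕ) : (glq_sub k g P).coeff α ∈ A := by
  let φ : A →+* k := A.val.toRingHom
  have h1 : P ∈ (MvPolynomial.map (σ := Fin v) φ).range := by
    rw [P.as_sum]
    apply Subring.sum_mem
    intro β _
    refine ⟨monomial β ⟨P.coeff β, hP β⟩, ?_⟩
    rw [map_monomial]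
    rfl
  have h2 : ∀ Q : MvPolynomial (Fin v) A, glq_sub k g (MvPolynomial.map φ Q) ∈
      (MvPolynomial.map (σ := Fin v) φ).range := by
    intro Q
    induction Q using MvPolynomial.induction_on with
    | C a =>
      refine ⟨C a, ?_⟩
      rw [map_C]
      unfold glq_sub
      rw [aeval_C, MvPolynomial.algebraMap_eq]
    | add p r hp hr =>
      rw [map_add, map_add]
      exact Subring.add_mem _ hp hr
    | mul_X p n hp =>
      rw [map_mul, map_mul]
      apply Subring.mul_mem _ hp
      rw [map_X]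
      have h5 : glq_sub k g (X n) = ∑ q', C ((g n q' : ℚ) : k) * X q' := by
        unfold glq_sub
        rw [aeval_X]
      rw [h5]
      apply Subring.sum_mem
      intro q' _
      refine ⟨C (algebraMap ℚ A (g n q')) * X q', ?_⟩
      rw [map_mul, map_C, map_X]
      congr 2
  obtain ⟨Q, rfl⟩ := h1
  obtain ⟨Q', hQ'⟩ := h2 Q
  have h3 : (glq_sub k g (MvPolynomial.map φ Q)).coeff α = φ (Q'.coeff α) := by
    rw [← coeff_map, ← hQ']
  rw [h3]
  exact (Q'.coeff α).2

theorem glq_gen {p v : ℕ} (d : Fin p → ℕ) {k : Type} [Field k] [CharZero k]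
    (G : Fin p → MvPolynomial (Fin v) k) (hG : Gen d G) (h g : Matrix (Fin v) (Fin v) ℚ)
    (hg : h * g = 1) : Gen d (fun i => glq_sub k h (G i)) := by
  classical
  refine ⟨fun i => glq_homog h (hG.1 i), ?_⟩
  have hfin : ∀ i : Fin p, Finite {α : Fin v →₀ ℕ // α.degree = d i} := fun i =>
    (Finsupp.finite_of_degree_eq (σ := Fin v) (d i)).to_subtype
  let I := Σ i : Fin p, {α : Fin v →₀ ℕ // α.degree = d i}
  have : Finite I := inferInstance
  have : Fintype I := Fintype.ofFinite I
  let c : I → k := fun c => (G c.1).coeff c.2.1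
  let c2 : I → k := fun c => (glq_sub k h (G c.1)).coeff c.2.1
  have h1 : Nat.card I ≤ Pool.Agent.Lib_helper56.KSS.tau ℚ c2 := by
    apply Pool.Agent.Lib_helper56.KSS.card_le_tau c2 c hG.2
    rintro ⟨i, α⟩
    apply Pool.Agent.Lib_helper56.KSS.mem_closure_of_adjoin
    have h2 : G i = glq_sub k g (glq_sub k h (G i)) := by
      rw [glq_comp, hg, glq_one]
    change (G i).coeff α.1 ∈ _
    rw [h2]
    apply glq_coeffs
    intro β
    by_cases hβ : β.degree = d i
    · exact Algebra.subset_adjoin ⟨⟨i, ⟨β, hβ⟩⟩, rfl⟩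
    · have h3 : (glq_sub k h (G i)).coeff β = 0 :=
        (glq_homog h (hG.1 i)).coeff_eq_zero hβ
      rw [h3]
      exact Subalgebra.zero_mem _
  obtain ⟨s, hs, hs2⟩ := Pool.Agent.Lib_helper56.KSS.exists_tau (K := ℚ) c2
  have h4 : s = Finset.univ := by
    apply Finset.eq_univ_of_card
    apply le_antisymm (Finset.card_le_univ s)
    rw [hs, ← Nat.card_eq_fintype_card]
    exact h1
  have h5 := hs2.comp (fun i : I => (⟨i, by rw [h4]; exact Finset.mem_univ i⟩ : s)) (by
    intro a b hab
    exact congrArg (fun z : s => (z : I)) hab)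
  exact h5

/-- a rational matrix with prescribed nonvanishing -/
theorem glq_exists {p v : ℕ} {κ : Type} [Field κ] [CharZero κ] (F : Finset (Fin p))
    (A : F → Fin v → κ) (hA : LinearIndependent κ A) :
    ∃ h : Matrix (Fin v) (Fin v) ℚ, h.det ≠ 0 ∧ ∀ J : F → Fin v, Function.Injective J →
      (Matrix.of fun i i' : F => ∑ q, A i q * ((h q (J i') : ℚ) : κ)).det ≠ 0 := by
  classical
  -- the polynomials
  let PJ : (F → Fin v) → MvPolynomial (Fin v × Fin v) κ := fun J =>
    (Matrix.of fun i i' : F => ∑ q, C (A i q) * X (q, J i')).det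
  let D : MvPolynomial (Fin v × Fin v) κ := (Matrix.of fun q q' : Fin v => X (q, q')).det
  have hPJ : ∀ (J : F → Fin v) (y : Fin v × Fin v → κ), eval y (PJ J) =
      (Matrix.of fun i i' : F => ∑ q, A i q * y (q, J i')).det := by
    intro J y
    change eval y (Matrix.det _) = _
    rw [RingHom.map_det]
    congr 1
    ext i i'
    simp
  have hD : ∀ (y : Fin v × Fin v → κ), eval y D =
      (Matrix.of fun q q' : Fin v => y (q, q')).det := by
    intro y
    change eval y (Matrix.det _) = _
    rw [RingHom.map_det]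
    congr 1
    ext i i'
    simp
  have hD0 : D ≠ 0 := by
    intro h0
    have h1 := hD (fun p => if p.1 = p.2 then 1 else 0)
    rw [h0, map_zero] at h1
    have h2 : (Matrix.of fun q q' : Fin v => (if q = q' then (1 : κ) else 0)) = 1 := by
      ext q q'
      simp [Matrix.one_apply]
    change 0 = (Matrix.of fun q q' : Fin v => (if q = q' then (1 : κ) else 0)).det at h1
    rw [h2, Matrix.det_one] at h1
    exact zero_ne_one h1
  -- right inverse
  obtain ⟨gm, hgm⟩ := LinearMap.exists_leftInverse_of_injective (Fintype.linearCombination κ A)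
    (by
      rw [LinearMap.ker_eq_bot]
      exact linearIndependent_iff_injective_fintypeLinearCombination.mp hA)
  have hB : ∀ i i' : F, ∑ q, A i q * gm (Pi.single q 1) i' = if i = i' then 1 else 0 := by
    intro i i'
    have h1 : gm (A i) = Pi.single i 1 := by
      have h2 := congrArg (fun f : (F → κ) →ₗ[κ] (F → κ) => f (Pi.single i 1)) hgm
      simp only [LinearMap.comp_apply, LinearMap.id_apply, Fintype.linearCombination_apply_single,
        one_smul] at h2
      exact h2
    have h3 : A i = ∑ q, A i q • (Pi.single q (1 : κ) : Fin v → κ) := by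
      funext r
      simp [Finset.sum_apply, Pi.single_apply]
    have h4 := congrFun h1 i'
    rw [h3, map_sum, Finset.sum_apply] at h4
    simp only [map_smul, Pi.smul_apply, smul_eq_mul] at h4
    rw [h4, Pi.single_apply]
    simp only [eq_comm]
  have hP0 : ∀ J : F → Fin v, Function.Injective J → PJ J ≠ 0 := by
    intro J hJ h0
    have h1 := hPJ J (fun p => Function.extend J (fun i' => gm (Pi.single p.1 1) i') 0 p.2)
    rw [h0, map_zero] at h1
    simp only [hJ.extend_apply, hB] at h1
    have h2 : (Matrix.of fun i i' : F => (if i = i' then (1 : κ) else 0)) = 1 := by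
      ext q q'
      simp [Matrix.one_apply]
    rw [h2, Matrix.det_one] at h1
    exact zero_ne_one h1
  have hprod : D * ∏ J ∈ Finset.univ.filter (fun J : F → Fin v => Function.Injective J), PJ J ≠ 0 := by
    apply mul_ne_zero hD0
    rw [Finset.prod_ne_zero_iff]
    intro J hJ
    exact hP0 J (Finset.mem_filter.mp hJ).2
  have hex : ∃ y : Fin v × Fin v → κ, y ∈ Set.pi Set.univ
      (fun _ : Fin v × Fin v => Set.range (fun r : ℚ => (r : κ))) ∧
      eval y (D * ∏ J ∈ Finset.univ.filter (fun J : F → Fin v => Function.Injective J), PJ J) ≠ 0 := by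
    by_contra hcon
    push Not at hcon
    apply hprod
    apply MvPolynomial.funext_set (fun _ : Fin v × Fin v => Set.range (fun r : ℚ => (r : κ)))
      (fun _ => Set.infinite_range_of_injective Rat.cast_injective)
    intro y hy
    rw [hcon y hy, map_zero]
  obtain ⟨y, hy1, hy2⟩ := hex
  choose h hh using fun p : Fin v × Fin v => hy1 p (Set.mem_univ p)
  rw [map_mul, map_prod] at hy2
  have hy3 := left_ne_zero_of_mul hy2
  have hy4 := Finset.prod_ne_zero_iff.mp (right_ne_zero_of_mul hy2)
  refine ⟨Matrix.of fun q q' => h (q, q'), ?_, ?_⟩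
  · intro h0
    apply hy3
    rw [hD]
    have h5 := congrArg (fun r : ℚ => (r : κ)) h0
    simp only [Rat.cast_zero] at h5
    rw [← h5]
    have h6 := RingHom.map_det (Rat.castHom κ) (Matrix.of fun q q' => h (q, q'))
    rw [Rat.coe_castHom] at h6
    rw [h6]
    congr 1
    ext q q'
    simp only [Matrix.of_apply, RingHom.mapMatrix_apply, Matrix.map_apply, Rat.coe_castHom]
    exact (hh (q, q')).symm
  · intro J hJ
    have h5 := hy4 J (by simp [hJ])
    rw [hPJ] at h5
    simp only [Matrix.of_apply, hh]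
    exact h5

theorem gen_coord_pr {p v L : ℕ} (d : Fin p → ℕ) {k κ : Type} [Field k] [CharZero k] [Field κ]
    [Algebra k κ] (G : Fin p → MvPolynomial (Fin v) k) (hG : Gen d G) (x : Fin v → Fin L → κ)
    (F : Finset (Fin p)) (h : LinearIndependent κ (fun i : F => grad G (lead x 0) i)) :
    ∃ (G2 : Fin p → MvPolynomial (Fin v) k) (x2 : Fin v → Fin L → κ), Gen d G2 ∧
      recJ G2 x2 = recJ G x ∧
      ∀ J : F → Fin v, Function.Injective J →
        (Matrix.of fun i i' : F => grad G2 (lead x2 0) i (J i')).det ≠ 0 := by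
  have : CharZero κ := charZero_of_injective_algebraMap (algebraMap k κ).injective
  obtain ⟨m, hm1, hm2⟩ := glq_exists F (fun i : F => grad G (lead x 0) i) h
  have hm3 : IsUnit m.det := isUnit_iff_ne_zero.mpr hm1
  have hg : m * m⁻¹ = 1 := Matrix.mul_nonsing_inv m hm3
  have gh : m⁻¹ * m = 1 := Matrix.nonsing_inv_mul m hm3
  have hxx : glq_x m (glq_x m⁻¹ x) = x := by
    rw [glq_x_comp, hg, glq_x_one]
  refine ⟨fun i => glq_sub k m (G i), glq_x m⁻¹ x, glq_gen d G hG m m⁻¹ hg, ?_, ?_⟩
  · unfold recJ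
    have e1 : tauJ k (glq_x m⁻¹ x) = tauJ k x := by
      apply le_antisymm (glq_tauJ_le _ _)
      have h1 := glq_tauJ_le (k := k) m (glq_x m⁻¹ x)
      rwa [hxx] at h1
    have e2 : c0J (glq_x m⁻¹ x) = c0J x := by
      apply le_antisymm _ (glq_c0_le _ _)
      have h1 := glq_c0_le m (glq_x m⁻¹ x)
      rwa [hxx] at h1
    have e3 : ∀ i, ev (glq_x m⁻¹ x) (glq_sub k m (G i)) = ev x (G i) := by
      intro i
      rw [glq_ev, hxx]
    simp only [e1, e2, e3, glq_finrank_le m m⁻¹ hg gh x]
  · intro J hJ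
    have h1 := hm2 J hJ
    simp only [glq_grad G m m⁻¹ hg x]
    exact h1

alias gen_coord := gen_coord_pr

end Pool.Agent.KSX
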