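import Pool.Agent.Lib_helper77.KSZ.XBase

/-!
# KSX, block GRD: gradients of generic forms (adapted from KSS block SM of helper16)
-/

namespace Pool.Agent.KSX

open MvPolynomial Pool.Agent.KSS Filter Topology

/-- a family in an algebra generated by a finite set -/
theorem grd_card {κ : Type} [Field κ] [CharZero κ] {J : Type} [Finite J] {S : Set κ} (hS : S.Finite) {v : J → κ}
    (hv : AlgebraicIndependent ℚ v) (h : ∀ b, v b ∈ Algebra.adjoin ℚ S) :
    Nat.card J ≤ S.ncard := by
  set A := Algebra.adjoin ℚ S with hA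
  have h1 : AlgebraicIndependent ℚ (fun b : J => (⟨v b, h b⟩ : A)) :=
    AlgebraicIndependent.of_comp A.val hv
  have h2 := h1.cardinalMk_le_trdeg
  let g : MvPolynomial S ℚ →ₐ[ℚ] A := aeval (fun s : S => (⟨s, Algebra.subset_adjoin s.2⟩ : A))
  have hg : Function.Surjective g := by
    intro a
    have ha : (a : κ) ∈ Algebra.adjoin ℚ S := a.2
    rw [Algebra.adjoin_eq_range] at ha
    obtain ⟨p, hp⟩ := ha
    refine ⟨p, ?_⟩
    apply Subtype.ext
    rw [← hp]
    have : A.val.comp g = (aeval ((↑) : S → κ) : MvPolynomial S ℚ →ₐ[ℚ] κ) := by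
      apply MvPolynomial.algHom_ext
      intro s
      simp [g]
    exact congrArg (fun q : MvPolynomial S ℚ →ₐ[ℚ] κ => q p) this
  have h3 := trdeg_le_of_surjective g hg
  rw [MvPolynomial.trdeg_of_isDomain] at h3
  have h4 := h2.trans h3
  rw [Cardinal.lift_id] at h4
  have := hS.to_subtype
  have h5 := Cardinal.toNat_le_toNat h4 (Cardinal.mk_lt_aleph0)
  rw [← Nat.card_coe_set_eq]
  exact h5

theorem grd_hom {κ : Type} [Field κ] {N d : ℕ} {f : MvPolynomial (Fin N) κ} (hf : f.IsHomogeneous d) (c : κ)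
    (x : Fin N → κ) : eval (fun i => c * x i) f = c ^ d * eval x f := by
  rw [eval_eq', eval_eq', Finset.mul_sum]
  refine Finset.sum_congr rfl fun a ha => ?_
  have h1 : a.degree = d := by
    by_contra h
    exact (mem_support_iff.1 ha) (hf.coeff_eq_zero h)
  have h2 : ∏ i, (c * x i) ^ a i = c ^ d * ∏ i, x i ^ a i := by
    rw [← h1, Finsupp.degree_eq_sum, ← Finset.prod_pow_eq_pow_sum, ← Finset.prod_mul_distrib]
    refine Finset.prod_congr rfl fun i _ => ?_
    rw [mul_pow]
  rw [h2]
  ring

theorem grd_eval_pderiv {κ : Type} [Field κ] {N : ℕ} (f : MvPolynomial (Fin N) κ) (y : Fin N → κ) (l : Fin N) :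
    eval y (pderiv l f) = ∑ a ∈ f.support, f.coeff a * (a l : κ) *
      ∏ i, y i ^ ((a - Finsupp.single l 1 : Fin N →₀ ℕ) i) := by
  conv_lhs => rw [f.as_sum]
  rw [map_sum, map_sum]
  refine Finset.sum_congr rfl fun a _ => ?_
  rw [pderiv_monomial, eval_monomial, Finsupp.prod_fintype]
  intro i
  exact pow_zero _

/-- the determined exponents -/
noncomputable def grd_a {N : ℕ} (j l : Fin N) (d : ℕ) : Fin N →₀ ℕ :=
  Finsupp.single j (d - 1) + Finsupp.single l 1

theorem grd_a_deg {N : ℕ} (j l : Fin N) {d : ℕ} (hd : 1 ≤ d) : (grd_a j l d).degree = d := by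
  unfold grd_a
  rw [map_add, Finsupp.degree_single, Finsupp.degree_single]
  omega

/-- the main count, after scaling -/
theorem grd_core {κ : Type} [Field κ] [CharZero κ] {N k : ℕ} (d : Fin k → ℕ) (hd : ∀ i, 1 ≤ d i)
    (f : Fin k → MvPolynomial (Fin N) κ) (hf : Gen d f) (y : Fin N → κ) (j : Fin N)
    (hj : y j = 1) (h0 : ∀ i, eval y (f i) = 0) (lam : Fin k → κ) (i0 : Fin k) (hi0 : lam i0 = 1)
    (hl : ∀ l, ∑ i, lam i * eval y (pderiv l (f i)) = 0) : False := by
  classical
  obtain ⟨hhom, hind⟩ := hf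
  -- the index type
  set J := Σ i : Fin k, {a : Fin N →₀ ℕ // a.degree = d i} with hJ
  have hfin : ∀ n : ℕ, Finite {a : Fin N →₀ ℕ // a.degree = n} := by
    intro n
    refine Finite.of_injective (β := Fin N → Fin (n + 1))
      (fun a i => ⟨a.1 i, Nat.lt_succ_of_le (by
        have := Finsupp.le_degree i a.1
        rw [a.2] at this
        exact this)⟩) ?_
    intro a b hab
    apply Subtype.ext
    ext i
    have := congrFun hab i
    simpa using this
  have : Finite J := by
    have := fun i => hfin (d i)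
    infer_instance
  set c : J → κ := fun b => (f b.1).coeff b.2.1 with hc
  -- the determined pairs
  set u : Fin k ⊕ {l : Fin N // l ≠ j} → J := fun s => match s with
    | Sum.inl i => ⟨i, ⟨Finsupp.single j (d i), by rw [Finsupp.degree_single]⟩⟩
    | Sum.inr l => ⟨i0, ⟨grd_a j l.1 (d i0), grd_a_deg j l.1 (hd i0)⟩⟩ with hu
  have hul : ∀ i (l : Fin N), l ≠ j → (u (Sum.inl i)).2.1 l = 0 := by
    intro i l hlj
    show (Finsupp.single j (d i)) l = 0
    rw [Finsupp.single_apply, if_neg (Ne.symm hlj)]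
  have hur : ∀ (l : {l : Fin N // l ≠ j}) (m : Fin N), m ≠ j →
      (u (Sum.inr l)).2.1 m = if m = l.1 then 1 else 0 := by
    intro l m hm
    show (grd_a j l.1 (d i0)) m = _
    unfold grd_a
    rw [Finsupp.add_apply, Finsupp.single_apply, Finsupp.single_apply, if_neg (Ne.symm hm),
      zero_add]
    by_cases h : m = l.1
    · rw [if_pos h.symm, if_pos h]
    · rw [if_neg (Ne.symm h), if_neg h]
  have huinj : Function.Injective u := by
    intro s t hst
    rcases s with i | l <;> rcases t with i' | l'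
    · have h1 : (u (Sum.inl i)).1 = (u (Sum.inl i')).1 := by rw [hst]
      exact congrArg Sum.inl h1
    · exfalso
      have h1 : (u (Sum.inl i)).2.1 l'.1 = (u (Sum.inr l')).2.1 l'.1 := by rw [hst]
      rw [hul i _ l'.2, hur l' _ l'.2, if_pos rfl] at h1
      exact zero_ne_one h1
    · exfalso
      have h1 : (u (Sum.inr l)).2.1 l.1 = (u (Sum.inl i')).2.1 l.1 := by rw [hst]
      rw [hul i' _ l.2, hur l _ l.2, if_pos rfl] at h1
      exact one_ne_zero h1
    · have h1 : (u (Sum.inr l)).2.1 l.1 = (u (Sum.inr l')).2.1 l.1 := by rw [hst]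
      rw [hur l _ l.2, hur l' _ l.2, if_pos rfl] at h1
      by_cases h : l.1 = l'.1
      · rw [Subtype.ext h]
      · rw [if_neg h] at h1
        exact absurd h1 one_ne_zero
  -- the generators
  set S : Set κ := c '' (Set.range u)ᶜ ∪ (y '' {j}ᶜ ∪ lam '' {i0}ᶜ) with hS
  have hSfin : S.Finite := by
    refine (Set.toFinite _).union ((Set.toFinite _).union (Set.toFinite _))
  set A := Algebra.adjoin ℚ S with hA
  have hcA : ∀ b, b ∉ Set.range u → c b ∈ A := fun b hb =>
    Algebra.subset_adjoin (Or.inl ⟨b, hb, rfl⟩)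
  have hyA : ∀ l, y l ∈ A := by
    intro l
    by_cases h : l = j
    · rw [h, hj]
      exact A.one_mem
    · exact Algebra.subset_adjoin (Or.inr (Or.inl ⟨l, h, rfl⟩))
  have hlA : ∀ i, lam i ∈ A := by
    intro i
    by_cases h : i = i0
    · rw [h, hi0]
      exact A.one_mem
    · exact Algebra.subset_adjoin (Or.inr (Or.inr ⟨i, h, rfl⟩))
  have hyp : ∀ a : Fin N →₀ ℕ, ∏ i, y i ^ a i ∈ A := fun a =>
    A.prod_mem fun i _ => A.pow_mem (hyA i) _
  -- coefficients as members of the family
  have hdeg : ∀ i, ∀ a ∈ (f i).support, a.degree = d i := by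
    intro i a ha
    by_contra h
    exact (mem_support_iff.1 ha) ((hhom i).coeff_eq_zero h)
  -- step 2
  have hstep2 : ∀ l : {l : Fin N // l ≠ j}, c (u (Sum.inr l)) ∈ A := by
    intro l
    show (f i0).coeff (grd_a j l.1 (d i0)) ∈ A
    set a0 := grd_a j l.1 (d i0) with ha0
    by_cases hsup : a0 ∈ (f i0).support
    swap
    · rw [notMem_support_iff.1 hsup]
      exact A.zero_mem
    have hnot : ∀ i, ∀ a ∈ (f i).support, (i ≠ i0 ∨ a ≠ a0) →
        (f i).coeff a * (a l.1 : κ) * ∏ m, y m ^ ((a - Finsupp.single l.1 1 : Fin N →₀ ℕ) m) ∈ A := by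
      intro i a ha hia
      by_cases hal : a l.1 = 0
      · rw [hal]
        simp
      · refine A.mul_mem (A.mul_mem ?_ (by exact_mod_cast A.natCast_mem (a l.1))) (hyp _)
        have hb : (⟨i, ⟨a, hdeg i a ha⟩⟩ : J) ∉ Set.range u := by
          rintro ⟨s, hs⟩
          rcases s with i' | l'
          · have h1 : (u (Sum.inl i')).2.1 l.1 = a l.1 := by rw [hs]
            rw [hul i' _ l.2] at h1
            exact hal h1.symm
          · have h1 : (u (Sum.inr l')).2.1 l.1 = a l.1 := by rw [hs]
            rw [hur l' _ l.2] at h1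
            by_cases h2 : l.1 = l'.1
            · have h3 : l = l' := Subtype.ext h2
              rw [← h3] at hs
              have h4 : (u (Sum.inr l)).1 = i := by rw [hs]
              have h5 : (u (Sum.inr l)).2.1 = a := by rw [hs]
              rcases hia with h6 | h6
              · exact h6 h4.symm
              · exact h6 h5.symm
            · rw [if_neg h2] at h1
              exact hal h1.symm
        exact hcA _ hb
    have e1 := hl l.1
    rw [← Finset.add_sum_erase _ _ (Finset.mem_univ i0), hi0, one_mul, grd_eval_pderiv,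
      ← Finset.add_sum_erase _ _ hsup] at e1
    have e2 : (f i0).coeff a0 * (a0 l.1 : κ) *
        ∏ m, y m ^ ((a0 - Finsupp.single l.1 1 : Fin N →₀ ℕ) m) = (f i0).coeff a0 := by
      have h1 : a0 l.1 = 1 := by
        have := hur l l.1 l.2
        rw [if_pos rfl] at this
        exact this
      have h2 : a0 - Finsupp.single l.1 1 = Finsupp.single j (d i0 - 1) := by
        rw [ha0]
        unfold grd_a
        exact add_tsub_cancel_right _ _
      have h3 : ∏ m, y m ^ ((Finsupp.single j (d i0 - 1)) m) = 1 := by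
        refine Finset.prod_eq_one fun m _ => ?_
        rw [Finsupp.single_apply]
        by_cases h : j = m
        · rw [if_pos h, ← h, hj, one_pow]
        · rw [if_neg h, pow_zero]
      rw [h1, h2, h3]
      push_cast
      ring
    rw [e2] at e1
    have e3 : (f i0).coeff a0 = -(∑ a ∈ (f i0).support.erase a0, (f i0).coeff a * (a l.1 : κ) *
        ∏ m, y m ^ ((a - Finsupp.single l.1 1 : Fin N →₀ ℕ) m)) -
        ∑ i ∈ Finset.univ.erase i0, lam i * eval y (pderiv l.1 (f i)) := by
      linear_combination e1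
    rw [e3]
    refine A.sub_mem (A.neg_mem (A.sum_mem fun a ha => ?_)) (A.sum_mem fun i hi => ?_)
    · exact hnot i0 a (Finset.mem_of_mem_erase ha) (Or.inr (Finset.ne_of_mem_erase ha))
    · refine A.mul_mem (hlA i) ?_
      rw [grd_eval_pderiv]
      exact A.sum_mem fun a ha => hnot i a ha (Or.inl (Finset.ne_of_mem_erase hi))
  -- step 3
  have hstep3 : ∀ i, c (u (Sum.inl i)) ∈ A := by
    intro i
    show (f i).coeff (Finsupp.single j (d i)) ∈ A
    set a0 := (Finsupp.single j (d i) : Fin N →₀ ℕ) with ha0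
    by_cases hsup : a0 ∈ (f i).support
    swap
    · rw [notMem_support_iff.1 hsup]
      exact A.zero_mem
    have e1 := h0 i
    rw [eval_eq', ← Finset.add_sum_erase _ _ hsup] at e1
    have e2 : ∏ m, y m ^ (a0 m) = 1 := by
      refine Finset.prod_eq_one fun m _ => ?_
      rw [ha0, Finsupp.single_apply]
      by_cases h : j = m
      · rw [if_pos h, ← h, hj, one_pow]
      · rw [if_neg h, pow_zero]
    rw [e2, mul_one] at e1
    have e3 : (f i).coeff a0 = -∑ a ∈ (f i).support.erase a0, (f i).coeff a * ∏ m, y m ^ a m := by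
      linear_combination e1
    rw [e3]
    refine A.neg_mem (A.sum_mem fun a ha => A.mul_mem ?_ (hyp a))
    have ha1 := Finset.mem_of_mem_erase ha
    have ha2 := Finset.ne_of_mem_erase ha
    by_cases hb : (⟨i, ⟨a, hdeg i a ha1⟩⟩ : J) ∈ Set.range u
    · obtain ⟨s, hs⟩ := hb
      rcases s with i' | l'
      · exfalso
        have h4 : (u (Sum.inl i')).1 = i := by rw [hs]
        have h5 : (u (Sum.inl i')).2.1 = a := by rw [hs]
        have h6 : i' = i := h4
        rw [h6] at h5
        exact ha2 h5.symm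
      · have := hstep2 l'
        rw [hs] at this
        exact this
    · exact hcA _ hb
  have hall : ∀ b, c b ∈ A := by
    intro b
    by_cases hb : b ∈ Set.range u
    · obtain ⟨s, hs⟩ := hb
      rw [← hs]
      rcases s with i | l
      · exact hstep3 i
      · exact hstep2 l
    · exact hcA b hb
  have hcard : Nat.card J ≤ S.ncard := grd_card hSfin hind hall
  -- the count
  have hc1 : S.ncard ≤ (Set.range u)ᶜ.ncard + (({j}ᶜ : Set (Fin N)).ncard +
      ({i0}ᶜ : Set (Fin k)).ncard) := by
    refine (Set.ncard_union_le _ _).trans (add_le_add (Set.ncard_image_le (Set.toFinite _)) ?_)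
    exact (Set.ncard_union_le _ _).trans (add_le_add (Set.ncard_image_le (Set.toFinite _))
      (Set.ncard_image_le (Set.toFinite _)))
  have hc2 : (Set.range u).ncard + (Set.range u)ᶜ.ncard = Nat.card J :=
    Set.ncard_add_ncard_compl _
  have hc3 : (Set.range u).ncard = k + (N - 1) := by
    rw [← Set.image_univ, Set.ncard_image_of_injective _ huinj, Set.ncard_univ,
      Nat.card_eq_fintype_card, Fintype.card_sum, Fintype.card_fin]
    congr 1
    rw [Fintype.card_subtype_compl, Fintype.card_fin, Fintype.card_subtype_eq]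
  have hc4 : ({j} : Set (Fin N)).ncard + ({j}ᶜ : Set (Fin N)).ncard = N := by
    rw [Set.ncard_add_ncard_compl, Nat.card_eq_fintype_card, Fintype.card_fin]
  have hc5 : ({i0} : Set (Fin k)).ncard + ({i0}ᶜ : Set (Fin k)).ncard = k := by
    rw [Set.ncard_add_ncard_compl, Nat.card_eq_fintype_card, Fintype.card_fin]
  rw [Set.ncard_singleton] at hc4 hc5
  have hk : 1 ≤ k := Nat.lt_of_le_of_lt (Nat.zero_le _) i0.2
  have hN : 1 ≤ N := Nat.lt_of_le_of_lt (Nat.zero_le _) j.2
  omega

/-- independence of the gradients at a common zero -/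
theorem grd_smooth {κ : Type} [Field κ] [CharZero κ] {N k : ℕ} (d : Fin k → ℕ) (hd : ∀ i, 1 ≤ d i)
    (f : Fin k → MvPolynomial (Fin N) κ) (hf : Gen d f) (x : Fin N → κ) (hx : x ≠ 0)
    (h0 : ∀ i, eval x (f i) = 0) :
    LinearIndependent κ (fun i : Fin k => fun l : Fin N => eval x (pderiv l (f i))) := by
  by_contra hli
  rw [Fintype.not_linearIndependent_iff] at hli
  obtain ⟨lam, hsum, i0, hi0⟩ := hli
  obtain ⟨j, hj⟩ : ∃ j, x j ≠ 0 := by
    by_contra h
    push Not at h
    exact hx (funext h)
  have hsum' : ∀ l, ∑ i, lam i * eval x (pderiv l (f i)) = 0 := by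
    intro l
    have := congrFun hsum l
    simpa [Finset.sum_apply] using this
  set c : κ := (x j)⁻¹ with hc
  have hc0 : c ≠ 0 := inv_ne_zero hj
  refine grd_core d hd f hf (fun i => c * x i) j (inv_mul_cancel₀ hj) ?_
    (fun i => (lam i * (c ^ (d i - 1))⁻¹) / (lam i0 * (c ^ (d i0 - 1))⁻¹)) i0 ?_ ?_
  · intro i
    rw [grd_hom (hf.1 i), h0 i, mul_zero]
  · exact div_self (mul_ne_zero hi0 (inv_ne_zero (pow_ne_zero _ hc0)))
  · intro l
    have e1 : ∀ i, (lam i * (c ^ (d i - 1))⁻¹) / (lam i0 * (c ^ (d i0 - 1))⁻¹) *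
        eval (fun i => c * x i) (pderiv l (f i)) =
        (lam i0 * (c ^ (d i0 - 1))⁻¹)⁻¹ * (lam i * eval x (pderiv l (f i))) := by
      intro i
      rw [grd_hom (hf.1 i).pderiv]
      have : c ^ (d i - 1) ≠ 0 := pow_ne_zero _ hc0
      field_simp
    simp_rw [e1]
    rw [← Finset.mul_sum, hsum' l, mul_zero]


/-- generic forms over a larger field -/
theorem grd_gen_map {p v : ℕ} {d : Fin p → ℕ} {k κ : Type} [Field k] [CharZero k] [Field κ]
    [CharZero κ] [Algebra k κ] {G : Fin p → MvPolynomial (Fin v) k} (hG : Gen d G) :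
    Gen d (fun i => map (algebraMap k κ) (G i)) := by
  refine ⟨fun i => (hG.1 i).map _, ?_⟩
  have h1 := hG.2.map' (f := (algebraMap k κ).toRatAlgHom) (algebraMap k κ).injective
  convert h1 using 1
  funext c
  simp only [Function.comp]
  rw [coeff_map]
  rfl

/-- generic subfamilies -/
theorem grd_gen_comp {p r v : ℕ} {d : Fin p → ℕ} {κ : Type} [Field κ]
    [CharZero κ] {G : Fin p → MvPolynomial (Fin v) κ} (hG : Gen d G) (e : Fin r → Fin p)
    (he : Function.Injective e) : Gen (fun i => d (e i)) (fun i => G (e i)) := by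
  refine ⟨fun i => hG.1 (e i), ?_⟩
  have h1 := hG.2.comp (fun c : Σ i : Fin r, {α : Fin v →₀ ℕ // α.degree = d (e i)} =>
    (⟨e c.1, c.2⟩ : Σ i : Fin p, {α : Fin v →₀ ℕ // α.degree = d i})) (by
      rintro ⟨a, α⟩ ⟨b, β⟩ hab
      simp only [Sigma.mk.injEq] at hab
      obtain ⟨h1, h2⟩ := hab
      have := he h1
      subst this
      rw [eq_of_heq h2])
  exact h1

/-- (GRD) the gradients of generic forms at a point where at most one of them does not vanish
are linearly independent -/
theorem grad_indep_pr {p v : ℕ} (d : Fin p → ℕ) (hd : ∀ i, 1 ≤ d i) {k κ : Type} [Field k]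
    [CharZero k] [Field κ] [Algebra k κ] (G : Fin p → MvPolynomial (Fin v) k) (hG : Gen d G)
    (pt : Fin v → κ) (hpt : pt ≠ 0) (F : Finset (Fin p)) (i0 : Fin p)
    (h : ∀ i ∈ F, i ≠ i0 → aeval pt (G i) = 0) :
    LinearIndependent κ (fun i : F => grad G pt i) := by
  classical
  have hcz : CharZero κ := charZero_of_injective_algebraMap (algebraMap k κ).injective
  have hgrad : ∀ i q, grad G pt i q = eval pt (pderiv q (map (algebraMap k κ) (G i))) := by
    intro i q
    unfold grad
    rw [pderiv_map, eval_map, aeval_def]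
  have hval : ∀ i, aeval pt (G i) = eval pt (map (algebraMap k κ) (G i)) := by
    intro i
    rw [eval_map, aeval_def]
  have hG' := grd_gen_map (κ := κ) hG
  rw [Fintype.linearIndependent_iff]
  intro lam hlam
  -- the dependence relation as a function on all indices
  obtain ⟨lam', hlam'⟩ : ∃ lam' : Fin p → κ, lam' = fun i => if hi : i ∈ F then lam ⟨i, hi⟩ else 0 :=
    ⟨_, rfl⟩
  have hl1 : ∀ i : F, lam i = lam' i := by
    intro i
    rw [hlam']
    simp
  have hl2 : ∀ i, i ∉ F → lam' i = 0 := by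
    intro i hi
    rw [hlam']
    simp [hi]
  have hsum : ∀ q, ∑ i, lam' i * eval pt (pderiv q (map (algebraMap k κ) (G i))) = 0 := by
    intro q
    have h1 := congrFun hlam q
    rw [Finset.sum_apply] at h1
    simp only [Pi.smul_apply, smul_eq_mul, Pi.zero_apply] at h1
    rw [← Finset.sum_subset (Finset.subset_univ F) (fun i _ hi => by rw [hl2 i hi, zero_mul]),
      ← Finset.sum_coe_sort F]
    rw [← h1]
    refine Finset.sum_congr rfl (fun i _ => ?_)
    rw [hgrad, hl1]
  -- Euler
  have hE : ∀ i, ∑ q, pt q * eval pt (pderiv q (map (algebraMap k κ) (G i))) =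
      (d i : κ) * eval pt (map (algebraMap k κ) (G i)) := by
    intro i
    have h1 := congrArg (eval pt) (hG'.1 i).sum_X_mul_pderiv
    rw [map_sum] at h1
    simp only [map_mul, eval_X, nsmul_eq_mul, map_natCast] at h1
    exact h1
  have hEs : ∑ i, lam' i * ((d i : κ) * eval pt (map (algebraMap k κ) (G i))) = 0 := by
    simp_rw [← hE, Finset.mul_sum]
    rw [Finset.sum_comm]
    refine Finset.sum_eq_zero (fun q _ => ?_)
    have h1 := hsum q
    calc ∑ i, lam' i * (pt q * eval pt (pderiv q (map (algebraMap k κ) (G i))))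
        = pt q * ∑ i, lam' i * eval pt (pderiv q (map (algebraMap k κ) (G i))) := by
          rw [Finset.mul_sum]
          exact Finset.sum_congr rfl (fun i _ => by ring)
      _ = 0 := by rw [h1, mul_zero]
  have hz : ∀ i, i ≠ i0 → i ∈ F → eval pt (map (algebraMap k κ) (G i)) = 0 := by
    intro i h1 h2
    rw [← hval]
    exact h i h2 h1
  have hz' : ∀ i, lam' i ≠ 0 → eval pt (map (algebraMap k κ) (G i)) = 0 := by
    intro i hi
    have hiF : i ∈ F := by
      by_contra h1
      exact hi (hl2 i h1)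
    by_cases h1 : i = i0
    · subst h1
      rw [← Finset.add_sum_erase _ _ (Finset.mem_univ i), Finset.sum_eq_zero, add_zero] at hEs
      · have h2 : (d i : κ) ≠ 0 := by
          have := hd i
          exact_mod_cast (by omega : d i ≠ 0)
        rcases mul_eq_zero.1 hEs with h3 | h3
        · exact absurd h3 hi
        · exact (mul_eq_zero.1 h3).resolve_left h2
      · intro a ha
        by_cases h3 : a ∈ F
        · rw [hz a (Finset.ne_of_mem_erase ha) h3, mul_zero, mul_zero]
        · rw [hl2 a h3, zero_mul]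
    · exact hz i h1 hiF
  by_contra hne
  push Not at hne
  obtain ⟨⟨i1, hi1F⟩, hi1⟩ := hne
  rw [hl1] at hi1
  obtain ⟨S, hS⟩ : ∃ S : Finset (Fin p), S = Finset.univ.filter (fun i => lam' i ≠ 0) := ⟨_, rfl⟩
  have hSm : ∀ i, i ∈ S ↔ lam' i ≠ 0 := by
    intro i
    rw [hS]
    simp
  let e : Fin S.card ≃ S := S.equivFin.symm
  have heinj : Function.Injective (fun a : Fin S.card => ((e a : S) : Fin p)) :=
    Subtype.val_injective.comp e.injective
  have hind := grd_smooth (fun a => d (e a)) (fun a => hd _)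
    (fun a => map (algebraMap k κ) (G (e a))) (grd_gen_comp hG' _ heinj) pt hpt
    (fun a => hz' _ ((hSm _).1 (e a).2))
  rw [Fintype.linearIndependent_iff] at hind
  have h5 := hind (fun a => lam' (e a)) (by
    funext q
    rw [Finset.sum_apply]
    simp only [Pi.smul_apply, smul_eq_mul, Pi.zero_apply]
    rw [← hsum q, ← Finset.sum_subset (Finset.subset_univ S) (fun i _ hi => by
      have : lam' i = 0 := by
        by_contra h6
        exact hi ((hSm i).2 h6)
      rw [this, zero_mul]), ← Finset.sum_coe_sort S]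
    exact Equiv.sum_comp e (fun i : S => lam' i * eval pt (pderiv q (map (algebraMap k κ) (G i)))))
    (e.symm ⟨i1, (hSm i1).2 hi1⟩)
  rw [Equiv.apply_symm_apply] at h5
  exact hi1 h5

alias grad_indep := grad_indep_pr

end Pool.Agent.KSX
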