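import Pool.Agent.Lib_helper77.KSZ.XBase
import Mathlib.RingTheory.Smooth.Field
import Mathlib.RingTheory.Etale.Kaehler

/-!
# Strictness, block KER
-/

namespace Pool.Agent.KSX

open MvPolynomial Pool.Agent.KSS Filter Topology

open scoped IntermediateField.algebraAdjoinAdjoin in
theorem ker_etale {k0 κ ι : Type} [Field k0] [CharZero k0] [Field κ] [Algebra k0 κ]
    (z : ι → κ) (hz : IsTranscendenceBasis k0 z) :
    @Algebra.FormallyEtale (MvPolynomial ι k0) κ _ _
      (aeval z : MvPolynomial ι k0 →ₐ[k0] κ).toRingHom.toAlgebra := by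
  let _ : Algebra (MvPolynomial ι k0) κ :=
    (aeval z : MvPolynomial ι k0 →ₐ[k0] κ).toRingHom.toAlgebra
  let _ : Algebra (MvPolynomial ι k0) (Algebra.adjoin k0 (Set.range z)) :=
    (hz.1.aevalEquiv : MvPolynomial ι k0 ≃ₐ[k0] _).toAlgHom.toRingHom.toAlgebra
  have _ : IsScalarTower (MvPolynomial ι k0) (Algebra.adjoin k0 (Set.range z)) κ :=
    IsScalarTower.of_algebraMap_eq (fun p => by
      change aeval z p = ((hz.1.aevalEquiv p : Algebra.adjoin k0 (Set.range z)) : κ)
      simp)
  have _ : Algebra.FormallyEtale (MvPolynomial ι k0) (Algebra.adjoin k0 (Set.range z)) :=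
    Algebra.FormallyEtale.of_equiv (AlgEquiv.ofBijective
      (Algebra.ofId (MvPolynomial ι k0) (Algebra.adjoin k0 (Set.range z)))
      (hz.1.aevalEquiv.bijective))
  have _ : Algebra.FormallyEtale (Algebra.adjoin k0 (Set.range z))
      (IntermediateField.adjoin k0 (Set.range z)) :=
    Algebra.FormallyEtale.of_isLocalization (nonZeroDivisors _)
  have _ : Algebra.IsAlgebraic (IntermediateField.adjoin k0 (Set.range z)) κ :=
    hz.isAlgebraic_field
  have _ : Algebra.FormallyEtale (IntermediateField.adjoin k0 (Set.range z)) κ :=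
    Algebra.FormallyEtale.of_isSeparable _ κ
  have _ : Algebra.FormallyEtale (Algebra.adjoin k0 (Set.range z)) κ :=
    .comp _ (IntermediateField.adjoin k0 (Set.range z)) _
  exact .comp _ (Algebra.adjoin k0 (Set.range z)) _

open scoped TensorProduct in
theorem ker_deriv {k0 κ ι : Type} [Field k0] [CharZero k0] [Field κ] [Algebra k0 κ]
    (z : ι → κ) (hz : IsTranscendenceBasis k0 z) (g : ι → κ) :
    ∃ D : Derivation k0 κ κ, ∀ i, D (z i) = g i := by
  let _ : Algebra (MvPolynomial ι k0) κ :=
    (aeval z : MvPolynomial ι k0 →ₐ[k0] κ).toRingHom.toAlgebra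
  have hst : IsScalarTower k0 (MvPolynomial ι k0) κ :=
    IsScalarTower.of_algebraMap_eq (fun c => by
      change algebraMap k0 κ c = aeval z (algebraMap k0 (MvPolynomial ι k0) c)
      simp)
  have _ : Algebra.FormallyEtale (MvPolynomial ι k0) κ := ker_etale z hz
  let δ : Derivation k0 (MvPolynomial ι k0) κ := mkDerivation k0 g
  let l : κ ⊗[MvPolynomial ι k0] (Ω[MvPolynomial ι k0⁄k0]) →ₗ[κ] κ :=
    LinearMap.liftBaseChange κ δ.liftKaehlerDifferential
  let e := KaehlerDifferential.tensorKaehlerEquivOfFormallyEtale k0 (MvPolynomial ι k0) κ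
  refine ⟨(l ∘ₗ e.symm.toLinearMap).compDer (KaehlerDifferential.D k0 κ), fun i => ?_⟩
  have h1 : z i = algebraMap (MvPolynomial ι k0) κ (X i) := by
    change z i = aeval z (X i)
    simp
  have h2 := KaehlerDifferential.tensorKaehlerEquivOfFormallyEtale_symm_D_algebraMap
    k0 (MvPolynomial ι k0) κ (X i)
  change l (e.symm (KaehlerDifferential.D k0 κ (z i))) = g i
  rw [h1, h2]
  simp [l, δ]

/-- the constants of a derivation -/
def ker_const {k0 κ : Type} [Field k0] [Field κ] [Algebra k0 κ] (D : Derivation k0 κ κ) :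
    IntermediateField k0 κ where
  carrier := {a | D a = 0}
  mul_mem' := by
    intro a b ha hb
    simp only [Set.mem_ofPred_eq] at *
    rw [Derivation.leibniz, ha, hb]
    simp
  add_mem' := by
    intro a b ha hb
    simp only [Set.mem_ofPred_eq] at *
    rw [map_add, ha, hb, add_zero]
  algebraMap_mem' := by
    intro a
    simp
  inv_mem' := by
    intro a ha
    simp only [Set.mem_ofPred_eq] at *
    by_cases h0 : a = 0
    · simp [h0]
    · have h1 : D (a * a⁻¹) = 0 := by
        rw [mul_inv_cancel₀ h0]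
        simp
      rw [Derivation.leibniz, ha, smul_zero, add_zero, smul_eq_mul] at h1
      exact (mul_eq_zero.1 h1).resolve_left h0

theorem ker_mem {k0 κ : Type} [Field k0] [Field κ] [Algebra k0 κ] (D : Derivation k0 κ κ)
    (a : κ) : a ∈ ker_const D ↔ D a = 0 := Iff.rfl

/-- a derivation is linear over its constants -/
def ker_lin {k0 κ : Type} [Field k0] [Field κ] [Algebra k0 κ] (D : Derivation k0 κ κ) :
    Derivation (ker_const D) κ κ where
  toFun := D
  map_add' := map_add D
  map_smul' := by
    intro c a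
    have hc : D (c : κ) = 0 := c.2
    have h1 : c • a = (c : κ) * a := rfl
    have h2 : (RingHom.id (ker_const D)) c • D a = (c : κ) * D a := rfl
    rw [h1, h2, Derivation.leibniz, hc, smul_zero, add_zero, smul_eq_mul]
  map_one_eq_zero' := by simp
  leibniz' := by
    intro a b
    exact D.leibniz a b

theorem ker_kill {k0 κ : Type} [Field k0] [CharZero k0] [Field κ] [Algebra k0 κ]
    (D : Derivation k0 κ κ) (x : κ) (hx : IsAlgebraic (ker_const D) x) : D x = 0 := by
  have : CharZero (ker_const D) := by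
    exact charZero_of_injective_algebraMap (FaithfulSMul.algebraMap_injective k0 (ker_const D))
  have hi : IsIntegral (ker_const D) x := hx.isIntegral
  have hirr := minpoly.irreducible hi
  have hsep : (minpoly (ker_const D) x).Separable := hirr.separable
  have h1 := (ker_lin D).map_aeval (minpoly (ker_const D) x) x
  rw [minpoly.aeval, map_zero] at h1
  have h2 : Polynomial.aeval x (Polynomial.derivative (minpoly (ker_const D) x)) ≠ 0 :=
    hsep.aeval_derivative_ne_zero (minpoly.aeval _ _)
  rw [smul_eq_mul] at h1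
  exact (mul_eq_zero.1 h1.symm).resolve_left h2

theorem ker_alg {k0 κ : Type} [Field k0] [CharZero k0] [Field κ] [Algebra k0 κ]
    (D : Derivation k0 κ κ) (u : Set κ) (hu : ∀ a ∈ u, D a = 0) (x : κ)
    (hx : IsAlgebraic (Algebra.adjoin k0 u) x) : D x = 0 := by
  apply ker_kill
  have hle : Algebra.adjoin k0 u ≤ (ker_const D).toSubalgebra :=
    Algebra.adjoin_le fun a ha => hu a ha
  obtain ⟨P, hP, hP2⟩ := hx
  let φ : Algebra.adjoin k0 u →ₐ[k0] (ker_const D).toSubalgebra := Subalgebra.inclusion hle
  have hφ : Function.Injective φ := Subalgebra.inclusion_injective hle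
  refine ⟨P.map (φ : Algebra.adjoin k0 u →+* (ker_const D).toSubalgebra), ?_, ?_⟩
  · exact (Polynomial.map_ne_zero_iff hφ).2 hP
  · rw [Polynomial.aeval_def, Polynomial.eval₂_map] 
    rw [Polynomial.aeval_def] at hP2
    exact hP2


/-! ### derivations of power series, coefficientwise -/

/-- a derivation applied to the coefficients -/
noncomputable def ker_DD {k κ : Type} [Field k] [Field κ] [Algebra k κ] (D : Derivation k κ κ)
    (f : PowerSeries κ) : PowerSeries κ :=
  PowerSeries.mk fun n => D (PowerSeries.coeff n f)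

theorem ker_DD_coeff {k κ : Type} [Field k] [Field κ] [Algebra k κ] (D : Derivation k κ κ)
    (f : PowerSeries κ) (n : ℕ) :
    PowerSeries.coeff n (ker_DD D f) = D (PowerSeries.coeff n f) := by
  rw [ker_DD, PowerSeries.coeff_mk]

theorem ker_DD_add {k κ : Type} [Field k] [Field κ] [Algebra k κ] (D : Derivation k κ κ)
    (f g : PowerSeries κ) : ker_DD D (f + g) = ker_DD D f + ker_DD D g := by
  ext n
  rw [map_add, ker_DD_coeff, ker_DD_coeff, ker_DD_coeff, map_add, map_add]

theorem ker_DD_mul {k κ : Type} [Field k] [Field κ] [Algebra k κ] (D : Derivation k κ κ)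
    (f g : PowerSeries κ) : ker_DD D (f * g) = ker_DD D f * g + f * ker_DD D g := by
  ext n
  rw [map_add, ker_DD_coeff, PowerSeries.coeff_mul, PowerSeries.coeff_mul, PowerSeries.coeff_mul,
    map_sum, ← Finset.sum_add_distrib]
  refine Finset.sum_congr rfl fun a _ => ?_
  rw [Derivation.leibniz, ker_DD_coeff, ker_DD_coeff, smul_eq_mul, smul_eq_mul]
  ring

theorem ker_DD_alg {k κ : Type} [Field k] [Field κ] [Algebra k κ] (D : Derivation k κ κ)
    (a : k) : ker_DD D (algebraMap k (PowerSeries κ) a) = 0 := by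
  ext n
  rw [ker_DD_coeff, map_zero, PowerSeries.algebraMap_apply, PowerSeries.coeff_C]
  split_ifs
  · exact D.map_algebraMap a
  · exact map_zero D

/-- chain rule -/
theorem ker_chain {k κ : Type} [Field k] [Field κ] [Algebra k κ] {v : ℕ} (D : Derivation k κ κ)
    (f : Fin v → PowerSeries κ) (P : MvPolynomial (Fin v) k) :
    ker_DD D (aeval f P) = ∑ q, aeval f (pderiv q P) * ker_DD D (f q) := by
  induction P using MvPolynomial.induction_on with
  | C a =>
    rw [← MvPolynomial.algebraMap_eq, AlgHom.commutes, ker_DD_alg]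
    symm
    apply Finset.sum_eq_zero
    intro q _
    rw [MvPolynomial.algebraMap_eq, pderiv_C, map_zero, zero_mul]
  | add P Q hP hQ =>
    rw [map_add, ker_DD_add, hP, hQ, ← Finset.sum_add_distrib]
    refine Finset.sum_congr rfl fun q _ => ?_
    rw [map_add, map_add]
    ring
  | mul_X P i hP =>
    rw [map_mul, aeval_X, ker_DD_mul, hP]
    have h1 : ∀ q, aeval f (pderiv q (P * X i)) * ker_DD D (f q) =
        (aeval f (pderiv q P) * ker_DD D (f q)) * f i +
          (if q = i then aeval f P * ker_DD D (f q) else 0) := by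
      intro q
      rw [pderiv_mul, map_add, map_mul, map_mul, aeval_X, pderiv_X]
      by_cases h : q = i
      · subst h
        rw [if_pos rfl]
        simp
        ring
      · rw [if_neg h, Pi.single_eq_of_ne (Ne.symm h)]
        simp
        ring
    rw [Finset.sum_congr rfl (fun q _ => h1 q), Finset.sum_add_distrib, ← Finset.sum_mul,
      Finset.sum_ite_eq' Finset.univ i, if_pos (Finset.mem_univ i)]

theorem ker_hom {k A : Type} [Field k] [CommRing A] [Algebra k A] {v n : ℕ}
    (P : MvPolynomial (Fin v) k) (hP : P.IsHomogeneous n) (t : A) (y : Fin v → A) :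
    aeval (fun q => t * y q) P = t ^ n * aeval y P := by
  rw [aeval_def, aeval_def, eval₂_eq', eval₂_eq', Finset.mul_sum]
  refine Finset.sum_congr rfl fun m hm => ?_
  have h1 : ∑ q, m q = n := by
    have := hP (mem_support_iff.1 hm)
    rw [← this, Finsupp.weight_apply, Finsupp.sum_fintype]
    · simp
    · simp
  have h2 : ∏ q, (t * y q) ^ m q = t ^ n * ∏ q, y q ^ m q := by
    rw [← h1, ← Finset.prod_pow_eq_pow_sum, ← Finset.prod_mul_distrib]
    exact Finset.prod_congr rfl fun q _ => mul_pow _ _ _
  rw [h2]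
  ring

theorem ker_det {κ : Type} [Field κ] {n : Type} [Fintype n] [DecidableEq n]
    (M : Matrix n n (PowerSeries κ))
    (h : (M.map (PowerSeries.constantCoeff (R := κ))).det ≠ 0)
    (u : n → PowerSeries κ) (L : ℕ)
    (hu : ∀ i, (PowerSeries.X : PowerSeries κ) ^ L ∣ ∑ j, M i j * u j) (j : n) :
    (PowerSeries.X : PowerSeries κ) ^ L ∣ u j := by
  have h1 : IsUnit M.det := by
    rw [PowerSeries.isUnit_iff_constantCoeff, RingHom.map_det]
    exact isUnit_iff_ne_zero.2 h
  have h2 : (M.adjugate.mulVec (M.mulVec u)) j = M.det * u j := by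
    rw [Matrix.mulVec_mulVec, Matrix.adjugate_mul, Matrix.smul_mulVec, Matrix.one_mulVec]
    rfl
  have h3 : (PowerSeries.X : PowerSeries κ) ^ L ∣ (M.adjugate.mulVec (M.mulVec u)) j := by
    unfold Matrix.mulVec dotProduct
    exact Finset.dvd_sum fun i _ => Dvd.dvd.mul_left (hu i) _
  rw [h2] at h3
  exact h1.dvd_mul_left.1 h3

theorem ker_ord {κ : Type} [Field κ] {L c : ℕ} (f : PowerSeries κ) (h : c ≤ ordL L f) :
    (PowerSeries.X : PowerSeries κ) ^ c ∣ f := by
  rw [PowerSeries.X_pow_dvd_iff]
  intro m hm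
  apply PowerSeries.coeff_of_lt_order
  have h1 : ((ordL L f : ℕ) : ℕ∞) ≤ min (L : ℕ∞) f.order := by
    unfold ordL
    exact ENat.natCast_toNat_le_self _
  have h2 : ((ordL L f : ℕ) : ℕ∞) ≤ f.order := h1.trans (min_le_right _ _)
  exact lt_of_lt_of_le (by exact_mod_cast (lt_of_lt_of_le hm h)) h2

/-- the count of the derivations -/
theorem ker_main {p v L : ℕ} (d : Fin p → ℕ) {k κ : Type} [Field k] [CharZero k] [Field κ]
    [Algebra k κ] (G : Fin p → MvPolynomial (Fin v) k) (hG : ∀ i, (G i).IsHomogeneous (d i))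
    (x : Fin v → Fin L → κ) (c : ℕ) (hx : ∀ q, c ≤ ordL L (arc (x q)))
    (F : Finset (Fin p)) (J : F → Fin v)
    (hdet : (Matrix.of fun i i' : F => grad G (lead x c) i (J i')).det ≠ 0)
    {ι : Type} [Fintype ι] [DecidableEq ι] (D : ι → Derivation k κ κ) (b : ι → Fin v × Fin L)
    (hD : ∀ i j, D i (x (b j).1 (b j).2) = if i = j then 1 else 0)
    (h1 : ∀ (i : ι) (q : Fin v), q ∉ Set.range J → ∀ μ : Fin L, D i (x q μ) = 0)
    (h2 : ∀ (i : ι) (s : F) (μ : Fin L), D i (PowerSeries.coeff (μ : ℕ) (ev x (G s))) = 0) :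
    Fintype.card ι ≤ ∑ i ∈ F, (d i - 1) * c := by
  classical
  have hdvd : ∀ q, (PowerSeries.X : PowerSeries κ) ^ c ∣ arc (x q) := fun q => ker_ord _ (hx q)
  choose xt hxt using hdvd
  have hlead : ∀ q, PowerSeries.constantCoeff (xt q) = lead x c q := by
    intro q
    rw [lead, hxt q, PowerSeries.coeff_X_pow_mul', if_pos le_rfl, Nat.sub_self,
      PowerSeries.coeff_zero_eq_constantCoeff_apply]
  have hJ : Function.Injective J := by
    intro i i' hii
    by_contra hne
    apply hdet
    apply Matrix.det_zero_of_column_eq hne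
    intro l
    simp [hii]
  let M : Matrix F F (PowerSeries κ) := Matrix.of fun i i' => aeval xt (pderiv (J i') (G i))
  have hM : (M.map (PowerSeries.constantCoeff (R := κ))).det ≠ 0 := by
    have : M.map (PowerSeries.constantCoeff (R := κ)) =
        Matrix.of fun i i' : F => grad G (lead x c) i (J i') := by
      ext i i'
      simp only [M, Matrix.map_apply, Matrix.of_apply, grad]
      have e1 : PowerSeries.constantCoeff (aeval xt (pderiv (J i') (G i))) =
          eval₂ (algebraMap k κ) (fun q => PowerSeries.constantCoeff (xt q))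
            (pderiv (J i') (G i)) := by
        rw [aeval_def, MvPolynomial.hom_eval₂]
        congr 1
      rw [e1, aeval_def]
      congr 1
      funext q
      exact hlead q
    rw [this]
    exact hdet
  have hzero : ∀ (i : ι) (q : Fin v), q ∉ Set.range J → ker_DD (D i) (arc (x q)) = 0 := by
    intro i q hq
    ext n
    rw [ker_DD_coeff, map_zero, arc, PowerSeries.coeff_mk]
    split_ifs with hn
    · exact h1 i q hq ⟨n, hn⟩
    · exact map_zero _
  let W : ι → F → PowerSeries κ := fun b i => ∑ i', M i i' * ker_DD (D b) (arc (x (J i')))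
  have hW : ∀ (b : ι) (i : F), (PowerSeries.X : PowerSeries κ) ^ L ∣
      (PowerSeries.X : PowerSeries κ) ^ (c * (d i - 1)) * W b i := by
    intro b i
    have e1 : (PowerSeries.X : PowerSeries κ) ^ L ∣ ker_DD (D b) (ev x (G i)) := by
      rw [PowerSeries.X_pow_dvd_iff]
      intro m hm
      rw [ker_DD_coeff]
      exact h2 b i ⟨m, hm⟩
    rw [ev, ker_chain] at e1
    have e2 : ∑ q, aeval (fun i => arc (x i)) (pderiv q (G i)) * ker_DD (D b) (arc (x q)) =
        ∑ i' : F, aeval (fun i => arc (x i)) (pderiv (J i') (G i)) *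
          ker_DD (D b) (arc (x (J i'))) := by
      rw [← Finset.sum_image (s := Finset.univ) (g := J)
        (f := fun q => aeval (fun i => arc (x i)) (pderiv q (G i)) * ker_DD (D b) (arc (x q)))
        (fun a _ a' _ h => hJ h)]
      symm
      apply Finset.sum_subset (Finset.subset_univ _)
      intro q _ hq
      rw [hzero b q (fun ⟨a, ha⟩ => hq (Finset.mem_image.2 ⟨a, Finset.mem_univ _, ha⟩)), mul_zero]
    rw [e2] at e1
    have e3 : ∑ i' : F, aeval (fun i => arc (x i)) (pderiv (J i') (G i)) *
          ker_DD (D b) (arc (x (J i'))) =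
        (PowerSeries.X : PowerSeries κ) ^ (c * (d i - 1)) * W b i := by
      simp only [W, Finset.mul_sum, M, Matrix.of_apply]
      refine Finset.sum_congr rfl fun i' _ => ?_
      have e4 : (fun i => arc (x i)) = fun q => (PowerSeries.X : PowerSeries κ) ^ c * xt q := by
        funext q
        exact hxt q
      rw [e4, ker_hom _ ((hG i).pderiv) _ xt, ← pow_mul, mul_assoc]
    rw [e3] at e1
    exact e1
  have hWc : ∀ (b : ι) (i : F) (n : ℕ), n + c * (d i - 1) < L → PowerSeries.coeff n (W b i) = 0 := by
    intro b i n hn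
    have e1 := (PowerSeries.X_pow_dvd_iff.1 (hW b i)) (n + c * (d i - 1)) hn
    rwa [PowerSeries.coeff_X_pow_mul] at e1
  let vec : ι → ((Σ i : F, Fin ((d i - 1) * c)) → κ) := fun b s =>
    if (s.2 : ℕ) < L then PowerSeries.coeff (L - 1 - (s.2 : ℕ)) (W b s.1) else 0
  have hlin : LinearIndependent κ vec := by
    rw [Fintype.linearIndependent_iff]
    intro g hg
    have e1 : ∀ i : F, (PowerSeries.X : PowerSeries κ) ^ L ∣
        ∑ b, PowerSeries.C (g b) * W b i := by
      intro i
      rw [PowerSeries.X_pow_dvd_iff]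
      intro m hm
      rw [map_sum]
      simp only [PowerSeries.coeff_C_mul]
      by_cases hmc : m + c * (d i - 1) < L
      · apply Finset.sum_eq_zero
        intro b _
        rw [hWc b i m hmc, mul_zero]
      · have h3 : L - 1 - m < (d i - 1) * c := by
          rw [mul_comm]
          omega
        have h4 := congrFun hg ⟨i, ⟨L - 1 - m, h3⟩⟩
        rw [Finset.sum_apply] at h4
        simp only [vec, Pi.smul_apply, Pi.zero_apply, smul_eq_mul] at h4
        simp only [show L - 1 - m < L by omega, if_true, show L - 1 - (L - 1 - m) = m by omega] at h4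
        exact h4
    have e2 : ∀ i' : F, (PowerSeries.X : PowerSeries κ) ^ L ∣
        ∑ b, PowerSeries.C (g b) * ker_DD (D b) (arc (x (J i'))) := by
      refine ker_det M hM (fun i' => ∑ b, PowerSeries.C (g b) * ker_DD (D b) (arc (x (J i')))) L ?_
      intro i
      have e3 : ∑ i', M i i' * ∑ b, PowerSeries.C (g b) * ker_DD (D b) (arc (x (J i'))) =
          ∑ b, PowerSeries.C (g b) * W b i := by
        simp only [W, Finset.mul_sum]
        rw [Finset.sum_comm]
        refine Finset.sum_congr rfl fun b _ => Finset.sum_congr rfl fun i' _ => ?_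
        ring
      rw [e3]
      exact e1 i
    have e4 : ∀ (q : Fin v) (μ : Fin L), ∑ b, g b * D b (x q μ) = 0 := by
      intro q μ
      by_cases hq : q ∈ Set.range J
      · obtain ⟨i', rfl⟩ := hq
        have e5 := (PowerSeries.X_pow_dvd_iff.1 (e2 i')) μ μ.2
        rw [map_sum] at e5
        simp only [PowerSeries.coeff_C_mul, ker_DD_coeff, arc, PowerSeries.coeff_mk, μ.2,
          dif_pos] at e5
        exact e5
      · apply Finset.sum_eq_zero
        intro b _
        rw [h1 b q hq μ, mul_zero]
    intro j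
    have e6 := e4 (b j).1 (b j).2
    simp only [hD] at e6
    simpa using e6
  have hcard := hlin.fintype_card_le_finrank
  rw [Module.finrank_fintype_fun_eq_card, Fintype.card_sigma] at hcard
  simp only [Fintype.card_fin] at hcard
  rw [Finset.sum_coe_sort F (fun i => (d i - 1) * c)] at hcard
  exact hcard

/-- (KER) the coordinates `x_q`, `q ∉ J`, and the forms `G_i(x)`, `i ∈ F`, determine the jet `x`
up to `∑_F (d_i - 1) c` parameters -/
theorem ker_tau_pr {p v L : ℕ} (d : Fin p → ℕ) {k κ : Type} [Field k] [CharZero k] [Field κ]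
    [Algebra k κ] (G : Fin p → MvPolynomial (Fin v) k) (hG : ∀ i, (G i).IsHomogeneous (d i))
    (x : Fin v → Fin L → κ) (c : ℕ) (hc : c < L) (hx : ∀ q, c ≤ ordL L (arc (x q)))
    (F : Finset (Fin p)) (J : F → Fin v)
    (hdet : (Matrix.of fun i i' : F => grad G (lead x c) i (J i')).det ≠ 0) :
    tauJ k x ≤ tau k (Sum.elim (fun s : {q : Fin v // q ∉ Set.range J} × Fin L => x s.1 s.2)
        (fun s : F × Fin L => PowerSeries.coeff (s.2 : ℕ) (ev x (G s.1))))
      + ∑ i ∈ F, (d i - 1) * c := by
  classical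
  have _ := hc
  set y : ({q : Fin v // q ∉ Set.range J} × Fin L) ⊕ (F × Fin L) → κ :=
    Sum.elim (fun s : {q : Fin v // q ∉ Set.range J} × Fin L => x s.1 s.2)
        (fun s : F × Fin L => PowerSeries.coeff (s.2 : ℕ) (ev x (G s.1))) with hy
  have hemp : AlgebraicIndepOn k id (∅ : Set κ) := by
    have := (algebraicIndependent_empty_iff (R := k) (A := κ)).2
      (FaithfulSMul.algebraMap_injective k κ)
    exact this
  -- a general fact on maximal independent subsets
  have hmax : ∀ (s u : Set κ), Maximal (fun w => AlgebraicIndepOn k id w ∧ w ⊆ s) u →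
      ∀ a ∈ s, a ∉ u → IsAlgebraic (Algebra.adjoin k u) a := by
    intro s u hu a ha hau
    by_contra hcon
    have h1 : AlgebraicIndepOn k id (insert a u) := by
      apply AlgebraicIndepOn.insert hu.prop.1
      rw [Set.image_id]
      exact hcon
    have h2 : u = insert a u := hu.eq_of_subset ⟨h1, Set.insert_subset ha hu.prop.2⟩
      (Set.subset_insert _ _)
    exact hau (h2 ▸ Set.mem_insert a u)
  obtain ⟨u, -, hu⟩ := exists_maximal_algebraicIndependent (R := k) (∅ : Set κ) (Set.range y)
    (Set.empty_subset _) hemp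
  have hu1 : AlgebraicIndepOn k id u := hu.prop.1
  have hu2 : u ⊆ Set.range y := hu.prop.2
  have hufin : u.Finite := (Set.finite_range y).subset hu2
  have : Fintype u := hufin.fintype
  have htau : Fintype.card u ≤ tau k y := by
    choose f hf using fun a : u => hu2 a.2
    have hfinj : Function.Injective f := by
      intro a b hab
      apply Subtype.ext
      rw [← hf a, ← hf b, hab]
    let S : Finset (({q : Fin v // q ∉ Set.range J} × Fin L) ⊕ (F × Fin L)) :=
      Finset.univ.map ⟨f, hfinj⟩
    have hS : S.card = Fintype.card u := by simp [S]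
    have hmem : ∀ s : S, y s ∈ u := by
      rintro ⟨s, hs⟩
      simp only [S, Finset.mem_map, Finset.mem_univ, true_and, Function.Embedding.coeFn_mk] at hs
      obtain ⟨a, rfl⟩ := hs
      simp only [hf]
      exact a.2
    have hginj : Function.Injective (fun s : S => (⟨y s, hmem s⟩ : u)) := by
      rintro ⟨s, hs⟩ ⟨s', hs'⟩ hss
      simp only [S, Finset.mem_map, Finset.mem_univ, true_and, Function.Embedding.coeFn_mk]
        at hs hs'
      obtain ⟨a, rfl⟩ := hs
      obtain ⟨b, rfl⟩ := hs'
      have : (a : κ) = b := by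
        have := congrArg Subtype.val hss
        simpa [hf] using this
      have hab : a = b := Subtype.ext this
      subst hab
      rfl
    have hu1' : AlgebraicIndependent k (fun a : u => (a : κ)) := hu1
    have hind : AlgebraicIndependent k (fun s : S => y s) :=
      hu1'.comp (fun s : S => (⟨y s, hmem s⟩ : u)) hginj
    unfold tau
    refine le_csSup ⟨Fintype.card (({q : Fin v // q ∉ Set.range J} × Fin L) ⊕ (F × Fin L)), ?_⟩
      ⟨S, hS, hind⟩
    rintro n ⟨S', rfl, -⟩
    exact Finset.card_le_univ S'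
  have halgy : ∀ (D : Derivation k κ κ), (∀ a ∈ u, D a = 0) → ∀ j, D (y j) = 0 := by
    intro D hDu j
    by_cases hj : y j ∈ u
    · exact hDu _ hj
    · exact ker_alg D u hDu (y j) (hmax _ u hu _ ⟨j, rfl⟩ hj)
  unfold tauJ
  conv_lhs => unfold tau
  apply csSup_le
  · exact ⟨0, ∅, rfl, by
      have : IsEmpty ((∅ : Finset (Fin v × Fin L)) : Type) := by
        simp only [Finset.notMem_empty]
        infer_instance
      rw [algebraicIndependent_empty_type_iff]
      exact FaithfulSMul.algebraMap_injective k κ⟩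
  rintro n ⟨S, rfl, hS⟩
  obtain ⟨t1, hut1, ht1⟩ := exists_maximal_algebraicIndependent (R := k) u
    (u ∪ Set.range (fun s : S => x (s : Fin v × Fin L).1 (s : Fin v × Fin L).2))
    Set.subset_union_left hu1
  have ht1fin : t1.Finite := (hufin.union (Set.finite_range _)).subset ht1.prop.2
  have : Fintype t1 := ht1fin.fintype
  have hcard1 : Nat.card S ≤ Nat.card t1 := by
    refine (Pool.Agent.Lib_helper56.KSS.card_le_tau (K := k) (fun a : t1 => (a : κ)) _ hS ?_).trans
      (Pool.Agent.Lib_helper56.KSS.tau_le_card _)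
    intro s
    rw [Subtype.range_coe]
    rw [Pool.Agent.Lib_helper56.KSS.mem_closure_iff]
    by_cases hs : x (s : Fin v × Fin L).1 (s : Fin v × Fin L).2 ∈ t1
    · exact isAlgebraic_algebraMap (⟨_, Algebra.subset_adjoin hs⟩ : Algebra.adjoin k t1)
    · exact hmax _ t1 ht1 _ (Or.inr ⟨s, rfl⟩) hs
  obtain ⟨t, ht1t, ht⟩ := exists_isTranscendenceBasis_superset ht1.prop.1
  have hcard3 : Fintype.card t1 = Fintype.card u + Fintype.card (t1 \ u : Set κ) := by
    have h2 := Set.ncard_sdiff_add_ncard_of_subset hut1 (Set.toFinite t1)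
    rw [← Nat.card_coe_set_eq, ← Nat.card_coe_set_eq, ← Nat.card_coe_set_eq,
      Nat.card_eq_fintype_card, Nat.card_eq_fintype_card, Nat.card_eq_fintype_card] at h2
    omega
  have hDex : ∀ y : (t1 \ u : Set κ), ∃ D : Derivation k κ κ, ∀ a : t,
      D (a : κ) = if (a : κ) = y then 1 else 0 := by
    intro y
    exact ker_deriv (fun a : t => (a : κ)) ht (fun a : t => if (a : κ) = y then 1 else 0)
  choose D hD using hDex
  have hbs : ∀ a : (t1 \ u : Set κ), ∃ s : Fin v × Fin L, x s.1 s.2 = a := by
    intro a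
    rcases ht1.prop.2 a.2.1 with h | ⟨s, hs⟩
    · exact absurd h a.2.2
    · exact ⟨s, hs⟩
  choose b hb using hbs
  have hDu : ∀ (i : (t1 \ u : Set κ)), ∀ a ∈ u, D i a = 0 := by
    intro i a ha
    have h2 := hD i ⟨a, ht1t (hut1 ha)⟩
    simp only at h2
    rw [h2, if_neg]
    rintro rfl
    exact i.2.2 ha
  have hfin := ker_main d G hG x c hx F J hdet D b ?_ ?_ ?_
  · rw [Nat.card_eq_fintype_card, Fintype.card_coe, Nat.card_eq_fintype_card] at hcard1
    omega
  · intro i j
    rw [hb j]
    have h2 := hD i ⟨(j : κ), ht1t j.2.1⟩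
    simp only at h2
    rw [h2]
    by_cases hij : i = j
    · rw [hij, if_pos rfl, if_pos rfl]
    · rw [if_neg hij, if_neg]
      intro h
      exact hij (Subtype.ext h.symm)
  · intro i q hq μ
    exact halgy (D i) (hDu i) (Sum.inl (⟨q, hq⟩, μ))
  · intro i s μ
    exact halgy (D i) (hDu i) (Sum.inr (s, μ))

alias ker_tau := ker_tau_pr

end Pool.Agent.KSX
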