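import Pool.Agent.Lib_helper77.KSZ.XBase
import Pool.Agent.Lib_helper56.KSS.J3
import Pool.Agent.Lib_helper77.KSZ.XGLQ
import Pool.Agent.Lib_helper77.KSZ.XGRD
import Pool.Agent.Lib_helper77.KSZ.XKER

/-!
# KSX, block LCR: the small case
-/

set_option autoImplicit false

namespace Pool.Agent.KSX

open MvPolynomial Pool.Agent.KSS Filter Topology

/-- the transcendence degree is at most the number of nonzero members -/
theorem lcr_tau_le {k κ J : Type} [Field k] [Field κ] [Algebra k κ] [Fintype J] (y : J → κ)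
    (S : Finset J) (hS : ∀ j, y j ≠ 0 → j ∈ S) : tau k y ≤ S.card := by
  unfold Pool.Agent.KSS.tau
  apply csSup_le'
  rintro n ⟨T, rfl, hT⟩
  apply Finset.card_le_card
  intro j hj
  exact hS j (hT.ne_zero ⟨j, hj⟩)

theorem lcr_card_fin (L g : ℕ) :
    (Finset.univ.filter (fun μ : Fin L => g ≤ (μ : ℕ))).card ≤ L - g := by
  have h1 : (Finset.univ.filter (fun μ : Fin L => g ≤ (μ : ℕ))).card ≤ (Finset.Ico g L).card := by
    apply Finset.card_le_card_of_injOn (fun μ : Fin L => (μ : ℕ))
    · intro μ hμ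
      have h2 := (Finset.mem_filter.mp (Finset.mem_coe.mp hμ)).2
      exact Finset.mem_coe.mpr (Finset.mem_Ico.mpr ⟨h2, μ.2⟩)
    · intro a _ b _ hab
      exact Fin.ext hab
  rwa [Nat.card_Ico] at h1

/-- the coefficient of `t^0` -/
theorem lcr_coeff0 {k κ : Type} [Field k] [Field κ] [Algebra k κ] {v L : ℕ}
    (x : Fin v → Fin L → κ) (F : MvPolynomial (Fin v) k) :
    PowerSeries.coeff 0 (ev x F) = aeval (lead x 0) F := by
  have h3 : (PowerSeries.constantCoeff : PowerSeries κ →+* κ) (ev x F) =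
      aeval (fun q => PowerSeries.constantCoeff (arc (x q))) F := by
    unfold ev
    rw [aeval_def, aeval_def, hom_eval₂]
    congr 1
  have h4 : lead x 0 = fun q => PowerSeries.constantCoeff (arc (x q)) := by
    funext q
    unfold lead
    simp
  rw [PowerSeries.coeff_zero_eq_constantCoeff_apply, h3, h4]

theorem lcr_pt {κ : Type} [Field κ] {v L : ℕ} (hv : 0 < v) (hL : 0 < L) (x : Fin v → Fin L → κ)
    (h0 : c0J x = 0) : lead x 0 ≠ 0 := by
  have : Nonempty (Fin v) := ⟨⟨0, hv⟩⟩
  intro h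
  obtain ⟨q, hq⟩ := exists_eq_ciInf_of_finite (f := fun i => ordL L (arc (x i)))
  have hq' : ordL L (arc (x q)) = 0 := by
    have : ordL L (arc (x q)) = c0J x := hq
    rw [this, h0]
  have h1 := Pool.Agent.Lib_helper56.KSS.order_eq_of_ordL_lt (κ := κ) (L := L) (f := arc (x q))
    (by rw [hq']; exact hL)
  have h2 : PowerSeries.coeff 0 (arc (x q)) = 0 := congrFun h q
  rw [hq'] at h1
  exact (PowerSeries.order_eq_nat.mp h1).1 h2

theorem lcr_zero {k κ : Type} [Field k] [Field κ] [Algebra k κ] {v L : ℕ}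
    (x : Fin v → Fin L → κ) (F : MvPolynomial (Fin v) k) (μ : ℕ) (h : μ < ordL L (ev x F)) :
    PowerSeries.coeff μ (ev x F) = 0 :=
  PowerSeries.X_pow_dvd_iff.mp (Pool.Agent.Lib_helper56.KSS.ordL_dvd L (ev x F)) μ h

/-- Euler: the gradients lie in a hyperplane -/
theorem lcr_card {p v : ℕ} (d : Fin p → ℕ) {k κ : Type} [Field k] [Field κ] [Algebra k κ]
    (G : Fin p → MvPolynomial (Fin v) k) (hG : ∀ i, (G i).IsHomogeneous (d i))
    (pt : Fin v → κ) (hpt : pt ≠ 0) (F : Finset (Fin p)) (h : ∀ i ∈ F, aeval pt (G i) = 0)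
    (hl : LinearIndependent κ (fun i : F => grad G pt i)) : F.card < v := by
  classical
  set ℓ : (Fin v → κ) →ₗ[κ] κ :=
    { toFun := fun u => ∑ q, pt q * u q
      map_add' := by
        intro a b
        simp only [Pi.add_apply, mul_add, Finset.sum_add_distrib]
      map_smul' := by
        intro c a
        simp only [Pi.smul_apply, smul_eq_mul, RingHom.id_apply, Finset.mul_sum]
        exact Finset.sum_congr rfl fun q _ => by ring } with hℓ
  have hmem : ∀ i : F, grad G pt i ∈ LinearMap.ker ℓ := by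
    intro i
    rw [LinearMap.mem_ker]
    have h1 := congrArg (aeval pt) (hG i).sum_X_mul_pderiv
    rw [map_sum, map_nsmul, h i i.2, smul_zero] at h1
    simp only [map_mul, aeval_X] at h1
    exact h1
  have hsurj : LinearMap.range ℓ = ⊤ := by
    obtain ⟨q, hq⟩ : ∃ q, pt q ≠ 0 := by
      by_contra hcon
      push Not at hcon
      exact hpt (funext hcon)
    rw [LinearMap.range_eq_top]
    intro c
    refine ⟨Pi.single q (c / pt q), ?_⟩
    change ∑ q', pt q' * (Pi.single q (c / pt q) : Fin v → κ) q' = c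
    rw [Finset.sum_eq_single q]
    · rw [Pi.single_eq_same]
      field_simp
    · intro b _ hb
      rw [Pi.single_eq_of_ne hb, mul_zero]
    · intro hq'
      exact absurd (Finset.mem_univ q) hq'
  have hrk := LinearMap.finrank_range_add_finrank_ker ℓ
  rw [hsurj, finrank_top, Module.finrank_self, Module.finrank_fin_fun] at hrk
  set w : F → LinearMap.ker ℓ := fun i => ⟨grad G pt i, hmem i⟩ with hw
  have hwi : LinearIndependent κ w := by
    apply LinearIndependent.of_comp (LinearMap.ker ℓ).subtype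
    exact hl
  have h2 := hwi.fintype_card_le_finrank
  rw [Fintype.card_coe] at h2
  omega

theorem lc_rec_pr {p : ℕ} (d : Fin p → ℕ) (hd : ∀ i, 2 ≤ d i) (v : ℕ) (hv : 0 < v)
    (F : Finset (Fin p))
    (R : Rec p) (hR : R.Of d v) (hL : 0 < R.L) (h0 : R.c0 = 0) (hg : ∀ i ∈ F, 0 < R.g i) :
    ∑ i ∈ F, R.g i + R.τ ≤ v * R.L ∧ F.card < v := by
  classical
  obtain ⟨k, _, _, G, κ, _, _, x, hG, hτ, -, hgi, hc⟩ := hR
  have hpt : lead x 0 ≠ 0 := lcr_pt hv hL x (hc.trans h0)
  have hz : ∀ i ∈ F, aeval (lead x 0) (G i) = 0 := by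
    intro i hi
    rw [← lcr_coeff0]
    apply lcr_zero
    rw [hgi i]
    exact hg i hi
  have hl : LinearIndependent κ (fun i : F => grad G (lead x 0) i) := by
    rcases F.eq_empty_or_nonempty with rfl | ⟨i0, hi0⟩
    · exact linearIndependent_empty_type
    · exact grad_indep d (fun i => (by norm_num : 1 ≤ 2).trans (hd i)) G hG (lead x 0) hpt F i0
        (fun i hi _ => hz i hi)
  have hcard : F.card < v := lcr_card d G hG.1 (lead x 0) hpt F hz hl
  refine ⟨?_, hcard⟩
  obtain ⟨G2, x2, hG2, hrec, hJ⟩ := gen_coord d G hG x F hl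
  obtain ⟨J⟩ : Nonempty (F ↪ Fin v) := by
    apply Function.Embedding.nonempty_of_card_le
    rw [Fintype.card_coe, Fintype.card_fin]
    exact hcard.le
  have hτ2 : tauJ k x2 = R.τ := by
    have := congrArg Rec.τ hrec
    exact this.trans hτ
  have hg2 : ∀ i, ordL R.L (ev x2 (G2 i)) = R.g i := by
    intro i
    have := congrFun (congrArg Rec.g hrec) i
    exact this.trans (hgi i)
  have hker := ker_tau d G2 hG2.1 x2 0 hL (fun q => Nat.zero_le _) F J (hJ J J.injective)
  rw [hτ2] at hker
  simp only [mul_zero, Finset.sum_const_zero, add_zero] at hker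
  set S : Finset (({q : Fin v // q ∉ Set.range J} × Fin R.L) ⊕ (F × Fin R.L)) :=
    Finset.univ.disjSum
      (Finset.univ.filter (fun s : F × Fin R.L => R.g s.1 ≤ (s.2 : ℕ))) with hS
  have hle := lcr_tau_le (k := k)
    (Sum.elim (fun s : {q : Fin v // q ∉ Set.range J} × Fin R.L => x2 s.1 s.2)
        (fun s : F × Fin R.L => PowerSeries.coeff (s.2 : ℕ) (ev x2 (G2 s.1)))) S (by
      rintro (s | s) hs
      · rw [hS, Finset.inl_mem_disjSum]
        exact Finset.mem_univ _
      · rw [hS, Finset.inr_mem_disjSum, Finset.mem_filter]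
        refine ⟨Finset.mem_univ _, ?_⟩
        by_contra hcon
        apply hs
        change PowerSeries.coeff (s.2 : ℕ) (ev x2 (G2 s.1)) = 0
        apply lcr_zero
        rw [hg2]
        omega)
  have hc1 : Fintype.card {q : Fin v // q ∉ Set.range J} = v - F.card := by
    have h1 : Fintype.card {q : Fin v // q ∉ Set.range J} =
        Fintype.card (Fin v) - Fintype.card {q : Fin v // q ∈ Set.range J} :=
      Fintype.card_subtype_compl _
    rw [h1, Fintype.card_fin]
    congr 1
    have h2 : Fintype.card {q : Fin v // q ∈ Set.range J} = Fintype.card F :=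
      (Fintype.card_congr (Equiv.ofInjective J J.injective)).symm
    rw [h2, Fintype.card_coe]
  have hc2 : (Finset.univ.filter (fun s : F × Fin R.L => R.g s.1 ≤ (s.2 : ℕ))).card ≤
      ∑ i ∈ F, (R.L - R.g i) := by
    rw [Finset.card_filter, Fintype.sum_prod_type]
    simp only [← Finset.card_filter]
    calc ∑ i : F, (Finset.univ.filter (fun μ : Fin R.L => R.g i ≤ (μ : ℕ))).card
        ≤ ∑ i : F, (R.L - R.g i) := Finset.sum_le_sum fun i _ => lcr_card_fin _ _
      _ = ∑ i ∈ F, (R.L - R.g i) := Finset.sum_coe_sort F (fun i => R.L - R.g i)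
  have hSc : S.card ≤ (v - F.card) * R.L + ∑ i ∈ F, (R.L - R.g i) := by
    rw [hS, Finset.card_disjSum, Finset.card_univ, Fintype.card_prod, hc1, Fintype.card_fin]
    exact Nat.add_le_add_left hc2 _
  have hgL : ∀ i, R.g i ≤ R.L := fun i => by
    rw [← hgi i]
    exact Pool.Agent.Lib_helper56.KSS.ordL_le _ _
  have hsum : ∑ i ∈ F, R.g i + ∑ i ∈ F, (R.L - R.g i) = F.card * R.L := by
    rw [← Finset.sum_add_distrib]
    rw [Finset.sum_congr rfl (fun i _ => Nat.add_sub_cancel' (hgL i))]
    simp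
  have hvL : (v - F.card) * R.L + F.card * R.L = v * R.L := by
    rw [← Nat.add_mul, Nat.sub_add_cancel hcard.le]
  omega

alias lc_rec := lc_rec_pr

end Pool.Agent.KSX
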