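import Pool.Agent.Lib_helper77.KSZ.XBase
import Pool.Agent.Lib_helper77.KSZ.XLCR

/-!
# KSX, block QLC: no near-equality sequence with `c0 = 0` in the small case
(cites `lc_rec_pr` of helper62, with the extra hypothesis `0 < v`)
-/

set_option autoImplicit false

namespace Pool.Agent.KSX

open MvPolynomial Pool.Agent.KSS Filter Topology

/-- (QLC) no near-equality sequence with `c0 = 0` in the small case -/
theorem lc_contra_pr {p : ℕ} (d : Fin p → ℕ) (hd : ∀ i, 2 ≤ d i) (v : ℕ) (B E : Finset (Fin p))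
    (hBE : Disjoint B E) (hB : ∑ i ∈ B, d i < v) (hv : v < ∑ i ∈ B ∪ E, d i)
    {ι : Type} (U : Ultrafilter ι) (R : ι → Rec p) (q : ι → ℝ) (M0 : ι → ℕ)
    (h : NE d v B E U R q M0) (h0 : ∀ᶠ n in U, (R n).c0 = 0) : False := by
  have hv0 : 0 < v := lt_of_le_of_lt (Nat.zero_le _) hB
  -- `g_i > 0` for `i ∈ E`
  have hE : ∀ᶠ n in U, ∀ i ∈ E, 0 < (R n).g i := by
    rw [eventually_all_finset]
    intro i hi
    have h1 := h.glim i hi
    have h2 : (0 : ℝ) < d i := by
      have := hd i
      exact_mod_cast (by omega : 0 < d i)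
    filter_upwards [h1.eventually (lt_mem_nhds h2)] with n hn
    by_contra h3
    have h4 : (R n).g i = 0 := by omega
    rw [h4] at hn
    simp at hn
  -- `L > 0`
  have hL : ∀ᶠ n in U, 0 < (R n).L := by
    filter_upwards [h.Llim.eventually (eventually_gt_atTop 0)] with n hn
    by_contra h3
    have h4 : (R n).L = 0 := by omega
    rw [h4] at hn
    simp at hn
  have key : ∀ᶠ n in U, ∑ i ∈ E, ((R n).g i : ℝ) / sn d v B R q M0 n ≤
      (R n).cd v B / sn d v B R q M0 n := by
    filter_upwards [h.of, h.gB, h.spos, hE, hL, h0] with n hof hgB hs hgE hLn h0n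
    have hg : ∀ i ∈ B ∪ E, 0 < (R n).g i := by
      intro i hi
      rcases Finset.mem_union.mp hi with hi | hi
      · rw [hgB i hi]; exact hLn
      · exact hgE i hi
    have h1 := (lc_rec_pr d hd v hv0 (B ∪ E) (R n) hof hLn h0n hg).1
    rw [Finset.sum_union hBE, Finset.sum_congr rfl hgB, Finset.sum_const, smul_eq_mul] at h1
    have h2 : ((B.card : ℝ) * (R n).L + ∑ i ∈ E, ((R n).g i : ℝ)) + (R n).τ ≤ v * (R n).L := by
      exact_mod_cast h1
    rw [← Finset.sum_div]
    apply div_le_div_of_nonneg_right _ hs.le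
    unfold Rec.cd
    linarith
  have hlim : Tendsto (fun n => ∑ i ∈ E, ((R n).g i : ℝ) / sn d v B R q M0 n) U
      (𝓝 (∑ i ∈ E, (d i : ℝ))) := tendsto_finsetSum _ (fun i hi => h.glim i hi)
  have hle := le_of_tendsto_of_tendsto hlim h.cdlim key
  unfold Ind at hle
  rw [Finset.sum_union hBE] at hv
  have hv' : (v : ℝ) < (∑ i ∈ B, (d i : ℝ)) + ∑ i ∈ E, (d i : ℝ) := by exact_mod_cast hv
  linarith

alias lc_contra := lc_contra_pr

end Pool.Agent.KSX
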