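import Pool.Agent.Lib_helper77.KSZ.XBase

/-!
# KSX block CNT: Laplace transform of the counting function, lower bound
-/

namespace Pool.Agent.KSX

open MvPolynomial Pool.Agent.KSS Filter Topology

theorem cnt_geo {θ : ℝ} (h0 : 0 < θ) (h1 : θ < 1) (o L : ℕ) :
    θ ^ o - θ ^ L ≤ (1 - θ) / θ * ∑ l ∈ Finset.Icc 1 L, θ ^ l * (if o < l then (1 : ℝ) else 0) := by
  induction L with
  | zero =>
    have : θ ^ o ≤ 1 := pow_le_one₀ h0.le h1.le
    simp
    linarith
  | succ L ih =>
    rw [← Finset.insert_Icc_right_eq_Icc_add_one (by omega : 1 ≤ L + 1), Finset.sum_insert (by simp)]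
    by_cases h : o < L + 1
    · rw [if_pos h]
      have h2 : (1 - θ) / θ * (θ ^ (L + 1) * 1) = θ ^ L - θ ^ (L + 1) := by
        rw [pow_succ]; field_simp
      rw [mul_add, h2]
      linarith
    · have h3 : θ ^ o ≤ θ ^ (L + 1) := pow_le_pow_of_le_one h0.le h1.le (by omega)
      have h4 : 0 ≤ (1 - θ) / θ * (θ ^ (L + 1) * (if o < L + 1 then (1 : ℝ) else 0)
          + ∑ l ∈ Finset.Icc 1 L, θ ^ l * (if o < l then (1 : ℝ) else 0)) := by
        apply mul_nonneg (div_nonneg (by linarith) h0.le)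
        apply add_nonneg
        · split_ifs <;> positivity
        · apply Finset.sum_nonneg
          intro l _
          split_ifs <;> positivity
      linarith

theorem cnt_finite {T : Type} [Fintype T] (deg ord : T → ℕ) (hdeg : ∀ t, 1 ≤ deg t) (m l : ℕ) :
    {b : T → ℕ | ∑ t, deg t * b t = m ∧ ∑ t, ord t * b t < l}.Finite := by
  classical
  apply Set.Finite.subset (Set.Finite.pi' (fun _ : T => Set.finite_Iic m))
  rintro b ⟨hb, _⟩ t
  have h1 : deg t * b t ≤ ∑ t, deg t * b t :=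
    Finset.single_le_sum (f := fun t => deg t * b t) (fun _ _ => Nat.zero_le _) (Finset.mem_univ t)
  have h2 : b t ≤ deg t * b t := Nat.le_mul_of_pos_left _ (hdeg t)
  simp only [Set.mem_Iic]
  omega

theorem cnt_box_le {T : Type} [Fintype T] (deg ord : T → ℕ) (hdeg : ∀ t, 1 ≤ deg t) (m l : ℕ)
    (box : Finset (T → ℕ)) :
    ∑ b ∈ box, (if ∑ t, deg t * b t = m then (if ∑ t, ord t * b t < l then (1 : ℝ) else 0) else 0)
      ≤ (cnt deg ord m l : ℝ) := by
  classical
  have h1 : ∑ b ∈ box, (if ∑ t, deg t * b t = m then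
      (if ∑ t, ord t * b t < l then (1 : ℝ) else 0) else 0) =
      ((box.filter (fun b => ∑ t, deg t * b t = m ∧ ∑ t, ord t * b t < l)).card : ℝ) := by
    rw [Finset.card_filter]
    push_cast
    apply Finset.sum_congr rfl
    intro b _
    by_cases h : ∑ t, deg t * b t = m
    · by_cases h' : ∑ t, ord t * b t < l
      · rw [if_pos h, if_pos h', if_pos ⟨h, h'⟩]
      · rw [if_pos h, if_neg h', if_neg (fun hh => h' hh.2)]
    · rw [if_neg h, if_neg (fun hh => h hh.1)]
  rw [h1]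
  have h2 : (box.filter (fun b => ∑ t, deg t * b t = m ∧ ∑ t, ord t * b t < l)).card ≤
      {b : T → ℕ | ∑ t, deg t * b t = m ∧ ∑ t, ord t * b t < l}.ncard := by
    rw [← Set.ncard_coe_finset]
    apply Set.ncard_le_ncard _ (cnt_finite deg ord hdeg m l)
    intro b hb
    exact (Finset.mem_filter.mp hb).2
  exact_mod_cast h2

theorem cnt_prod {T : Type} [Fintype T] [DecidableEq T] (x y : ℝ) (deg ord : T → ℕ) (N : ℕ) :
    ∏ t, ∑ k ∈ Finset.range N, (x ^ (deg t) * y ^ (ord t)) ^ k =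
      ∑ b ∈ Fintype.piFinset (fun _ : T => Finset.range N),
        x ^ (∑ t, deg t * b t) * y ^ (∑ t, ord t * b t) := by
  rw [Finset.prod_univ_sum]
  apply Finset.sum_congr rfl
  intro b _
  rw [← Finset.prod_pow_eq_pow_sum, ← Finset.prod_pow_eq_pow_sum, ← Finset.prod_mul_distrib]
  apply Finset.prod_congr rfl
  intro t _
  rw [mul_pow, ← pow_mul, ← pow_mul]

theorem cnt_partial {T : Type} [Fintype T] (x : ℝ) (h0 : 0 ≤ x) (h1 : x < 1) (deg : T → ℕ)
    (hdeg : ∀ t, 1 ≤ deg t) (N : ℕ) :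
    ∏ t, ∑ k ∈ Finset.range N, (x ^ (deg t)) ^ k ≤ ∏ t, (1 - x ^ (deg t))⁻¹ := by
  apply Finset.prod_le_prod
  · intro t _
    exact Finset.sum_nonneg fun k _ => by positivity
  · intro t _
    have h3 : x ^ deg t < 1 := pow_lt_one₀ h0 h1 (by have := hdeg t; omega)
    have h4 : 0 ≤ x ^ deg t := by positivity
    exact (summable_geometric_of_lt_one h4 h3).sum_le_tsum _ (fun _ _ => by positivity) |>.trans
      (tsum_geometric_of_lt_one h4 h3).le

/-- (CNT) Laplace transform of `cnt`, lower bound -/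
theorem cnt_lap_pr {T : Type} [Fintype T] (deg ord : T → ℕ) (hdeg : ∀ t, 1 ≤ deg t)
    (q θ : ℝ) (hq0 : 0 < q) (hq1 : q < 1) (hθ0 : 0 < θ) (hθ1 : θ < 1) (M0 L : ℕ) :
    ∏ t, (1 - q ^ (deg t) * θ ^ (ord t))⁻¹
      - (√q) ^ M0 * ∏ t, (1 - (√q) ^ (deg t))⁻¹ - θ ^ L * ∏ t, (1 - q ^ (deg t))⁻¹
    ≤ (1 - θ) / θ * ∑ m ∈ Finset.range (M0 + 1),
        q ^ m * ∑ l ∈ Finset.Icc 1 L, θ ^ l * (cnt deg ord m l : ℝ) := by
  classical
  set Q : ℝ := (1 - θ) / θ * ∑ m ∈ Finset.range (M0 + 1),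
        q ^ m * ∑ l ∈ Finset.Icc 1 L, θ ^ l * (cnt deg ord m l : ℝ) with hQ
  have hr0 : 0 < √q := Real.sqrt_pos.mpr hq0
  have hr1 : √q < 1 := by
    rw [Real.sqrt_lt' one_pos]; simpa using hq1
  have hrr : √q * √q = q := Real.mul_self_sqrt hq0.le
  have hth : 0 ≤ (1 - θ) / θ := div_nonneg (by linarith) hθ0.le
  -- the bound for every box
  have hN : ∀ N : ℕ, ∏ t, ∑ k ∈ Finset.range N, (q ^ (deg t) * θ ^ (ord t)) ^ k ≤
      Q + (√q) ^ M0 * ∏ t, (1 - (√q) ^ (deg t))⁻¹ + θ ^ L * ∏ t, (1 - q ^ (deg t))⁻¹ := by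
    intro N
    rw [cnt_prod]
    set box := Fintype.piFinset (fun _ : T => Finset.range N) with hbox
    have hpt : ∀ b : T → ℕ, q ^ (∑ t, deg t * b t) * θ ^ (∑ t, ord t * b t) ≤
        (if ∑ t, deg t * b t ≤ M0 then
          q ^ (∑ t, deg t * b t) * (θ ^ (∑ t, ord t * b t) - θ ^ L) else 0)
        + (√q) ^ M0 * (√q) ^ (∑ t, deg t * b t) + θ ^ L * q ^ (∑ t, deg t * b t) := by
      intro b
      by_cases h : ∑ t, deg t * b t ≤ M0
      · rw [if_pos h]
        have : 0 ≤ (√q) ^ M0 * (√q) ^ (∑ t, deg t * b t) := by positivity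
        nlinarith
      · rw [if_neg h]
        push Not at h
        have h1 : q ^ (∑ t, deg t * b t) = (√q) ^ (∑ t, deg t * b t) * (√q) ^ (∑ t, deg t * b t) := by
          rw [← mul_pow, hrr]
        have h2 : (√q) ^ (∑ t, deg t * b t) ≤ (√q) ^ M0 :=
          pow_le_pow_of_le_one hr0.le hr1.le h.le
        have h3 : θ ^ (∑ t, ord t * b t) ≤ 1 := pow_le_one₀ hθ0.le hθ1.le
        have h4 : 0 ≤ (√q) ^ (∑ t, deg t * b t) := by positivity
        have h5 : 0 ≤ q ^ (∑ t, deg t * b t) := by positivity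
        have h6 : 0 ≤ θ ^ L * q ^ (∑ t, deg t * b t) := by positivity
        calc q ^ (∑ t, deg t * b t) * θ ^ (∑ t, ord t * b t)
            ≤ q ^ (∑ t, deg t * b t) * 1 := mul_le_mul_of_nonneg_left h3 h5
          _ = (√q) ^ (∑ t, deg t * b t) * (√q) ^ (∑ t, deg t * b t) := by rw [mul_one, h1]
          _ ≤ (√q) ^ M0 * (√q) ^ (∑ t, deg t * b t) := mul_le_mul_of_nonneg_right h2 h4
          _ ≤ _ := by linarith
    refine (Finset.sum_le_sum fun b _ => hpt b).trans ?_
    rw [Finset.sum_add_distrib, Finset.sum_add_distrib, ← Finset.mul_sum, ← Finset.mul_sum]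
    have h2 : ∑ b ∈ box, (√q) ^ (∑ t, deg t * b t) ≤ ∏ t, (1 - (√q) ^ (deg t))⁻¹ := by
      refine le_trans (le_of_eq ?_) (cnt_partial (√q) hr0.le hr1 deg hdeg N)
      have := cnt_prod (√q) 1 deg ord N
      simp only [one_pow, mul_one] at this
      rw [this]
    have h3 : ∑ b ∈ box, q ^ (∑ t, deg t * b t) ≤ ∏ t, (1 - q ^ (deg t))⁻¹ := by
      refine le_trans (le_of_eq ?_) (cnt_partial q hq0.le hq1 deg hdeg N)
      have := cnt_prod q 1 deg ord N
      simp only [one_pow, mul_one] at this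
      rw [this]
    have h1 : ∑ b ∈ box, (if ∑ t, deg t * b t ≤ M0 then
          q ^ (∑ t, deg t * b t) * (θ ^ (∑ t, ord t * b t) - θ ^ L) else 0) ≤ Q := by
      have e1 : ∀ b : T → ℕ, (if ∑ t, deg t * b t ≤ M0 then
          q ^ (∑ t, deg t * b t) * (θ ^ (∑ t, ord t * b t) - θ ^ L) else 0) ≤
          (1 - θ) / θ * ∑ m ∈ Finset.range (M0 + 1), q ^ m * ∑ l ∈ Finset.Icc 1 L, θ ^ l *
            (if ∑ t, deg t * b t = m then (if ∑ t, ord t * b t < l then (1 : ℝ) else 0) else 0) := by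
        intro b
        by_cases h : ∑ t, deg t * b t ≤ M0
        · rw [if_pos h]
          have e2 : ∑ m ∈ Finset.range (M0 + 1), q ^ m * ∑ l ∈ Finset.Icc 1 L, θ ^ l *
            (if ∑ t, deg t * b t = m then (if ∑ t, ord t * b t < l then (1 : ℝ) else 0) else 0)
            = q ^ (∑ t, deg t * b t) * ∑ l ∈ Finset.Icc 1 L, θ ^ l *
              (if ∑ t, ord t * b t < l then (1 : ℝ) else 0) := by
            rw [Finset.sum_eq_single_of_mem (∑ t, deg t * b t)
              (Finset.mem_range.mpr (by omega))]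
            · simp
            · intro m _ hm
              have : ∀ l ∈ Finset.Icc 1 L, θ ^ l * (if ∑ t, deg t * b t = m then
                  (if ∑ t, ord t * b t < l then (1 : ℝ) else 0) else 0) = 0 := by
                intro l _
                rw [if_neg (fun hh => hm hh.symm), mul_zero]
              rw [Finset.sum_eq_zero this, mul_zero]
          rw [e2]
          have e3 := cnt_geo hθ0 hθ1 (∑ t, ord t * b t) L
          have e4 : 0 ≤ q ^ (∑ t, deg t * b t) := by positivity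
          calc _ ≤ q ^ (∑ t, deg t * b t) * ((1 - θ) / θ * ∑ l ∈ Finset.Icc 1 L, θ ^ l *
              (if ∑ t, ord t * b t < l then (1 : ℝ) else 0)) := mul_le_mul_of_nonneg_left e3 e4
            _ = _ := by ring
        · rw [if_neg h]
          apply mul_nonneg hth
          apply Finset.sum_nonneg
          intro m _
          apply mul_nonneg (by positivity)
          apply Finset.sum_nonneg
          intro l _
          apply mul_nonneg (by positivity)
          split_ifs <;> norm_num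
      refine (Finset.sum_le_sum fun b _ => e1 b).trans ?_
      rw [← Finset.mul_sum, hQ]
      apply mul_le_mul_of_nonneg_left _ hth
      rw [Finset.sum_comm]
      apply Finset.sum_le_sum
      intro m _
      rw [← Finset.mul_sum]
      apply mul_le_mul_of_nonneg_left _ (by positivity)
      rw [Finset.sum_comm]
      apply Finset.sum_le_sum
      intro l _
      rw [← Finset.mul_sum]
      apply mul_le_mul_of_nonneg_left _ (by positivity)
      exact cnt_box_le deg ord hdeg m l box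
    have h4 : (√q) ^ M0 * ∑ b ∈ box, (√q) ^ (∑ t, deg t * b t) ≤
        (√q) ^ M0 * ∏ t, (1 - (√q) ^ (deg t))⁻¹ := mul_le_mul_of_nonneg_left h2 (by positivity)
    have h5 : θ ^ L * ∑ b ∈ box, q ^ (∑ t, deg t * b t) ≤ θ ^ L * ∏ t, (1 - q ^ (deg t))⁻¹ :=
      mul_le_mul_of_nonneg_left h3 (by positivity)
    linarith
  -- the limit
  have hlim : Tendsto (fun N : ℕ => ∏ t, ∑ k ∈ Finset.range N, (q ^ (deg t) * θ ^ (ord t)) ^ k)
      atTop (𝓝 (∏ t, (1 - q ^ (deg t) * θ ^ (ord t))⁻¹)) := by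
    apply tendsto_finset_prod
    intro t _
    have h3 : q ^ deg t < 1 := pow_lt_one₀ hq0.le hq1 (by have := hdeg t; omega)
    have h4 : θ ^ ord t ≤ 1 := pow_le_one₀ hθ0.le hθ1.le
    have h5 : 0 < q ^ deg t := by positivity
    have h6 : 0 < θ ^ ord t := by positivity
    have h7 : q ^ deg t * θ ^ ord t < 1 := by nlinarith
    exact (hasSum_geometric_of_lt_one (by positivity) h7).tendsto_sum_nat
  have := le_of_tendsto' hlim hN
  linarith

alias cnt_lap := cnt_lap_pr

end Pool.Agent.KSX
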