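import Pool.Agent.Lib_helper77.KSZ.XBase

/-!
# KSX, block BAS: elementary properties of records of jets
-/

namespace Pool.Agent.KSX

open MvPolynomial Pool.Agent.KSS Filter Topology

theorem bas_ordL_le {κ : Type} [Field κ] (L : ℕ) (f : PowerSeries κ) : ordL L f ≤ L := by
  unfold ordL
  have h : min (L : ℕ∞) f.order ≤ (L : ℕ∞) := min_le_left _ _
  exact ENat.toNat_le_of_le_coe h

theorem bas_dvd_iff {κ : Type} [Field κ] {l L : ℕ} (hl : l ≤ L) (f : PowerSeries κ) :
    (PowerSeries.X : PowerSeries κ) ^ l ∣ f ↔ l ≤ ordL L f := by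
  have hne : min (L : ℕ∞) f.order ≠ ⊤ := by
    intro h
    have : (L : ℕ∞) = ⊤ := (min_eq_top.1 h).1
    exact ENat.coe_ne_top L this
  have h1 : ((ordL L f : ℕ) : ℕ∞) = min (L : ℕ∞) f.order := by
    unfold ordL
    exact ENat.coe_toNat hne
  constructor
  · intro h
    have h2 : (l : ℕ∞) ≤ f.order := by
      apply PowerSeries.le_order
      intro i hi
      exact (PowerSeries.X_pow_dvd_iff.1 h) i (by exact_mod_cast hi)
    have h3 : (l : ℕ∞) ≤ ((ordL L f : ℕ) : ℕ∞) := by
      rw [h1]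
      exact le_min (by exact_mod_cast hl) h2
    exact_mod_cast h3
  · intro h
    have h3 : (l : ℕ∞) ≤ f.order := by
      have h2 : (l : ℕ∞) ≤ ((ordL L f : ℕ) : ℕ∞) := by exact_mod_cast h
      rw [h1] at h2
      exact h2.trans (min_le_right _ _)
    rw [PowerSeries.X_pow_dvd_iff]
    intro m hm
    apply PowerSeries.coeff_of_lt_order
    exact lt_of_lt_of_le (by exact_mod_cast hm) h3

/-- a form of degree `m` has order at least `c m` if the coordinates have order at least `c` -/
theorem bas_form {k κ : Type} [Field k] [Field κ] [Algebra k κ] {v L : ℕ}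
    (x : Fin v → Fin L → κ) (c : ℕ)
    (hx : ∀ q, (PowerSeries.X : PowerSeries κ) ^ c ∣ arc (x q)) {m : ℕ}
    {F : MvPolynomial (Fin v) k} (hF : F.IsHomogeneous m) :
    (PowerSeries.X : PowerSeries κ) ^ (c * m) ∣ ev x F := by
  unfold ev
  rw [aeval_def, eval₂_eq']
  apply Finset.dvd_sum
  intro a ha
  apply Dvd.dvd.mul_left
  have h1 : ∑ i, a i = m := by
    have h2 := hF (mem_support_iff.1 ha)
    rw [Finsupp.weight_apply, Finsupp.sum_fintype] at h2
    · simpa using h2
    · intro i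
      simp
  have h2 : (PowerSeries.X : PowerSeries κ) ^ (c * m) =
      ∏ i, ((PowerSeries.X : PowerSeries κ) ^ c) ^ a i := by
    rw [Finset.prod_pow_eq_pow_sum, h1, ← pow_mul]
  rw [h2]
  apply Finset.prod_dvd_prod_of_dvd
  intro i _
  exact pow_dvd_pow_of_dvd (hx i) _

theorem bas_fin (k : Type) [Field k] (v m : ℕ) :
    Module.Finite k (homogeneousSubmodule (Fin v) k m) :=
  Module.Finite.iff_fg.2 (homogeneousSubmodule_fg (Fin v) k m)

theorem bas_Fil_le (k : Type) {κ V : Type} [Field k] [Field κ] [Algebra k κ] {L : ℕ}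
    (x : V → Fin L → κ) (m l : ℕ) : Fil k x m l ≤ homogeneousSubmodule V k m :=
  fun _ hF => hF.1

theorem bas_finFil (k : Type) {κ : Type} [Field k] [Field κ] [Algebra k κ] {v L : ℕ}
    (x : Fin v → Fin L → κ) (m l : ℕ) : Module.Finite k (Fil k x m l) := by
  have := bas_fin k v m
  exact Submodule.finiteDimensional_of_le (bas_Fil_le k x m l)

theorem bas_rec_pr {p : ℕ} (d : Fin p → ℕ) (hd : ∀ i, 1 ≤ d i) (v : ℕ) (hv : 1 ≤ v) (R : Rec p)
    (hR : R.Of d v) : Bas d v R := by
  obtain ⟨k, _, _, G, κ, _, _, x, hG, hτ, hfil, hg, hc⟩ := hR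
  have hc0 : ∀ q, R.c0 ≤ ordL R.L (arc (x q)) := by
    intro q
    rw [← hc]
    unfold c0J
    exact ciInf_le' (fun i => ordL R.L (arc (x i))) q
  have hcL : R.c0 ≤ R.L := (hc0 ⟨0, hv⟩).trans (bas_ordL_le _ _)
  have hcd : ∀ q, (PowerSeries.X : PowerSeries κ) ^ R.c0 ∣ arc (x q) := fun q =>
    (bas_dvd_iff hcL _).2 (hc0 q)
  constructor
  · -- le
    intro m l hl
    rw [← hfil m l hl, ← finrank_hom k d v m]
    have := bas_fin k v m
    exact_mod_cast Submodule.finrank_mono (bas_Fil_le k x m l)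
  · -- ge
    intro B hB hgB m l hl
    rw [← hfil m l hl, ← hilb d hd v B hB k G hG m]
    have := bas_finFil k x m l
    have hsub : IM (G '' (B : Set (Fin p))) m ≤ Fil k x m l := by
      rintro F ⟨hF1, hF2⟩
      refine ⟨hF2, ?_⟩
      have h1 : Ideal.span (G '' (B : Set (Fin p))) ≤
          (Ideal.span {(PowerSeries.X : PowerSeries κ) ^ R.L}).comap
            (aeval (fun i => arc (x i)) : MvPolynomial (Fin v) k →ₐ[k] PowerSeries κ) := by
        rw [Ideal.span_le]
        rintro _ ⟨i, hi, rfl⟩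
        rw [SetLike.mem_coe, Ideal.mem_comap, Ideal.mem_span_singleton]
        have h2 : R.L ≤ ordL R.L (ev x (G i)) := by rw [hg i, hgB i hi]
        exact (bas_dvd_iff le_rfl _).2 h2
      have h2 := h1 hF1
      rw [Ideal.mem_comap, Ideal.mem_span_singleton] at h2
      exact (pow_dvd_pow _ hl).trans h2
    exact_mod_cast Submodule.finrank_mono hsub
  · -- full
    intro m l hl hlm
    rw [← hfil m l hl, ← finrank_hom k d v m]
    have h1 : Fil k x m l = homogeneousSubmodule (Fin v) k m := by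
      apply le_antisymm (bas_Fil_le k x m l)
      intro F hF
      exact ⟨hF, (pow_dvd_pow _ hlm).trans (bas_form x R.c0 hcd hF)⟩
    rw [h1]
  · -- anti
    intro m l l' hll hl
    rw [← hfil m l (hll.trans hl), ← hfil m l' hl]
    have := bas_finFil k x m l
    apply Submodule.finrank_mono
    rintro F ⟨h1, h2⟩
    exact ⟨h1, (pow_dvd_pow _ hll).trans h2⟩
  · -- g_le
    intro i
    rw [← hg i]
    exact bas_ordL_le _ _
  · exact hcL
  · -- g_ge
    intro i
    rw [← hg i]
    apply (bas_dvd_iff (min_le_left _ _) _).1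
    refine (pow_dvd_pow _ (min_le_right _ _)).trans ?_
    rw [mul_comm]
    exact bas_form x R.c0 hcd (hG.1 i)
  · -- tau_le
    rw [← hτ]
    unfold tauJ tau
    apply csSup_le'
    rintro n ⟨S, rfl, -⟩
    refine (Finset.card_le_univ S).trans ?_
    rw [Fintype.card_prod, Fintype.card_fin, Fintype.card_fin]

alias bas_rec := bas_rec_pr

end Pool.Agent.KSX
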