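import Pool.Agent.Lib_helper77.KSZ.XBase
import Pool.Agent.Lib_helper77.KSZ.XBAS
import Pool.Agent.Lib_helper77.KSZ.XSER

/-!
# KSX block NTB (helper26): the torus-graded filtration
-/

namespace Pool.Agent.KSX

open MvPolynomial Pool.Agent.KSS Filter Topology

/-! ### elementary sums -/

theorem ntb_Icc (L : ℕ) (g : ℕ → ℝ) :
    ∑ l ∈ Finset.Icc 1 L, g l = ∑ l ∈ Finset.range L, g (l + 1) := by
  induction L with
  | zero => simp
  | succ L ih =>
    rw [Finset.sum_Icc_succ_top (by omega), ih, Finset.sum_range_succ]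

theorem ntb_shift (L : ℕ) (f : ℕ → ℝ) (h : ℝ) (hf0 : ∀ l ≤ L, 0 ≤ f l) (hfh : ∀ l ≤ L, f l ≤ h)
    (w : ℕ) :
    ∑ l ∈ Finset.Icc 1 L, f l - w * h ≤ ∑ l ∈ Finset.Icc 1 L, f (l - w) := by
  induction w with
  | zero => simp
  | succ w ih =>
    rw [ntb_Icc L (fun l => f (l - (w + 1)))]
    have h1 : ∑ l ∈ Finset.range L, f (l + 1 - (w + 1)) = ∑ l ∈ Finset.range L, f (l - w) := by
      refine Finset.sum_congr rfl fun l _ => ?_
      congr 1
      omega
    rw [h1]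
    rw [ntb_Icc L (fun l => f (l - w))] at ih
    have h2 := Finset.sum_range_succ (fun l => f (l - w)) L
    have h3 := Finset.sum_range_succ' (fun l => f (l - w)) L
    have h4 := hf0 (0 - w) (by omega)
    have h5 := hfh (L - w) (by omega)
    push_cast
    linarith

theorem ntb_Exps {n m : ℕ} (a : Fin n → ℕ) : a ∈ Exps n m ↔ ∑ i, a i ≤ m := by
  unfold Exps
  rw [Finset.mem_filter, Fintype.mem_piFinset]
  refine ⟨fun h => h.2, fun h => ⟨fun i => ?_, h⟩⟩
  rw [Finset.mem_range]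
  have := Finset.single_le_sum (f := a) (fun _ _ => Nat.zero_le _) (Finset.mem_univ i)
  omega

/-- convolution inequality -/
theorem ntb_conv (n M0 : ℕ) (q : ℝ) (hq : 0 ≤ q) (w : (Fin n → ℕ) → ℝ) (hw : ∀ a, 0 ≤ w a)
    (F : ℕ → ℝ) (hF : ∀ m, 0 ≤ F m) :
    ∑ m ∈ Finset.range (M0 + 1), q ^ m * ∑ a ∈ Exps n m, w a * F (m - ∑ i, a i)
    ≤ (∑ k ∈ Finset.range (M0 + 1),
        q ^ k * ∑ a ∈ (Exps n k).filter (fun a => ∑ i, a i = k), w a) *
      ∑ m ∈ Finset.range (M0 + 1), q ^ m * F m := by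
  have e1 : ∑ k ∈ Finset.range (M0 + 1),
      q ^ k * ∑ a ∈ (Exps n k).filter (fun a => ∑ i, a i = k), w a
      = ∑ a ∈ Exps n M0, q ^ (∑ i, a i) * w a := by
    rw [← Finset.sum_fiberwise_of_maps_to (s := Exps n M0) (t := Finset.range (M0 + 1))
      (g := fun a => ∑ i, a i) (fun a ha => by
        have := (ntb_Exps a).1 ha
        exact Finset.mem_range.2 (by omega))]
    refine Finset.sum_congr rfl fun k hk => ?_
    have hk' : k ≤ M0 := by have := Finset.mem_range.1 hk; omega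
    have e2 : (Exps n k).filter (fun a => ∑ i, a i = k)
        = (Exps n M0).filter (fun a => ∑ i, a i = k) := by
      ext a
      rw [Finset.mem_filter, Finset.mem_filter, ntb_Exps, ntb_Exps]
      constructor
      · rintro ⟨_, h⟩; exact ⟨by omega, h⟩
      · rintro ⟨_, h⟩; exact ⟨by omega, h⟩
    rw [e2, Finset.mul_sum]
    refine Finset.sum_congr rfl fun a ha => ?_
    rw [(Finset.mem_filter.1 ha).2]
  have e3 : ∑ m ∈ Finset.range (M0 + 1), q ^ m * ∑ a ∈ Exps n m, w a * F (m - ∑ i, a i)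
      = ∑ a ∈ Exps n M0, ∑ m ∈ (Finset.range (M0 + 1)).filter (fun m => ∑ i, a i ≤ m),
          q ^ (∑ i, a i) * w a * (q ^ (m - ∑ i, a i) * F (m - ∑ i, a i)) := by
    have e4 : ∀ m ∈ Finset.range (M0 + 1),
        q ^ m * ∑ a ∈ Exps n m, w a * F (m - ∑ i, a i)
        = ∑ a ∈ Exps n M0, if ∑ i, a i ≤ m then
            q ^ (∑ i, a i) * w a * (q ^ (m - ∑ i, a i) * F (m - ∑ i, a i)) else 0 := by
      intro m hm
      have hm' : m ≤ M0 := by have := Finset.mem_range.1 hm; omega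
      rw [← Finset.sum_filter, Finset.mul_sum]
      have e5 : Exps n m = (Exps n M0).filter (fun a => ∑ i, a i ≤ m) := by
        ext a
        rw [Finset.mem_filter, ntb_Exps, ntb_Exps]
        constructor
        · intro h; exact ⟨by omega, h⟩
        · rintro ⟨_, h⟩; exact h
      rw [← e5]
      refine Finset.sum_congr rfl fun a ha => ?_
      have h6 := (ntb_Exps a).1 ha
      have h7 : q ^ m = q ^ (∑ i, a i) * q ^ (m - ∑ i, a i) := by
        rw [← pow_add]
        congr 1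
        omega
      rw [h7]
      ring
    rw [Finset.sum_congr rfl e4, Finset.sum_comm]
    refine Finset.sum_congr rfl fun a _ => ?_
    rw [Finset.sum_filter]
  rw [e1, e3, Finset.sum_mul]
  refine Finset.sum_le_sum fun a _ => ?_
  rw [← Finset.mul_sum]
  have h8 : 0 ≤ q ^ (∑ i, a i) * w a := mul_nonneg (pow_nonneg hq _) (hw a)
  refine mul_le_mul_of_nonneg_left ?_ h8
  have h9 : ∑ m ∈ (Finset.range (M0 + 1)).filter (fun m => ∑ i, a i ≤ m),
      (q ^ (m - ∑ i, a i) * F (m - ∑ i, a i))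
      = ∑ m ∈ ((Finset.range (M0 + 1)).filter (fun m => ∑ i, a i ≤ m)).image
          (fun m => m - ∑ i, a i), q ^ m * F m := by
    rw [Finset.sum_image]
    intro x hx y hy hxy
    have h10 := (Finset.mem_filter.1 hx).2
    have h11 := (Finset.mem_filter.1 hy).2
    simp only at hxy
    omega
  rw [h9]
  refine Finset.sum_le_sum_of_subset_of_nonneg ?_ ?_
  · intro m hm
    obtain ⟨m', hm', rfl⟩ := Finset.mem_image.1 hm
    have := Finset.mem_range.1 (Finset.mem_filter.1 hm').1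
    exact Finset.mem_range.2 (by omega)
  · intro m _ _
    exact mul_nonneg (pow_nonneg hq _) (hF m)

/-! ### generating functions -/

theorem ntb_PW (n : ℕ) (w : (Fin n → ℕ) → ℤ) (k : ℕ) :
    PowerSeries.coeff k (PW n w)
      = ∑ a ∈ (Exps n k).filter (fun a => ∑ i, a i = k), w a := by
  unfold PW
  rw [PowerSeries.coeff_mk]

/-- `PW n 1_{min a = 0} = (1 - X^n) (1 - X)^{-n}` -/
theorem ntb_P1 (n : ℕ) (hn : 1 ≤ n) :
    PW n (fun a => if mina a = 0 then 1 else 0)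
      = (1 - (PowerSeries.X : PowerSeries ℤ) ^ n) *
        (PowerSeries.invOneSubPow ℤ n : (PowerSeries ℤ)ˣ) := by
  have h := na_shift n hn (fun _ => 1)
  rw [← na_one]
  linear_combination -h

/-- `PW n (a_l 1_{min a = 0})` -/
theorem ntb_P2 (n : ℕ) (hn : 1 ≤ n) (l : Fin n) :
    PW n (fun a => if mina a = 0 then (a l : ℤ) else 0)
      = (GE 1 - GE n) * ((1 - (PowerSeries.X : PowerSeries ℤ) ^ n) *
        (PowerSeries.invOneSubPow ℤ n : (PowerSeries ℤ)ˣ)) := by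
  have hadd : ∀ w1 w2 : (Fin n → ℕ) → ℤ, PW n (fun a => w1 a + w2 a) = PW n w1 + PW n w2 := by
    intro w1 w2
    ext k
    rw [map_add, ntb_PW, ntb_PW, ntb_PW, Finset.sum_add_distrib]
  have hzero : PW n (fun _ => 0) = 0 := by
    ext k
    rw [ntb_PW]
    simp
  have h1 := na_shift n hn (fun a => (a l : ℤ))
  have h2 := na_shiftl n l (fun a => (a l : ℤ))
  have h3 : PW n (fun a => if a l = 0 then ((a l : ℕ) : ℤ) else 0) = 0 := by
    rw [← hzero]
    congr 1
    funext a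
    split_ifs with h
    · rw [h]; rfl
    · rfl
  have h4 : PW n (fun a => (((a + Pi.single l 1 : Fin n → ℕ) l : ℕ) : ℤ))
      = PW n (fun a => (a l : ℤ)) + PW n (fun _ => 1) := by
    rw [← hadd]
    congr 1
    funext a
    simp
  have h5 : PW n (fun a => (((a l + 1 : ℕ)) : ℤ))
      = PW n (fun a => (a l : ℤ)) + PW n (fun _ => 1) := by
    rw [← hadd]
    congr 1
  rw [h5] at h1
  rw [h3, h4, zero_add] at h2
  have h6 := nb_GE 1 (le_refl 1)
  have h7 := nb_GE n hn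
  rw [pow_one] at h6
  rw [na_one] at h1 h2
  -- cancel `1 - X`
  have h8 : PW n (fun a => (a l : ℤ)) = GE 1 *
      (PowerSeries.invOneSubPow ℤ n : (PowerSeries ℤ)ˣ) := by
    have hne : (1 - (PowerSeries.X : PowerSeries ℤ)) ≠ 0 := by
      intro h0
      have := congrArg (PowerSeries.coeff 0) h0
      simp at this
    refine mul_left_cancel₀ hne ?_
    linear_combination h2 - (PowerSeries.invOneSubPow ℤ n : (PowerSeries ℤ)ˣ) * h6
  linear_combination -h1 + (1 - (PowerSeries.X : PowerSeries ℤ) ^ n) * h8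
    + (PowerSeries.invOneSubPow ℤ n : (PowerSeries ℤ)ˣ) * h7

/-- `HS` for `n = d j` variables and one form of degree `n` -/
theorem ntb_HS {p : ℕ} (d : Fin p → ℕ) (j : Fin p) :
    HS d (d j) {j} = (1 - (PowerSeries.X : PowerSeries ℤ) ^ (d j)) *
        (PowerSeries.invOneSubPow ℤ (d j) : (PowerSeries ℤ)ˣ) := by
  unfold HS
  rw [Finset.prod_singleton]

theorem ntb_sum1 {p : ℕ} (d : Fin p → ℕ) (hd : ∀ i, 1 ≤ d i) (j : Fin p) (q : ℝ) (hq0 : 0 < q)
    (hq1 : q < 1) (M0 : ℕ) :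
    ∑ k ∈ Finset.range (M0 + 1), q ^ k *
      ∑ a ∈ (Exps (d j) k).filter (fun a => ∑ i, a i = k), (if mina a = 0 then (1 : ℝ) else 0)
    ≤ (1 - q ^ (d j)) * ((1 - q) ^ (d j))⁻¹ := by
  have h := ser_H d hd (d j) {j} q hq0.le hq1
  have hH : Hq d (d j) {j} q = (1 - q ^ (d j)) * ((1 - q) ^ (d j))⁻¹ := by
    unfold Hq
    rw [Finset.prod_singleton, div_eq_mul_inv]
  rw [hH] at h
  have hc : ∀ k, (NN d (d j) {j} k : ℝ)
      = ∑ a ∈ (Exps (d j) k).filter (fun a => ∑ i, a i = k),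
          (if mina a = 0 then (1 : ℝ) else 0) := by
    intro k
    unfold NN
    rw [ntb_HS, ← ntb_P1 (d j) (hd j), ntb_PW]
    push_cast
    rfl
  have h2 : ∀ k, 0 ≤ (NN d (d j) {j} k : ℝ) := by
    intro k
    rw [hc]
    refine Finset.sum_nonneg fun a _ => ?_
    split_ifs <;> norm_num
  refine le_trans (le_of_eq ?_) (sum_le_hasSum (Finset.range (M0 + 1)) (fun k _ => ?_) h)
  · refine Finset.sum_congr rfl fun k _ => ?_
    rw [hc, mul_comm]
  · have := h2 k
    positivity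

theorem ntb_sum2 {p : ℕ} (d : Fin p → ℕ) (hd : ∀ i, 1 ≤ d i) (j : Fin p) (l : Fin (d j)) (q : ℝ)
    (hq0 : 0 < q) (hq1 : q < 1) (M0 : ℕ) :
    ∑ k ∈ Finset.range (M0 + 1), q ^ k *
      ∑ a ∈ (Exps (d j) k).filter (fun a => ∑ i, a i = k), (if mina a = 0 then (a l : ℝ) else 0)
    ≤ (1 - q ^ (d j)) * Kq (d j) q := by
  have hg1 := ser_G d hd (d j) {j} 1 (le_refl 1) q hq0.le hq1
  have hgn := ser_G d hd (d j) {j} (d j) (hd j) q hq0.le hq1
  have h := hg1.sub hgn
  have hH : Hq d (d j) {j} q = (1 - q ^ (d j)) * ((1 - q) ^ (d j))⁻¹ := by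
    unfold Hq
    rw [Finset.prod_singleton, div_eq_mul_inv]
  have hK : q ^ 1 / (1 - q ^ 1) * Hq d (d j) {j} q - q ^ (d j) / (1 - q ^ (d j)) * Hq d (d j) {j} q
      = (1 - q ^ (d j)) * Kq (d j) q := by
    rw [hH]
    unfold Kq
    rw [pow_one]
    ring
  rw [hK] at h
  have hc : ∀ k, (HSum d (d j) {j} 1 k : ℝ) * q ^ k - (HSum d (d j) {j} (d j) k : ℝ) * q ^ k
      = q ^ k * ∑ a ∈ (Exps (d j) k).filter (fun a => ∑ i, a i = k),
          (if mina a = 0 then (a l : ℝ) else 0) := by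
    intro k
    have e1 : HSum d (d j) {j} 1 k - HSum d (d j) {j} (d j) k
        = ∑ a ∈ (Exps (d j) k).filter (fun a => ∑ i, a i = k),
          (if mina a = 0 then (a l : ℤ) else 0) := by
      rw [← ntb_PW, ntb_P2 (d j) (hd j), sub_mul, map_sub, nb_coeff 1 (le_refl 1),
        nb_coeff (d j) (hd j), ← ntb_HS]
      rfl
    rw [← sub_mul, mul_comm]
    congr 1
    have e2 := congrArg (Int.cast : ℤ → ℝ) e1
    push_cast at e2
    exact e2
  have h2 : ∀ k, 0 ≤ q ^ k * ∑ a ∈ (Exps (d j) k).filter (fun a => ∑ i, a i = k),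
          (if mina a = 0 then (a l : ℝ) else 0) := by
    intro k
    refine mul_nonneg (by positivity) (Finset.sum_nonneg fun a _ => ?_)
    split_ifs
    · positivity
    · exact le_refl _
  have h3 := h.congr_fun (g := fun k => q ^ k *
    ∑ a ∈ (Exps (d j) k).filter (fun a => ∑ i, a i = k), (if mina a = 0 then (a l : ℝ) else 0))
    (fun k => (hc k).symm)
  exact sum_le_hasSum (Finset.range (M0 + 1)) (fun k _ => h2 k) h3

theorem ntb_lin {n : ℕ} (s : Finset ℕ) (u Z X : ℕ → ℝ) (Y : Fin n → ℕ → ℝ) (c : ℝ)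
    (e : Fin n → ℝ) :
    c * ∑ m ∈ s, u m * Z m - ∑ m ∈ s, u m * X m - ∑ l, e l * ∑ m ∈ s, u m * Y l m
      = ∑ m ∈ s, u m * (c * Z m - X m - ∑ l, e l * Y l m) := by
  have h1 : ∑ l, e l * ∑ m ∈ s, u m * Y l m = ∑ m ∈ s, u m * ∑ l, e l * Y l m := by
    simp only [Finset.mul_sum]
    rw [Finset.sum_comm]
    refine Finset.sum_congr rfl fun m _ => Finset.sum_congr rfl fun l _ => ?_
    ring
  rw [h1, Finset.mul_sum, ← Finset.sum_sub_distrib, ← Finset.sum_sub_distrib]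
  refine Finset.sum_congr rfl fun m _ => ?_
  ring

/-! ### (NTL) -/

theorem ntb_conv_NN {p : ℕ} (d : Fin p → ℕ) (n v : ℕ) (hv : n ≤ v) (m : ℕ) :
    ∑ a ∈ Exps n m, (NN d (v - n) ∅ (m - ∑ i, a i)) = NN d v ∅ m := by
  have h := na_coeff n (fun _ => 1) (HS d (v - n) ∅) m
  simp only [one_mul] at h
  unfold NN
  rw [← h, na_one]
  congr 1
  unfold HS
  rw [Finset.prod_empty, one_mul, one_mul]
  have e := PowerSeries.invOneSubPow_add ℤ n (v - n)
  rw [show n + (v - n) = v by omega] at e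
  rw [e, Units.val_mul]

/-- (NTL) -/
theorem nt_le_pr {p : ℕ} (d : Fin p → ℕ) (hd : ∀ i, 1 ≤ d i) (v : ℕ) (j : Fin p) (hv : d j < v)
    (M0 : ℕ) (R R' : Rec p) (e : Fin (d j) → ℕ) (η : ℕ) (hT : TorusOut d v j M0 R R' e η)
    (m l : ℕ) (hm : m ≤ M0) (hl1 : 1 ≤ l) (hl : l ≤ R.L) :
    NT d v j R' e η m l ≤ (NN d v ∅ m : ℝ) - R.fil m l := by
  unfold NT
  rw [Finset.sum_sub_distrib]
  have h1 := congrArg (Int.cast : ℤ → ℝ) (ntb_conv_NN d (d j) v hv.le m)
  push_cast at h1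
  have h2 : ((R.fil m l : ℕ) : ℝ)
      ≤ ∑ a ∈ Exps (d j) m, ((R'.fil (m - ∑ i, a i) (l - wt e η a) : ℕ) : ℝ) := by
    exact_mod_cast hT.fil_le m hm l hl1 hl
  rw [h1]
  linarith

/-! ### (NTB) -/

theorem ntb_conv_B {p : ℕ} (d : Fin p → ℕ) (hd : ∀ i, 1 ≤ d i) (v : ℕ) (B : Finset (Fin p))
    (j : Fin p) (hj : j ∈ B) (hv : d j ≤ v) (m : ℕ) :
    (NN d v B m : ℝ) = ∑ a ∈ Exps (d j) m, (if mina a = 0 then (1 : ℝ) else 0) *
      (NN d (v - d j) (B.erase j) (m - ∑ i, a i) : ℝ) := by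
  have h := na_coeff (d j) (fun a => if mina a = 0 then 1 else 0) (HS d (v - d j) (B.erase j)) m
  have e : PW (d j) (fun a => if mina a = 0 then 1 else 0) * HS d (v - d j) (B.erase j)
      = HS d v B := by
    rw [ntb_P1 (d j) (hd j)]
    unfold HS
    rw [← Finset.mul_prod_erase B _ hj]
    have e := PowerSeries.invOneSubPow_add ℤ (d j) (v - d j)
    rw [show d j + (v - d j) = v by omega] at e
    rw [e, Units.val_mul]
    ring
  rw [e] at h
  have h2 := congrArg (Int.cast : ℤ → ℝ) h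
  unfold NN
  push_cast at h2
  exact h2

/-- (NTB) the case `j ∈ B` -/
theorem nt_sum_B_pr {p : ℕ} (d : Fin p → ℕ) (hd : ∀ i, 1 ≤ d i) (v : ℕ) (B : Finset (Fin p))
    (j : Fin p) (hj : j ∈ B) (hB : ∑ i ∈ B, d i < v) (M0 : ℕ) (R R' : Rec p)
    (e : Fin (d j) → ℕ) (η : ℕ) (hT : TorusOut d v j M0 R R' e η) (hη : η = R.L)
    (hB' : ∀ i ∈ B.erase j, R'.g i = R'.L) (q : ℝ) (hq0 : 0 < q) (hq1 : q < 1) :
    (R.L : ℝ) * ∑ m ∈ Finset.range (M0 + 1), q ^ m * (NN d v B m : ℝ)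
      - (1 - q ^ (d j)) * (((1 - q) ^ (d j))⁻¹ * R'.Lam d (v - d j) (B.erase j) q M0
        + Kq (d j) q * Hq d (v - d j) (B.erase j) q * ∑ l, (e l : ℝ))
    ≤ ∑ m ∈ Finset.range (M0 + 1), q ^ m * ∑ l ∈ Finset.Icc 1 R.L, NT d v j R' e η m l := by
  have hsplit : d j + ∑ i ∈ B.erase j, d i = ∑ i ∈ B, d i := Finset.add_sum_erase B d hj
  have hvj : d j < v := by omega
  have hcard : (B.erase j).card ≤ v - d j := by
    refine le_trans (b := ∑ i ∈ B.erase j, d i) ?_ (by omega)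
    rw [Finset.card_eq_sum_ones]
    exact Finset.sum_le_sum fun i _ => hd i
  have hBas := bas_rec d hd (v - d j) (by omega) R' hT.of
  have hL : R'.L = R.L := hT.L_eq
  -- the functions `H'` and `sig'`
  have hH0 : ∀ m, 0 ≤ (NN d (v - d j) (B.erase j) m : ℝ) := fun m => by
    exact_mod_cast nb_nonneg d hd (v - d j) (B.erase j) (by omega) m
  have hsig0 : ∀ m, 0 ≤ R'.sig d (v - d j) (B.erase j) m := by
    intro m
    unfold Rec.sig
    refine Finset.sum_nonneg fun l hl => ?_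
    have h1 : ((NN d (v - d j) ∅ m - NN d (v - d j) (B.erase j) m : ℤ) : ℝ)
        ≤ ((R'.fil m l : ℤ) : ℝ) := by
      exact_mod_cast hBas.ge (B.erase j) hcard hB' m l (Finset.mem_Icc.1 hl).2
    push_cast at h1
    linarith
  -- the inequality for each `m'` and weight
  have hcore : ∀ m' w : ℕ,
      (R.L : ℝ) * (NN d (v - d j) (B.erase j) m' : ℝ) - R'.sig d (v - d j) (B.erase j) m'
        - w * (NN d (v - d j) (B.erase j) m' : ℝ)
      ≤ ∑ l ∈ Finset.Icc 1 R.L, ((NN d (v - d j) ∅ m' : ℝ) - R'.fil m' (l - w)) := by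
    intro m' w
    have h1 := ntb_shift R.L (fun l => (NN d (v - d j) ∅ m' : ℝ) - R'.fil m' l)
      (NN d (v - d j) (B.erase j) m' : ℝ) (fun l hl => by
        have h2 : ((R'.fil m' l : ℤ) : ℝ) ≤ ((NN d (v - d j) ∅ m' : ℤ) : ℝ) := by
          exact_mod_cast hBas.le m' l (by omega)
        push_cast at h2
        linarith) (fun l hl => by
        have h2 : ((NN d (v - d j) ∅ m' - NN d (v - d j) (B.erase j) m' : ℤ) : ℝ)
            ≤ ((R'.fil m' l : ℤ) : ℝ) := by
          exact_mod_cast hBas.ge (B.erase j) hcard hB' m' l (by omega)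
        push_cast at h2
        linarith) w
    refine le_trans (le_of_eq ?_) h1
    congr 1
    have h3 : ∀ l : ℕ, (NN d (v - d j) ∅ m' : ℝ) - R'.fil m' l
        = (NN d (v - d j) (B.erase j) m' : ℝ) - ((R'.fil m' l : ℝ) - (NN d (v - d j) ∅ m' : ℝ)
          + (NN d (v - d j) (B.erase j) m' : ℝ)) := by
      intro l; ring
    rw [Finset.sum_congr rfl (fun l _ => h3 l), Finset.sum_sub_distrib, Finset.sum_const,
      Nat.card_Icc, Nat.add_sub_cancel, nsmul_eq_mul]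
    unfold Rec.sig
    rw [hL]
  -- nonnegativity of all terms
  have hnn : ∀ m' w : ℕ,
      0 ≤ ∑ l ∈ Finset.Icc 1 R.L, ((NN d (v - d j) ∅ m' : ℝ) - R'.fil m' (l - w)) := by
    intro m' w
    refine Finset.sum_nonneg fun l hl => ?_
    have h2 : ((R'.fil m' (l - w) : ℤ) : ℝ) ≤ ((NN d (v - d j) ∅ m' : ℤ) : ℝ) := by
      have := (Finset.mem_Icc.1 hl).2
      exact_mod_cast hBas.le m' (l - w) (by omega)
    push_cast at h2
    linarith
  -- for each `m`
  have hm : ∀ m : ℕ, ∑ a ∈ Exps (d j) m, (if mina a = 0 then (1 : ℝ) else 0) *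
      ((R.L : ℝ) * (NN d (v - d j) (B.erase j) (m - ∑ i, a i) : ℝ)
        - R'.sig d (v - d j) (B.erase j) (m - ∑ i, a i)
        - (∑ i, (a i : ℝ) * e i) * (NN d (v - d j) (B.erase j) (m - ∑ i, a i) : ℝ))
      ≤ ∑ l ∈ Finset.Icc 1 R.L, NT d v j R' e η m l := by
    intro m
    unfold NT
    rw [Finset.sum_comm]
    refine Finset.sum_le_sum fun a _ => ?_
    split_ifs with ha
    · rw [one_mul]
      have h1 := hcore (m - ∑ i, a i) (wt e η a)
      have h2 : ((wt e η a : ℕ) : ℝ) = ∑ i, (a i : ℝ) * e i := by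
        unfold wt
        rw [ha]
        simp
      rw [h2] at h1
      exact h1
    · rw [zero_mul]
      exact hnn _ _
  -- the three sums
  have hexp : ∀ m : ℕ, ∑ a ∈ Exps (d j) m, (if mina a = 0 then (1 : ℝ) else 0) *
      ((R.L : ℝ) * (NN d (v - d j) (B.erase j) (m - ∑ i, a i) : ℝ)
        - R'.sig d (v - d j) (B.erase j) (m - ∑ i, a i)
        - (∑ i, (a i : ℝ) * e i) * (NN d (v - d j) (B.erase j) (m - ∑ i, a i) : ℝ))
      = R.L * (NN d v B m : ℝ)
        - ∑ a ∈ Exps (d j) m, (if mina a = 0 then (1 : ℝ) else 0) *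
          R'.sig d (v - d j) (B.erase j) (m - ∑ i, a i)
        - ∑ l, (e l : ℝ) * ∑ a ∈ Exps (d j) m, (if mina a = 0 then (a l : ℝ) else 0) *
          (NN d (v - d j) (B.erase j) (m - ∑ i, a i) : ℝ) := by
    intro m
    rw [ntb_conv_B d hd v B j hj hvj.le m]
    have e1 : ∑ l, (e l : ℝ) * ∑ a ∈ Exps (d j) m, (if mina a = 0 then (a l : ℝ) else 0) *
          (NN d (v - d j) (B.erase j) (m - ∑ i, a i) : ℝ)
        = ∑ a ∈ Exps (d j) m, (if mina a = 0 then (1 : ℝ) else 0) *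
          ((∑ i, (a i : ℝ) * e i) * (NN d (v - d j) (B.erase j) (m - ∑ i, a i) : ℝ)) := by
      simp only [Finset.mul_sum]
      rw [Finset.sum_comm]
      refine Finset.sum_congr rfl fun a _ => ?_
      rw [Finset.sum_mul, Finset.mul_sum]
      refine Finset.sum_congr rfl fun l _ => ?_
      split_ifs <;> ring
    rw [e1, Finset.mul_sum, ← Finset.sum_sub_distrib, ← Finset.sum_sub_distrib]
    refine Finset.sum_congr rfl fun a _ => ?_
    ring
  have hT1 : ∑ m ∈ Finset.range (M0 + 1), q ^ m *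
      ∑ a ∈ Exps (d j) m, (if mina a = 0 then (1 : ℝ) else 0) *
          R'.sig d (v - d j) (B.erase j) (m - ∑ i, a i)
      ≤ (1 - q ^ (d j)) * ((1 - q) ^ (d j))⁻¹ * R'.Lam d (v - d j) (B.erase j) q M0 := by
    refine le_trans (ntb_conv (d j) M0 q hq0.le (fun a => if mina a = 0 then (1 : ℝ) else 0)
      (fun a => by split_ifs <;> norm_num) _ hsig0) ?_
    unfold Rec.Lam
    refine mul_le_mul_of_nonneg_right (ntb_sum1 d hd j q hq0 hq1 M0) ?_
    exact Finset.sum_nonneg fun m _ => mul_nonneg (pow_nonneg hq0.le _) (hsig0 m)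
  have hHq : ∑ m ∈ Finset.range (M0 + 1), q ^ m * (NN d (v - d j) (B.erase j) m : ℝ)
      ≤ Hq d (v - d j) (B.erase j) q := by
    have h := ser_H d hd (v - d j) (B.erase j) q hq0.le hq1
    refine le_trans (le_of_eq ?_) (sum_le_hasSum (Finset.range (M0 + 1)) (fun m _ => ?_) h)
    · exact Finset.sum_congr rfl fun m _ => mul_comm _ _
    · have := hH0 m
      positivity
  have hT2 : ∀ l : Fin (d j), ∑ m ∈ Finset.range (M0 + 1), q ^ m *
      ∑ a ∈ Exps (d j) m, (if mina a = 0 then (a l : ℝ) else 0) *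
          (NN d (v - d j) (B.erase j) (m - ∑ i, a i) : ℝ)
      ≤ (1 - q ^ (d j)) * Kq (d j) q * Hq d (v - d j) (B.erase j) q := by
    intro l
    refine le_trans (ntb_conv (d j) M0 q hq0.le (fun a => if mina a = 0 then (a l : ℝ) else 0)
      (fun a => by split_ifs <;> positivity) _ hH0) ?_
    have h1 := ntb_sum2 d hd j l q hq0 hq1 M0
    have h2 : 0 ≤ ∑ m ∈ Finset.range (M0 + 1), q ^ m * (NN d (v - d j) (B.erase j) m : ℝ) :=
      Finset.sum_nonneg fun m _ => mul_nonneg (pow_nonneg hq0.le _) (hH0 m)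
    have h3 : 0 ≤ ∑ k ∈ Finset.range (M0 + 1), q ^ k *
      ∑ a ∈ (Exps (d j) k).filter (fun a => ∑ i, a i = k),
        (if mina a = 0 then (a l : ℝ) else 0) :=
      Finset.sum_nonneg fun k _ => mul_nonneg (pow_nonneg hq0.le _)
        (Finset.sum_nonneg fun a _ => by split_ifs <;> positivity)
    exact mul_le_mul h1 hHq h2 (le_trans h3 h1)
  calc (R.L : ℝ) * ∑ m ∈ Finset.range (M0 + 1), q ^ m * (NN d v B m : ℝ)
      - (1 - q ^ (d j)) * (((1 - q) ^ (d j))⁻¹ * R'.Lam d (v - d j) (B.erase j) q M0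
        + Kq (d j) q * Hq d (v - d j) (B.erase j) q * ∑ l, (e l : ℝ))
      ≤ (R.L : ℝ) * ∑ m ∈ Finset.range (M0 + 1), q ^ m * (NN d v B m : ℝ)
        - ∑ m ∈ Finset.range (M0 + 1), q ^ m *
          ∑ a ∈ Exps (d j) m, (if mina a = 0 then (1 : ℝ) else 0) *
            R'.sig d (v - d j) (B.erase j) (m - ∑ i, a i)
        - ∑ l, (e l : ℝ) * ∑ m ∈ Finset.range (M0 + 1), q ^ m *
          ∑ a ∈ Exps (d j) m, (if mina a = 0 then (a l : ℝ) else 0) *
            (NN d (v - d j) (B.erase j) (m - ∑ i, a i) : ℝ) := by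
        have h5 : ∑ l, (e l : ℝ) * ∑ m ∈ Finset.range (M0 + 1), q ^ m *
            ∑ a ∈ Exps (d j) m, (if mina a = 0 then (a l : ℝ) else 0) *
              (NN d (v - d j) (B.erase j) (m - ∑ i, a i) : ℝ)
            ≤ ∑ l, (e l : ℝ) * ((1 - q ^ (d j)) * Kq (d j) q * Hq d (v - d j) (B.erase j) q) :=
          Finset.sum_le_sum fun l _ => mul_le_mul_of_nonneg_left (hT2 l) (Nat.cast_nonneg _)
        rw [← Finset.sum_mul] at h5
        have h6 : (1 - q ^ (d j)) * (((1 - q) ^ (d j))⁻¹ * R'.Lam d (v - d j) (B.erase j) q M0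
            + Kq (d j) q * Hq d (v - d j) (B.erase j) q * ∑ l, (e l : ℝ))
            = (1 - q ^ (d j)) * ((1 - q) ^ (d j))⁻¹ * R'.Lam d (v - d j) (B.erase j) q M0
            + (∑ l, (e l : ℝ)) * ((1 - q ^ (d j)) * Kq (d j) q *
              Hq d (v - d j) (B.erase j) q) := by ring
        rw [h6]
        linarith
    _ = ∑ m ∈ Finset.range (M0 + 1), q ^ m *
        ∑ a ∈ Exps (d j) m, (if mina a = 0 then (1 : ℝ) else 0) *
          ((R.L : ℝ) * (NN d (v - d j) (B.erase j) (m - ∑ i, a i) : ℝ)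
            - R'.sig d (v - d j) (B.erase j) (m - ∑ i, a i)
            - (∑ i, (a i : ℝ) * e i) *
              (NN d (v - d j) (B.erase j) (m - ∑ i, a i) : ℝ)) := by
        rw [ntb_lin (Finset.range (M0 + 1)) (fun m => q ^ m) (fun m => (NN d v B m : ℝ))
          (fun m => ∑ a ∈ Exps (d j) m, (if mina a = 0 then (1 : ℝ) else 0) *
            R'.sig d (v - d j) (B.erase j) (m - ∑ i, a i))
          (fun l m => ∑ a ∈ Exps (d j) m, (if mina a = 0 then (a l : ℝ) else 0) *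
            (NN d (v - d j) (B.erase j) (m - ∑ i, a i) : ℝ)) (R.L : ℝ) (fun l => (e l : ℝ))]
        refine Finset.sum_congr rfl fun m _ => ?_
        rw [hexp m]
    _ ≤ _ := Finset.sum_le_sum fun m _ => mul_le_mul_of_nonneg_left (hm m) (pow_nonneg hq0.le _)

alias nt_le := nt_le_pr

alias nt_sum_B := nt_sum_B_pr

end Pool.Agent.KSX
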