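import Pool.Agent.Lib_helper77.KSZ.XBase
import Pool.Agent.Lib_helper77.KSZ.XBAS
import Pool.Agent.Lib_helper77.KSZ.XSER

/-!
# KSX, block NTX: the Laplace transform of `NT`
-/

namespace Pool.Agent.KSX

open MvPolynomial Pool.Agent.KSS Filter Topology

/-! ### geometric sums -/

theorem ntx_geom_le {θ : ℝ} (h0 : 0 < θ) (h1 : θ < 1) (n : ℕ) :
    ∑ k ∈ Finset.range n, θ ^ k ≤ 1 / (1 - θ) := by
  rw [le_div_iff₀ (by linarith), geom_sum_mul_neg]
  have := pow_pos h0 n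
  linarith

theorem ntx_geom_tail {θ : ℝ} (h0 : 0 < θ) (h1 : θ < 1) (L W : ℕ) :
    ∑ l ∈ (Finset.Icc 1 L).filter (fun l => W < l), θ ^ l ≤ θ ^ (W + 1) / (1 - θ) := by
  have hsub : (Finset.Icc 1 L).filter (fun l => W < l) ⊆ Finset.Ico (W + 1) (W + 1 + L) := by
    intro l hl
    rw [Finset.mem_filter, Finset.mem_Icc] at hl
    rw [Finset.mem_Ico]
    omega
  calc ∑ l ∈ (Finset.Icc 1 L).filter (fun l => W < l), θ ^ l
      ≤ ∑ l ∈ Finset.Ico (W + 1) (W + 1 + L), θ ^ l :=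
        Finset.sum_le_sum_of_subset_of_nonneg hsub fun l _ _ => (pow_pos h0 l).le
    _ = θ ^ (W + 1) * ∑ k ∈ Finset.range L, θ ^ k := by
        rw [Finset.sum_Ico_eq_sum_range, Finset.mul_sum]
        simp only [Nat.add_sub_cancel_left]
        exact Finset.sum_congr rfl fun k _ => by rw [pow_add]
    _ ≤ θ ^ (W + 1) * (1 / (1 - θ)) :=
        mul_le_mul_of_nonneg_left (ntx_geom_le h0 h1 L) (pow_pos h0 _).le
    _ = θ ^ (W + 1) / (1 - θ) := by ring

/-! ### the sum over the exponents with minimum zero -/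

theorem ntx_mina_le {n : ℕ} (a : Fin n → ℕ) (l : Fin n) : mina a ≤ a l :=
  ciInf_le (OrderBot.bddBelow _) l

theorem ntx_mina_mem {n : ℕ} (hn : 1 ≤ n) (a : Fin n → ℕ) : ∃ l, a l = mina a := by
  have : Nonempty (Fin n) := ⟨⟨0, by omega⟩⟩
  exact exists_eq_ciInf_of_finite

/-- sums over the box with minimum zero -/
theorem ntx_box {n : ℕ} (x : Fin n → ℝ) (M : ℕ) :
    ∑ a ∈ (Fintype.piFinset fun _ : Fin n => Finset.range (M + 1)).filter (fun a => ∃ l, a l = 0),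
      ∏ l, x l ^ a l =
    ∏ l, ∑ k ∈ Finset.range (M + 1), x l ^ k - ∏ l, (x l * ∑ k ∈ Finset.range M, x l ^ k) := by
  have h1 : ∏ l, ∑ k ∈ Finset.range (M + 1), x l ^ k =
      ∑ a ∈ Fintype.piFinset fun _ : Fin n => Finset.range (M + 1), ∏ l, x l ^ a l :=
    Finset.prod_univ_sum (fun _ : Fin n => Finset.range (M + 1)) (fun l k => x l ^ k)
  have h2 : ∏ l, (x l * ∑ k ∈ Finset.range M, x l ^ k) =
      ∑ a ∈ (Fintype.piFinset fun _ : Fin n => Finset.range (M + 1)).filter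
        (fun a => ¬ ∃ l, a l = 0), ∏ l, x l ^ a l := by
    have h3 : ∀ l, x l * ∑ k ∈ Finset.range M, x l ^ k = ∑ k ∈ Finset.Ico 1 (M + 1), x l ^ k := by
      intro l
      rw [Finset.sum_Ico_eq_sum_range, Finset.mul_sum]
      simp only [Nat.add_sub_cancel]
      exact Finset.sum_congr rfl fun k _ => by rw [pow_add, pow_one]
    simp only [h3]
    rw [Finset.prod_univ_sum (fun _ : Fin n => Finset.Ico 1 (M + 1)) (fun l k => x l ^ k)]
    apply Finset.sum_congr _ fun _ _ => rfl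
    ext a
    simp only [Fintype.mem_piFinset, Finset.mem_Ico, Finset.mem_filter, Finset.mem_range,
      not_exists]
    constructor
    · intro h
      exact ⟨fun l => (h l).2, fun l hl => by have := (h l).1; omega⟩
    · rintro ⟨h, h'⟩ l
      exact ⟨Nat.one_le_iff_ne_zero.mpr (h' l), h l⟩
  rw [h1, h2, ← Finset.sum_filter_add_sum_filter_not
    (Fintype.piFinset fun _ : Fin n => Finset.range (M + 1)) (fun a => ∃ l, a l = 0)]
  ring

theorem ntx_box_le {n : ℕ} (x : Fin n → ℝ) (hx0 : ∀ l, 0 < x l) (hx1 : ∀ l, x l < 1) (M : ℕ) :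
    ∑ a ∈ (Fintype.piFinset fun _ : Fin n => Finset.range (M + 1)).filter (fun a => ∃ l, a l = 0),
      ∏ l, x l ^ a l ≤ (1 - ∏ l, x l) / ∏ l, (1 - x l) := by
  have hg : ∀ l, Tendsto (fun M => ∑ k ∈ Finset.range M, x l ^ k) atTop (𝓝 (1 - x l)⁻¹) := fun l =>
    (hasSum_geometric_of_lt_one (hx0 l).le (hx1 l)).tendsto_sum_nat
  have hlim : Tendsto (fun M : ℕ =>
      ∑ a ∈ (Fintype.piFinset fun _ : Fin n => Finset.range (M + 1)).filter
        (fun a => ∃ l, a l = 0), ∏ l, x l ^ a l) atTop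
      (𝓝 (∏ l, (1 - x l)⁻¹ - ∏ l, (x l * (1 - x l)⁻¹))) := by
    simp only [ntx_box]
    apply Tendsto.sub
    · exact tendsto_finsetProd _ fun l _ => (hg l).comp (tendsto_add_atTop_nat 1)
    · exact tendsto_finsetProd _ fun l _ => (hg l).const_mul _
  have hval : ∏ l, (1 - x l)⁻¹ - ∏ l, (x l * (1 - x l)⁻¹) =
      (1 - ∏ l, x l) / ∏ l, (1 - x l) := by
    rw [Finset.prod_mul_distrib, Finset.prod_inv_distrib]
    have : ∏ l, (1 - x l) ≠ 0 := Finset.prod_ne_zero_iff.mpr fun l _ => by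
      have := hx1 l; linarith
    field_simp
  rw [← hval]
  apply Monotone.ge_of_tendsto _ hlim M
  intro M M' hMM
  apply Finset.sum_le_sum_of_subset_of_nonneg
  · intro a ha
    simp only [Finset.mem_filter, Fintype.mem_piFinset, Finset.mem_range] at ha ⊢
    exact ⟨fun l => by have := ha.1 l; omega, ha.2⟩
  · intro a _ _
    exact Finset.prod_nonneg fun l _ => pow_nonneg (hx0 l).le _

/-- the term `q^{|a|} θ^{w(a)}` -/
theorem ntx_f_eq {n : ℕ} (e : Fin n → ℕ) (η : ℕ) (q θ : ℝ) (a : Fin n → ℕ) :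
    q ^ (∑ i, a i) * θ ^ wt e η a =
      (q ^ n * θ ^ η) ^ mina a * ∏ l, (q * θ ^ e l) ^ (a l - mina a) := by
  have h1 : ∑ i, a i = ∑ i, (a i - mina a) + n * mina a := by
    have : ∀ i, a i = (a i - mina a) + mina a := fun i => by
      have := ntx_mina_le a i
      omega
    calc ∑ i, a i = ∑ i, ((a i - mina a) + mina a) := Finset.sum_congr rfl fun i _ => this i
      _ = _ := by rw [Finset.sum_add_distrib]; simp
  unfold wt
  rw [h1]
  have h2 : ∏ l, (q * θ ^ e l) ^ (a l - mina a) =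
      q ^ (∑ i, (a i - mina a)) * θ ^ (∑ i, (a i - mina a) * e i) := by
    rw [← Finset.prod_pow_eq_pow_sum, ← Finset.prod_pow_eq_pow_sum, ← Finset.prod_mul_distrib]
    apply Finset.prod_congr rfl
    intro l _
    rw [mul_pow, ← pow_mul, mul_comm (e l)]
  rw [h2, pow_add, pow_add, mul_pow, ← pow_mul, ← pow_mul, mul_comm η]
  ring

theorem ntx_sum_f {n : ℕ} (hn : 1 ≤ n) (e : Fin n → ℕ) (η : ℕ) (q θ : ℝ) (hq0 : 0 < q)
    (hq1 : q < 1) (hθ0 : 0 < θ) (hθ1 : θ < 1) (M : ℕ) :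
    ∑ a ∈ Exps n M, q ^ (∑ i, a i) * θ ^ wt e η a ≤
      (1 - q ^ n * θ ^ (∑ l, e l)) / ((∏ l, (1 - q * θ ^ (e l))) * (1 - q ^ n * θ ^ η)) := by
  have hx0 : ∀ l, 0 < q * θ ^ e l := fun l => by positivity
  have hx1 : ∀ l, q * θ ^ e l < 1 := fun l => by
    have : θ ^ e l ≤ 1 := pow_le_one₀ hθ0.le hθ1.le
    nlinarith
  have hQ0 : 0 < q ^ n * θ ^ η := by positivity
  have hQ1 : q ^ n * θ ^ η < 1 := by
    have h1 : θ ^ η ≤ 1 := pow_le_one₀ hθ0.le hθ1.le
    have h2 : q ^ n < 1 := pow_lt_one₀ hq0.le hq1 (by omega)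
    have h3 : 0 < q ^ n := by positivity
    nlinarith
  have hprod : ∏ l, (q * θ ^ e l) = q ^ n * θ ^ (∑ l, e l) := by
    rw [Finset.prod_mul_distrib, Finset.prod_pow_eq_pow_sum]
    simp
  set Box := (Fintype.piFinset fun _ : Fin n => Finset.range (M + 1)).filter
    (fun a => ∃ l, a l = 0) with hBox
  set φ : (Fin n → ℕ) → ℕ × (Fin n → ℕ) := fun a => (mina a, fun l => a l - mina a) with hφ
  set F : ℕ × (Fin n → ℕ) → ℝ := fun c => (q ^ n * θ ^ η) ^ c.1 * ∏ l, (q * θ ^ e l) ^ c.2 l with hF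
  have hinj : Set.InjOn φ (Exps n M : Set (Fin n → ℕ)) := by
    intro a _ a' _ h
    simp only [hφ, Prod.mk.injEq] at h
    funext l
    have h1 := congrFun h.2 l
    have h2 := ntx_mina_le a l
    have h3 := ntx_mina_le a' l
    have h4 := h.1
    omega
  have himg : (Exps n M).image φ ⊆ Finset.range (M + 1) ×ˢ Box := by
    intro c hc
    rw [Finset.mem_image] at hc
    obtain ⟨a, ha, rfl⟩ := hc
    have ha' : ∀ l, a l < M + 1 := by
      unfold Exps at ha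
      rw [Finset.mem_filter, Fintype.mem_piFinset] at ha
      exact fun l => Finset.mem_range.mp (ha.1 l)
    obtain ⟨l0, hl0⟩ := ntx_mina_mem hn a
    simp only [hφ, hBox, Finset.mem_product, Finset.mem_range, Finset.mem_filter,
      Fintype.mem_piFinset]
    refine ⟨?_, fun l => ?_, l0, ?_⟩
    · rw [← hl0]; exact ha' l0
    · have := ha' l; omega
    · omega
  calc ∑ a ∈ Exps n M, q ^ (∑ i, a i) * θ ^ wt e η a = ∑ a ∈ Exps n M, F (φ a) :=
        Finset.sum_congr rfl fun a _ => ntx_f_eq e η q θ a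
    _ = ∑ c ∈ (Exps n M).image φ, F c := (Finset.sum_image hinj).symm
    _ ≤ ∑ c ∈ Finset.range (M + 1) ×ˢ Box, F c := by
        apply Finset.sum_le_sum_of_subset_of_nonneg himg
        intro c _ _
        exact mul_nonneg (pow_nonneg hQ0.le _)
          (Finset.prod_nonneg fun l _ => pow_nonneg (hx0 l).le _)
    _ = (∑ b ∈ Finset.range (M + 1), (q ^ n * θ ^ η) ^ b) *
        ∑ a ∈ Box, ∏ l, (q * θ ^ e l) ^ a l := by
        rw [Finset.sum_product, Finset.sum_mul_sum]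
    _ ≤ (1 / (1 - q ^ n * θ ^ η)) * ((1 - ∏ l, (q * θ ^ e l)) / ∏ l, (1 - q * θ ^ e l)) := by
        apply mul_le_mul (ntx_geom_le hQ0 hQ1 _) (ntx_box_le _ hx0 hx1 M)
        · exact Finset.sum_nonneg fun a _ => Finset.prod_nonneg fun l _ => pow_nonneg (hx0 l).le _
        · have : 0 < 1 - q ^ n * θ ^ η := by linarith
          positivity
    _ = _ := by
        rw [hprod, div_mul_div_comm, one_mul, mul_comm (1 - q ^ n * θ ^ η)]

/-! ### the main estimate -/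

theorem ntx_swap {n : ℕ} (M0 : ℕ) (f : (Fin n → ℕ) → ℝ) (hf : ∀ a, 0 ≤ f a) (h : ℕ → ℝ)
    (hh : ∀ m, 0 ≤ h m) :
    ∑ m ∈ Finset.range (M0 + 1), ∑ a ∈ Exps n m, f a * h (m - ∑ i, a i) ≤
      (∑ a ∈ Exps n M0, f a) * ∑ m ∈ Finset.range (M0 + 1), h m := by
  rw [Finset.sum_sigma', Finset.sum_mul_sum, ← Finset.sum_product']
  set φ : (Σ _ : ℕ, (Fin n → ℕ)) → (Fin n → ℕ) × ℕ := fun c => (c.2, c.1 - ∑ i, c.2 i) with hφ
  have hmem : ∀ c : Σ _ : ℕ, (Fin n → ℕ), c ∈ (Finset.range (M0 + 1)).sigma (fun m => Exps n m) ↔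
      c.1 ≤ M0 ∧ ∑ i, c.2 i ≤ c.1 := by
    intro c
    rw [Finset.mem_sigma, Finset.mem_range, Nat.lt_succ_iff]
    unfold Exps
    rw [Finset.mem_filter, Fintype.mem_piFinset]
    refine and_congr_right fun _ => ⟨fun h => h.2, fun h => ⟨fun l => ?_, h⟩⟩
    have := Finset.single_le_sum (f := c.2) (fun i _ => Nat.zero_le _) (Finset.mem_univ l)
    exact Finset.mem_range.mpr (by omega)
  have hinj : Set.InjOn φ ((Finset.range (M0 + 1)).sigma (fun m => Exps n m) :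
      Set (Σ _ : ℕ, (Fin n → ℕ))) := by
    rintro ⟨m, a⟩ hc ⟨m', a'⟩ hc' heq
    have h1 := (hmem _).mp hc
    have h2 := (hmem _).mp hc'
    simp only [hφ, Prod.mk.injEq] at heq h1 h2
    obtain ⟨rfl, h3⟩ := heq
    have : m = m' := by omega
    rw [this]
  have himg : ((Finset.range (M0 + 1)).sigma (fun m => Exps n m)).image φ ⊆
      Exps n M0 ×ˢ Finset.range (M0 + 1) := by
    intro c hc
    rw [Finset.mem_image] at hc
    obtain ⟨⟨m, a⟩, hma, rfl⟩ := hc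
    have h1 := (hmem _).mp hma
    simp only at h1
    rw [Finset.mem_product, Finset.mem_range]
    simp only [hφ]
    refine ⟨?_, by omega⟩
    unfold Exps
    rw [Finset.mem_filter, Fintype.mem_piFinset]
    refine ⟨fun l => ?_, by omega⟩
    have := Finset.single_le_sum (f := a) (fun i _ => Nat.zero_le _) (Finset.mem_univ l)
    exact Finset.mem_range.mpr (by omega)
  calc ∑ c ∈ (Finset.range (M0 + 1)).sigma (fun m => Exps n m), f c.2 * h (c.1 - ∑ i, c.2 i)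
      = ∑ c ∈ (Finset.range (M0 + 1)).sigma (fun m => Exps n m),
          (fun c' : (Fin n → ℕ) × ℕ => f c'.1 * h c'.2) (φ c) := rfl
    _ = ∑ c' ∈ ((Finset.range (M0 + 1)).sigma (fun m => Exps n m)).image φ, f c'.1 * h c'.2 :=
        (Finset.sum_image (f := fun c' : (Fin n → ℕ) × ℕ => f c'.1 * h c'.2) hinj).symm
    _ ≤ ∑ c' ∈ Exps n M0 ×ˢ Finset.range (M0 + 1), f c'.1 * h c'.2 :=
        Finset.sum_le_sum_of_subset_of_nonneg himg fun c _ _ => mul_nonneg (hf _) (hh _)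

theorem nt_lap_pr {p : ℕ} (d : Fin p → ℕ) (hd : ∀ i, 1 ≤ d i) (v : ℕ) (B' : Finset (Fin p))
    (j : Fin p) (hj : j ∉ B') (hB : ∑ i ∈ B', d i < v - d j) (M0 : ℕ) (R R' : Rec p)
    (e : Fin (d j) → ℕ) (η : ℕ) (hη : 1 ≤ η) (hT : TorusOut d v j M0 R R' e η)
    (hB' : ∀ i ∈ B', R'.g i = R'.L)
    (q θ : ℝ) (hq0 : 0 < q) (hq1 : q < 1) (hθ0 : 0 < θ) (hθ1 : θ < 1) :
    ∑ m ∈ Finset.range (M0 + 1), q ^ m * ∑ l ∈ Finset.Icc 1 R.L, θ ^ l * NT d v j R' e η m l
    ≤ θ / (1 - θ) * (Hq d (v - d j) B' (q * θ ^ R'.c0) * (1 - q ^ (d j) * θ ^ (∑ l, e l))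
        / ((∏ l, (1 - q * θ ^ (e l))) * (1 - q ^ (d j) * θ ^ η))) := by
  have hbas : Bas d (v - d j) R' := bas_rec d hd (v - d j) (by omega) R' hT.of
  have hcard : B'.card ≤ v - d j := by
    have : B'.card ≤ ∑ i ∈ B', d i := by
      calc B'.card = ∑ i ∈ B', 1 := by simp
        _ ≤ _ := Finset.sum_le_sum fun i _ => hd i
    omega
  have hH0 : ∀ m, (0 : ℝ) ≤ NN d (v - d j) B' m := by
    intro m
    have h1 := hbas.le m 0 (Nat.zero_le _)
    have h2 := hbas.ge B' hcard hB' m 0 (Nat.zero_le _)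
    have : (0 : ℤ) ≤ NN d (v - d j) B' m := by linarith
    exact_mod_cast this
  have h1θ : 0 < 1 - θ := by linarith
  -- one exponent
  have hone : ∀ m : ℕ, ∀ a : Fin (d j) → ℕ, ∑ l ∈ Finset.Icc 1 R.L, θ ^ l *
      ((NN d (v - d j) ∅ (m - ∑ i, a i) : ℝ) - R'.fil (m - ∑ i, a i) (l - wt e η a)) ≤
      (NN d (v - d j) B' (m - ∑ i, a i) : ℝ) *
        (θ ^ (wt e η a + R'.c0 * (m - ∑ i, a i) + 1) / (1 - θ)) := by
    intro m a
    set m' := m - ∑ i, a i
    set W := wt e η a + R'.c0 * m' with hW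
    calc ∑ l ∈ Finset.Icc 1 R.L, θ ^ l *
        ((NN d (v - d j) ∅ m' : ℝ) - R'.fil m' (l - wt e η a))
        ≤ ∑ l ∈ Finset.Icc 1 R.L, if W < l then θ ^ l * (NN d (v - d j) B' m' : ℝ) else 0 := by
          apply Finset.sum_le_sum
          intro l hl
          rw [Finset.mem_Icc] at hl
          have hlL : l - wt e η a ≤ R'.L := by rw [hT.L_eq]; omega
          split_ifs with hc
          · apply mul_le_mul_of_nonneg_left _ (pow_pos hθ0 l).le
            have h2 := hbas.ge B' hcard hB' m' (l - wt e η a) hlL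
            have h3 : (NN d (v - d j) ∅ m' : ℝ) - NN d (v - d j) B' m' ≤
                R'.fil m' (l - wt e η a) := by exact_mod_cast h2
            linarith
          · have h2 := hbas.full m' (l - wt e η a) hlL (by omega)
            have h3 : (R'.fil m' (l - wt e η a) : ℝ) = NN d (v - d j) ∅ m' := by
              exact_mod_cast h2
            rw [h3]
            simp
      _ = (NN d (v - d j) B' m' : ℝ) *
          ∑ l ∈ (Finset.Icc 1 R.L).filter (fun l => W < l), θ ^ l := by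
          rw [← Finset.sum_filter, Finset.mul_sum]
          exact Finset.sum_congr rfl fun l _ => mul_comm _ _
      _ ≤ (NN d (v - d j) B' m' : ℝ) * (θ ^ (W + 1) / (1 - θ)) :=
          mul_le_mul_of_nonneg_left (ntx_geom_tail hθ0 hθ1 _ _) (hH0 _)
  set f : (Fin (d j) → ℕ) → ℝ := fun a => q ^ (∑ i, a i) * θ ^ wt e η a with hf
  set h : ℕ → ℝ := fun m => (NN d (v - d j) B' m : ℝ) * (q * θ ^ R'.c0) ^ m with hh
  have hf0 : ∀ a, 0 ≤ f a := fun a => by simp only [hf]; positivity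
  have hh0 : ∀ m, 0 ≤ h m := fun m => mul_nonneg (hH0 m) (by positivity)
  -- for every `m`
  have hm : ∀ m : ℕ, q ^ m * ∑ l ∈ Finset.Icc 1 R.L, θ ^ l * NT d v j R' e η m l ≤
      θ / (1 - θ) * ∑ a ∈ Exps (d j) m, f a * h (m - ∑ i, a i) := by
    intro m
    have e1 : ∑ l ∈ Finset.Icc 1 R.L, θ ^ l * NT d v j R' e η m l =
        ∑ a ∈ Exps (d j) m, ∑ l ∈ Finset.Icc 1 R.L, θ ^ l *
          ((NN d (v - d j) ∅ (m - ∑ i, a i) : ℝ) - R'.fil (m - ∑ i, a i) (l - wt e η a)) := by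
      unfold NT
      rw [Finset.sum_comm]
      exact Finset.sum_congr rfl fun l _ => Finset.mul_sum _ _ _
    rw [e1, Finset.mul_sum, Finset.mul_sum]
    apply Finset.sum_le_sum
    intro a ha
    have ham : ∑ i, a i ≤ m := by
      unfold Exps at ha
      exact (Finset.mem_filter.mp ha).2
    calc q ^ m * ∑ l ∈ Finset.Icc 1 R.L, θ ^ l *
          ((NN d (v - d j) ∅ (m - ∑ i, a i) : ℝ) - R'.fil (m - ∑ i, a i) (l - wt e η a))
        ≤ q ^ m * ((NN d (v - d j) B' (m - ∑ i, a i) : ℝ) *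
        (θ ^ (wt e η a + R'.c0 * (m - ∑ i, a i) + 1) / (1 - θ))) :=
          mul_le_mul_of_nonneg_left (hone m a) (pow_pos hq0 m).le
      _ = θ / (1 - θ) * (f a * h (m - ∑ i, a i)) := by
          simp only [hf, hh]
          have : q ^ m = q ^ (∑ i, a i) * q ^ (m - ∑ i, a i) := by
            rw [← pow_add]; congr 1; omega
          rw [this, pow_succ, pow_add, mul_pow, ← pow_mul]
          ring
  have hser := ser_H d hd (v - d j) B' (q * θ ^ R'.c0) (by positivity) (by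
    have : θ ^ R'.c0 ≤ 1 := pow_le_one₀ hθ0.le hθ1.le
    nlinarith)
  have hHq : ∑ m ∈ Finset.range (M0 + 1), h m ≤ Hq d (v - d j) B' (q * θ ^ R'.c0) :=
    sum_le_hasSum _ (fun m _ => hh0 m) hser
  have hsumh0 : 0 ≤ ∑ m ∈ Finset.range (M0 + 1), h m := Finset.sum_nonneg fun m _ => hh0 m
  have hS := ntx_sum_f (hd j) e η q θ hq0 hq1 hθ0 hθ1 M0
  have hS0 : 0 ≤ ∑ a ∈ Exps (d j) M0, f a := Finset.sum_nonneg fun a _ => hf0 a
  calc ∑ m ∈ Finset.range (M0 + 1), q ^ m *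
        ∑ l ∈ Finset.Icc 1 R.L, θ ^ l * NT d v j R' e η m l
      ≤ ∑ m ∈ Finset.range (M0 + 1),
          θ / (1 - θ) * ∑ a ∈ Exps (d j) m, f a * h (m - ∑ i, a i) :=
        Finset.sum_le_sum fun m _ => hm m
    _ = θ / (1 - θ) * ∑ m ∈ Finset.range (M0 + 1), ∑ a ∈ Exps (d j) m, f a * h (m - ∑ i, a i) := by
        rw [Finset.mul_sum]
    _ ≤ θ / (1 - θ) * ((∑ a ∈ Exps (d j) M0, f a) * ∑ m ∈ Finset.range (M0 + 1), h m) :=
        mul_le_mul_of_nonneg_left (ntx_swap M0 f hf0 h hh0) (by positivity)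
    _ ≤ θ / (1 - θ) * ((1 - q ^ (d j) * θ ^ (∑ l, e l)) /
          ((∏ l, (1 - q * θ ^ (e l))) * (1 - q ^ (d j) * θ ^ η)) *
          Hq d (v - d j) B' (q * θ ^ R'.c0)) := by
        apply mul_le_mul_of_nonneg_left _ (by positivity)
        exact mul_le_mul hS hHq hsumh0 (hS0.trans hS)
    _ = _ := by ring

alias nt_lap := nt_lap_pr

end Pool.Agent.KSX
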