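import Pool.Agent.Lib_helper77.KSZ.XBase
import Pool.Agent.Lib_helper77.KSZ.XASY
import Pool.Agent.Lib_helper77.KSZ.XCNT
import Pool.Agent.Lib_helper77.KSZ.XNTB
import Pool.Agent.Lib_helper77.KSZ.XNTX

/-! # KSX, block LAP: the limit of the Laplace inequality -/

set_option autoImplicit false

namespace Pool.Agent.KSX

open MvPolynomial Pool.Agent.KSS Filter Topology

theorem lap_slope {ι : Type*} {U : Filter ι} {t y : ι → ℝ} {y0 : ℝ} (ht : Tendsto t U (𝓝 0))
    (hne : ∀ᶠ n in U, t n ≠ 0) (hy : Tendsto y U (𝓝 y0)) :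
    Tendsto (fun n => (1 - Real.exp (-(t n * y n))) / t n) U (𝓝 y0) := by
  have hd : HasDerivAt (fun z : ℝ => 1 - Real.exp (-z)) 1 0 := by
    have h := ((hasDerivAt_neg (0 : ℝ)).exp).const_sub 1
    simpa using h
  have hc : ContinuousAt (dslope (fun z : ℝ => 1 - Real.exp (-z)) 0) 0 :=
    continuousAt_dslope_same.mpr hd.differentiableAt
  have h0 : dslope (fun z : ℝ => 1 - Real.exp (-z)) 0 0 = 1 := by
    rw [dslope_same, hd.deriv]
  have h1 : Tendsto (fun n => t n * y n) U (𝓝 0) := by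
    simpa using ht.mul hy
  have h2 : Tendsto (fun n => dslope (fun z : ℝ => 1 - Real.exp (-z)) 0 (t n * y n) * y n) U
      (𝓝 (1 * y0)) := by
    apply Tendsto.mul _ hy
    have h3 := hc.tendsto.comp h1
    rw [h0] at h3
    exact h3
  rw [one_mul] at h2
  apply h2.congr'
  filter_upwards [hne] with n hn
  have h3 := sub_smul_dslope (fun z : ℝ => 1 - Real.exp (-z)) 0 (t n * y n)
  simp only [sub_zero, smul_eq_mul, neg_zero, Real.exp_zero, sub_self] at h3
  rw [← h3]
  field_simp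

theorem lap_pow {q θ t s lam : ℝ} (hq : q = Real.exp (-t)) (hθ : θ = Real.exp (-(t / (lam * s))))
    (a b : ℕ) : q ^ a * θ ^ b = Real.exp (-(t * (a + b / s / lam))) := by
  rw [hq, hθ, ← Real.exp_nat_mul, ← Real.exp_nat_mul, ← Real.exp_add]
  congr 1
  by_cases hs : s = 0
  · rw [hs]; simp; ring
  by_cases hl : lam = 0
  · rw [hl]; simp; ring
  field_simp
  ring

theorem lap_fac {ι : Type*} {U : Filter ι} {t q θ s : ι → ℝ} {lam : ℝ} (ht : Tendsto t U (𝓝 0))
    (hne : ∀ᶠ n in U, t n ≠ 0) (hq : ∀ᶠ n in U, q n = Real.exp (-t n))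
    (hθ : ∀ n, θ n = Real.exp (-(t n / (lam * s n)))) (a : ℕ) {b : ι → ℕ} {β : ℝ}
    (hb : Tendsto (fun n => (b n : ℝ) / s n) U (𝓝 β)) :
    Tendsto (fun n => (1 - q n ^ a * θ n ^ (b n)) / t n) U (𝓝 (a + β / lam)) := by
  have h := lap_slope ht hne ((hb.div_const lam).const_add (a : ℝ))
  apply h.congr'
  filter_upwards [hq] with n hn
  rw [lap_pow hn (hθ n)]

theorem lap_inv {ι : Type*} {U : Filter ι} {T : Type} [Fintype T] {t : ι → ℝ}
    (hne : ∀ᶠ n in U, t n ≠ 0) {f : ι → T → ℝ} {φ : T → ℝ} (hφ : ∀ x, φ x ≠ 0)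
    (hf : ∀ x, Tendsto (fun n => f n x / t n) U (𝓝 (φ x))) :
    Tendsto (fun n => t n ^ (Fintype.card T) * ∏ x, (f n x)⁻¹) U (𝓝 (∏ x, (φ x)⁻¹)) := by
  have h : Tendsto (fun n => ∏ x, (f n x / t n)⁻¹) U (𝓝 (∏ x, (φ x)⁻¹)) :=
    tendsto_finsetProd _ (fun x _ => (hf x).inv₀ (hφ x))
  apply h.congr'
  filter_upwards [hne] with n hn
  have e : t n ^ (Fintype.card T) = ∏ _x : T, t n := by
    rw [Finset.prod_const, Finset.card_univ]
  rw [e, ← Finset.prod_mul_distrib]
  apply Finset.prod_congr rfl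
  intro x _
  rw [inv_div]
  rfl

theorem lap_rhs {ι : Type*} {U : Filter ι} {p : ℕ} (d : Fin p → ℕ) (v K : ℕ)
    (B : Finset (Fin p)) (j : Fin p) (hK : K + B.card = v) (hv : d j < v) (hdj : 1 ≤ d j) (lam : ℝ)
    (hlam : 0 < lam) {t q θ s : ι → ℝ} (ht : Tendsto t U (𝓝 0)) (hne : ∀ᶠ n in U, t n ≠ 0)
    (hq : ∀ᶠ n in U, q n = Real.exp (-t n)) (hθ : ∀ n, θ n = Real.exp (-(t n / (lam * s n))))
    (c : ι → ℕ) (hc : Tendsto (fun n => (c n : ℝ) / s n) U (𝓝 1)) (e : ι → Fin (d j) → ℕ)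
    (eh : Fin (d j) → ℝ) (heh : ∀ l, Tendsto (fun n => (e n l : ℝ) / s n) U (𝓝 (eh l)))
    (heh0 : ∀ l, 0 ≤ eh l)
    (he : Tendsto (fun n => ((∑ l, e n l : ℕ) : ℝ) / s n) U (𝓝 (d j))) (η : ι → ℕ)
    (hcase : (j ∈ B ∧ Tendsto (fun n => q n ^ d j * θ n ^ η n) U (𝓝 0)) ∨
      (B = ∅ ∧ Tendsto (fun n => (η n : ℝ) / s n) U (𝓝 (d j)))) :
    Tendsto (fun n => t n ^ K * (Hq d (v - d j) (B.erase j) (q n * θ n ^ c n) *
      (1 - q n ^ (d j) * θ n ^ (∑ l, e n l)) /
        ((∏ l, (1 - q n * θ n ^ (e n l))) * (1 - q n ^ (d j) * θ n ^ (η n))))) U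
      (𝓝 ((∏ i ∈ B, (d i : ℝ)) * (1 + 1 / lam) ^ B.card /
        ((1 + 1 / lam) ^ (v - d j) * ∏ l, (1 + eh l / lam)))) := by
  have hu : 0 < 1 + 1 / lam := by positivity
  have hdj' : (0 : ℝ) < d j := by exact_mod_cast hdj
  have a1 : ∀ i : Fin p, Tendsto (fun n => (1 - (q n * θ n ^ c n) ^ (d i)) / t n) U
      (𝓝 ((d i : ℝ) * (1 + 1 / lam))) := by
    intro i
    have h1 : Tendsto (fun n => ((c n * d i : ℕ) : ℝ) / s n) U (𝓝 (d i)) := by
      have h2 := hc.mul_const (d i : ℝ)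
      rw [one_mul] at h2
      apply h2.congr
      intro n
      push_cast
      ring
    have h3 := lap_fac ht hne hq hθ (d i) h1 (lam := lam)
    have h4 : (d i : ℝ) * (1 + 1 / lam) = d i + d i / lam := by ring
    rw [h4]
    apply h3.congr
    intro n
    rw [mul_pow, pow_mul]
  have a2 : Tendsto (fun n => (1 - q n * θ n ^ c n) / t n) U (𝓝 (1 + 1 / lam)) := by
    have h3 := lap_fac ht hne hq hθ 1 hc (lam := lam)
    simp only [pow_one, Nat.cast_one] at h3
    exact h3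
  have a3 : Tendsto (fun n => (1 - q n ^ d j * θ n ^ (∑ l, e n l)) / t n) U
      (𝓝 ((d j : ℝ) * (1 + 1 / lam))) := by
    have h3 := lap_fac ht hne hq hθ (d j) he (lam := lam)
    have h4 : (d j : ℝ) * (1 + 1 / lam) = d j + d j / lam := by ring
    rw [h4]
    exact h3
  have a4 : ∀ l, Tendsto (fun n => (1 - q n * θ n ^ (e n l)) / t n) U (𝓝 (1 + eh l / lam)) := by
    intro l
    have h3 := lap_fac ht hne hq hθ 1 (heh l) (lam := lam)
    simp only [pow_one, Nat.cast_one] at h3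
    exact h3
  have hpl : ∀ l, (1 + eh l / lam) ≠ 0 := by
    intro l
    have : 0 ≤ eh l / lam := div_nonneg (heh0 l) hlam.le
    linarith
  have hpp : ∏ l, (1 + eh l / lam) ≠ 0 := Finset.prod_ne_zero_iff.mpr (fun l _ => hpl l)
  have b1 : Tendsto (fun n => ∏ i ∈ B.erase j, (1 - (q n * θ n ^ c n) ^ (d i)) / t n) U
      (𝓝 (∏ i ∈ B.erase j, ((d i : ℝ) * (1 + 1 / lam)))) := tendsto_finsetProd _ (fun i _ => a1 i)
  have b4 : Tendsto (fun n => ∏ l, (1 - q n * θ n ^ (e n l)) / t n) U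
      (𝓝 (∏ l, (1 + eh l / lam))) := tendsto_finsetProd _ (fun l _ => a4 l)
  rcases hcase with ⟨hj, hη⟩ | ⟨hB, hη⟩
  · have a5 : Tendsto (fun n => 1 - q n ^ d j * θ n ^ η n) U (𝓝 1) := by
      simpa using hη.const_sub 1
    have hlim := ((b1.div (a2.pow (v - d j)) (pow_ne_zero _ hu.ne')).mul a3).div (b4.mul a5)
      (by rw [mul_one]; exact hpp)
    have hval : (∏ i ∈ B.erase j, ((d i : ℝ) * (1 + 1 / lam))) / (1 + 1 / lam) ^ (v - d j) *
        ((d j : ℝ) * (1 + 1 / lam)) / ((∏ l, (1 + eh l / lam)) * 1) =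
        (∏ i ∈ B, (d i : ℝ)) * (1 + 1 / lam) ^ B.card /
        ((1 + 1 / lam) ^ (v - d j) * ∏ l, (1 + eh l / lam)) := by
      rw [Finset.prod_mul_distrib, Finset.prod_const, ← Finset.mul_prod_erase B _ hj,
        ← Finset.card_erase_add_one hj, pow_succ]
      field_simp
    rw [hval] at hlim
    apply hlim.congr'
    filter_upwards [hne] with n hn
    simp only [Pi.div_apply]
    unfold Hq
    rw [Finset.prod_div_distrib, Finset.prod_div_distrib, Finset.prod_const, Finset.prod_const,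
      Finset.card_univ, Fintype.card_fin, div_pow]
    have hcard : K + (B.erase j).card + 1 = (v - d j) + d j := by
      have := Finset.card_erase_add_one hj
      omega
    have hKt : t n ^ K = t n ^ (v - d j) * t n ^ d j * (t n ^ (B.erase j).card)⁻¹ * (t n)⁻¹ := by
      have h5 : t n ^ K * t n ^ (B.erase j).card * t n = t n ^ (v - d j) * t n ^ d j := by
        rw [← pow_add, ← pow_succ, ← pow_add, hcard]
      rw [← h5]
      field_simp
    rw [hKt]
    simp only [div_eq_mul_inv, mul_inv, inv_inv]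
    ring
  · subst hB
    have a5 : Tendsto (fun n => (1 - q n ^ d j * θ n ^ η n) / t n) U
        (𝓝 ((d j : ℝ) * (1 + 1 / lam))) := by
      have h3 := lap_fac ht hne hq hθ (d j) hη (lam := lam)
      have h4 : (d j : ℝ) * (1 + 1 / lam) = d j + d j / lam := by ring
      rw [h4]
      exact h3
    have hlim := ((b1.div (a2.pow (v - d j)) (pow_ne_zero _ hu.ne')).mul a3).div (b4.mul a5)
      (mul_ne_zero hpp (by positivity))
    have hval : (∏ i ∈ (∅ : Finset (Fin p)).erase j, ((d i : ℝ) * (1 + 1 / lam))) /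
        (1 + 1 / lam) ^ (v - d j) *
        ((d j : ℝ) * (1 + 1 / lam)) / ((∏ l, (1 + eh l / lam)) * ((d j : ℝ) * (1 + 1 / lam))) =
        (∏ i ∈ (∅ : Finset (Fin p)), (d i : ℝ)) * (1 + 1 / lam) ^ (∅ : Finset (Fin p)).card /
        ((1 + 1 / lam) ^ (v - d j) * ∏ l, (1 + eh l / lam)) := by
      rw [Finset.erase_empty, Finset.prod_empty, Finset.prod_empty, Finset.card_empty, pow_zero]
      field_simp
    rw [hval] at hlim
    apply hlim.congr'
    filter_upwards [hne] with n hn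
    simp only [Pi.div_apply]
    unfold Hq
    rw [Finset.prod_div_distrib, Finset.prod_div_distrib, Finset.prod_const, Finset.prod_const,
      Finset.card_univ, Fintype.card_fin, div_pow, Finset.erase_empty, Finset.card_empty, pow_zero]
    have hKt : t n ^ K = t n ^ (v - d j) * t n ^ d j := by
      rw [← pow_add]
      congr 1
      rw [Finset.card_empty] at hK
      omega
    rw [hKt]
    simp only [div_eq_mul_inv, mul_inv, inv_inv]
    have h6 : (t n)⁻¹ * t n = 1 := inv_mul_cancel₀ hn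
    linear_combination ((t n ^ (v - d j) * t n ^ d j * (∏ i ∈ (∅ : Finset (Fin p)),
      (1 - (q n * θ n ^ c n) ^ d i)) * ((1 - q n * θ n ^ c n) ^ (v - d j))⁻¹ *
      (1 - q n ^ d j * θ n ^ (∑ l, e n l)) * (∏ l, (1 - q n * θ n ^ (e n l)))⁻¹ *
      (1 - q n ^ d j * θ n ^ η n)⁻¹)) * h6

theorem lap_point {p : ℕ} (d : Fin p → ℕ) (hd : ∀ i, 1 ≤ d i) (v : ℕ) (B E : Finset (Fin p))
    (j : Fin p) (hB : ∑ i ∈ B, d i < v) (hv : d j < v) (hcase : j ∈ B ∨ B = ∅) (M0 : ℕ)
    (R R' : Rec p) (e : Fin (d j) → ℕ) (η : ℕ) (hη1 : 1 ≤ η) (hT : TorusOut d v j M0 R R' e η)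
    (hB' : ∀ i ∈ B.erase j, R'.g i = R'.L) (l0 : Fin (d j))
    (o : TI d j l0 (v - d j + 1 - (B ∪ E).card) E → ℕ)
    (ho : RitOut d v B E j M0 R R' e η l0 o) (q θ : ℝ) (hq0 : 0 < q) (hq1 : q < 1)
    (hθ0 : 0 < θ) (hθ1 : θ < 1) :
    ∏ t, (1 - q ^ (tdeg d j l0 (v - d j + 1 - (B ∪ E).card) E t) * θ ^ (o t))⁻¹
      - (√q) ^ M0 * ∏ t, (1 - (√q) ^ (tdeg d j l0 (v - d j + 1 - (B ∪ E).card) E t))⁻¹
      - θ ^ R.L * ∏ t, (1 - q ^ (tdeg d j l0 (v - d j + 1 - (B ∪ E).card) E t))⁻¹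
    ≤ (1 - θ) / θ * (∑ m ∈ Finset.range (M0 + 1), q ^ m *
          ∑ l ∈ Finset.Icc 1 R.L, (((NN d v ∅ m : ℝ) - R.fil m l) - NT d v j R' e η m l)) +
      Hq d (v - d j) (B.erase j) (q * θ ^ R'.c0) * (1 - q ^ (d j) * θ ^ (∑ l, e l))
        / ((∏ l, (1 - q * θ ^ (e l))) * (1 - q ^ (d j) * θ ^ η)) := by
  have hdeg : ∀ t, 1 ≤ tdeg d j l0 (v - d j + 1 - (B ∪ E).card) E t := by
    rintro (t | t)
    · exact le_rfl
    · exact hd t
  have h1 := cnt_lap (tdeg d j l0 (v - d j + 1 - (B ∪ E).card) E) o hdeg q θ hq0 hq1 hθ0 hθ1 M0 R.L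
  refine h1.trans ?_
  have hsub : ∑ i ∈ B.erase j, d i < v - d j := by
    rcases hcase with hj | hB0
    · have := Finset.add_sum_erase B d hj
      omega
    · rw [hB0]
      simp
      exact hv
  have h2 := nt_lap d hd v (B.erase j) j (Finset.notMem_erase j B) hsub M0 R R' e η hη1 hT hB' q θ
    hq0 hq1 hθ0 hθ1
  have hθ' : 0 < 1 - θ := by linarith
  have hr : 0 ≤ (1 - θ) / θ := div_nonneg hθ'.le hθ0.le
  have h3 : ∑ m ∈ Finset.range (M0 + 1), q ^ m * ∑ l ∈ Finset.Icc 1 R.L,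
      θ ^ l * (cnt (tdeg d j l0 (v - d j + 1 - (B ∪ E).card) E) o m l : ℝ) ≤
      (∑ m ∈ Finset.range (M0 + 1), q ^ m *
          ∑ l ∈ Finset.Icc 1 R.L, (((NN d v ∅ m : ℝ) - R.fil m l) - NT d v j R' e η m l)) +
      ∑ m ∈ Finset.range (M0 + 1), q ^ m * ∑ l ∈ Finset.Icc 1 R.L, θ ^ l * NT d v j R' e η m l := by
    rw [← Finset.sum_add_distrib]
    apply Finset.sum_le_sum
    intro m hm
    rw [← mul_add, ← Finset.sum_add_distrib]
    apply mul_le_mul_of_nonneg_left _ (pow_nonneg hq0.le m)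
    apply Finset.sum_le_sum
    intro l hl
    rw [Finset.mem_range] at hm
    rw [Finset.mem_Icc] at hl
    have h4 : (cnt (tdeg d j l0 (v - d j + 1 - (B ∪ E).card) E) o m l : ℝ) + R.fil m l ≤
        (NN d v ∅ m : ℝ) := by
      exact_mod_cast ho.cnt_le m (by omega) l hl.2
    have h5 := nt_le d hd v j hv M0 R R' e η hT m l (by omega) hl.1 hl.2
    have h6 : 0 ≤ θ ^ l := pow_nonneg hθ0.le l
    have h7 : θ ^ l ≤ 1 := pow_le_one₀ hθ0.le hθ1.le
    have h8 := mul_le_mul_of_nonneg_left h4 h6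
    have h9 : θ ^ l * (((NN d v ∅ m : ℝ) - R.fil m l) - NT d v j R' e η m l) ≤
        1 * (((NN d v ∅ m : ℝ) - R.fil m l) - NT d v j R' e η m l) :=
      mul_le_mul_of_nonneg_right h7 (by linarith)
    nlinarith
  refine (mul_le_mul_of_nonneg_left (h3.trans (add_le_add_right h2 _)) hr).trans ?_
  rw [mul_add]
  apply add_le_add_right
  rw [← mul_assoc]
  have h5 : (1 - θ) / θ * (θ / (1 - θ)) = 1 := by field_simp
  rw [h5, one_mul]

theorem lap_lim_pr {p : ℕ} (d : Fin p → ℕ) (hd : ∀ i, 2 ≤ d i) (v : ℕ) (B E : Finset (Fin p))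
    (hBE : Disjoint B E) (j : Fin p) (hB : ∑ i ∈ B, d i < v) (hv : d j < v)
    (hcase : j ∈ B ∨ (B = ∅ ∧ j ∈ E))
    {ι : Type} (U : Ultrafilter ι) (R : ι → Rec p) (q : ι → ℝ) (M0 : ι → ℕ)
    (h : NE d v B E U R q M0) (R' : ι → Rec p) (e : ι → Fin (d j) → ℕ) (η : ι → ℕ)
    (hT : ∀ᶠ n in U, TorusOut d v j (M0 n) (R n) (R' n) (e n) (η n))
    (hB' : ∀ᶠ n in U, ∀ i ∈ B.erase j, (R' n).g i = (R' n).L)
    (l0 : Fin (d j)) (o : ι → TI d j l0 (v - d j + 1 - (B ∪ E).card) E → ℕ)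
    (ho : ∀ᶠ n in U, RitOut d v B E j (M0 n) (R n) (R' n) (e n) (η n) l0 (o n))
    (hc : Tendsto (fun n => ((R' n).c0 : ℝ) / sn d v B R q M0 n) U (𝓝 1))
    (he : Tendsto (fun n => (∑ l, (e n l : ℝ)) / sn d v B R q M0 n) U (𝓝 (d j)))
    (hη : j ∈ E → Tendsto (fun n => (η n : ℝ) / sn d v B R q M0 n) U (𝓝 (d j)))
    (hηB : j ∈ B → ∀ᶠ n in U, η n = (R n).L)
    (eh : Fin (d j) → ℝ)
    (heh : ∀ l, Tendsto (fun n => (e n l : ℝ) / sn d v B R q M0 n) U (𝓝 (eh l)))
    (oh : TI d j l0 (v - d j + 1 - (B ∪ E).card) E → ℝ)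
    (hoh : ∀ t, Tendsto (fun n => (o n t : ℝ) / sn d v B R q M0 n) U (𝓝 (oh t)))
    (hoE : ∀ i : E, oh (Sum.inr i) = d i)
    (hloss : Tendsto (fun n => (∑ m ∈ Finset.range (M0 n + 1), q n ^ m *
          ∑ l ∈ Finset.Icc 1 (R n).L, (((NN d v ∅ m : ℝ) - (R n).fil m l)
            - NT d v j (R' n) (e n) (η n) m l))
          / (sn d v B R q M0 n * Wq d v B (q n))) U (𝓝 0))
    (lam : ℝ) (hlam : 0 < lam) :
    (∏ l, (lam + eh l)) * (1 + lam) ^ (v - d j) ≤
      (∏ i ∈ B ∪ E, (d i : ℝ)) * (1 + lam) ^ (B ∪ E).card *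
        ((∏ l : {l : Fin (d j) // l ≠ l0}, (lam + oh (Sum.inl (Sum.inl l)))) *
          ∏ i : Fin (v - d j + 1 - (B ∪ E).card), (lam + oh (Sum.inl (Sum.inr i)))) := by
  classical
  have hd1 : ∀ i, 1 ≤ d i := fun i => le_trans (by norm_num) (hd i)
  obtain ⟨s, hs⟩ : ∃ s : ι → ℝ, s = fun n => sn d v B R q M0 n := ⟨_, rfl⟩
  have hsn : ∀ n, sn d v B R q M0 n = s n := fun n => by rw [hs]
  have hspos : ∀ᶠ n in (U : Filter ι), 0 < s n := by simpa only [hsn] using h.spos
  have hLl := h.Llim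
  simp only [hsn] at hLl hc he hη heh hoh hloss
  have hjcase : j ∈ B ∨ B = ∅ := hcase.imp id And.left
  obtain ⟨t, htd⟩ : ∃ t : ι → ℝ, t = fun n => -Real.log (q n) := ⟨_, rfl⟩
  have htn : ∀ n, t n = -Real.log (q n) := fun n => by rw [htd]
  have ht0 : Tendsto t U (𝓝 0) := by
    have h1 := (Real.continuousAt_log one_ne_zero).tendsto.comp h.qlim
    rw [Real.log_one] at h1
    have h2 := h1.neg
    rw [neg_zero] at h2
    rw [htd]
    exact h2
  have htpos : ∀ᶠ n in (U : Filter ι), 0 < t n := by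
    filter_upwards [h.q01] with n hn
    rw [htn]
    have := Real.log_neg hn.1 hn.2
    linarith
  have hne : ∀ᶠ n in (U : Filter ι), t n ≠ 0 := htpos.mono (fun n hn => hn.ne')
  have hqt : ∀ᶠ n in (U : Filter ι), q n = Real.exp (-t n) := by
    filter_upwards [h.q01] with n hn
    rw [htn, neg_neg, Real.exp_log hn.1]
  have htge : ∀ᶠ n in (U : Filter ι), 1 - q n ≤ t n := by
    filter_upwards [h.q01] with n hn
    rw [htn]
    have := Real.log_le_sub_one_of_pos hn.1
    linarith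
  obtain ⟨θ, hθd⟩ : ∃ θ : ι → ℝ, θ = fun n => Real.exp (-(t n / (lam * s n))) := ⟨_, rfl⟩
  have hθ : ∀ n, θ n = Real.exp (-(t n / (lam * s n))) := fun n => by rw [hθd]
  have hθ0 : ∀ n, 0 < θ n := fun n => by rw [hθ]; exact Real.exp_pos _
  have hθ1 : ∀ᶠ n in (U : Filter ι), θ n < 1 := by
    filter_upwards [htpos, hspos] with n h1 h2
    rw [hθ, Real.exp_lt_one_iff]
    have : 0 < t n / (lam * s n) := by positivity
    linarith
  have hdj : (0 : ℝ) < d j := by exact_mod_cast (hd1 j)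
  have hslow : ∀ᶠ n in (U : Filter ι), 1 / (2 * (d j : ℝ)) ≤ s n := by
    have h1 := he.eventually (lt_mem_nhds hdj)
    have h2 := he.eventually (gt_mem_nhds (show (d j : ℝ) < 2 * d j by linarith))
    filter_upwards [h1, h2, hspos] with n h3 h4 h5
    have h6 : 0 < ∑ l, (e n l : ℝ) := by
      by_contra h7
      push Not at h7
      have := div_nonpos_of_nonpos_of_nonneg h7 h5.le
      linarith
    have h7 : (1 : ℝ) ≤ ∑ l, (e n l : ℝ) := by
      have h8 : (0 : ℝ) < ((∑ l, e n l : ℕ) : ℝ) := by push_cast; exact h6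
      have h9 : 0 < ∑ l, e n l := by exact_mod_cast h8
      have h10 : (1 : ℝ) ≤ ((∑ l, e n l : ℕ) : ℝ) := by exact_mod_cast h9
      push_cast at h10
      exact h10
    rw [div_lt_iff₀ h5] at h4
    rw [div_le_iff₀ (by positivity)]
    linarith
  have hr : Tendsto (fun n => t n / s n) U (𝓝 0) := by
    have h1 : Tendsto (fun n => t n * (2 * (d j : ℝ))) U (𝓝 0) := by
      simpa using ht0.mul_const (2 * (d j : ℝ))
    apply squeeze_zero' _ _ h1
    · filter_upwards [htpos, hspos] with n h2 h3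
      positivity
    · filter_upwards [htpos, hspos, hslow] with n h2 h3 h4
      rw [div_le_iff₀ h3]
      rw [div_le_iff₀ (by positivity)] at h4
      nlinarith
  have hr0 : ∀ᶠ n in (U : Filter ι), t n / s n ≠ 0 := by
    filter_upwards [htpos, hspos] with n h2 h3
    positivity
  have hθlim : Tendsto θ U (𝓝 1) := by
    have h1 : Tendsto (fun n => -(t n / s n / lam)) U (𝓝 0) := by
      simpa using (hr.div_const lam).neg
    have h2 := (Real.continuous_exp.tendsto 0).comp h1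
    rw [Real.exp_zero] at h2
    apply h2.congr
    intro n
    simp only [Function.comp]
    rw [hθ]
    congr 1
    ring
  have htL : Tendsto (fun n => t n * ((R n).L : ℝ) / s n) U atTop := by
    apply tendsto_atTop_mono' _ _ hLl
    filter_upwards [htge, hspos] with n h1 h2
    apply div_le_div_of_nonneg_right _ h2.le
    exact mul_le_mul_of_nonneg_right h1 (Nat.cast_nonneg _)
  have htM : Tendsto (fun n => t n * (M0 n : ℝ)) U atTop := by
    apply tendsto_atTop_mono' _ _ h.M0lim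
    filter_upwards [htge] with n h1
    exact mul_le_mul_of_nonneg_right h1 (Nat.cast_nonneg _)
  have hθL : Tendsto (fun n => θ n ^ (R n).L) U (𝓝 0) := by
    have h1 : Tendsto (fun n => -(t n * ((R n).L : ℝ) / s n / lam)) U atBot :=
      tendsto_neg_atTop_atBot.comp (htL.atTop_div_const hlam)
    have h2 := Real.tendsto_exp_atBot.comp h1
    apply h2.congr
    intro n
    simp only [Function.comp]
    rw [hθ, ← Real.exp_nat_mul]
    congr 1
    ring
  have hsq : ∀ᶠ n in (U : Filter ι), √(q n) = Real.exp (-(t n / 2)) := by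
    filter_upwards [hqt] with n hn
    rw [hn, ← Real.exp_half]
    congr 1
    ring
  have hqM : Tendsto (fun n => (√(q n)) ^ (M0 n)) U (𝓝 0) := by
    have h1 : Tendsto (fun n => -(t n * (M0 n : ℝ) / 2)) U atBot :=
      tendsto_neg_atTop_atBot.comp (htM.atTop_div_const two_pos)
    have h2 := Real.tendsto_exp_atBot.comp h1
    apply h2.congr'
    filter_upwards [hsq] with n hn
    simp only [Function.comp]
    rw [hn, ← Real.exp_nat_mul]
    congr 1
    ring
  -- the number of coordinates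
  obtain ⟨n', hn'⟩ : ∃ n', n' = v - d j + 1 - (B ∪ E).card := ⟨_, rfl⟩
  have hcard : (B ∪ E).card = B.card + E.card := Finset.card_union_of_disjoint hBE
  obtain ⟨n1, hn1⟩ := ho.exists
  have hcl := hn1.card_le
  obtain ⟨K, hK⟩ : ∃ K, K = Fintype.card (TI d j l0 (v - d j + 1 - (B ∪ E).card) E) := ⟨_, rfl⟩
  have hK1 : K = (d j - 1) + (v - d j + 1 - (B ∪ E).card) + E.card := by
    rw [hK]
    simp [TI]
  have hdj1 := hd1 j
  have hKv : K + B.card = v := by omega
  have hK2 : v - B.card = K := by omega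
  -- T1
  have hoh0 : ∀ x, 0 ≤ oh x := by
    intro x
    apply ge_of_tendsto (hoh x)
    filter_upwards [hspos] with n hn
    positivity
  have heh0 : ∀ x, 0 ≤ eh x := by
    intro x
    apply ge_of_tendsto (heh x)
    filter_upwards [hspos] with n hn
    positivity
  have hdeg : ∀ x, 1 ≤ tdeg d j l0 (v - d j + 1 - (B ∪ E).card) E x := by
    rintro (x | x)
    · exact le_rfl
    · exact hd1 x
  have hdegR : ∀ x, (1 : ℝ) ≤ tdeg d j l0 (v - d j + 1 - (B ∪ E).card) E x := by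
    intro x
    exact_mod_cast hdeg x
  have hφ : ∀ x, 0 < (tdeg d j l0 (v - d j + 1 - (B ∪ E).card) E x : ℝ) + oh x / lam := by
    intro x
    have h1 := hdegR x
    have h2 : 0 ≤ oh x / lam := div_nonneg (hoh0 x) hlam.le
    linarith
  have T1 := lap_inv (U := (U : Filter ι)) hne (fun x => (hφ x).ne')
    (fun x => lap_fac ht0 hne hqt hθ (tdeg d j l0 (v - d j + 1 - (B ∪ E).card) E x) (hoh x)
      (lam := lam))
  have T2 : Tendsto (fun n => t n ^ K * ((√(q n)) ^ (M0 n) *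
      ∏ x, (1 - (√(q n)) ^ (tdeg d j l0 (v - d j + 1 - (B ∪ E).card) E x))⁻¹)) U (𝓝 0) := by
    have h1 := lap_inv (U := (U : Filter ι)) (t := t) hne
      (f := fun n x => 1 - (√(q n)) ^ (tdeg d j l0 (v - d j + 1 - (B ∪ E).card) E x))
      (φ := fun x => (tdeg d j l0 (v - d j + 1 - (B ∪ E).card) E x : ℝ) / 2)
      (fun x => by have := hdegR x; positivity) (by
        intro x
        have h2 := lap_slope ht0 hne (tendsto_const_nhds (f := (U : Filter ι))
          (x := (tdeg d j l0 (v - d j + 1 - (B ∪ E).card) E x : ℝ) / 2))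
        apply h2.congr'
        filter_upwards [hsq] with n hn
        rw [hn, ← Real.exp_nat_mul]
        congr 3
        ring)
    have h3 := hqM.mul h1
    rw [zero_mul] at h3
    apply h3.congr
    intro n
    rw [hK]
    ring
  have T3 : Tendsto (fun n => t n ^ K * (θ n ^ (R n).L *
      ∏ x, (1 - q n ^ (tdeg d j l0 (v - d j + 1 - (B ∪ E).card) E x))⁻¹)) U (𝓝 0) := by
    have h1 := lap_inv (U := (U : Filter ι)) (t := t) hne
      (f := fun n x => 1 - q n ^ (tdeg d j l0 (v - d j + 1 - (B ∪ E).card) E x))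
      (φ := fun x => (tdeg d j l0 (v - d j + 1 - (B ∪ E).card) E x : ℝ))
      (fun x => by have := hdegR x; positivity) (by
        intro x
        have h2 := lap_slope ht0 hne (tendsto_const_nhds (f := (U : Filter ι))
          (x := (tdeg d j l0 (v - d j + 1 - (B ∪ E).card) E x : ℝ)))
        apply h2.congr'
        filter_upwards [hqt] with n hn
        rw [hn, ← Real.exp_nat_mul]
        congr 3
        ring)
    have h3 := hθL.mul h1
    rw [zero_mul] at h3
    apply h3.congr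
    intro n
    rw [hK]
    ring
  -- T4
  have hWl : Tendsto (fun n => t n ^ (K + 1) * Wq d v B (q n)) U
      (𝓝 (((v : ℝ) - B.card) * ∏ i ∈ B, (d i : ℝ))) := by
    have h1 : Tendsto q U (𝓝[<] 1) := by
      rw [tendsto_nhdsWithin_iff]
      exact ⟨h.qlim, h.q01.mono (fun n hn => hn.2)⟩
    have h2 := (asy_W d hd1 v B (by omega)).comp h1
    rw [hK2] at h2
    have h3 : Tendsto (fun n => (1 - q n) / t n) U (𝓝 1) := by
      have h4 := lap_slope ht0 hne (tendsto_const_nhds (f := (U : Filter ι)) (x := (1 : ℝ)))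
      apply h4.congr'
      filter_upwards [hqt] with n hn
      rw [mul_one, ← hn]
    have h5 := h2.div (h3.pow (K + 1)) (by norm_num)
    rw [one_pow, div_one] at h5
    apply h5.congr'
    filter_upwards [hne, h.q01] with n hn hq
    simp only [Function.comp, Pi.div_apply]
    have h6 : 1 - q n ≠ 0 := by linarith [hq.2]
    rw [div_pow]
    field_simp
  have hWpos : 0 < ((v : ℝ) - B.card) * ∏ i ∈ B, (d i : ℝ) := by
    have h1 : (0 : ℝ) < (v : ℝ) - B.card := by
      have h2 : B.card < v := by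
        have h3 : B.card ≤ ∑ i ∈ B, d i := by
          rw [Finset.card_eq_sum_ones]
          exact Finset.sum_le_sum (fun i _ => hd1 i)
        omega
      have : (B.card : ℝ) < v := by exact_mod_cast h2
      linarith
    apply mul_pos h1
    apply Finset.prod_pos
    intro i _
    exact_mod_cast hd1 i
  have hWne : ∀ᶠ n in (U : Filter ι), Wq d v B (q n) ≠ 0 := by
    filter_upwards [hWl.eventually (lt_mem_nhds hWpos)] with n hn h0
    rw [h0, mul_zero] at hn
    exact lt_irrefl _ hn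
  have hθr : Tendsto (fun n => (1 - θ n) / (t n / s n)) U (𝓝 (1 / lam)) := by
    have h4 := lap_slope hr hr0 (tendsto_const_nhds (f := (U : Filter ι)) (x := 1 / lam))
    apply h4.congr
    intro n
    rw [hθ]
    congr 3
    ring
  have T4 : Tendsto (fun n => t n ^ K * ((1 - θ n) / θ n *
      (∑ m ∈ Finset.range (M0 n + 1), q n ^ m *
          ∑ l ∈ Finset.Icc 1 (R n).L, (((NN d v ∅ m : ℝ) - (R n).fil m l)
            - NT d v j (R' n) (e n) (η n) m l)))) U (𝓝 0) := by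
    have h1 := ((hloss.mul hθr).mul hWl).mul (hθlim.inv₀ one_ne_zero)
    rw [zero_mul, zero_mul, zero_mul] at h1
    apply h1.congr'
    filter_upwards [hne, hspos, hWne] with n h2 h3 h4
    have h5 := (hθ0 n).ne'
    have h6 := h3.ne'
    rw [pow_succ]
    field_simp
  -- T5
  have hηpos : ∀ᶠ n in (U : Filter ι), 1 ≤ η n := by
    rcases hcase with hj | ⟨_, hj⟩
    · filter_upwards [hηB hj, htL.eventually (eventually_gt_atTop 0)] with n h1 h2
      rw [h1]
      by_contra h3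
      have h4 : (R n).L = 0 := by omega
      rw [h4] at h2
      simp at h2
    · filter_upwards [(hη hj).eventually (lt_mem_nhds hdj)] with n h1
      by_contra h3
      have h4 : η n = 0 := by omega
      rw [h4] at h1
      simp at h1
  have he' : Tendsto (fun n => ((∑ l, e n l : ℕ) : ℝ) / s n) U (𝓝 (d j)) := by
    simpa only [Nat.cast_sum] using he
  have T5 := lap_rhs (U := (U : Filter ι)) d v K B j hKv hv hdj1 lam hlam ht0 hne hqt hθ
    (fun n => (R' n).c0) hc e eh heh heh0 he' η (by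
      rcases hcase with hj | ⟨hB0, hj⟩
      · left
        refine ⟨hj, ?_⟩
        have h1 : Tendsto (fun n => q n ^ d j * θ n ^ (R n).L) U (𝓝 0) := by
          have h2 := (h.qlim.pow (d j)).mul hθL
          rw [mul_zero] at h2
          exact h2
        apply h1.congr'
        filter_upwards [hηB hj] with n hn
        rw [hn]
      · right
        exact ⟨hB0, hη hj⟩)
  have hTL := (T1.sub T2).sub T3
  have hTR := T4.add T5
  rw [← hK] at hTL
  have hfin := le_of_tendsto_of_tendsto hTL hTR (by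
    filter_upwards [hT, hB', ho, h.q01, hθ1, hηpos, htpos] with n h1 h2 h3 h4 h5 h6 h7
    have h8 := lap_point d hd1 v B E j hB hv hjcase (M0 n) (R n) (R' n) (e n) (η n) h6 h1 h2 l0
      (o n) h3 (q n) (θ n) h4.1 h4.2 (hθ0 n) h5
    have h9 := mul_le_mul_of_nonneg_left h8 (pow_nonneg h7.le K)
    rw [mul_add, mul_sub, mul_sub] at h9
    exact h9)
  rw [sub_zero, sub_zero, zero_add] at hfin
  -- final algebra
  obtain ⟨u, hu⟩ : ∃ u : ℝ, u = 1 + 1 / lam := ⟨_, rfl⟩
  have hu0 : 0 < u := by rw [hu]; positivity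
  have hlu : 1 + lam = lam * u := by rw [hu, mul_add, mul_one, mul_one_div_cancel hlam.ne']; ring
  rw [← hu] at hfin
  have hZ : 0 < ∏ l, (1 + eh l / lam) := by
    apply Finset.prod_pos
    intro l _
    have : 0 ≤ eh l / lam := div_nonneg (heh0 l) hlam.le
    linarith
  have hΦ : 0 < ∏ x, ((tdeg d j l0 (v - d j + 1 - (B ∪ E).card) E x : ℝ) + oh x / lam) :=
    Finset.prod_pos (fun x _ => hφ x)
  rw [Finset.prod_inv_distrib, inv_eq_one_div, div_le_div_iff₀ hΦ (by positivity), one_mul] at hfin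
  have eΦ : ∏ x, ((tdeg d j l0 (v - d j + 1 - (B ∪ E).card) E x : ℝ) + oh x / lam) =
      ((∏ l : {l : Fin (d j) // l ≠ l0}, (1 + oh (Sum.inl (Sum.inl l)) / lam)) *
        ∏ i : Fin (v - d j + 1 - (B ∪ E).card), (1 + oh (Sum.inl (Sum.inr i)) / lam)) *
        ((∏ i ∈ E, (d i : ℝ)) * u ^ E.card) := by
    rw [Fintype.prod_sum_type, Fintype.prod_sum_type]
    have e1 : ∏ i : E, ((tdeg d j l0 (v - d j + 1 - (B ∪ E).card) E (Sum.inr i) : ℝ) +
        oh (Sum.inr i) / lam) = (∏ i ∈ E, (d i : ℝ)) * u ^ E.card := by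
      have e2 : ∀ i : E, ((tdeg d j l0 (v - d j + 1 - (B ∪ E).card) E (Sum.inr i) : ℝ) +
          oh (Sum.inr i) / lam) = (d i : ℝ) * u := by
        intro i
        rw [hoE, hu]
        simp only [tdeg, Sum.elim_inr]
        ring
      rw [Finset.prod_congr rfl (fun i _ => e2 i), Finset.prod_mul_distrib, Finset.prod_const,
        Finset.card_univ, Fintype.card_coe, Finset.prod_coe_sort E (fun i => (d i : ℝ))]
    rw [e1]
    simp only [tdeg, Sum.elim_inl, Nat.cast_one]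
  rw [eΦ] at hfin
  have m1 : ∏ l, (lam + eh l) = lam ^ (d j) * ∏ l, (1 + eh l / lam) := by
    have : ∀ l, lam + eh l = lam * (1 + eh l / lam) := fun l => by field_simp
    rw [Finset.prod_congr rfl (fun l _ => this l), Finset.prod_mul_distrib, Finset.prod_const,
      Finset.card_univ, Fintype.card_fin]
  have m2 : ∏ l : {l : Fin (d j) // l ≠ l0}, (lam + oh (Sum.inl (Sum.inl l))) =
      lam ^ (d j - 1) * ∏ l : {l : Fin (d j) // l ≠ l0}, (1 + oh (Sum.inl (Sum.inl l)) / lam) := by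
    have : ∀ l : {l : Fin (d j) // l ≠ l0}, lam + oh (Sum.inl (Sum.inl l)) =
        lam * (1 + oh (Sum.inl (Sum.inl l)) / lam) := fun l => by field_simp
    rw [Finset.prod_congr rfl (fun l _ => this l), Finset.prod_mul_distrib, Finset.prod_const,
      Finset.card_univ]
    congr 2
    simp
  have m3 : ∏ i : Fin (v - d j + 1 - (B ∪ E).card), (lam + oh (Sum.inl (Sum.inr i))) =
      lam ^ (v - d j + 1 - (B ∪ E).card) *
        ∏ i : Fin (v - d j + 1 - (B ∪ E).card), (1 + oh (Sum.inl (Sum.inr i)) / lam) := by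
    have : ∀ i : Fin (v - d j + 1 - (B ∪ E).card), lam + oh (Sum.inl (Sum.inr i)) =
        lam * (1 + oh (Sum.inl (Sum.inr i)) / lam) := fun i => by field_simp
    rw [Finset.prod_congr rfl (fun i _ => this i), Finset.prod_mul_distrib, Finset.prod_const,
      Finset.card_univ, Fintype.card_fin]
  have m4 : ∏ i ∈ B ∪ E, (d i : ℝ) = (∏ i ∈ B, (d i : ℝ)) * ∏ i ∈ E, (d i : ℝ) :=
    Finset.prod_union hBE
  have m5 : lam ^ (d j) * lam ^ (v - d j) = lam ^ v := by
    rw [← pow_add]; congr 1; omega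
  have m6 : lam ^ (B.card + E.card) * lam ^ (d j - 1) * lam ^ (v - d j + 1 - (B ∪ E).card) =
      lam ^ v := by
    rw [← pow_add, ← pow_add]; congr 1; omega
  have hfin2 := mul_le_mul_of_nonneg_left hfin (pow_nonneg hlam.le v)
  have L1 : (∏ l, (lam + eh l)) * (1 + lam) ^ (v - d j) =
      lam ^ v * (u ^ (v - d j) * ∏ l, (1 + eh l / lam)) := by
    rw [m1, hlu, mul_pow, ← m5]
    ring
  have L2 : (∏ i ∈ B ∪ E, (d i : ℝ)) * (1 + lam) ^ (B ∪ E).card *
        ((∏ l : {l : Fin (d j) // l ≠ l0}, (lam + oh (Sum.inl (Sum.inl l)))) *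
          ∏ i : Fin (v - d j + 1 - (B ∪ E).card), (lam + oh (Sum.inl (Sum.inr i)))) =
      lam ^ v * ((∏ i ∈ B, (d i : ℝ)) * u ^ B.card *
        (((∏ l : {l : Fin (d j) // l ≠ l0}, (1 + oh (Sum.inl (Sum.inl l)) / lam)) *
        ∏ i : Fin (v - d j + 1 - (B ∪ E).card), (1 + oh (Sum.inl (Sum.inr i)) / lam)) *
        ((∏ i ∈ E, (d i : ℝ)) * u ^ E.card))) := by
    have e7 : (lam * u) ^ (B ∪ E).card = lam ^ (B.card + E.card) * (u ^ B.card * u ^ E.card) := by
      rw [mul_pow, hcard, pow_add u]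
    rw [m2, m3, m4, hlu, ← m6, e7]
    ring
  rw [L1, L2]
  exact hfin2

alias lap_lim := lap_lim_pr

end Pool.Agent.KSX
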