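import Pool.Agent.Lib_helper77.KSZ.XBase

/-!
# KSX block NUM: the numerical contradiction
-/

namespace Pool.Agent.KSX

open MvPolynomial Pool.Agent.KSS Filter Topology

/-- `h(e) = e - 1 - log e` -/
noncomputable def num_h (x : ℝ) : ℝ := x - 1 - Real.log x

theorem num_h_mono {x y : ℝ} (hx : 1 ≤ x) (hxy : x ≤ y) : num_h x ≤ num_h y := by
  unfold num_h
  have hx0 : 0 < x := by linarith
  have hy0 : 0 < y := by linarith
  have h1 : Real.log (y / x) ≤ y / x - 1 := Real.log_le_sub_one_of_pos (div_pos hy0 hx0)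
  rw [Real.log_div hy0.ne' hx0.ne'] at h1
  have h2 : y / x - 1 = (y - x) / x := by field_simp
  have h3 : (y - x) / x ≤ y - x := div_le_self (by linarith) hx
  linarith

theorem num_h_pos {x : ℝ} (hx : 1 < x) : 0 < num_h x := by
  unfold num_h
  have h1 : Real.log x < x - 1 := Real.log_lt_sub_one_of_pos (by linarith) hx.ne'
  linarith

theorem num_h_add {x y : ℝ} (hx : 0 ≤ x) (hy : 0 ≤ y) :
    num_h (1 + x) + num_h (1 + y) ≤ num_h (1 + (x + y)) := by
  unfold num_h
  have h1 : Real.log (1 + (x + y)) ≤ Real.log ((1 + x) * (1 + y)) := by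
    apply Real.log_le_log (by positivity)
    nlinarith [mul_nonneg hx hy]
  rw [Real.log_mul (by positivity) (by positivity)] at h1
  linarith

theorem num_h_sum {ι : Type*} (S : Finset ι) (x : ι → ℝ) (hx : ∀ i ∈ S, 0 ≤ x i) :
    ∑ i ∈ S, num_h (1 + x i) ≤ num_h (1 + ∑ i ∈ S, x i) := by
  classical
  induction S using Finset.induction_on with
  | empty => simp [num_h]
  | insert a S ha ih =>
    rw [Finset.sum_insert ha, Finset.sum_insert ha]
    have h1 := ih (fun i hi => hx i (Finset.mem_insert_of_mem hi))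
    have h2 := num_h_add (hx a (Finset.mem_insert_self a S))
      (Finset.sum_nonneg (fun i hi => hx i (Finset.mem_insert_of_mem hi)))
    linarith

/-- the limit of the local term -/
noncomputable def num_phi (e o : ℝ) : ℝ := if e ≤ 1 then e - o else Real.log e + 1 - o

theorem num_local {lam e o : ℝ} (hlam : 0 < lam) (ho : 0 ≤ o) (hoe : o ≤ e) :
    num_phi e o - lam ≤ Real.log (lam + e) - Real.log (lam + o) := by
  have hA : 0 < lam + e := by linarith
  have hB : 0 < lam + o := by linarith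
  unfold num_phi
  split_ifs with h
  · have h1 : Real.log ((lam + o) / (lam + e)) ≤ (lam + o) / (lam + e) - 1 :=
      Real.log_le_sub_one_of_pos (div_pos hB hA)
    rw [Real.log_div hB.ne' hA.ne'] at h1
    have h2 : (lam + o) / (lam + e) - 1 = - ((e - o) / (lam + e)) := by
      field_simp; ring
    have h3 : (e - o) - lam ≤ (e - o) / (lam + e) := by
      rw [le_div_iff₀ hA]
      nlinarith
    linarith
  · push Not at h
    have h1 : Real.log e ≤ Real.log (lam + e) := Real.log_le_log (by linarith) (by linarith)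
    have h2 : Real.log (lam + o) ≤ (lam + o) - 1 := Real.log_le_sub_one_of_pos hB
    linarith

/-- (NUM) the numerical contradiction -/
theorem num_contra_pr {p : ℕ} (d : Fin p → ℕ) (hd : ∀ i, 2 ≤ d i) (v : ℕ) (F : Finset (Fin p))
    (hF : 2 ≤ F.card) (j : Fin p) (hj : j ∈ F) (n' : ℕ) (hn : n' + F.card + d j = v + 1)
    (e : Fin (d j) → ℝ) (he0 : ∀ l, 0 ≤ e l) (hes : ∑ l, e l = d j) (l0 : Fin (d j))
    (hl0 : 1 ≤ e l0) (oy : {l : Fin (d j) // l ≠ l0} → ℝ) (hoy0 : ∀ l, 0 ≤ oy l)
    (hoy : ∀ l, oy l ≤ e l) (ox : Fin n' → ℝ) (hox0 : ∀ i, 0 ≤ ox i) (hox1 : ∀ i, ox i ≤ 1)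
    (hsum : ∑ l, oy l + ∑ i, ox i ≤ (v : ℝ) - ∑ i ∈ F, (d i : ℝ))
    (hE : ∀ lam : ℝ, 0 < lam → (∏ l, (lam + e l)) * (1 + lam) ^ (v - d j) ≤
      (∏ i ∈ F, (d i : ℝ)) * (1 + lam) ^ F.card * ((∏ l, (lam + oy l)) * ∏ i, (lam + ox i))) :
    False := by
  classical
  have hdpos : ∀ i, (0 : ℝ) < d i := fun i => by
    have := hd i
    exact_mod_cast (by omega : 0 < d i)
  -- the inequality for every `lam`
  have key : ∀ lam : ℝ, 0 < lam →
      (∑ l : {l : Fin (d j) // l ≠ l0}, num_phi (e l) (oy l)) + Real.log (e l0)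
        + ∑ i, (1 - ox i) ≤ (∑ i ∈ F, Real.log (d i))
        + lam * ((Fintype.card {l : Fin (d j) // l ≠ l0} : ℝ) + 1 + n') := by
    intro lam hlam
    have h1l : 0 < 1 + lam := by linarith
    have hPe : ∀ l, 0 < lam + e l := fun l => by linarith [he0 l]
    have hPy : ∀ l, 0 < lam + oy l := fun l => by linarith [hoy0 l]
    have hPx : ∀ i, 0 < lam + ox i := fun i => by linarith [hox0 i]
    have hlog := Real.log_le_log
      (mul_pos (Finset.prod_pos fun l _ => hPe l) (pow_pos h1l _)) (hE lam hlam)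
    rw [Real.log_mul (Finset.prod_pos fun l _ => hPe l).ne' (pow_pos h1l _).ne',
      Real.log_mul (mul_pos (Finset.prod_pos fun i _ => hdpos i) (pow_pos h1l _)).ne'
        (mul_pos (Finset.prod_pos fun l _ => hPy l) (Finset.prod_pos fun i _ => hPx i)).ne',
      Real.log_mul (Finset.prod_pos fun i _ => hdpos i).ne' (pow_pos h1l _).ne',
      Real.log_mul (Finset.prod_pos fun l _ => hPy l).ne' (Finset.prod_pos fun i _ => hPx i).ne',
      Real.log_prod (fun l _ => (hPe l).ne'), Real.log_prod (fun l _ => (hdpos l).ne'),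
      Real.log_prod (fun l _ => (hPy l).ne'), Real.log_prod (fun l _ => (hPx l).ne'),
      Real.log_pow, Real.log_pow,
      Fintype.sum_eq_add_sum_subtype_ne (fun l => Real.log (lam + e l)) l0] at hlog
    have hv : ((v - d j : ℕ) : ℝ) = n' + F.card - 1 := by
      have h1 : (v - d j) + 1 = n' + F.card := by omega
      have h2 : (((v - d j) + 1 : ℕ) : ℝ) = ((n' + F.card : ℕ) : ℝ) := by rw [h1]
      push_cast at h2
      linarith
    rw [hv] at hlog
    have hy : (∑ l : {l : Fin (d j) // l ≠ l0}, num_phi (e l) (oy l))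
        - lam * (Fintype.card {l : Fin (d j) // l ≠ l0} : ℝ) ≤
        ∑ l : {l : Fin (d j) // l ≠ l0}, Real.log (lam + e l)
          - ∑ l : {l : Fin (d j) // l ≠ l0}, Real.log (lam + oy l) := by
      rw [← Finset.sum_sub_distrib]
      have h1 : (∑ l : {l : Fin (d j) // l ≠ l0}, num_phi (e l) (oy l))
          - lam * (Fintype.card {l : Fin (d j) // l ≠ l0} : ℝ) =
          ∑ l : {l : Fin (d j) // l ≠ l0}, (num_phi (e l) (oy l) - lam) := by
        rw [Finset.sum_sub_distrib, Finset.sum_const, Finset.card_univ, nsmul_eq_mul]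
        ring
      rw [h1]
      exact Finset.sum_le_sum fun l _ => num_local hlam (hoy0 l) (hoy l)
    have hx : (∑ i, (1 - ox i)) - lam * n' ≤
        n' * Real.log (1 + lam) - ∑ i, Real.log (lam + ox i) := by
      have h0 : 0 ≤ Real.log (1 + lam) := Real.log_nonneg (by linarith)
      have h1 : (∑ i, (1 - ox i)) - lam * n' = ∑ i : Fin n', ((1 - ox i) - lam) := by
        rw [Finset.sum_sub_distrib (s := (Finset.univ : Finset (Fin n'))) (f := fun i => 1 - ox i)
          (g := fun _ => lam), Finset.sum_const, Finset.card_univ, nsmul_eq_mul, Fintype.card_fin]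
        ring
      have h2 : ∑ i : Fin n', ((1 - ox i) - lam) ≤ ∑ i : Fin n', (- Real.log (lam + ox i)) :=
        Finset.sum_le_sum fun i _ => by
          have := Real.log_le_sub_one_of_pos (hPx i)
          linarith
      rw [Finset.sum_neg_distrib] at h2
      have h3 : 0 ≤ (n' : ℝ) * Real.log (1 + lam) := mul_nonneg (Nat.cast_nonneg _) h0
      linarith
    have hz : Real.log (e l0) - lam ≤ Real.log (lam + e l0) - Real.log (1 + lam) := by
      have h1 : Real.log (e l0) ≤ Real.log (lam + e l0) :=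
        Real.log_le_log (by linarith) (by linarith)
      have h2 : Real.log (1 + lam) ≤ (1 + lam) - 1 := Real.log_le_sub_one_of_pos h1l
      linarith
    nlinarith
  -- let `lam → 0`
  have lim : (∑ l : {l : Fin (d j) // l ≠ l0}, num_phi (e l) (oy l)) + Real.log (e l0)
        + ∑ i, (1 - ox i) ≤ (∑ i ∈ F, Real.log (d i)) := by
    set C : ℝ := (Fintype.card {l : Fin (d j) // l ≠ l0} : ℝ) + 1 + n' with hC
    have hCpos : 0 < C := by positivity
    apply le_of_forall_pos_le_add
    intro ε hε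
    have := key (ε / C) (div_pos hε hCpos)
    rwa [div_mul_cancel₀ _ hCpos.ne'] at this
  -- evaluate
  set S : Finset (Fin (d j)) := Finset.univ.filter (fun l => l = l0 ∨ 1 < e l) with hS
  have hl0S : l0 ∈ S := by simp [hS]
  have hphi : (∑ l : {l : Fin (d j) // l ≠ l0}, num_phi (e l) (oy l)) + Real.log (e l0)
      = (d j : ℝ) - ∑ l, oy l - ∑ l ∈ S, num_h (e l) - 1 := by
    have h1 : ∀ l : {l : Fin (d j) // l ≠ l0}, num_phi (e l) (oy l) =
        e l - oy l - (if (l : Fin (d j)) ∈ S then num_h (e l) else 0) := by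
      intro l
      unfold num_phi num_h
      have hmem : (l : Fin (d j)) ∈ S ↔ 1 < e l := by
        simp [hS, l.2]
      by_cases h : e l ≤ 1
      · rw [if_pos h, if_neg (by rw [hmem]; exact not_lt.mpr h)]; ring
      · rw [if_neg h, if_pos (by rw [hmem]; exact not_le.mp h)]; ring
    have h2 : ∑ l ∈ S, num_h (e l) = ∑ l, if l ∈ S then num_h (e l) else 0 := by
      rw [Finset.sum_ite_mem, Finset.univ_inter]
    rw [Finset.sum_congr rfl (fun l _ => h1 l), h2,
      Fintype.sum_eq_add_sum_subtype_ne (fun l => if l ∈ S then num_h (e l) else 0) l0,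
      if_pos hl0S, Finset.sum_sub_distrib, Finset.sum_sub_distrib]
    have h3 := Fintype.sum_eq_add_sum_subtype_ne e l0
    rw [hes] at h3
    unfold num_h
    linarith
  have hxs : ∑ i : Fin n', (1 - ox i) = n' - ∑ i, ox i := by
    rw [Finset.sum_sub_distrib, Finset.sum_const, Finset.card_univ, Fintype.card_fin,
      nsmul_eq_mul, mul_one]
  have hcast : (n' : ℝ) + F.card + d j = v + 1 := by exact_mod_cast hn
  -- `∑_F h(d_i) ≤ ∑_S h(e_l)`
  have main : ∑ i ∈ F, num_h (d i) ≤ ∑ l ∈ S, num_h (e l) := by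
    have h1 : ∑ i ∈ F, num_h (d i) = ∑ i ∈ F, (d i : ℝ) - F.card - ∑ i ∈ F, Real.log (d i) := by
      unfold num_h
      rw [Finset.sum_sub_distrib, Finset.sum_sub_distrib, Finset.sum_const, nsmul_eq_mul, mul_one]
    rw [h1]
    linarith
  -- superadditivity
  have hSle : ∑ l ∈ S, num_h (e l) ≤ num_h (d j) := by
    have h1 : ∀ l ∈ S, 0 ≤ e l - 1 := by
      intro l hl
      rw [hS, Finset.mem_filter] at hl
      rcases hl.2 with h | h
      · rw [h]; linarith
      · linarith
    have h2 := num_h_sum S (fun l => e l - 1) h1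
    have h3 : ∑ l ∈ S, num_h (1 + (e l - 1)) = ∑ l ∈ S, num_h (e l) :=
      Finset.sum_congr rfl fun l _ => by congr 1; ring
    rw [h3] at h2
    refine h2.trans (num_h_mono ?_ ?_)
    · have := Finset.sum_nonneg h1
      linarith
    · have h4 : ∑ l ∈ S, (e l - 1) = ∑ l ∈ S, e l - S.card := by
        rw [Finset.sum_sub_distrib, Finset.sum_const, nsmul_eq_mul, mul_one]
      have h5 : ∑ l ∈ S, e l ≤ ∑ l, e l :=
        Finset.sum_le_sum_of_subset_of_nonneg (Finset.subset_univ _) fun l _ _ => he0 l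
      have h6 : (1 : ℝ) ≤ S.card := by
        exact_mod_cast Finset.card_pos.mpr ⟨l0, hl0S⟩
      linarith
  -- another element of `F`
  obtain ⟨i, hi, hij⟩ : ∃ i ∈ F, i ≠ j := by
    have : (F.erase j).Nonempty := by
      rw [← Finset.card_pos, Finset.card_erase_of_mem hj]
      omega
    obtain ⟨i, hi⟩ := this
    exact ⟨i, Finset.mem_of_mem_erase hi, Finset.ne_of_mem_erase hi⟩
  have hge : ∀ i, 0 < num_h (d i) := fun i => num_h_pos (by
    have := hd i
    exact_mod_cast (by omega : 1 < d i))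
  have h1 : num_h (d j) < ∑ i ∈ F, num_h (d i) := by
    rw [← Finset.add_sum_erase F _ hj]
    have : 0 < ∑ i ∈ F.erase j, num_h (d i) :=
      Finset.sum_pos (fun i _ => hge i) ⟨i, Finset.mem_erase.mpr ⟨hij, hi⟩⟩
    linarith
  linarith

alias num_contra := num_contra_pr

end Pool.Agent.KSX
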