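import Pool.Agent.Lib_helper77.KSZ.R5

/-! Refined local inequality, part 6: the statement (RIT).  MP_2c2240_ag. -/

namespace Pool.Agent.Lib_helper80.KSX

open MvPolynomial Pool.Agent.KSS Pool.Agent.Lib_helper56.KSS
open Pool.Agent.KSX (c0J lead grad cnt recJ TorusOut RitOut Theta TI)

/-- core: torus lemma together with the local statement -/
theorem rit_core {p : ℕ} (d : Fin p → ℕ) (hd : ∀ i, 2 ≤ d i) (B E : Finset (Fin p))
    (hBE : Disjoint B E) (j : Fin p) (hj : j ∈ B ∪ E) {a b v : ℕ} (ha : d j = a + 1)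
    (hv : a + 1 + b = v) (e : Fin (a + 1) ⊕ Fin b ≃ Fin v) (M0 : ℕ)
    (k : Type) [Field k] [CharZero k] (G : Fin p → MvPolynomial (Fin v) k) (hG : Gen d G)
    (κ : Type) [Field κ] [Algebra k κ] (L : ℕ) (x : Fin v → Fin L → κ) (hL : 0 < L)
    (hB : ∀ i ∈ B, ordL L (ev x (G i)) = L)
    (hmin : ∀ J : ↥(B ∪ E) → Fin v, Function.Injective J →
      (Matrix.of fun i i' : ↥(B ∪ E) => grad G (lead x 0) i (J i')).det ≠ 0) :
    ∃ (k' : Type) (_ : Field k') (_ : CharZero k')
      (G' : Fin p → MvPolynomial (Fin b) k') (κ' : Type) (_ : Field κ')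
      (_ : Algebra k' κ') (x' : Fin b → Fin L → κ') (ee : Fin (a + 1) → ℕ) (η : ℕ),
      Gen d G' ∧ ((∀ l, ee l ≤ L) ∧ η ≤ L ∧
      (∀ i, i ≠ j → ordL L (ev x (G i)) ≤ ordL L (ev x' (G' i))) ∧
      ordL L (ev x (G j)) ≤ η ∧
      ordL L (ev x' (G' j)) = min L (∑ l, ee l) ∧
      tauJ k x + η + (∑ l, ee l - L) ≤ tauJ k' x' + (a + 1) * L ∧
      ∀ m ≤ M0, ∀ l, 1 ≤ l → l ≤ L →
        Module.finrank k (Fil k x m l) ≤
          ∑ α ∈ Exps (a + 1) m, Module.finrank k'
            (Fil k' x' (m - ∑ i, α i) (l - (∑ i, (α i - mina α) * ee i + mina α * η)))) ∧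
      (c0J x' < L →
        LinearIndependent κ' (fun i : ↥((B ∪ E).erase j) => grad G' (lead x' (c0J x')) i) →
        ∀ l0 : Fin (a + 1), (B ∪ E).card ≤ b + 1 ∧
          ∃ o : TT a (b + 1 - (B ∪ E).card) l0 E → ℕ,
      (∀ m ≤ M0, ∀ l ≤ L, cnt (tu d a (b + 1 - (B ∪ E).card) l0 E) o m l +
        Module.finrank k (Fil k x m l) ≤ Module.finrank k (homogeneousSubmodule (Fin v) k m)) ∧
      ∑ t, o t + tauJ k x + B.card * L ≤ v * L ∧
      (∀ i : E, ordL L (ev x (G i)) ≤ o (Sum.inr i)) ∧
      (∀ t, (o t : ℝ) ≤ (tlb (b + 1 - (B ∪ E).card) l0 E j ee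
        (c0J x') η (fun i => ordL L (ev x' (G' i))) t : ℝ) +
        ((v : ℝ) * L - tauJ k x - η -
          ((v : ℝ) - ((a + 1 : ℕ) : ℝ) + 1 - (B ∪ E).card) * c0J x' +
          ∑ i ∈ (B ∪ E).erase j, (((d i : ℝ) - 1) * c0J x' - ordL L (ev x' (G' i)))))) := by
  classical
  -- the valuation ring
  obtain ⟨O, GO, g, hch, hg, hGO1, hGO2, hGO3⟩ := gen_special d G hG (qsp e d j)
    (fun c => ⟨c.1, Finsupp.mapDomain (emb e) c.2.1, by rw [degree_mapDomain']; exact c.2.2⟩)
    (fun c => qsp_emb e d j c.1 c.2.1 _ c.2.2)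
  have hspec := special_form (V := Fin v) e d j ha (k1 := IsLocalRing.ResidueField O) g
    (fun i => MvPolynomial.map (IsLocalRing.residue O) (GO i))
    (fun i => homog_map _ (hGO2 i)) hGO3
  obtain ⟨G', hG'def⟩ : ∃ G' : Fin p → MvPolynomial (Fin b) (IsLocalRing.ResidueField O),
    G' = fun i => formOf (V := Fin b) (d i) (fun β => g ⟨i, β⟩) := ⟨_, rfl⟩
  have hG'gen : Gen d G' := by
    rw [hG'def]
    exact gen_of_algInd d g hg
  have hG'hom : ∀ i, (G' i).IsHomogeneous (d i) := hG'gen.1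
  have hspec' : ∀ i, MvPolynomial.map (IsLocalRing.residue O) (GO i) =
      rename (emb e) (G' i) + if i = j then monomial (yexp e) 1 else 0 := by
    intro i
    rw [hG'def]
    exact hspec i
  -- the element `s`
  have hyd : (yexp e).degree = d j := by rw [yexp_degree, ha]
  obtain ⟨s0, hs0⟩ : ∃ s0 : O, s0 = coeff (yexp e) (GO j) - 1 := ⟨_, rfl⟩
  have hs0r : IsLocalRing.residue O s0 = 0 := by
    have h1 := congrArg (coeff (yexp e)) (hspec' j)
    rw [coeff_map, if_pos rfl, coeff_add, coeff_monomial, if_pos rfl] at h1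
    have h2 : coeff (yexp e) (rename (emb e) (G' j)) = 0 := by
      apply coeff_rename_eq_zero
      intro u hu
      exact absurd hu (yexp_ne e u)
    rw [h2, zero_add] at h1
    rw [hs0, map_sub, h1, map_one, sub_self]
  obtain ⟨s, hs⟩ : ∃ s : k, s = algebraMap O k s0 := ⟨_, rfl⟩
  have hsne : s ≠ 0 := by
    intro h
    rw [hs, hs0, map_sub, map_one, ← coeff_map, hGO1, sub_eq_zero] at h
    have h1 := hG.2.transcendental ⟨j, yexp e, hyd⟩
    simp only at h1
    rw [h] at h1
    exact h1 isAlgebraic_one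
  -- the extended jet
  obtain ⟨xt, hxt1, hxt2⟩ : ∃ xt : Option (Fin v) → Fin L → κ, (∀ i, xt (some i) = x i) ∧
      ∀ μ : Fin L, xt none μ = algebraMap k κ s⁻¹ * PowerSeries.coeff (μ : ℕ) (ev x (G j)) :=
    ⟨fun o => o.elim (fun μ => algebraMap k κ s⁻¹ * PowerSeries.coeff (μ : ℕ) (ev x (G j))) x,
      fun _ => rfl, fun _ => rfl⟩
  have htau0 : tauJ k x ≤ tauJ k xt := by
    unfold tauJ
    rw [tau_eq, tau_eq]
    have h1 : (fun p : Fin v × Fin L => x p.1 p.2) =
        fun p : Fin v × Fin L => (fun q : Option (Fin v) × Fin L => xt q.1 q.2) (some p.1, p.2) := by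
      funext p
      simp only [hxt1]
    rw [h1]
    exact tau_comp_le (K := k) (fun q : Option (Fin v) × Fin L => xt q.1 q.2)
      (fun p : Fin v × Fin L => ((some p.1, p.2) : Option (Fin v) × Fin L))
  -- the two limits
  obtain ⟨F1, i1, i2, x1p, h1p, h2p⟩ := SL (K := k) (IsLocalRing.residue O)
    IsLocalRing.residue_surjective (pw L (wO (Fin v) a)) (fun q => wO_pos (Fin v) a q.1) (pt xt)
  obtain ⟨F2, i3, i4, x2p, h3p, h4p⟩ := TI (k := IsLocalRing.ResidueField O) (pw L (wO (Fin v) a))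
    (pw L (ωO e (2 * M0 + 1))) (fun q => wO_pos (Fin v) a q.1) x1p
  obtain ⟨x1, hx1⟩ : ∃ x1 : Option (Fin v) → Fin L → F1, pt x1 = x1p := ⟨fun t μ => x1p (t, μ), rfl⟩
  obtain ⟨x2, hx2⟩ : ∃ x2 : Option (Fin v) → Fin L → F2, pt x2 = x2p := ⟨fun t μ => x2p (t, μ), rfl⟩
  subst hx1 hx2
  have hLim : Lim (K := k) (IsLocalRing.residue O) (pw L (wO (Fin v) a)) (pt xt) (pt x1) := h2p
  have hTLim : TLim (k := IsLocalRing.ResidueField O) (pw L (wO (Fin v) a))
      (pw L (ωO e (2 * M0 + 1))) (pt x1) (pt x2) := fun P D χ hP h0 hχ => h4p P D χ hP h0 hχ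
  have h1 : tauJ k xt ≤ tauJ (IsLocalRing.ResidueField O) x1 := by
    unfold tauJ
    rw [tau_eq, tau_eq]
    exact h1p
  have h3 : tauJ (IsLocalRing.ResidueField O) x1 ≤ tauJ (IsLocalRing.ResidueField O) x2 := by
    unfold tauJ
    rw [tau_eq, tau_eq]
    exact h3p
  have h2 := limJ (K := k) (IsLocalRing.residue O) (wO (Fin v) a) hLim
  have h4 := tlimJ (wO (Fin v) a) (ωO e (2 * M0 + 1)) hTLim
  -- transfer of forms
  have hsome : (fun b => xt (some b)) = x := by funext i; exact hxt1 i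
  have hA : ∀ (P : MvPolynomial (Fin v) O) (D : ℕ), P.IsHomogeneous D → ∀ l ≤ L,
      (PowerSeries.X : PowerSeries κ) ^ l ∣ ev x (MvPolynomial.map (algebraMap O k) P) →
      (PowerSeries.X : PowerSeries F1) ^ l ∣ ev x1 (rename some
        (MvPolynomial.map (IsLocalRing.residue O) P)) := by
    intro P D hP l hl hd
    have h5 := h2 (rename some P) D (rename_some_homog hP) l hl (by
      rw [MvPolynomial.map_rename, ev_rename, hsome]
      exact hd)
    rwa [MvPolynomial.map_rename] at h5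
  have hωhom : ∀ (P : MvPolynomial (Option (Fin v)) (IsLocalRing.ResidueField O)) (D χ : ℕ),
      IsWeightedHomogeneous (wO (Fin v) a) P D → IsWeightedHomogeneous (ωO e (2 * M0 + 1)) P χ →
      ∀ l ≤ L, (PowerSeries.X : PowerSeries F1) ^ l ∣ ev x1 P →
      (PowerSeries.X : PowerSeries F2) ^ l ∣ ev x2 P := by
    intro P D χ hP1 hP2 l hl hd
    have h5 := h4 P D χ hP1 (fun d hd => (hP2 (mem_support_iff.1 hd)).ge) l hl hd
    rwa [weightedHomogeneousComponent_eq_self hP2] at h5
  -- the relation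
  have hrel : (PowerSeries.X : PowerSeries F2) ^ L ∣
      (∏ l : Fin (a + 1), arc (x2 (yz e (some l)))) + ev (fun i => x2 (incl e i)) (G' j) := by
    have h5 := h2 (C s0 * X none - rename some (GO j)) (a + 1) (by
      apply IsWeightedHomogeneous.sub
      · have := (isWeightedHomogeneous_C (wO (Fin v) a) s0).mul
          (isWeightedHomogeneous_X O (wO (Fin v) a) none)
        rwa [zero_add] at this
      · apply rename_some_homog
        rw [← ha]
        exact hGO2 j) L le_rfl (by
      have h6 : MvPolynomial.map (algebraMap O k) (C s0 * X none - rename some (GO j)) = Phi s (G j) := by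
        unfold Phi
        rw [map_sub, map_mul, map_C, map_X, MvPolynomial.map_rename, hGO1, hs]
      rw [h6]
      exact Phi_dvd s hsne (G j) x xt hxt1 hxt2)
    have h6 : MvPolynomial.map (IsLocalRing.residue O) (C s0 * X none - rename some (GO j)) =
        -(rename (incl e) (G' j) + rename some (monomial (yexp e) 1)) := by
      rw [map_sub, map_mul, map_C, map_X, MvPolynomial.map_rename, hs0r, C_0, zero_mul, zero_sub,
        hspec', if_pos rfl, map_add, rename_rename]
      rfl
    rw [h6] at h5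
    have h7 : (PowerSeries.X : PowerSeries F1) ^ L ∣
        ev x1 (rename (incl e) (G' j) + rename some (monomial (yexp e) 1)) := by
      have : ev x1 (-(rename (incl e) (G' j) + rename some (monomial (yexp e) 1))) =
          -ev x1 (rename (incl e) (G' j) + rename some (monomial (yexp e) 1)) := by
        unfold ev
        rw [map_neg]
      rw [this, dvd_neg] at h5
      exact h5
    have h8 := hωhom (rename (incl e) (G' j) + rename some (monomial (yexp e) 1)) (a + 1)
      ((a + 1) * CC a (2 * M0 + 1)) (by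
        apply IsWeightedHomogeneous.add
        · rw [← ha]
          exact incl_w_homog e (hG'hom j)
        · apply rename_some_homog
          rw [← yexp_degree e]
          exact isHomogeneous_monomial _ rfl) (by
        apply IsWeightedHomogeneous.add
        · rw [← ha]
          exact incl_ω_homog e _ (hG'hom j)
        · rw [rename_monomial]
          apply isWeightedHomogeneous_monomial
          exact yexp_ω e _) L le_rfl h7
    rw [ev_add, ev_rename, ev_yexp, add_comm] at h8
    exact h8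
  have hg' : ∀ i, i ≠ j → ordL L (ev x (G i)) ≤ ordL L (ev (fun i => x2 (incl e i)) (G' i)) := by
    intro i hij
    rw [← dvd_iff_le_ordL (ordL_le _ _)]
    have h5 := hA (GO i) (d i) (hGO2 i) (ordL L (ev x (G i))) (ordL_le _ _) (by
      rw [hGO1]
      exact ordL_dvd _ _)
    rw [hspec', if_neg hij, add_zero, rename_rename] at h5
    have h6 := hωhom (rename (incl e) (G' i)) (d i) (d i * CC a (2 * M0 + 1))
      (incl_w_homog e (hG'hom i)) (incl_ω_homog e _ (hG'hom i)) _ (ordL_le _ _) h5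
    rw [ev_rename] at h6
    exact h6
  have hη : ordL L (ev x (G j)) ≤ ordL L (arc (x2 none)) := by
    rw [← dvd_iff_le_ordL (ordL_le _ _)]
    have h5 := h2 (X none) (a + 1) (isWeightedHomogeneous_X O (wO (Fin v) a) none)
      (ordL L (ev x (G j))) (ordL_le _ _) (by
        rw [map_X, ev_X, PowerSeries.X_pow_dvd_iff]
        intro μ hμ
        have hμL : μ < L := lt_of_lt_of_le hμ (ordL_le _ _)
        have h6 := coeff_arc (xt none) ⟨μ, hμL⟩
        simp only at h6
        rw [h6, hxt2]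
        have h7 := (PowerSeries.X_pow_dvd_iff.1 (ordL_dvd L (ev x (G j)))) μ hμ
        simp only
        rw [h7, mul_zero])
    rw [map_X] at h5
    have h6 := hωhom (X none) (a + 1) (ωO e (2 * M0 + 1) none)
      (isWeightedHomogeneous_X _ (wO (Fin v) a) none) (isWeightedHomogeneous_X _ _ none) _
      (ordL_le _ _) h5
    rw [ev_X] at h6
    exact h6
  refine ⟨IsLocalRing.ResidueField O, inferInstance, hch, G', F2, i3, i4, fun i => x2 (incl e i),
    fun l => ordL L (arc (x2 (yz e (some l)))), ordL L (arc (x2 none)), hG'gen,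
    ⟨fun l => ordL_le _ _, ordL_le _ _, hg', hη, ?_, ?_, ?_⟩, ?_⟩
  · have h5 := ordL_eq_of_dvd_add hrel
    rw [← h5, ordL_prod]
  · have h5 := tau_torus (k := IsLocalRing.ResidueField O) x2 (fun o => x2 (yz e o))
      (fun i => x2 (incl e i)) (by
        intro o
        rcases cases_var e o with ⟨o', rfl⟩ | ⟨i, rfl⟩
        · exact Or.inl ⟨o', rfl⟩
        · exact Or.inr ⟨i, rfl⟩) (G' j) hrel
    have h6 : yz e none = none := rfl
    rw [h6] at h5
    have h7 := htau0.trans (h1.trans h3)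
    simp only at h5 ⊢
    omega
  · intro m hm l _ hl
    have i5 : Finite (Mset (Fin v) a m) := Mset_finite m
    have h5 := e1 s hsne (G j) (by rw [← ha]; exact hG.1 j) x xt hxt1 hxt2 m l hl
    have h6 := FM_special (IsLocalRing.residue O) (wO (Fin v) a) xt x1 h2 (Mset (Fin v) a m) m
      (fun d hd => hd) l hl
    have h7 := e3 (k := IsLocalRing.ResidueField O) e x1 m l
    have h8 := e5 (k := IsLocalRing.ResidueField O) e M0 x1 x2 h4 m l hm hl
    simp only
    omega
  · intro hc0 hli l0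
    exact rit_local e d hd j ha B E hBE hj M0 (2 * M0 + 1) hv G hG.1 x hL hB hmin
      (IsLocalRing.residue O) IsLocalRing.residue_surjective GO hGO1 hGO2 G' hG'hom
      (fun i hi => by rw [hspec', if_neg hi, add_zero]) s hsne xt hxt1 hxt2 x1 x2
      (htau0.trans (h1.trans h3)) hLim hTLim hrel hη hg' hc0 hli l0

end Pool.Agent.Lib_helper80.KSX
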