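import Pool.Agent.Lib_helper77.KSZ.XBase
import Pool.Agent.Lib_helper77.KSZ.R6

/-! The block (RIT).  MP_2c2240_ag. -/

namespace Pool.Agent.KSX

open MvPolynomial Pool.Agent.KSS Filter Topology

theorem rit_jet_pr {p : ℕ} (d : Fin p → ℕ) (hd : ∀ i, 2 ≤ d i) (v : ℕ) (B E : Finset (Fin p))
    (hBE : Disjoint B E) (j : Fin p) (hj : j ∈ B ∪ E) (hv : d j < v) (M0 L : ℕ)
    (k : Type) [Field k] [CharZero k] (G : Fin p → MvPolynomial (Fin v) k) (hG : Gen d G)
    (κ : Type) [Field κ] [Algebra k κ] (x : Fin v → Fin L → κ) (hL : 0 < L)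
    (hB : ∀ i ∈ B, ordL L (ev x (G i)) = L)
    (hmin : ∀ J : ↥(B ∪ E) → Fin v, Function.Injective J →
      (Matrix.of fun i i' : ↥(B ∪ E) => grad G (lead x 0) i (J i')).det ≠ 0) :
    ∃ (k' : Type) (_ : Field k') (_ : CharZero k')
      (G' : Fin p → MvPolynomial (Fin (v - d j)) k') (κ' : Type) (_ : Field κ')
      (_ : Algebra k' κ') (x' : Fin (v - d j) → Fin L → κ') (e : Fin (d j) → ℕ) (η : ℕ),
      Gen d G' ∧ TorusOut d v j M0 (recJ G x) (recJ G' x') e η ∧
      (c0J x' < L →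
        LinearIndependent κ' (fun i : ↥((B ∪ E).erase j) => grad G' (lead x' (c0J x')) i) →
        ∀ l0 : Fin (d j), ∃ o, RitOut d v B E j M0 (recJ G x) (recJ G' x') e η l0 o) := by
  obtain ⟨a, ha⟩ : ∃ a, d j = a + 1 := ⟨d j - 1, by have := hd j; omega⟩
  have h := Pool.Agent.Lib_helper80.KSX.rit_core d hd B E hBE j hj ha (b := v - d j) (v := v)
    (by omega) ((finSumFinEquiv (m := a + 1) (n := v - d j)).trans (finCongr (by omega))) M0 k G hG κ L
    x hL hB hmin
  unfold Pool.Agent.Lib_helper80.KSX.TT Pool.Agent.Lib_helper80.KSX.tu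
    Pool.Agent.Lib_helper80.KSX.tlb at h
  rw [← ha] at h
  obtain ⟨k', i1, i2, G', κ', i3, i4, x', e, η, hG', ⟨h1, h2, h3, h4, h5, h6, h7⟩, h8⟩ := h
  refine ⟨k', i1, i2, G', κ', i3, i4, x', e, η, hG', ?_, ?_⟩
  · exact ⟨⟨k', i1, i2, G', κ', i3, i4, x', hG', rfl, fun _ _ _ => rfl, fun _ => rfl, rfl⟩, rfl, h1,
      h2, h3, h4, h5, h6, h7⟩
  · intro hc0 hli l0
    obtain ⟨hF, o, ho1, ho2, ho3, ho4⟩ := h8 hc0 hli l0
    refine ⟨o, hF, ?_, ho2, ho3, ?_, ?_, ?_, ?_⟩
    · intro m hm l hl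
      have h9 := ho1 m hm l hl
      have h10 := finrank_hom k d v m
      have h11 : ((cnt (tdeg d j l0 (v - d j + 1 - (B ∪ E).card) E) o m l +
        Module.finrank k (Fil k x m l) : ℕ) : ℤ) ≤
        (Module.finrank k (homogeneousSubmodule (Fin v) k m) : ℤ) := by exact_mod_cast h9
      rw [h10] at h11
      push_cast at h11
      exact h11
    · intro l
      exact ho4 (Sum.inl (Sum.inl l))
    · intro q
      exact ho4 (Sum.inl (Sum.inr q))
    · intro i hi
      have h9 := ho4 (Sum.inr i)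
      simp only [Sum.elim_inr] at h9
      rw [if_neg hi] at h9
      exact h9
    · intro i hi
      have h9 := ho4 (Sum.inr i)
      simp only [Sum.elim_inr] at h9
      rw [if_pos hi] at h9
      exact h9

alias rit_jet := rit_jet_pr

end Pool.Agent.KSX
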