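import Pool.Agent.Lib_helper77.KSZ.XBase
import Pool.Agent.Lib_helper56.KSS.J3
import Pool.Agent.Lib_helper77.KSZ.XGLQ
import Pool.Agent.Lib_helper77.KSZ.XGRD
import Pool.Agent.Lib_helper77.KSZ.XRIT

/-!
# Block RTR: the refined local inequality for records
-/

namespace Pool.Agent.KSX

open MvPolynomial Pool.Agent.KSS Filter Topology

theorem rtr_scale {k A V : Type} [Fintype V] [Field k] [CommRing A] [Algebra k A] {m : ℕ}
    {F : MvPolynomial V k} (hF : F.IsHomogeneous m) (a : A) (y : V → A) :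
    aeval (fun q => a * y q) F = a ^ m * aeval y F := by
  rw [aeval_def, aeval_def, eval₂_eq', eval₂_eq', Finset.mul_sum]
  apply Finset.sum_congr rfl
  intro α hα
  have h1 : ∑ i, α i = m := by
    have h := hF (mem_support_iff.mp hα)
    rw [Finsupp.weight_apply, Finsupp.sum_fintype _ _ (by simp)] at h
    simpa using h
  simp only [mul_pow]
  rw [Finset.prod_mul_distrib, Finset.prod_pow_eq_pow_sum, h1]
  ring

theorem rtr_coeff {k κ : Type} [Field k] [Field κ] [Algebra k κ] {v L m c : ℕ}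
    {F : MvPolynomial (Fin v) k} (hF : F.IsHomogeneous m) (x : Fin v → Fin L → κ)
    (hx : ∀ q, (PowerSeries.X : PowerSeries κ) ^ c ∣ arc (x q)) :
    PowerSeries.coeff (m * c) (ev x F) = aeval (lead x c) F := by
  choose y hy using hx
  have h1 : ev x F = (PowerSeries.X : PowerSeries κ) ^ (m * c) * aeval y F := by
    unfold ev
    have : (fun i => arc (x i)) = fun q => (PowerSeries.X : PowerSeries κ) ^ c * y q :=
      funext hy
    rw [this, rtr_scale hF, ← pow_mul, Nat.mul_comm c m]
  have h2 : lead x c = fun q => PowerSeries.constantCoeff (y q) := by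
    funext q
    unfold lead
    rw [hy q]
    have := PowerSeries.coeff_X_pow_mul (y q) c 0
    rw [zero_add] at this
    rw [this]
    simp
  rw [h1, h2]
  have := PowerSeries.coeff_X_pow_mul (aeval y F) (m * c) 0
  rw [zero_add] at this
  rw [this, PowerSeries.coeff_zero_eq_constantCoeff_apply]
  have h3 : (PowerSeries.constantCoeff : PowerSeries κ →+* κ) (aeval y F) =
      aeval (fun q => PowerSeries.constantCoeff (y q)) F := by
    rw [aeval_def, aeval_def, hom_eval₂]
    congr 1
  exact h3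

/-- the order at the vertex is attained -/
theorem rtr_c0 {κ : Type} [Field κ] {v L : ℕ} (hv : 0 < v) (x : Fin v → Fin L → κ) :
    (∀ q, (PowerSeries.X : PowerSeries κ) ^ (c0J x) ∣ arc (x q)) ∧
      (c0J x < L → lead x (c0J x) ≠ 0) := by
  haveI : Nonempty (Fin v) := ⟨⟨0, hv⟩⟩
  have hle : ∀ q, c0J x ≤ ordL L (arc (x q)) := fun q => ciInf_le (OrderBot.bddBelow _) q
  refine ⟨fun q => (pow_dvd_pow _ (hle q)).trans (Pool.Agent.Lib_helper56.KSS.ordL_dvd L _), ?_⟩
  intro hc h
  obtain ⟨q, hq⟩ := exists_eq_ciInf_of_finite (f := fun i => ordL L (arc (x i)))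
  have hq' : ordL L (arc (x q)) = c0J x := hq
  have h1 := Pool.Agent.Lib_helper56.KSS.order_eq_of_ordL_lt (κ := κ) (L := L) (f := arc (x q)) (by rw [hq']; exact hc)
  have h2 : PowerSeries.coeff (c0J x) (arc (x q)) = 0 := congrFun h q
  rw [hq'] at h1
  exact (PowerSeries.order_eq_nat.mp h1).1 h2

/-- (RTR) the form used in the analysis; from `rit_jet`, `grad_indep`, `gen_coord` -/
theorem rit_rec_pr {p : ℕ} (d : Fin p → ℕ) (hd : ∀ i, 2 ≤ d i) (v : ℕ) (B E : Finset (Fin p))
    (hBE : Disjoint B E) (j : Fin p) (hj : j ∈ B ∪ E) (hv : d j < v)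
    (hE : (E.erase j).card ≤ 1) (M0 : ℕ) (R : Rec p) (hR : R.Of d v) (hL : 0 < R.L)
    (h0 : R.c0 = 0) (hB : ∀ i ∈ B, R.g i = R.L) (hg : ∀ i ∈ E, 0 < R.g i) :
    ∃ (R' : Rec p) (e : Fin (d j) → ℕ) (η : ℕ), TorusOut d v j M0 R R' e η ∧
      ((∀ i, d i * R'.c0 < R.L) →
        ∀ l0 : Fin (d j), ∃ o, RitOut d v B E j M0 R R' e η l0 o) := by
  have hd1 : ∀ i, 1 ≤ d i := fun i => (by omega : 1 ≤ 2).trans (hd i)
  obtain ⟨L, τ, fil, g, c0⟩ := R
  simp only at hL h0 hB hg
  subst h0
  obtain ⟨k, _, _, G, κ, _, _, x, hG, hτ, hfil, hgg, hc0⟩ := hR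
  simp only at x hτ hfil hgg hc0
  -- the leading point
  have hx0 := rtr_c0 (by omega : 0 < v) x
  rw [hc0] at hx0
  have hF : ∀ i ∈ B ∪ E, i ≠ j → aeval (lead x 0) (G i) = 0 := by
    intro i hi _
    rw [← rtr_coeff (hG.1 i) x hx0.1, Nat.mul_zero]
    have hpos : 0 < ordL L (ev x (G i)) := by
      rw [hgg]
      rcases Finset.mem_union.mp hi with h | h
      · rw [hB i h]; exact hL
      · exact hg i h
    have h1 := (pow_dvd_pow (PowerSeries.X : PowerSeries κ) hpos).trans (Pool.Agent.Lib_helper56.KSS.ordL_dvd L (ev x (G i)))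
    exact PowerSeries.X_pow_dvd_iff.1 h1 0 (by norm_num)
  have hind := grad_indep d hd1 G hG (lead x 0) (hx0.2 hL) (B ∪ E) j hF
  obtain ⟨G2, x2, hG2, hrec, hmin⟩ := gen_coord d G hG x (B ∪ E) hind
  have hrL : (recJ G x).L = L := rfl
  have hg2 : ∀ i, ordL L (ev x2 (G2 i)) = ordL L (ev x (G i)) := by
    intro i
    have := congrArg (fun r => Rec.g r i) hrec
    exact this
  obtain ⟨k', _, _, G', κ', _, _, x', e, η, hG', hT, hQ⟩ := rit_jet d hd v B E hBE j hj hv M0 L k G2
    hG2 κ x2 hL (fun i hi => by rw [hg2, hgg, hB i hi]) hmin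
  rw [hrec] at hT hQ
  have hτ' : (recJ G x).τ = τ := hτ
  have hg' : (recJ G x).g = g := funext hgg
  refine ⟨recJ G' x', e, η, ?_, ?_⟩
  · exact ⟨hT.of, hT.L_eq, hT.e_le, hT.eta_le, fun i hi => by rw [← hg']; exact hT.g_le i hi,
      by rw [← hg']; exact hT.gj_le, hT.gj', by rw [← hτ']; exact hT.tau_le,
      fun m hm l hl1 hl => by
        have := hT.fil_le m hm l hl1 hl
        show fil m l ≤ _
        rw [← hfil m l hl]
        exact this⟩
  · intro hc l0
    have hc' : ∀ i, d i * c0J x' < L := hc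
    have hv' : 0 < v - d j := by omega
    have hcL : c0J x' < L := by
      have h1 := hc' j
      have h2 := hd1 j
      nlinarith
    have hx' := rtr_c0 hv' x'
    have hind' : LinearIndependent κ' (fun i : ↥((B ∪ E).erase j) => grad G' (lead x' (c0J x')) i) := by
      obtain ⟨i0, hi0⟩ : ∃ i0, ∀ i ∈ E.erase j, i = i0 := by
        rcases (E.erase j).eq_empty_or_nonempty with h | ⟨i0, hi0⟩
        · exact ⟨j, fun i hi => by rw [h] at hi; exact absurd hi (Finset.notMem_empty i)⟩
        · exact ⟨i0, fun i hi => Finset.card_le_one.mp hE i hi i0 hi0⟩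
      apply grad_indep d hd1 G' hG' (lead x' (c0J x')) (hx'.2 hcL) ((B ∪ E).erase j) i0
      intro i hi hne
      have hij : i ≠ j := Finset.ne_of_mem_erase hi
      have hiB : i ∈ B := by
        rcases Finset.mem_union.mp (Finset.mem_of_mem_erase hi) with h | h
        · exact h
        · exact absurd (hi0 i (Finset.mem_erase.mpr ⟨hij, h⟩)) hne
      rw [← rtr_coeff (hG'.1 i) x' hx'.1]
      have h1 : L ≤ ordL L (ev x' (G' i)) := by
        have h2 := hT.g_le i hij
        have h3 : (recJ G x).g i = L := by rw [hg', hB i hiB]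
        rw [h3] at h2
        exact h2
      have h4 := (pow_dvd_pow (PowerSeries.X : PowerSeries κ') h1).trans (Pool.Agent.Lib_helper56.KSS.ordL_dvd L (ev x' (G' i)))
      exact PowerSeries.X_pow_dvd_iff.1 h4 _ (hc' i)
    obtain ⟨o, ho⟩ := hQ hcL hind' l0
    refine ⟨o, ho.card_le, ?_, ?_, ?_, ?_, ?_, ?_, ?_⟩
    · intro m hm l hl
      have := ho.cnt_le m hm l hl
      show _ + ((fil m l : ℕ) : ℤ) ≤ _
      rw [← hfil m l hl]
      exact this
    · have := ho.sum_le
      rw [hτ'] at this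
      exact this
    · intro i
      rw [← hg']
      exact ho.o_ge i
    · intro l
      have := ho.o_y l
      unfold Theta at this ⊢
      rw [hτ'] at this
      exact this
    · intro l
      have := ho.o_x l
      unfold Theta at this ⊢
      rw [hτ'] at this
      exact this
    · intro i hi
      have := ho.o_g i hi
      unfold Theta at this ⊢
      rw [hτ'] at this
      exact this
    · intro i hi
      have := ho.o_j i hi
      unfold Theta at this ⊢
      rw [hτ'] at this
      exact this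

alias rit_rec := rit_rec_pr

end Pool.Agent.KSX
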