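import Pool.Agent.Lib_helper77.KSZ.XBase
import Pool.Agent.Lib_helper77.KSZ.XASY
import Pool.Agent.Lib_helper77.KSZ.XBAS
import Pool.Agent.Lib_helper77.KSZ.XEXQ
import Pool.Agent.Lib_helper77.KSZ.XNTB

/-!
# Strictness (KSX), block TSB: the torus step for a near-equality sequence, `j ∈ B`
-/

namespace Pool.Agent.KSX

open MvPolynomial Pool.Agent.KSS Filter Topology

/-- bounded nonnegative sequences converge along an ultrafilter -/
theorem tsb_lim {ι : Type} (U : Ultrafilter ι) (f : ι → ℝ) (C : ℝ)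
    (h : ∀ᶠ n in U, 0 ≤ f n ∧ f n ≤ C) : ∃ x, Tendsto f U (𝓝 x) := by
  have hK : IsCompact (Set.Icc (0 : ℝ) C) := isCompact_Icc
  have h2 : (U.map f : Filter ℝ) ≤ 𝓟 (Set.Icc 0 C) := by
    rw [Filter.le_principal_iff]
    exact h
  obtain ⟨x, -, hx⟩ := hK.ultrafilter_le_nhds (U.map f) h2
  exact ⟨x, hx⟩

/-- the final computation with limits -/
theorem tsb_real {p : ℕ} (E : Finset (Fin p)) (dd Y : Fin p → ℝ) (N I t ρ β γ X Z Δ Yj : ℝ)
    (ht : 0 < t) (hρ : ρ = I - t * ∑ i ∈ E, dd i) (hρ0 : 0 < ρ) (hβγ : β + N * γ = 1)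
    (hργ : ρ * γ < 1) (hΔ : 0 ≤ Δ)
    (h1 : X + Δ ≤ I) (h2 : ∀ i ∈ E, dd i ≤ Y i) (h3 : 0 ≤ β * Z + γ * (Yj + Δ) - 1)
    (h4 : t * ∑ i ∈ E, Y i + (ρ * γ) * Yj + (ρ * β) * Z ≤ X)
    (ε : ℝ) (hε : 0 < ε)
    (h5 : t * ∑ i ∈ E, Y i + (ρ * γ + ε) * Yj + (ρ * β - N * ε) * Z ≤ X)
    (h6 : t * ∑ i ∈ E, Y i + (ρ * γ - ε) * Yj + (ρ * β + N * ε) * Z ≤ X) :
    X = I ∧ Z = 1 ∧ Δ = 0 ∧ Yj = N ∧ ∀ i ∈ E, Y i = dd i := by
  have hS : ∑ i ∈ E, dd i ≤ ∑ i ∈ E, Y i := Finset.sum_le_sum h2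
  have hS2 : t * ∑ i ∈ E, dd i ≤ t * ∑ i ∈ E, Y i := mul_le_mul_of_nonneg_left hS ht.le
  have h3' : 0 ≤ ρ * (β * Z + γ * (Yj + Δ) - 1) := mul_nonneg hρ0.le h3
  have h7 : Δ * (1 - ρ * γ) ≤ 0 := by nlinarith
  have hΔ0 : Δ = 0 := by
    by_contra hne
    have hpos : 0 < Δ := lt_of_le_of_ne hΔ (Ne.symm hne)
    have := mul_pos hpos (by linarith : (0 : ℝ) < 1 - ρ * γ)
    linarith
  subst hΔ0
  have hXI : X = I := by
    apply le_antisymm
    · linarith
    · nlinarith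
  have hSe : t * (∑ i ∈ E, Y i - ∑ i ∈ E, dd i) = 0 := by
    apply le_antisymm
    · nlinarith
    · nlinarith
  have hS0 : ∑ i ∈ E, Y i - ∑ i ∈ E, dd i = 0 := by
    rcases mul_eq_zero.mp hSe with h | h
    · exact absurd h ht.ne'
    · exact h
  have hY : ∀ i ∈ E, Y i = dd i := by
    have h8 : ∑ i ∈ E, (Y i - dd i) = 0 := by rw [Finset.sum_sub_distrib]; exact hS0
    have h9 := (Finset.sum_eq_zero_iff_of_nonneg (fun i hi => sub_nonneg.mpr (h2 i hi))).mp h8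
    intro i hi
    have := h9 i hi
    linarith
  have hq : ρ * (β * Z + γ * Yj - 1) = 0 := by
    have h10 : ρ * (β * Z + γ * (Yj + 0) - 1) = ρ * (β * Z + γ * Yj - 1) := by ring
    apply le_antisymm
    · nlinarith
    · linarith
  have hq0 : β * Z + γ * Yj - 1 = 0 := by
    rcases mul_eq_zero.mp hq with h | h
    · exact absurd h hρ0.ne'
    · exact h
  have hSS : t * ∑ i ∈ E, Y i = t * ∑ i ∈ E, dd i := by linarith
  have h11 : ε * (Yj - N * Z) ≤ 0 := by nlinarith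
  have h12 : 0 ≤ ε * (Yj - N * Z) := by nlinarith
  have h13 : Yj - N * Z = 0 := by
    rcases mul_eq_zero.mp (le_antisymm h11 h12) with h | h
    · exact absurd h hε.ne'
    · exact h
  have hYj : Yj = N * Z := by linarith
  have hZ : Z = 1 := by
    have : (β + N * γ) * Z = 1 := by rw [hYj] at hq0; linarith
    rwa [hβγ, one_mul] at this
  refine ⟨hXI, hZ, rfl, ?_, hY⟩
  rw [hYj, hZ, mul_one]

/-- exact relation between the two normalisations -/
theorem tsb_W {p : ℕ} (d : Fin p → ℕ) (v : ℕ) (B : Finset (Fin p)) (j : Fin p) (hj : j ∈ B)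
    (hv : d j ≤ v) (hd : 1 ≤ d j) (q : ℝ) (hq0 : 0 < q) (hq1 : q < 1) :
    Wq d v B q = (1 - q ^ d j) * ((1 - q) ^ d j)⁻¹ * Wq d (v - d j) (B.erase j) q
      + (d j : ℝ) * ((1 - q ^ d j) * Kq (d j) q * Hq d (v - d j) (B.erase j) q) := by
  unfold Wq Hq Kq
  rw [← Finset.mul_prod_erase B (fun i => 1 - q ^ d i) hj,
    ← Finset.add_sum_erase B (fun i => (d i : ℝ) * q ^ (d i) / (1 - q ^ (d i))) hj,
    Nat.cast_sub hv]
  have h1 : (1 - q) ≠ 0 := by linarith
  have h2 : 1 - q ^ d j ≠ 0 := by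
    have : q ^ d j < 1 := pow_lt_one₀ hq0.le hq1 (by omega)
    linarith
  have h3 : (1 - q) ^ v = (1 - q) ^ (v - d j) * (1 - q) ^ (d j) := by
    rw [← pow_add, Nat.sub_add_cancel hv]
  rw [h3]
  generalize ∏ i ∈ B.erase j, (1 - q ^ d i) = P
  generalize ∑ i ∈ B.erase j, (d i : ℝ) * q ^ (d i) / (1 - q ^ (d i)) = S
  have h4 : (1 - q) ^ (v - d j) ≠ 0 := pow_ne_zero _ h1
  have h5 : (1 - q) ^ (d j) ≠ 0 := pow_ne_zero _ h1
  generalize (1 - q) ^ (v - d j) = a at h4 ⊢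
  generalize (1 - q) ^ (d j) = b at h5 ⊢
  generalize q ^ d j = r at h2 ⊢
  field_simp
  ring

/-- `(1 - q^n) / (1 - q) → n` -/
theorem tsb_geom (n : ℕ) :
    Tendsto (fun q : ℝ => (1 - q ^ n) / (1 - q)) (𝓝[<] 1) (𝓝 n) := by
  have h1 : Tendsto (fun q : ℝ => ∑ i ∈ Finset.range n, q ^ i) (𝓝[<] 1) (𝓝 n) := by
    have h2 : Tendsto (fun q : ℝ => ∑ i ∈ Finset.range n, q ^ i) (𝓝 1)
        (𝓝 (∑ i ∈ Finset.range n, (1 : ℝ) ^ i)) := by
      apply Continuous.tendsto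
      fun_prop
    simp only [one_pow, Finset.sum_const, Finset.card_range, nsmul_eq_mul, mul_one] at h2
    exact h2.mono_left nhdsWithin_le_nhds
  refine h1.congr' ?_
  filter_upwards [self_mem_nhdsWithin] with q hq
  have hq' : q < 1 := hq
  rw [geom_sum_eq (by linarith)]
  have h3 : q - 1 ≠ 0 := by linarith
  have h4 : 1 - q ≠ 0 := by linarith
  field_simp
  ring

/-- positivity of the normalisation near `1` -/
theorem tsb_Wpos {p : ℕ} (d : Fin p → ℕ) (hd : ∀ i, 1 ≤ d i) (v : ℕ) (B : Finset (Fin p))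
    (hB : B.card < v) : ∀ᶠ q in 𝓝[<] (1 : ℝ), 0 < Wq d v B q := by
  have h := asy_W d hd v B hB.le
  have hpos : 0 < ((v : ℝ) - B.card) * ∏ i ∈ B, (d i : ℝ) := by
    apply mul_pos
    · have : (B.card : ℝ) < v := by exact_mod_cast hB
      linarith
    · apply Finset.prod_pos
      intro i _
      have := hd i
      exact_mod_cast this
  have h2 := (h.eventually (lt_mem_nhds hpos))
  filter_upwards [h2, self_mem_nhdsWithin] with q hq hq1
  have hq1' : q < 1 := hq1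
  have h3 : 0 < (1 - q) ^ (v - B.card + 1) := pow_pos (by linarith) _
  exact (mul_pos_iff_of_pos_left h3).mp hq

/-- the ratio of the main parts -/
theorem tsb_AW {p : ℕ} (d : Fin p → ℕ) (hd : ∀ i, 1 ≤ d i) (v : ℕ) (B : Finset (Fin p))
    (j : Fin p) (hj : j ∈ B) (hB : ∑ i ∈ B, d i < v) :
    Tendsto (fun q : ℝ => (1 - q ^ d j) * ((1 - q) ^ d j)⁻¹ * Wq d (v - d j) (B.erase j) q
      / Wq d v B q) (𝓝[<] 1)
      (𝓝 ((((v - d j : ℕ) : ℝ) - (B.erase j).card) / ((v : ℝ) - B.card))) := by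
  have hcB : B.card ≤ ∑ i ∈ B, d i := by
    rw [Finset.card_eq_sum_ones]
    exact Finset.sum_le_sum fun i _ => hd i
  have hcB' : (B.erase j).card ≤ ∑ i ∈ B.erase j, d i := by
    rw [Finset.card_eq_sum_ones]
    exact Finset.sum_le_sum fun i _ => hd i
  have hsum : d j + ∑ i ∈ B.erase j, d i = ∑ i ∈ B, d i := Finset.add_sum_erase B d hj
  have hcard : (B.erase j).card + 1 = B.card := Finset.card_erase_add_one hj
  have hdj := hd j
  have h1 := asy_W d hd v B (by omega)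
  have h2 := asy_W d hd (v - d j) (B.erase j) (by omega)
  have h3 := tsb_geom (d j)
  have hP : (∏ i ∈ B, (d i : ℝ)) = (d j : ℝ) * ∏ i ∈ B.erase j, (d i : ℝ) :=
    (Finset.mul_prod_erase B (fun i => (d i : ℝ)) hj).symm
  have hPpos : 0 < ∏ i ∈ B.erase j, (d i : ℝ) := by
    apply Finset.prod_pos
    intro i _
    exact_mod_cast hd i
  have hdj0 : (0 : ℝ) < d j := by exact_mod_cast hd j
  have hvB : (0 : ℝ) < (v : ℝ) - B.card := by
    have : (B.card : ℝ) < v := by exact_mod_cast (by omega : B.card < v)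
    linarith
  have h4 := (h3.mul h2).div h1 (by
    rw [hP]
    positivity)
  have hlim : (d j : ℝ) * ((((v - d j : ℕ) : ℝ) - ((B.erase j).card : ℝ))
      * ∏ i ∈ B.erase j, (d i : ℝ)) / (((v : ℝ) - B.card) * ∏ i ∈ B, (d i : ℝ))
      = (((v - d j : ℕ) : ℝ) - (B.erase j).card) / ((v : ℝ) - B.card) := by
    rw [hP]
    field_simp
  rw [hlim] at h4
  refine h4.congr' ?_
  filter_upwards [self_mem_nhdsWithin, tsb_Wpos d hd v B (by omega)] with q hq hW
  have hq' : q < 1 := hq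
  have h5 : (1 - q) ≠ 0 := by linarith
  have h6 : (1 - q) ^ (v - B.card + 1)
      = (1 - q) ^ (v - d j - (B.erase j).card + 1) * (1 - q) ^ (d j - 1) := by
    rw [← pow_add]
    congr 1
    omega
  have h7 : (1 - q) ^ (d j) = (1 - q) ^ (d j - 1) * (1 - q) := by
    rw [← pow_succ]
    congr 1
    omega
  simp only [Pi.div_apply]
  rw [h6, h7]
  have h8 : (1 - q) ^ (v - d j - (B.erase j).card + 1) ≠ 0 := pow_ne_zero _ h5
  have h9 : (1 - q) ^ (d j - 1) ≠ 0 := pow_ne_zero _ h5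
  have h10 := hW.ne'
  field_simp

/-- `∑_m q^m ∑_l (N - fil - NT) = L ∑ q^m H_B(m) - Λ - ∑ q^m ∑_l NT` -/
theorem tsb_loss_eq {p : ℕ} (d : Fin p → ℕ) (v : ℕ) (B : Finset (Fin p)) (j : Fin p) (M0 : ℕ)
    (R R' : Rec p) (e : Fin (d j) → ℕ) (η : ℕ) (q : ℝ) :
    ∑ m ∈ Finset.range (M0 + 1), q ^ m *
          ∑ l ∈ Finset.Icc 1 R.L, (((NN d v ∅ m : ℝ) - R.fil m l) - NT d v j R' e η m l)
      = (R.L : ℝ) * ∑ m ∈ Finset.range (M0 + 1), q ^ m * (NN d v B m : ℝ)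
        - R.Lam d v B q M0
        - ∑ m ∈ Finset.range (M0 + 1), q ^ m * ∑ l ∈ Finset.Icc 1 R.L, NT d v j R' e η m l := by
  unfold Rec.Lam Rec.sig
  rw [Finset.mul_sum, ← Finset.sum_sub_distrib, ← Finset.sum_sub_distrib]
  apply Finset.sum_congr rfl
  intro m _
  have h1 : ∑ l ∈ Finset.Icc 1 R.L, (((NN d v ∅ m : ℝ) - R.fil m l) - NT d v j R' e η m l)
      = ∑ l ∈ Finset.Icc 1 R.L, ((NN d v B m : ℝ)
        - ((R.fil m l : ℝ) - (NN d v ∅ m : ℝ) + (NN d v B m : ℝ)) - NT d v j R' e η m l) := by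
    apply Finset.sum_congr rfl
    intro l _
    ring
  rw [h1, Finset.sum_sub_distrib, Finset.sum_sub_distrib]
  simp only [Finset.sum_const, Nat.card_Icc, Nat.add_sub_cancel, nsmul_eq_mul]
  ring

/-- everything that the torus step gives for a single index -/
theorem tsb_fact {p : ℕ} (d : Fin p → ℕ) (hd : ∀ i, 2 ≤ d i) (v : ℕ) (B : Finset (Fin p))
    (j : Fin p) (hj : j ∈ B) (hB : ∑ i ∈ B, d i < v) (M0 : ℕ) (R R' : Rec p)
    (e : Fin (d j) → ℕ) (η : ℕ) (hT : TorusOut d v j M0 R R' e η)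
    (hgB : ∀ i ∈ B, R.g i = R.L) (q : ℝ) (hq0 : 0 < q) (hq1 : q < 1) :
    (∀ i ∈ B.erase j, R'.g i = R'.L) ∧
    R'.cd (v - d j) (B.erase j) + (∑ l, (e l : ℝ) - R'.g j) ≤ R.cd v B ∧
    0 ≤ ∑ l, (e l : ℝ) - R'.g j ∧
    0 ≤ R'.Lam d (v - d j) (B.erase j) q M0 ∧
    0 ≤ ∑ m ∈ Finset.range (M0 + 1), q ^ m *
          ∑ l ∈ Finset.Icc 1 R.L, (((NN d v ∅ m : ℝ) - R.fil m l) - NT d v j R' e η m l) ∧
    ∑ m ∈ Finset.range (M0 + 1), q ^ m *
          ∑ l ∈ Finset.Icc 1 R.L, (((NN d v ∅ m : ℝ) - R.fil m l) - NT d v j R' e η m l)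
      ≤ (1 - q ^ (d j)) * (((1 - q) ^ (d j))⁻¹ * R'.Lam d (v - d j) (B.erase j) q M0
        + Kq (d j) q * Hq d (v - d j) (B.erase j) q * ∑ l, (e l : ℝ)) - R.Lam d v B q M0 := by
  have hd1 : ∀ i, 1 ≤ d i := fun i => le_trans (by norm_num) (hd i)
  have hsum : d j + ∑ i ∈ B.erase j, d i = ∑ i ∈ B, d i := Finset.add_sum_erase B d hj
  have hcard : (B.erase j).card + 1 = B.card := Finset.card_erase_add_one hj
  have hcB' : (B.erase j).card ≤ ∑ i ∈ B.erase j, d i := by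
    rw [Finset.card_eq_sum_ones]
    exact Finset.sum_le_sum fun i _ => hd1 i
  have hv' : 1 ≤ v - d j := by omega
  have hbas := bas_rec d hd1 (v - d j) hv' R' hT.of
  have hη : η = R.L := le_antisymm hT.eta_le (by rw [← hgB j hj]; exact hT.gj_le)
  have hB' : ∀ i ∈ B.erase j, R'.g i = R'.L := by
    intro i hi
    apply le_antisymm (hbas.g_le i)
    rw [hT.L_eq, ← hgB i (Finset.mem_of_mem_erase hi)]
    exact hT.g_le i (Finset.ne_of_mem_erase hi)
  have hEg : (∑ l, e l - R.L) + R'.g j = ∑ l, e l := by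
    rw [hT.gj']
    omega
  have hEg' : ((∑ l, e l - R.L : ℕ) : ℝ) = ∑ l, (e l : ℝ) - R'.g j := by
    have : ((∑ l, e l - R.L : ℕ) : ℝ) + R'.g j = ∑ l, (e l : ℝ) := by exact_mod_cast hEg
    linarith
  have hcd : R'.cd (v - d j) (B.erase j) + (∑ l, (e l : ℝ) - R'.g j) ≤ R.cd v B := by
    have htau := hT.tau_le
    have htau' : (R.τ : ℝ) + η + ((∑ l, e l - R.L : ℕ) : ℝ) ≤ R'.τ + d j * R.L := by
      exact_mod_cast htau
    rw [hEg', hη] at htau'
    unfold Rec.cd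
    rw [hT.L_eq, Nat.cast_sub (by omega : d j ≤ v)]
    have hc : ((B.erase j).card : ℝ) + 1 = B.card := by exact_mod_cast hcard
    have hc' : ((B.erase j).card : ℝ) = B.card - 1 := by linarith
    rw [hc']
    nlinarith
  have hE0 : 0 ≤ ∑ l, (e l : ℝ) - R'.g j := by
    rw [← hEg']
    positivity
  have hLam' : 0 ≤ R'.Lam d (v - d j) (B.erase j) q M0 := by
    unfold Rec.Lam Rec.sig
    apply Finset.sum_nonneg
    intro m _
    apply mul_nonneg (pow_nonneg hq0.le m)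
    apply Finset.sum_nonneg
    intro l hl
    have h := hbas.ge (B.erase j) (by omega) hB' m l (Finset.mem_Icc.mp hl).2
    have h' : ((NN d (v - d j) ∅ m : ℝ)) - (NN d (v - d j) (B.erase j) m : ℝ)
        ≤ (R'.fil m l : ℝ) := by exact_mod_cast h
    linarith
  have hloss0 : 0 ≤ ∑ m ∈ Finset.range (M0 + 1), q ^ m *
          ∑ l ∈ Finset.Icc 1 R.L, (((NN d v ∅ m : ℝ) - R.fil m l) - NT d v j R' e η m l) := by
    apply Finset.sum_nonneg
    intro m hm
    apply mul_nonneg (pow_nonneg hq0.le m)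
    apply Finset.sum_nonneg
    intro l hl
    have hl' := Finset.mem_Icc.mp hl
    have h := nt_le d hd1 v j (by omega) M0 R R' e η hT m l
      (by have := Finset.mem_range.mp hm; omega) hl'.1 hl'.2
    linarith
  refine ⟨hB', hcd, hE0, hLam', hloss0, ?_⟩
  have hsumB := nt_sum_B d hd1 v B j hj hB M0 R R' e η hT hη hB' q hq0 hq1
  rw [tsb_loss_eq d v B j M0 R R' e η q]
  linarith

/-- the inequality of K-semistability for `R'` and fixed coefficients near the limit -/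
theorem tsb_ss {p : ℕ} (d : Fin p → ℕ) (hd : ∀ i, 2 ≤ d i) (v : ℕ) (B E : Finset (Fin p))
    (hBE : Disjoint B E) (j : Fin p) (hjB : j ∉ B) (hjE : j ∉ E) (hB : ∑ i ∈ B, d i < v)
    {ι : Type} (U : Ultrafilter ι) (R : ι → Rec p) (q : ι → ℝ) (M0 : ι → ℕ)
    (hof : ∀ᶠ n in U, (R n).Of d v) (hgB : ∀ᶠ n in U, ∀ i ∈ B, (R n).g i = (R n).L)
    (q01 : ∀ᶠ n in U, 0 < q n ∧ q n < 1) (qlim : Tendsto q U (𝓝 1))
    (t c ρ : ℝ) (ht : 0 ≤ t) (hc : 0 ≤ c) (hρ : 0 ≤ ρ)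
    (hdeg : t * ∑ i ∈ E, (d i : ℝ) + c * d j + ρ ≤ Ind d v B)
    (h1 : t + ρ / (2 * ((v : ℝ) - B.card)) < 1) (h2 : c + ρ / (d j * ((v : ℝ) - B.card)) < 1) :
    ∀ᶠ n in U, t * ∑ i ∈ E, ((R n).g i : ℝ) + c * (R n).g j + ρ * sn d v B R q M0 n
      ≤ (R n).cd v B := by
  classical
  have hd1 : ∀ i, 1 ≤ d i := fun i => le_trans (by norm_num) (hd i)
  have hcB : B.card ≤ ∑ i ∈ B, d i := by
    rw [Finset.card_eq_sum_ones]
    exact Finset.sum_le_sum fun i _ => hd1 i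
  have hvB : (0 : ℝ) < (v : ℝ) - B.card := by
    have : (B.card : ℝ) < v := by exact_mod_cast (by omega : B.card < v)
    linarith
  have hq1 : Tendsto q U (𝓝[<] 1) := by
    rw [tendsto_nhdsWithin_iff]
    refine ⟨qlim, ?_⟩
    filter_upwards [q01] with n hn
    exact hn.2
  set a : Fin p → ℝ := fun i => if i ∈ E then t else if i = j then c else 0 with ha
  have hsum : ∀ x : Fin p → ℝ, ∑ i ∈ Bᶜ, a i * x i = t * ∑ i ∈ E, x i + c * x j := by
    intro x
    have h3 : ∀ i, a i * x i = (if i ∈ E then t * x i else 0) + (if i = j then c * x i else 0) := by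
      intro i
      simp only [ha]
      by_cases hi : i ∈ E
      · have hij : i ≠ j := fun h => hjE (h ▸ hi)
        simp [hi, hij]
      · by_cases hij : i = j
        · simp [hij, hjE]
        · simp [hi, hij]
    simp only [h3]
    rw [Finset.sum_add_distrib, Finset.sum_ite_mem, Finset.sum_ite_eq']
    have h4 : Bᶜ ∩ E = E := by
      apply Finset.inter_eq_right.mpr
      intro i hi
      rw [Finset.mem_compl]
      exact fun h => (Finset.disjoint_left.mp hBE h) hi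
    rw [h4, if_pos (Finset.mem_compl.mpr hjB), Finset.mul_sum]
  have ha0 : ∀ i, 0 ≤ a i := by
    intro i
    simp only [ha]
    split_ifs <;> linarith
  have hβ : ∀ i : Fin p, ∀ᶠ n in U, a i + ρ * (q n ^ (d i) / (1 - q n ^ (d i)) * Hq d v B (q n)
      / Wq d v B (q n)) ≤ 1 := by
    intro i
    have h5 := (asy_G d hd1 v B (by omega) (d i) (hd1 i)).comp hq1
    have h6 := (h5.const_mul ρ).const_add (a i)
    have h7 : a i + ρ * (1 / ((d i : ℝ) * ((v : ℝ) - B.card))) < 1 := by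
      have hdi : (2 : ℝ) ≤ d i := by exact_mod_cast hd i
      have h8 : ρ * (1 / ((d i : ℝ) * ((v : ℝ) - B.card))) ≤ ρ / (2 * ((v : ℝ) - B.card)) := by
        rw [mul_one_div]
        apply div_le_div_of_nonneg_left hρ (by positivity)
        exact mul_le_mul_of_nonneg_right hdi hvB.le
      simp only [ha]
      by_cases hi : i ∈ E
      · rw [if_pos hi]
        linarith
      · rw [if_neg hi]
        by_cases hij : i = j
        · rw [if_pos hij, hij, mul_one_div]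
          exact h2
        · rw [if_neg hij]
          linarith
    have h9 := h6.eventually (gt_mem_nhds h7)
    filter_upwards [h9] with n hn
    exact hn.le
  have hβ' : ∀ᶠ n in U, ∀ i : Fin p, a i + ρ * (q n ^ (d i) / (1 - q n ^ (d i)) *
      Hq d v B (q n) / Wq d v B (q n)) ≤ 1 := Filter.eventually_all.mpr hβ
  filter_upwards [hof, hgB, q01, hβ'] with n h3 h4 h5 h6
  have h7 := ss_exp d hd1 v B hB (q n) h5.1 h5.2 (M0 n) a ha0 ρ hρ
    (by rw [hsum]; linarith) (fun i _ => h6 i) (R n) h3 h4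
  rw [hsum] at h7
  exact h7

/-- a strict inequality at `0` persists -/
theorem tsb_eps (f : ℝ → ℝ) (hf : Continuous f) (h : f 0 < 1) :
    ∀ᶠ ε in 𝓝[>] (0 : ℝ), f ε < 1 :=
  ((hf.tendsto 0).eventually (gt_mem_nhds h)).filter_mono nhdsWithin_le_nhds

/-- the constants -/
theorem tsb_const (I S N vb vb' : ℝ) (hI : 0 < I) (hIv : I < vb) (hS : 0 ≤ S) (hN : 2 ≤ N)
    (hvb : 0 < vb) (hvb' : 0 < vb') (hrel : vb' = vb - N + 1) :
    ∃ t ρ β γ ε : ℝ, 0 < t ∧ ρ = I - t * S ∧ 0 < ρ ∧ β = vb' / vb ∧ γ = (1 - β) / N ∧ 0 < β ∧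
      0 < γ ∧ ρ * γ < 1 ∧ 0 < ε ∧ 0 ≤ ρ * γ - ε ∧ 0 ≤ ρ * β - N * ε ∧
      t + (ρ * β) / (2 * vb') < 1 ∧ ρ * γ + (ρ * β) / (N * vb') < 1 ∧
      t + (ρ * β - N * ε) / (2 * vb') < 1 ∧ (ρ * γ + ε) + (ρ * β - N * ε) / (N * vb') < 1 ∧
      t + (ρ * β + N * ε) / (2 * vb') < 1 ∧ (ρ * γ - ε) + (ρ * β + N * ε) / (N * vb') < 1 := by
  have hN0 : 0 < N := by linarith
  set t : ℝ := min (1 / 4) (I / (2 * (S + 1))) with ht
  have ht0 : 0 < t := lt_min (by norm_num) (by positivity)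
  have ht1 : t ≤ 1 / 4 := min_le_left _ _
  have ht2 : t * S < I := by
    have h1 : t ≤ I / (2 * (S + 1)) := min_le_right _ _
    have h2 : t * (2 * (S + 1)) ≤ I := by
      rwa [le_div_iff₀ (by positivity)] at h1
    nlinarith
  have hρ0 : 0 < I - t * S := by linarith
  have hρI : I - t * S ≤ I := by nlinarith
  have hβ0 : 0 < vb' / vb := by positivity
  have hγ : (1 - vb' / vb) / N = (N - 1) / (N * vb) := by
    rw [hrel]
    field_simp
    ring
  have hγ0 : 0 < (1 - vb' / vb) / N := by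
    rw [hγ]
    apply div_pos (by linarith) (by positivity)
  have e1 : (I - t * S) * (vb' / vb) / (2 * vb') = (I - t * S) / (2 * vb) := by
    field_simp
  have e2 : (I - t * S) * ((1 - vb' / vb) / N) + (I - t * S) * (vb' / vb) / (N * vb')
      = (I - t * S) / vb := by
    rw [hγ]
    field_simp
    ring
  have hlt : (I - t * S) / vb < 1 := by
    rw [div_lt_one hvb]
    linarith
  have c1 : t + (I - t * S) * (vb' / vb) / (2 * vb') < 1 := by
    rw [e1]
    have : (I - t * S) / (2 * vb) = (I - t * S) / vb / 2 := by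
      field_simp
    rw [this]
    linarith
  have c2 : (I - t * S) * ((1 - vb' / vb) / N) + (I - t * S) * (vb' / vb) / (N * vb') < 1 := by
    rw [e2]
    exact hlt
  have c3 : (I - t * S) * ((1 - vb' / vb) / N) < 1 := by
    have : 0 ≤ (I - t * S) * (vb' / vb) / (N * vb') := by positivity
    linarith
  have hpos1 : 0 < (I - t * S) * ((1 - vb' / vb) / N) := mul_pos hρ0 hγ0
  have hpos2 : 0 < (I - t * S) * (vb' / vb) := mul_pos hρ0 hβ0
  have hev : ∀ᶠ ε in 𝓝[>] (0 : ℝ), 0 < ε ∧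
      1 - ((I - t * S) * ((1 - vb' / vb) / N) - ε) < 1 ∧
      1 - ((I - t * S) * (vb' / vb) - N * ε) < 1 ∧
      t + ((I - t * S) * (vb' / vb) - N * ε) / (2 * vb') < 1 ∧
      ((I - t * S) * ((1 - vb' / vb) / N) + ε)
        + ((I - t * S) * (vb' / vb) - N * ε) / (N * vb') < 1 ∧
      t + ((I - t * S) * (vb' / vb) + N * ε) / (2 * vb') < 1 ∧
      ((I - t * S) * ((1 - vb' / vb) / N) - ε)
        + ((I - t * S) * (vb' / vb) + N * ε) / (N * vb') < 1 := by
    refine Filter.eventually_and.mpr ⟨self_mem_nhdsWithin, ?_⟩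
    refine Filter.eventually_and.mpr ⟨tsb_eps _ (by fun_prop) (by simp only [sub_zero]; linarith), ?_⟩
    refine Filter.eventually_and.mpr ⟨tsb_eps _ (by fun_prop)
      (by simp only [mul_zero, sub_zero]; linarith), ?_⟩
    refine Filter.eventually_and.mpr ⟨tsb_eps _ (by fun_prop)
      (by simpa only [mul_zero, sub_zero] using c1), ?_⟩
    refine Filter.eventually_and.mpr ⟨tsb_eps _ (by fun_prop)
      (by simpa only [mul_zero, sub_zero, add_zero] using c2), ?_⟩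
    refine Filter.eventually_and.mpr ⟨tsb_eps _ (by fun_prop)
      (by simpa only [mul_zero, sub_zero, add_zero] using c1), ?_⟩
    exact tsb_eps _ (by fun_prop) (by simpa only [mul_zero, sub_zero, add_zero] using c2)
  obtain ⟨ε, hε0, hε1, hε2, hε3, hε4, hε5, hε6⟩ := hev.exists
  exact ⟨t, I - t * S, vb' / vb, (1 - vb' / vb) / N, ε, ht0, rfl, hρ0, rfl, rfl, hβ0, hγ0, c3,
    hε0, by linarith, by linarith, c1, c2, hε3, hε4, hε5, hε6⟩

theorem tsb_frac (W x N y : ℝ) (hW : W ≠ 0) (hN : N ≠ 0) (h : W = x + N * y) :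
    (1 - x / W) / N = y / W := by
  rw [div_eq_div_iff hN hW, sub_mul, div_mul_cancel₀ _ hW]
  linarith

/-- (TSB) the torus step for a near-equality sequence, block `j ∈ B` -/
theorem tstep_B_pr {p : ℕ} (d : Fin p → ℕ) (hd : ∀ i, 2 ≤ d i) (v : ℕ) (B E : Finset (Fin p))
    (hBE : Disjoint B E) (j : Fin p) (hj : j ∈ B) (hB : ∑ i ∈ B, d i < v)
    {ι : Type} (U : Ultrafilter ι) (R : ι → Rec p) (q : ι → ℝ) (M0 : ι → ℕ)
    (h : NE d v B E U R q M0) (R' : ι → Rec p) (e : ι → Fin (d j) → ℕ) (η : ι → ℕ)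
    (hT : ∀ᶠ n in U, TorusOut d v j (M0 n) (R n) (R' n) (e n) (η n)) :
    NE d (v - d j) (B.erase j) (insert j E) U R' q M0 ∧
      Tendsto (fun n => sn d (v - d j) (B.erase j) R' q M0 n / sn d v B R q M0 n) U (𝓝 1) ∧
      Tendsto (fun n => (∑ l, (e n l : ℝ)) / sn d v B R q M0 n) U (𝓝 (d j)) ∧
      Tendsto (fun n => (∑ m ∈ Finset.range (M0 n + 1), q n ^ m *
          ∑ l ∈ Finset.Icc 1 (R n).L, (((NN d v ∅ m : ℝ) - (R n).fil m l)
            - NT d v j (R' n) (e n) (η n) m l))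
          / (sn d v B R q M0 n * Wq d v B (q n))) U (𝓝 0) := by
  have hd1 : ∀ i, 1 ≤ d i := fun i => le_trans (by norm_num) (hd i)
  have hdj := hd j
  have hsum : d j + ∑ i ∈ B.erase j, d i = ∑ i ∈ B, d i := Finset.add_sum_erase B d hj
  have hcard : (B.erase j).card + 1 = B.card := Finset.card_erase_add_one hj
  have hcB2 : 2 * B.card ≤ ∑ i ∈ B, d i := by
    rw [Finset.card_eq_sum_ones, Finset.mul_sum]
    exact Finset.sum_le_sum fun i _ => by simpa using hd i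
  have hcB' : (B.erase j).card ≤ ∑ i ∈ B.erase j, d i := by
    rw [Finset.card_eq_sum_ones]
    exact Finset.sum_le_sum fun i _ => hd1 i
  have hjE : j ∉ E := Finset.disjoint_left.mp hBE hj
  have hBE' : Disjoint (B.erase j) E := Finset.disjoint_of_subset_left (Finset.erase_subset _ _) hBE
  -- real numbers
  have hN : (2 : ℝ) ≤ (d j : ℝ) := by exact_mod_cast hd j
  have hN0 : (0 : ℝ) < (d j : ℝ) := by linarith
  have hvb : (0 : ℝ) < (v : ℝ) - B.card := by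
    have : (B.card : ℝ) < v := by exact_mod_cast (by omega : B.card < v)
    linarith
  have hvb' : (0 : ℝ) < ((v - d j : ℕ) : ℝ) - (B.erase j).card := by
    have : ((B.erase j).card : ℝ) < ((v - d j : ℕ) : ℝ) := by
      exact_mod_cast (by omega : (B.erase j).card < v - d j)
    linarith
  have hrel : ((v - d j : ℕ) : ℝ) - (B.erase j).card = ((v : ℝ) - B.card) - d j + 1 := by
    rw [Nat.cast_sub (by omega : d j ≤ v)]
    have hc : ((B.erase j).card : ℝ) + 1 = B.card := by exact_mod_cast hcard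
    linarith
  have hI : 0 < Ind d v B := by
    unfold Ind
    have : ((∑ i ∈ B, d i : ℕ) : ℝ) < v := by exact_mod_cast hB
    push_cast at this
    linarith
  have hIv : Ind d v B < (v : ℝ) - B.card := by
    unfold Ind
    have h1 : B.card < ∑ i ∈ B, d i := by
      have : 1 ≤ B.card := Finset.card_pos.mpr ⟨j, hj⟩
      omega
    have : (B.card : ℝ) < ((∑ i ∈ B, d i : ℕ) : ℝ) := by exact_mod_cast h1
    push_cast at this
    linarith
  have hInd : Ind d (v - d j) (B.erase j) = Ind d v B := by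
    unfold Ind
    rw [Nat.cast_sub (by omega : d j ≤ v)]
    have : ((d j + ∑ i ∈ B.erase j, d i : ℕ) : ℝ) = ((∑ i ∈ B, d i : ℕ) : ℝ) := by rw [hsum]
    push_cast at this
    linarith
  have hSE : (0 : ℝ) ≤ ∑ i ∈ E, (d i : ℝ) := Finset.sum_nonneg fun i _ => Nat.cast_nonneg _
  obtain ⟨t, ρ, β, γ, ε, ht0, hρ, hρ0, hβ, hγ, hβ0, hγ0, hργ, hε0, k1, k2, k3, k4, k5, k6, k7,
    k8⟩ := tsb_const (Ind d v B) (∑ i ∈ E, (d i : ℝ)) (d j) ((v : ℝ) - B.card)
      (((v - d j : ℕ) : ℝ) - (B.erase j).card) hI hIv hSE hN hvb hvb' hrel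
  have hβγ : β + (d j : ℝ) * γ = 1 := by
    rw [hγ]
    field_simp
    ring
  -- the point in the normalised filter
  have hq1 : Tendsto q U (𝓝[<] 1) := by
    rw [tendsto_nhdsWithin_iff]
    refine ⟨h.qlim, ?_⟩
    filter_upwards [h.q01] with n hn
    exact hn.2
  have hWpos : ∀ᶠ n in U, 0 < Wq d v B (q n) := hq1.eventually (tsb_Wpos d hd1 v B (by omega))
  have hWpos' : ∀ᶠ n in U, 0 < Wq d (v - d j) (B.erase j) (q n) :=
    hq1.eventually (tsb_Wpos d hd1 (v - d j) (B.erase j) (by omega))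
  have hfact := (hT.and (h.gB.and h.q01)).mono fun n a =>
    tsb_fact d hd v B j hj hB (M0 n) (R n) (R' n) (e n) (η n) a.1 a.2.1 (q n) a.2.2.1 a.2.2.2
  have hof' : ∀ᶠ n in U, (R' n).Of d (v - d j) := by
    filter_upwards [hT] with n a1
    exact a1.of
  have hgB' : ∀ᶠ n in U, ∀ i ∈ B.erase j, (R' n).g i = (R' n).L := by
    filter_upwards [hfact] with n a1
    exact a1.1
  have hss := fun (c r : ℝ) (hc : 0 ≤ c) (hr : 0 ≤ r)
      (hdeg : t * ∑ i ∈ E, (d i : ℝ) + c * d j + r ≤ Ind d (v - d j) (B.erase j)) =>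
    tsb_ss d hd (v - d j) (B.erase j) E hBE' j (Finset.notMem_erase j B) hjE (by omega) U R' q M0
      hof' hgB' h.q01 h.qlim t c r ht0.le hc hr hdeg
  set S : ι → ℝ := sn d v B R q M0 with hSdef
  set S' : ι → ℝ := sn d (v - d j) (B.erase j) R' q M0 with hSdef'
  have hS : ∀ᶠ n in U, 0 < S n := h.spos
  have ess0 := hss (ρ * γ) (ρ * β) (by positivity) (by positivity)
    (by rw [hInd]; nlinarith) k3 k4
  have ess1 := hss (ρ * γ + ε) (ρ * β - d j * ε) (by positivity) k2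
    (by rw [hInd]; nlinarith) k5 k6
  have ess2 := hss (ρ * γ - ε) (ρ * β + d j * ε) k1 (by positivity)
    (by rw [hInd]; nlinarith) k7 k8
  -- normalised sequences
  have hS'0 : ∀ᶠ n in U, 0 ≤ S' n := by
    filter_upwards [hfact, hWpos'] with n a1 a2
    exact div_nonneg a1.2.2.2.1 a2.le
  have F1 : ∀ᶠ n in U, (R' n).cd (v - d j) (B.erase j) / S n
      + (∑ l, (e n l : ℝ) - (R' n).g j) / S n ≤ (R n).cd v B / S n := by
    filter_upwards [hfact, hS] with n a1 a2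
    rw [← add_div]
    exact div_le_div_of_nonneg_right a1.2.1 a2.le
  have F2 : ∀ i ∈ E, ∀ᶠ n in U, ((R n).g i : ℝ) / S n ≤ ((R' n).g i : ℝ) / S n := by
    intro i hi
    filter_upwards [hT, hS] with n a1 a2
    have hij : i ≠ j := fun hh => hjE (hh ▸ hi)
    apply div_le_div_of_nonneg_right _ a2.le
    exact_mod_cast a1.g_le i hij
  have F5 : ∀ᶠ n in U, 0 ≤ (∑ l, (e n l : ℝ) - (R' n).g j) / S n := by
    filter_upwards [hfact, hS] with n a1 a2
    exact div_nonneg a1.2.2.1 a2.le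
  have F4 : ∀ c r : ℝ, (∀ᶠ n in U, t * ∑ i ∈ E, ((R' n).g i : ℝ) + c * (R' n).g j + r * S' n
      ≤ (R' n).cd (v - d j) (B.erase j)) →
      ∀ᶠ n in U, t * ∑ i ∈ E, ((R' n).g i : ℝ) / S n + c * ((R' n).g j / S n) + r * (S' n / S n)
        ≤ (R' n).cd (v - d j) (B.erase j) / S n := by
    intro c r hcr
    filter_upwards [hcr, hS] with n a1 a2
    have a3 := div_le_div_of_nonneg_right a1 a2.le
    refine le_trans (le_of_eq ?_) a3
    rw [← Finset.sum_div]
    ring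
  have F40 := F4 _ _ ess0
  have F41 := F4 _ _ ess1
  have F42 := F4 _ _ ess2
  have hcdb : ∀ᶠ n in U, (R n).cd v B / S n ≤ Ind d v B + 1 := by
    have := h.cdlim.eventually (gt_mem_nhds (by linarith : Ind d v B < Ind d v B + 1))
    filter_upwards [this] with n a1
    exact a1.le
  have hposg : ∀ i, ∀ᶠ n in U, 0 ≤ ((R' n).g i : ℝ) / S n := by
    intro i
    filter_upwards [hS] with n a1
    positivity
  have hposz : ∀ᶠ n in U, 0 ≤ S' n / S n := by
    filter_upwards [hS, hS'0] with n a1 a2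
    positivity
  have hργ0 : 0 < ρ * γ := by positivity
  have hρβ0 : 0 < ρ * β := by positivity
  have hsumg : ∀ᶠ n in U, ∀ i, 0 ≤ ((R' n).g i : ℝ) / S n := Filter.eventually_all.mpr hposg
  -- bounds
  have bX : ∀ᶠ n in U, 0 ≤ (R' n).cd (v - d j) (B.erase j) / S n ∧
      (R' n).cd (v - d j) (B.erase j) / S n ≤ Ind d v B + 1 := by
    filter_upwards [F1, F5, F40, hcdb, hsumg, hposz] with n a1 a2 a3 a4 a5 a6
    have a7 : 0 ≤ t * ∑ i ∈ E, ((R' n).g i : ℝ) / S n :=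
      mul_nonneg ht0.le (Finset.sum_nonneg fun i _ => a5 i)
    have a8 : 0 ≤ ρ * γ * (((R' n).g j : ℝ) / S n) := mul_nonneg hργ0.le (a5 j)
    have a9 : 0 ≤ ρ * β * (S' n / S n) := mul_nonneg hρβ0.le a6
    constructor <;> linarith
  have bΔ : ∀ᶠ n in U, 0 ≤ (∑ l, (e n l : ℝ) - (R' n).g j) / S n ∧
      (∑ l, (e n l : ℝ) - (R' n).g j) / S n ≤ Ind d v B + 1 := by
    filter_upwards [F1, F5, bX, hcdb] with n a1 a2 a3 a4
    constructor <;> linarith [a3.1]
  have bZ : ∀ᶠ n in U, 0 ≤ S' n / S n ∧ S' n / S n ≤ (Ind d v B + 1) / (ρ * β) := by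
    filter_upwards [F40, bX, hsumg, hposz] with n a3 a4 a5 a6
    have a7 : 0 ≤ t * ∑ i ∈ E, ((R' n).g i : ℝ) / S n :=
      mul_nonneg ht0.le (Finset.sum_nonneg fun i _ => a5 i)
    have a8 : 0 ≤ ρ * γ * (((R' n).g j : ℝ) / S n) := mul_nonneg hργ0.le (a5 j)
    refine ⟨a6, ?_⟩
    rw [le_div_iff₀ hρβ0]
    linarith [a4.2]
  have bYj : ∀ᶠ n in U, 0 ≤ ((R' n).g j : ℝ) / S n ∧
      ((R' n).g j : ℝ) / S n ≤ (Ind d v B + 1) / (ρ * γ) := by
    filter_upwards [F40, bX, hsumg, hposz] with n a3 a4 a5 a6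
    have a7 : 0 ≤ t * ∑ i ∈ E, ((R' n).g i : ℝ) / S n :=
      mul_nonneg ht0.le (Finset.sum_nonneg fun i _ => a5 i)
    have a9 : 0 ≤ ρ * β * (S' n / S n) := mul_nonneg hρβ0.le a6
    refine ⟨a5 j, ?_⟩
    rw [le_div_iff₀ hργ0]
    linarith [a4.2]
  have bY : ∀ i ∈ E, ∀ᶠ n in U, 0 ≤ ((R' n).g i : ℝ) / S n ∧
      ((R' n).g i : ℝ) / S n ≤ (Ind d v B + 1) / t := by
    intro i hi
    filter_upwards [F40, bX, hsumg, hposz] with n a3 a4 a5 a6
    have a7 : ((R' n).g i : ℝ) / S n ≤ ∑ i ∈ E, ((R' n).g i : ℝ) / S n :=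
      Finset.single_le_sum (f := fun i => ((R' n).g i : ℝ) / S n) (fun i _ => a5 i) hi
    have a7' := mul_le_mul_of_nonneg_left a7 ht0.le
    have a8 : 0 ≤ ρ * γ * (((R' n).g j : ℝ) / S n) := mul_nonneg hργ0.le (a5 j)
    have a9 : 0 ≤ ρ * β * (S' n / S n) := mul_nonneg hρβ0.le a6
    refine ⟨a5 i, ?_⟩
    rw [le_div_iff₀ ht0]
    linarith [a4.2]
  -- limits
  obtain ⟨X, hX⟩ := tsb_lim U _ _ bX
  obtain ⟨Δ, hΔ⟩ := tsb_lim U _ _ bΔ
  obtain ⟨Z, hZ⟩ := tsb_lim U _ _ bZ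
  obtain ⟨Yj, hYj⟩ := tsb_lim U _ _ bYj
  have hexY : ∀ i, ∃ y : ℝ, i ∈ E → Tendsto (fun n => ((R' n).g i : ℝ) / S n) U (𝓝 y) := by
    intro i
    by_cases hi : i ∈ E
    · obtain ⟨y, hy⟩ := tsb_lim U _ _ (bY i hi)
      exact ⟨y, fun _ => hy⟩
    · exact ⟨0, fun hh => absurd hh hi⟩
  choose Y hY using hexY
  have hw1 : Tendsto (fun n => (1 - q n ^ d j) * ((1 - q n) ^ d j)⁻¹
      * Wq d (v - d j) (B.erase j) (q n) / Wq d v B (q n)) U (𝓝 β) := by
    rw [hβ]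
    exact (tsb_AW d hd1 v B j hj hB).comp hq1
  have hw2 : Tendsto (fun n => (1 - q n ^ d j) * Kq (d j) (q n)
      * Hq d (v - d j) (B.erase j) (q n) / Wq d v B (q n)) U (𝓝 γ) := by
    have h1 := (hw1.const_sub 1).div_const (d j : ℝ)
    rw [← hγ] at h1
    refine h1.congr' ?_
    filter_upwards [h.q01, hWpos] with n a1 a2
    exact tsb_frac _ _ _ _ a2.ne' hN0.ne'
      (tsb_W d v B j hj (by omega) (hd1 j) (q n) a1.1 a1.2)
  -- the loss
  have F3 : ∀ᶠ n in U, 0 ≤ (∑ m ∈ Finset.range (M0 n + 1), q n ^ m *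
          ∑ l ∈ Finset.Icc 1 (R n).L, (((NN d v ∅ m : ℝ) - (R n).fil m l)
            - NT d v j (R' n) (e n) (η n) m l)) / (S n * Wq d v B (q n)) ∧
      (∑ m ∈ Finset.range (M0 n + 1), q n ^ m *
          ∑ l ∈ Finset.Icc 1 (R n).L, (((NN d v ∅ m : ℝ) - (R n).fil m l)
            - NT d v j (R' n) (e n) (η n) m l)) / (S n * Wq d v B (q n))
      ≤ ((1 - q n ^ d j) * ((1 - q n) ^ d j)⁻¹ * Wq d (v - d j) (B.erase j) (q n)
          / Wq d v B (q n)) * (S' n / S n)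
        + ((1 - q n ^ d j) * Kq (d j) (q n) * Hq d (v - d j) (B.erase j) (q n)
          / Wq d v B (q n)) * (((R' n).g j : ℝ) / S n
            + (∑ l, (e n l : ℝ) - (R' n).g j) / S n) - 1 := by
    filter_upwards [hfact, hS, hWpos, hWpos'] with n a1 a2 a3 a4
    obtain ⟨-, -, -, -, b1, b2⟩ := a1
    have hSW : 0 < S n * Wq d v B (q n) := mul_pos a2 a3
    refine ⟨div_nonneg b1 hSW.le, ?_⟩
    have b3 := div_le_div_of_nonneg_right b2 hSW.le
    refine le_trans b3 (le_of_eq ?_)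
    have hL : (R n).Lam d v B (q n) (M0 n) = S n * Wq d v B (q n) := by
      simp only [hSdef, sn, Rec.s]
      rw [div_mul_cancel₀ _ a3.ne']
    have hL' : (R' n).Lam d (v - d j) (B.erase j) (q n) (M0 n)
        = S' n * Wq d (v - d j) (B.erase j) (q n) := by
      simp only [hSdef', sn, Rec.s]
      rw [div_mul_cancel₀ _ a4.ne']
    rw [hL, hL']
    have a2' := a2.ne'
    have a3' := a3.ne'
    generalize Wq d (v - d j) (B.erase j) (q n) = w'
    generalize Wq d v B (q n) = w at a3' ⊢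
    generalize Hq d (v - d j) (B.erase j) (q n) = h'
    generalize Kq (d j) (q n) = kk
    generalize S n = sv at a2' ⊢
    generalize S' n = sv'
    generalize ((1 - q n) ^ d j)⁻¹ = aa
    generalize 1 - q n ^ d j = bb
    generalize ∑ l, (e n l : ℝ) = ee
    generalize ((R' n).g j : ℝ) = gg
    field_simp
    ring
  have hΛ := ((hw1.mul hZ).add (hw2.mul (hYj.add hΔ))).sub_const 1
  -- inequalities between the limits
  have l1 : X + Δ ≤ Ind d v B := le_of_tendsto_of_tendsto (hX.add hΔ) h.cdlim F1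
  have l2 : ∀ i ∈ E, (d i : ℝ) ≤ Y i := fun i hi =>
    le_of_tendsto_of_tendsto (h.glim i hi) (hY i hi) (F2 i hi)
  have l3 : 0 ≤ β * Z + γ * (Yj + Δ) - 1 := by
    refine ge_of_tendsto hΛ ?_
    filter_upwards [F3] with n a1
    exact le_trans a1.1 a1.2
  have l7 : 0 ≤ Δ := ge_of_tendsto hΔ F5
  have hsumY : Tendsto (fun n => ∑ i ∈ E, ((R' n).g i : ℝ) / S n) U (𝓝 (∑ i ∈ E, Y i)) :=
    tendsto_finsetSum _ fun i hi => hY i hi
  have l4 : ∀ c r : ℝ, (∀ᶠ n in U, t * ∑ i ∈ E, ((R' n).g i : ℝ) / S n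
      + c * ((R' n).g j / S n) + r * (S' n / S n)
        ≤ (R' n).cd (v - d j) (B.erase j) / S n) →
      t * ∑ i ∈ E, Y i + c * Yj + r * Z ≤ X := fun c r hcr =>
    le_of_tendsto_of_tendsto (((hsumY.const_mul t).add (hYj.const_mul c)).add
      (hZ.const_mul r)) hX hcr
  obtain ⟨rX, rZ, rΔ, rYj, rY⟩ := tsb_real E (fun i => (d i : ℝ)) Y (d j) (Ind d v B) t ρ β γ
    X Z Δ Yj ht0 hρ hρ0 hβγ hργ l7 l1 l2 l3 (l4 _ _ F40) ε hε0 (l4 _ _ F41) (l4 _ _ F42)
  subst rX rZ rΔ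
  have hS'pos : ∀ᶠ n in U, 0 < S' n := by
    filter_upwards [hZ.eventually (lt_mem_nhds (by norm_num : (0 : ℝ) < 1)), hS] with n a1 a2
    exact (div_pos_iff_of_pos_right a2).mp a1
  have hinv : Tendsto (fun n => S n / S' n) U (𝓝 1) := by
    have h1 := hZ.inv₀ one_ne_zero
    simp only [inv_div, inv_one] at h1
    exact h1
  have hconv : ∀ (f : ι → ℝ) (x : ℝ), Tendsto (fun n => f n / S n) U (𝓝 x) →
      Tendsto (fun n => f n / S' n) U (𝓝 x) := by
    intro f x hf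
    have h1 := hf.mul hinv
    rw [mul_one] at h1
    refine h1.congr' ?_
    filter_upwards [hS, hS'pos] with n a1 a2
    have a1' := a1.ne'
    have a2' := a2.ne'
    field_simp
  refine ⟨⟨hof', hgB', h.q01, h.qlim, h.M0lim, hS'pos, ?_, ?_, ?_⟩, hZ, ?_, ?_⟩
  · have h1 := h.Llim.atTop_mul_pos one_pos hinv
    refine h1.congr' ?_
    filter_upwards [hS, hS'pos, hT] with n a1 a2 a3
    rw [a3.L_eq]
    have a1' : S n ≠ 0 := a1.ne'
    have a2' : S' n ≠ 0 := a2.ne'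
    change (1 - q n) * ((R n).L : ℝ) / S n * (S n / S' n) = (1 - q n) * ((R n).L : ℝ) / S' n
    field_simp
  · rw [hInd]
    exact hconv _ _ hX
  · intro i hi
    rcases Finset.mem_insert.mp hi with hij | hiE
    · subst hij
      rw [← rYj]
      exact hconv _ _ hYj
    · rw [← rY i hiE]
      exact hconv _ _ (hY i hiE)
  · have h1 := hYj.add hΔ
    rw [add_zero, rYj] at h1
    refine h1.congr fun n => ?_
    rw [← add_div]
    congr 1
    ring
  · have h0 : β * 1 + γ * (Yj + 0) - 1 = 0 := by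
      rw [rYj]
      linarith
    rw [h0] at hΛ
    refine tendsto_of_tendsto_of_tendsto_of_le_of_le' tendsto_const_nhds hΛ ?_ ?_
    · filter_upwards [F3] with n a1
      exact a1.1
    · filter_upwards [F3] with n a1
      exact a1.2

alias tstep_B := tstep_B_pr

end Pool.Agent.KSX
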