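import Pool.Agent.Lib_helper77.KSZ.XBase
import Pool.Agent.Lib_helper77.KSZ.XBAS
import Pool.Agent.Lib_helper77.KSZ.XSER

/-!
# KSX, block NTE: conditions imposed by the torus-graded filtration, case `B = ∅`
-/

namespace Pool.Agent.KSX

open MvPolynomial Pool.Agent.KSS Filter Topology

theorem nte_mem {n m : ℕ} {a : Fin n → ℕ} : a ∈ Exps n m ↔ ∑ i, a i ≤ m := by
  unfold Exps
  rw [Finset.mem_filter, Fintype.mem_piFinset]
  constructor
  · exact fun h => h.2
  · intro h
    refine ⟨fun i => ?_, h⟩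
    rw [Finset.mem_range]
    have := Finset.single_le_sum (f := a) (fun j _ => Nat.zero_le _) (Finset.mem_univ i)
    omega

theorem nte_conv (n : ℕ) (F : PowerSeries ℤ) : ∀ m : ℕ,
    ∑ a ∈ Exps n m, PowerSeries.coeff (m - ∑ i, a i) F =
      PowerSeries.coeff m (((PowerSeries.invOneSubPow ℤ n : (PowerSeries ℤ)ˣ) : PowerSeries ℤ) * F) := by
  induction n with
  | zero =>
    intro m
    have h : Exps 0 m = {default} := by
      ext a
      rw [nte_mem, Finset.mem_singleton]
      constructor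
      · intro _
        exact Subsingleton.elim _ _
      · intro _
        simp
    rw [h, Finset.sum_singleton, PowerSeries.invOneSubPow_zero]
    simp
  | succ n ih =>
    intro m
    have h1 : ∑ a ∈ Exps (n + 1) m, PowerSeries.coeff (m - ∑ i, a i) F =
        ∑ b ∈ Finset.range (m + 1), ∑ a ∈ Exps n (m - b),
          PowerSeries.coeff ((m - b) - ∑ i, a i) F := by
      rw [Finset.sum_sigma']
      refine Finset.sum_bij' (fun a _ => ⟨a 0, fun i => a i.succ⟩)
        (fun s _ => Fin.cons s.1 s.2) ?_ ?_ ?_ ?_ ?_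
      · intro a ha
        rw [nte_mem, Fin.sum_univ_succ] at ha
        rw [Finset.mem_sigma, Finset.mem_range, nte_mem]
        constructor
        · show a 0 < m + 1
          omega
        · show ∑ i : Fin n, a i.succ ≤ m - a 0
          omega
      · rintro ⟨b, a⟩ hs
        rw [Finset.mem_sigma, Finset.mem_range, nte_mem] at hs
        replace hs : b < m + 1 ∧ ∑ i, a i ≤ m - b := hs
        rw [nte_mem, Fin.sum_univ_succ]
        simp only [Fin.cons_zero, Fin.cons_succ]
        omega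
      · intro a _
        funext i
        refine Fin.cases ?_ (fun i => ?_) i
        · rfl
        · rfl
      · rintro ⟨b, a⟩ _
        rfl
      · intro a ha
        rw [nte_mem, Fin.sum_univ_succ] at ha
        rw [Fin.sum_univ_succ]
        show PowerSeries.coeff (m - (a 0 + ∑ i : Fin n, a i.succ)) F =
          PowerSeries.coeff (m - a 0 - ∑ i : Fin n, a i.succ) F
        rw [Nat.sub_sub]
    rw [h1, Finset.sum_congr rfl (fun b _ => ih (m - b))]
    have h2 : ((PowerSeries.invOneSubPow ℤ (n + 1) : (PowerSeries ℤ)ˣ) : PowerSeries ℤ) =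
        PowerSeries.mk (fun _ => 1) *
          ((PowerSeries.invOneSubPow ℤ n : (PowerSeries ℤ)ˣ) : PowerSeries ℤ) := by
      rw [add_comm, PowerSeries.invOneSubPow_add, Units.val_mul,
        PowerSeries.invOneSubPow_val_one_eq_invUnitSub_one]
      congr 1
      ext k
      rw [PowerSeries.coeff_invUnitsSub]
      simp
    rw [h2, mul_assoc, PowerSeries.coeff_mul, Finset.Nat.sum_antidiagonal_eq_sum_range_succ_mk]
    apply Finset.sum_congr rfl
    intro b _
    simp

theorem nte_NN {p : ℕ} (d : Fin p → ℕ) (n v m : ℕ) :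
    ∑ a ∈ Exps n m, NN d v ∅ (m - ∑ i, a i) = NN d (n + v) ∅ m := by
  unfold NN HS
  simp only [Finset.prod_empty, one_mul]
  rw [nte_conv, PowerSeries.invOneSubPow_add, Units.val_mul]

theorem nte_NN_nonneg {p : ℕ} (d : Fin p → ℕ) (v m : ℕ) : 0 ≤ NN d v ∅ m := by
  have h : ∀ v : ℕ, ∀ m : ℕ, 0 ≤ NN d v ∅ m := by
    intro v
    induction v with
    | zero =>
      intro m
      unfold NN HS
      simp only [Finset.prod_empty, one_mul, PowerSeries.invOneSubPow_zero, Units.val_one,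
        PowerSeries.coeff_one]
      split_ifs <;> norm_num
    | succ v ih =>
      intro m
      rw [add_comm, ← nte_NN]
      exact Finset.sum_nonneg fun a _ => ih _
  exact h v m

/-- truncation loss -/
theorem nte_shift (f : ℕ → ℝ) (C : ℝ) (L : ℕ) (h0 : ∀ l, l ≤ L → 0 ≤ f l)
    (hC : ∀ l, l ≤ L → f l ≤ C) (w : ℕ) :
    ∑ l ∈ Finset.Icc 1 L, f (l - w) ≤ ∑ l ∈ Finset.Icc 1 L, f l + w * C := by
  have hI : ∀ g : ℕ → ℝ, ∑ l ∈ Finset.Icc 1 L, g l = ∑ l ∈ Finset.range L, g (l + 1) := by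
    intro g
    rw [Finset.range_eq_Ico, Finset.sum_Ico_add' g 0 L 1]
    rfl
  induction w with
  | zero => simp
  | succ w ih =>
    have h1 := Finset.sum_range_succ' (fun l => f (l - w)) L
    have h2 := Finset.sum_range_succ (fun l => f (l - w)) L
    have h3 : ∑ l ∈ Finset.Icc 1 L, f (l - (w + 1)) = ∑ l ∈ Finset.range L, f (l - w) := by
      rw [hI]
      apply Finset.sum_congr rfl
      intro l _
      congr 1
      omega
    have h4 : ∑ l ∈ Finset.Icc 1 L, f (l - w) = ∑ l ∈ Finset.range L, f (l + 1 - w) := hI _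
    rw [h2, ← h4] at h1
    have h5 : 0 ≤ f (L - w) := h0 _ (by omega)
    have h6 : f (0 - w) ≤ C := hC _ (by omega)
    rw [h3]
    push_cast
    linarith

/-- a double sum is at most a product -/
theorem nte_double (n M : ℕ) (q : ℝ) (hq : 0 ≤ q) (g : (Fin n → ℕ) → ℝ) (h : ℕ → ℝ)
    (hg : ∀ a, 0 ≤ g a) (hh : ∀ k, 0 ≤ h k) :
    ∑ m ∈ Finset.range (M + 1), q ^ m * ∑ a ∈ Exps n m, g a * h (m - ∑ i, a i) ≤
      (∑ a ∈ Exps n M, q ^ (∑ i, a i) * g a) * ∑ k ∈ Finset.range (M + 1), q ^ k * h k := by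
  have e1 : ∑ m ∈ Finset.range (M + 1), q ^ m * ∑ a ∈ Exps n m, g a * h (m - ∑ i, a i) =
      ∑ s ∈ (Finset.range (M + 1)).sigma (fun m => Exps n m),
        (q ^ (∑ i, s.2 i) * g s.2) * (q ^ (s.1 - ∑ i, s.2 i) * h (s.1 - ∑ i, s.2 i)) := by
    rw [Finset.sum_sigma]
    apply Finset.sum_congr rfl
    intro m _
    rw [Finset.mul_sum]
    apply Finset.sum_congr rfl
    intro a ha
    rw [nte_mem] at ha
    have e : q ^ m = q ^ (∑ i, a i) * q ^ (m - ∑ i, a i) := by
      rw [← pow_add]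
      congr 1
      omega
    rw [e]
    ring
  rw [e1, Finset.sum_mul_sum, ← Finset.sum_product']
  have hinj : Set.InjOn (fun s : (Σ _ : ℕ, (Fin n → ℕ)) => (s.2, s.1 - ∑ i, s.2 i))
      (((Finset.range (M + 1)).sigma (fun m => Exps n m) : Finset (Σ _ : ℕ, (Fin n → ℕ))) :
        Set (Σ _ : ℕ, (Fin n → ℕ))) := by
    rintro ⟨m, a⟩ h1 ⟨m', a'⟩ h2 heq
    rw [Finset.mem_coe, Finset.mem_sigma] at h1 h2
    simp only [Prod.mk.injEq] at heq
    obtain ⟨h3, h4⟩ := heq
    subst h3
    have h5 := nte_mem.mp h1.2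
    have h6 := nte_mem.mp h2.2
    simp only at h5 h6
    have : m = m' := by omega
    subst this
    rfl
  calc ∑ s ∈ (Finset.range (M + 1)).sigma (fun m => Exps n m),
        (q ^ (∑ i, s.2 i) * g s.2) * (q ^ (s.1 - ∑ i, s.2 i) * h (s.1 - ∑ i, s.2 i))
      = ∑ t ∈ ((Finset.range (M + 1)).sigma (fun m => Exps n m)).image
          (fun s : (Σ _ : ℕ, (Fin n → ℕ)) => (s.2, s.1 - ∑ i, s.2 i)),
          (q ^ (∑ i, t.1 i) * g t.1) * (q ^ t.2 * h t.2) := by
        rw [Finset.sum_image hinj]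
    _ ≤ ∑ t ∈ Exps n M ×ˢ Finset.range (M + 1),
          (q ^ (∑ i, t.1 i) * g t.1) * (q ^ t.2 * h t.2) := by
        apply Finset.sum_le_sum_of_subset_of_nonneg
        · intro t ht
          rw [Finset.mem_image] at ht
          obtain ⟨⟨m, a⟩, hs, rfl⟩ := ht
          rw [Finset.mem_sigma, Finset.mem_range, nte_mem] at hs
          replace hs : m < M + 1 ∧ ∑ i, a i ≤ m := hs
          rw [Finset.mem_product, nte_mem, Finset.mem_range]
          constructor
          · show ∑ i, a i ≤ M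
            omega
          · show m - ∑ i, a i < M + 1
            omega
        · intro t _ _
          exact mul_nonneg (mul_nonneg (pow_nonneg hq _) (hg _))
            (mul_nonneg (pow_nonneg hq _) (hh _))

/-- the box -/
noncomputable def nteBox (n M : ℕ) : Finset (Fin n → ℕ) :=
  Fintype.piFinset fun _ : Fin n => Finset.range (M + 1)

theorem nte_sub (n M : ℕ) : Exps n M ⊆ nteBox n M := Finset.filter_subset _ _

/-- geometric sum from `b` to `M` -/
noncomputable def nteG (q : ℝ) (M b : ℕ) : ℝ :=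
  ∑ c ∈ Finset.range (M + 1), if b ≤ c then q ^ c else 0

theorem nte_G_nonneg {q : ℝ} (hq : 0 ≤ q) (M b : ℕ) : 0 ≤ nteG q M b := by
  unfold nteG
  apply Finset.sum_nonneg
  intro c _
  split_ifs
  · exact pow_nonneg hq _
  · exact le_refl _

theorem nte_G_eq {q : ℝ} (hq1 : q < 1) {M b : ℕ} (hb : b ≤ M + 1) :
    nteG q M b = (q ^ b - q ^ (M + 1)) / (1 - q) := by
  unfold nteG
  rw [← Finset.sum_filter]
  have h : (Finset.range (M + 1)).filter (fun c => b ≤ c) = Finset.Ico b (M + 1) := by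
    ext c
    rw [Finset.mem_filter, Finset.mem_range, Finset.mem_Ico]
    omega
  rw [h, geom_sum_Ico (by linarith) hb]
  rw [← neg_sub (q ^ b) (q ^ (M + 1)), ← neg_sub 1 q, neg_div_neg_eq]

theorem nte_G_le {q : ℝ} (hq0 : 0 ≤ q) (hq1 : q < 1) {M b : ℕ} (hb : b ≤ M + 1) :
    nteG q M b ≤ q ^ b / (1 - q) := by
  rw [nte_G_eq hq1 hb]
  apply div_le_div_of_nonneg_right _ (by linarith)
  have := pow_nonneg hq0 (M + 1)
  linarith

/-- sum over the box with some coordinates at least `b` -/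
theorem nte_box_sum (n M b : ℕ) (q : ℝ) (S : Finset (Fin n)) :
    ∑ a ∈ nteBox n M, q ^ (∑ i, a i) * (if ∀ i ∈ S, b ≤ a i then 1 else 0) =
      nteG q M b ^ S.card * nteG q M 0 ^ (n - S.card) := by
  have h1 : ∀ a : Fin n → ℕ, q ^ (∑ i, a i) * (if ∀ i ∈ S, b ≤ a i then (1 : ℝ) else 0) =
      ∏ i, (if i ∈ S then (if b ≤ a i then q ^ (a i) else 0) else q ^ (a i)) := by
    intro a
    by_cases h : ∀ i ∈ S, b ≤ a i
    · rw [if_pos h, mul_one, ← Finset.prod_pow_eq_pow_sum]
      apply Finset.prod_congr rfl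
      intro i _
      split_ifs with h2 h3
      · rfl
      · exact absurd (h i h2) h3
      · rfl
    · rw [if_neg h, mul_zero]
      push Not at h
      obtain ⟨i, hi, hb⟩ := h
      rw [eq_comm, Finset.prod_eq_zero (Finset.mem_univ i)]
      rw [if_pos hi, if_neg (by omega)]
  have h2 := Finset.prod_univ_sum (fun _ : Fin n => Finset.range (M + 1))
    (fun (i : Fin n) (c : ℕ) => if i ∈ S then (if b ≤ c then q ^ c else 0) else q ^ c)
  unfold nteBox
  rw [Finset.sum_congr rfl (fun a _ => h1 a), ← h2]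
  have h3 : ∀ i : Fin n, ∑ c ∈ Finset.range (M + 1),
      (if i ∈ S then (if b ≤ c then q ^ c else 0) else q ^ c) =
      if i ∈ S then nteG q M b else nteG q M 0 := by
    intro i
    split_ifs
    · rfl
    · unfold nteG
      simp
  rw [Finset.prod_congr rfl (fun i _ => h3 i), Finset.prod_ite, Finset.prod_const,
    Finset.prod_const]
  congr 2
  · congr 1
    ext i
    simp
  · have h4 : (Finset.univ.filter (fun i : Fin n => i ∉ S)) = Sᶜ := by
      ext i
      simp
    rw [h4, Finset.card_compl, Fintype.card_fin]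

theorem nte_count {x M : ℕ} (h : x ≤ M) :
    (x : ℝ) = ∑ b ∈ Finset.Icc 1 M, if b ≤ x then 1 else 0 := by
  rw [← Finset.sum_filter, Finset.sum_const, nsmul_eq_mul, mul_one]
  have e : (Finset.Icc 1 M).filter (fun b => b ≤ x) = Finset.Icc 1 x := by
    ext b
    rw [Finset.mem_filter, Finset.mem_Icc, Finset.mem_Icc]
    omega
  rw [e, Nat.card_Icc]
  simp

theorem nte_mina {n : ℕ} (i0 : Fin n) (a : Fin n → ℕ) (b : ℕ) : b ≤ mina a ↔ ∀ i, b ≤ a i := by
  have : Nonempty (Fin n) := ⟨i0⟩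
  unfold mina
  exact le_ciInf_iff (OrderBot.bddBelow _)

theorem nte_mina_le {n : ℕ} (i0 : Fin n) (a : Fin n → ℕ) : mina a ≤ a i0 :=
  (nte_mina i0 a (mina a)).mp le_rfl i0

theorem nte_box_le {n M : ℕ} {a : Fin n → ℕ} (h : a ∈ nteBox n M) (i : Fin n) : a i ≤ M := by
  unfold nteBox at h
  rw [Fintype.mem_piFinset] at h
  have := h i
  rw [Finset.mem_range] at this
  omega

/-- the number of points -/
theorem nte_sum_one (n M : ℕ) {q : ℝ} (hq0 : 0 ≤ q) (hq1 : q < 1) :
    ∑ a ∈ Exps n M, q ^ (∑ i, a i) ≤ ((1 - q) ^ n)⁻¹ := by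
  have h := nte_box_sum n M 0 q ∅
  have h2 : ∑ a ∈ nteBox n M, q ^ (∑ i, a i) = nteG q M 0 ^ n := by
    rw [← Nat.sub_zero n] 
    simpa using h
  calc ∑ a ∈ Exps n M, q ^ (∑ i, a i) ≤ ∑ a ∈ nteBox n M, q ^ (∑ i, a i) :=
        Finset.sum_le_sum_of_subset_of_nonneg (nte_sub n M) fun a _ _ => pow_nonneg hq0 _
    _ = nteG q M 0 ^ n := h2
    _ ≤ (q ^ 0 / (1 - q)) ^ n :=
        pow_le_pow_left₀ (nte_G_nonneg hq0 _ _) (nte_G_le hq0 hq1 (by omega)) n
    _ = ((1 - q) ^ n)⁻¹ := by rw [pow_zero, one_div, inv_pow]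

/-- the sum of the minima -/
theorem nte_sum_min (n M : ℕ) (i0 : Fin n) {q : ℝ} (hq0 : 0 ≤ q) (hq1 : q < 1) :
    ∑ a ∈ Exps n M, q ^ (∑ i, a i) * (mina a : ℝ) ≤
      ((1 - q) ^ n)⁻¹ * (q ^ n / (1 - q ^ n)) := by
  have hn : n ≠ 0 := by
    have := i0.2
    omega
  have hqn : q ^ n < 1 := pow_lt_one₀ hq0 hq1 hn
  have h1q : 0 < 1 - q := by linarith
  calc ∑ a ∈ Exps n M, q ^ (∑ i, a i) * (mina a : ℝ)
      ≤ ∑ a ∈ nteBox n M, q ^ (∑ i, a i) * (mina a : ℝ) :=
        Finset.sum_le_sum_of_subset_of_nonneg (nte_sub n M)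
          fun a _ _ => mul_nonneg (pow_nonneg hq0 _) (Nat.cast_nonneg _)
    _ = ∑ b ∈ Finset.Icc 1 M, ∑ a ∈ nteBox n M, q ^ (∑ i, a i) *
          (if ∀ i ∈ (Finset.univ : Finset (Fin n)), b ≤ a i then 1 else 0) := by
        rw [Finset.sum_comm]
        apply Finset.sum_congr rfl
        intro a ha
        rw [nte_count (le_trans (nte_mina_le i0 a) (nte_box_le ha i0)), Finset.mul_sum]
        apply Finset.sum_congr rfl
        intro b _
        congr 1
        simp only [nte_mina i0, Finset.mem_univ, forall_true_left]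
    _ = ∑ b ∈ Finset.Icc 1 M, nteG q M b ^ n := by
        apply Finset.sum_congr rfl
        intro b _
        rw [nte_box_sum, Finset.card_univ, Fintype.card_fin, Nat.sub_self, pow_zero, mul_one]
    _ ≤ ∑ b ∈ Finset.Icc 1 M, ((1 - q) ^ n)⁻¹ * (q ^ n) ^ b := by
        apply Finset.sum_le_sum
        intro b hb
        rw [Finset.mem_Icc] at hb
        calc nteG q M b ^ n ≤ (q ^ b / (1 - q)) ^ n :=
              pow_le_pow_left₀ (nte_G_nonneg hq0 _ _) (nte_G_le hq0 hq1 (by omega)) n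
          _ = ((1 - q) ^ n)⁻¹ * (q ^ n) ^ b := by
              rw [div_pow, ← pow_mul, ← pow_mul, mul_comm b n]
              field_simp
    _ ≤ ((1 - q) ^ n)⁻¹ * (q ^ n / (1 - q ^ n)) := by
        rw [← Finset.mul_sum]
        apply mul_le_mul_of_nonneg_left _ (by positivity)
        have hs := (hasSum_geometric_of_lt_one (pow_nonneg hq0 n) hqn).mul_left (q ^ n)
        have h2 := sum_le_hasSum (Finset.range M)
          (fun k _ => mul_nonneg (pow_nonneg hq0 n) (pow_nonneg (pow_nonneg hq0 n) k)) hs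
        rw [← div_eq_mul_inv] at h2
        refine le_trans (le_of_eq ?_) h2
        rw [Finset.range_eq_Ico, show Finset.Icc 1 M = Finset.Ico (0 + 1) (M + 1) from rfl,
          ← Finset.sum_Ico_add' (fun b => (q ^ n) ^ b) 0 M 1]
        apply Finset.sum_congr rfl
        intro b _
        rw [pow_succ]
        ring

theorem nte_pow_diff {x X D : ℝ} (hx : 0 ≤ x) (hX : x ≤ X) (hD : 0 ≤ D) (k : ℕ) :
    0 ≤ (x + D) ^ k - x ^ k ∧ (x + D) ^ k - x ^ k ≤ (X + D) ^ k - X ^ k := by
  induction k with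
  | zero => simp
  | succ k ih =>
    have e1 : (x + D) ^ (k + 1) - x ^ (k + 1) = (x + D) * ((x + D) ^ k - x ^ k) + D * x ^ k := by
      ring
    have e2 : (X + D) ^ (k + 1) - X ^ (k + 1) = (X + D) * ((X + D) ^ k - X ^ k) + D * X ^ k := by
      ring
    have h1 : x ^ k ≤ X ^ k := pow_le_pow_left₀ hx hX k
    have h2 := pow_nonneg hx k
    constructor
    · rw [e1]
      exact add_nonneg (mul_nonneg (by linarith) ih.1) (mul_nonneg hD h2)
    · rw [e1, e2]
      apply add_le_add
      · exact mul_le_mul (by linarith) ih.2 ih.1 (by linarith)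
      · exact mul_le_mul_of_nonneg_left h1 hD

/-- the sum of the excesses -/
theorem nte_sum_exc (n M : ℕ) (i0 : Fin n) {q : ℝ} (hq0 : 0 ≤ q) (hq1 : q < 1) :
    ∑ a ∈ Exps n M, q ^ (∑ i, a i) * ((a i0 - mina a : ℕ) : ℝ) ≤ Kq n q := by
  have hn : 1 ≤ n := by
    have := i0.2
    omega
  have hqn : q ^ n < 1 := pow_lt_one₀ hq0 hq1 (by omega)
  have h1q : 0 < 1 - q := by linarith
  calc ∑ a ∈ Exps n M, q ^ (∑ i, a i) * ((a i0 - mina a : ℕ) : ℝ)
      ≤ ∑ a ∈ nteBox n M, q ^ (∑ i, a i) * ((a i0 - mina a : ℕ) : ℝ) :=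
        Finset.sum_le_sum_of_subset_of_nonneg (nte_sub n M)
          fun a _ _ => mul_nonneg (pow_nonneg hq0 _) (Nat.cast_nonneg _)
    _ = ∑ b ∈ Finset.Icc 1 M, (∑ a ∈ nteBox n M, q ^ (∑ i, a i) *
          (if ∀ i ∈ ({i0} : Finset (Fin n)), b ≤ a i then 1 else 0) -
          ∑ a ∈ nteBox n M, q ^ (∑ i, a i) *
          (if ∀ i ∈ (Finset.univ : Finset (Fin n)), b ≤ a i then 1 else 0)) := by
        rw [Finset.sum_sub_distrib, Finset.sum_comm, Finset.sum_comm (s := Finset.Icc 1 M),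
          ← Finset.sum_sub_distrib]
        apply Finset.sum_congr rfl
        intro a ha
        rw [← Finset.mul_sum, ← Finset.mul_sum, ← mul_sub]
        congr 1
        rw [Nat.cast_sub (nte_mina_le i0 a), nte_count (nte_box_le ha i0),
          nte_count (le_trans (nte_mina_le i0 a) (nte_box_le ha i0))]
        congr 1
        · apply Finset.sum_congr rfl
          intro b _
          simp
        · apply Finset.sum_congr rfl
          intro b _
          simp only [nte_mina i0, Finset.mem_univ, forall_true_left]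
    _ = ∑ b ∈ Finset.Icc 1 M, (nteG q M b * nteG q M 0 ^ (n - 1) - nteG q M b ^ n) := by
        apply Finset.sum_congr rfl
        intro b _
        rw [nte_box_sum, nte_box_sum, Finset.card_univ, Fintype.card_fin, Nat.sub_self, pow_zero,
          mul_one, Finset.card_singleton, pow_one]
    _ ≤ ∑ b ∈ Finset.Icc 1 M, ((1 - q) ^ n)⁻¹ * (q ^ b - (q ^ n) ^ b) := by
        apply Finset.sum_le_sum
        intro b hb
        rw [Finset.mem_Icc] at hb
        set x := nteG q M b with hx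
        set X := q ^ b / (1 - q) with hX
        set D := (1 - q ^ b) / (1 - q) with hD
        have hx0 : 0 ≤ x := nte_G_nonneg hq0 _ _
        have hxX : x ≤ X := nte_G_le hq0 hq1 (by omega)
        have hD0 : 0 ≤ D := div_nonneg (by
          have := pow_le_one₀ (n := b) hq0 hq1.le
          linarith) h1q.le
        have e0 : nteG q M 0 = x + D := by
          rw [hx, hD, nte_G_eq hq1 (by omega), nte_G_eq hq1 (by omega), ← add_div]
          congr 1
          rw [pow_zero]
          ring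
        have hk := nte_pow_diff hx0 hxX hD0 (n - 1)
        have e1 : x ^ n = x * x ^ (n - 1) := by
          rw [← pow_succ']
          congr 1
          omega
        have e2 : X ^ n = X * X ^ (n - 1) := by
          rw [← pow_succ']
          congr 1
          omega
        have e3 : X + D = (1 - q)⁻¹ := by
          rw [hX, hD, ← add_div]
          rw [div_eq_mul_inv]
          ring
        calc x * nteG q M 0 ^ (n - 1) - x ^ n = x * ((x + D) ^ (n - 1) - x ^ (n - 1)) := by
              rw [e0, e1]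
              ring
          _ ≤ X * ((X + D) ^ (n - 1) - X ^ (n - 1)) :=
              mul_le_mul hxX hk.2 hk.1 (le_trans hx0 hxX)
          _ = X * (X + D) ^ (n - 1) - X ^ n := by rw [e2]; ring
          _ = ((1 - q) ^ n)⁻¹ * (q ^ b - (q ^ n) ^ b) := by
              rw [e3, hX]
              have e4 : ((1 - q)⁻¹) ^ (n - 1) * (1 - q)⁻¹ = ((1 - q)⁻¹) ^ n := by
                rw [← pow_succ]
                congr 1
                omega
              rw [div_pow, div_eq_mul_inv, div_eq_mul_inv, ← inv_pow, mul_assoc,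
                mul_comm ((1 - q)⁻¹) (((1 - q)⁻¹) ^ (n - 1)), e4, ← pow_mul, ← pow_mul,
                mul_comm b n]
              ring
    _ ≤ Kq n q := by
        unfold Kq
        rw [← Finset.mul_sum]
        apply mul_le_mul_of_nonneg_left _ (by positivity)
        have hs1 := (hasSum_geometric_of_lt_one (pow_nonneg hq0 n) hqn).mul_left (q ^ n)
        have hs2 := (hasSum_geometric_of_lt_one hq0 hq1).mul_left q
        have hs := hs2.sub hs1
        rw [← div_eq_mul_inv, ← div_eq_mul_inv] at hs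
        have h2 := sum_le_hasSum (Finset.range M) (fun k _ => ?_) hs
        · refine le_trans (le_of_eq ?_) h2
          rw [Finset.range_eq_Ico, show Finset.Icc 1 M = Finset.Ico (0 + 1) (M + 1) from rfl,
            ← Finset.sum_Ico_add' (fun b => q ^ b - (q ^ n) ^ b) 0 M 1]
          apply Finset.sum_congr rfl
          intro b _
          rw [pow_succ, pow_succ]
          ring
        · rw [← pow_succ', ← pow_succ', sub_nonneg, ← pow_mul]
          apply pow_le_pow_of_le_one hq0 hq1.le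
          exact Nat.le_mul_of_pos_left _ (by omega)

theorem nt_sum_E_pr {p : ℕ} (d : Fin p → ℕ) (hd : ∀ i, 1 ≤ d i) (v : ℕ)
    (j : Fin p) (hv : d j < v) (M0 : ℕ) (R R' : Rec p)
    (e : Fin (d j) → ℕ) (η : ℕ) (hT : TorusOut d v j M0 R R' e η)
    (q : ℝ) (hq0 : 0 < q) (hq1 : q < 1) :
    (R.L : ℝ) * ∑ m ∈ Finset.range (M0 + 1), q ^ m * (NN d v ∅ m : ℝ)
      - (((1 - q) ^ (d j))⁻¹ * R'.Lam d (v - d j) ∅ q M0
        + Hq d (v - d j) ∅ q * (Kq (d j) q * ∑ l, (e l : ℝ)
          + ((1 - q) ^ (d j))⁻¹ * (q ^ (d j) / (1 - q ^ (d j))) * η))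
    ≤ ∑ m ∈ Finset.range (M0 + 1), q ^ m * ∑ l ∈ Finset.Icc 1 R.L, NT d v j R' e η m l := by
  have hb := bas_rec d hd (v - d j) (by omega) R' hT.of
  have hL := hT.L_eq
  set v' := v - d j with hv'
  have hvv : d j + v' = v := by omega
  set N' : ℕ → ℝ := fun k => (NN d v' ∅ k : ℝ) with hN'
  set sg : ℕ → ℝ := fun k => R'.sig d v' ∅ k with hsg
  set w : (Fin (d j) → ℕ) → ℝ := fun a => (wt e η a : ℝ) with hw
  have hN0 : ∀ k, 0 ≤ N' k := fun k => by
    have := nte_NN_nonneg d v' k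
    simp only [hN']
    exact_mod_cast this
  have hsg_eq : ∀ k, sg k = ∑ l ∈ Finset.Icc 1 R.L, (R'.fil k l : ℝ) := by
    intro k
    simp only [hsg, Rec.sig, hL]
    apply Finset.sum_congr rfl
    intro l _
    ring
  have hsg0 : ∀ k, 0 ≤ sg k := fun k => by
    rw [hsg_eq]
    exact Finset.sum_nonneg fun l _ => Nat.cast_nonneg _
  have hw0 : ∀ a, 0 ≤ w a := fun a => Nat.cast_nonneg _
  -- the inequality for a fixed `m`
  have hm : ∀ m ∈ Finset.range (M0 + 1),
      q ^ m * ((R.L : ℝ) * (NN d v ∅ m : ℝ)) -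
        q ^ m * ∑ a ∈ Exps (d j) m, 1 * sg (m - ∑ i, a i) -
        q ^ m * ∑ a ∈ Exps (d j) m, w a * N' (m - ∑ i, a i) ≤
      q ^ m * ∑ l ∈ Finset.Icc 1 R.L, NT d v j R' e η m l := by
    intro m _
    rw [← mul_sub, ← mul_sub]
    apply mul_le_mul_of_nonneg_left _ (pow_nonneg hq0.le _)
    have e1 : (NN d v ∅ m : ℝ) = ∑ a ∈ Exps (d j) m, N' (m - ∑ i, a i) := by
      rw [← hvv, ← nte_NN]
      push_cast
      rfl
    rw [e1, Finset.mul_sum, ← Finset.sum_sub_distrib, ← Finset.sum_sub_distrib]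
    unfold NT
    rw [Finset.sum_comm]
    apply Finset.sum_le_sum
    intro a _
    rw [Finset.sum_sub_distrib, Finset.sum_const, Nat.card_Icc, nsmul_eq_mul,
      Nat.add_sub_cancel, one_mul]
    have hs := nte_shift (fun l => (R'.fil (m - ∑ i, a i) l : ℝ)) (N' (m - ∑ i, a i)) R.L
      (fun l _ => Nat.cast_nonneg _)
      (fun l hl => by
        have := hb.le (m - ∑ i, a i) l (by rw [hL]; exact hl)
        simp only [hN']
        exact_mod_cast this) (wt e η a)
    rw [hsg_eq]
    simp only [hw, hN'] at hs ⊢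
    linarith
  have hsum := Finset.sum_le_sum hm
  rw [Finset.sum_sub_distrib, Finset.sum_sub_distrib] at hsum
  refine le_trans ?_ hsum
  have t1 : ∑ m ∈ Finset.range (M0 + 1), q ^ m * ((R.L : ℝ) * (NN d v ∅ m : ℝ)) =
      (R.L : ℝ) * ∑ m ∈ Finset.range (M0 + 1), q ^ m * (NN d v ∅ m : ℝ) := by
    rw [Finset.mul_sum]
    apply Finset.sum_congr rfl
    intro m _
    ring
  have t2 : ∑ m ∈ Finset.range (M0 + 1), q ^ m * ∑ a ∈ Exps (d j) m, 1 * sg (m - ∑ i, a i) ≤
      ((1 - q) ^ (d j))⁻¹ * R'.Lam d v' ∅ q M0 := by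
    refine le_trans (nte_double (d j) M0 q hq0.le (fun _ => 1) sg (fun _ => zero_le_one) hsg0) ?_
    have hL0 : 0 ≤ ∑ k ∈ Finset.range (M0 + 1), q ^ k * sg k :=
      Finset.sum_nonneg fun k _ => mul_nonneg (pow_nonneg hq0.le _) (hsg0 k)
    have h1 := nte_sum_one (d j) M0 hq0.le hq1
    simp only [mul_one]
    exact mul_le_mul_of_nonneg_right h1 hL0
  have t3 : ∑ m ∈ Finset.range (M0 + 1), q ^ m * ∑ a ∈ Exps (d j) m, w a * N' (m - ∑ i, a i) ≤
      Hq d v' ∅ q * (Kq (d j) q * ∑ l, (e l : ℝ) + ((1 - q) ^ (d j))⁻¹ * (q ^ (d j) / (1 - q ^ (d j))) * η) := by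
    refine le_trans (nte_double (d j) M0 q hq0.le w N' hw0 hN0) ?_
    have hH : ∑ k ∈ Finset.range (M0 + 1), q ^ k * N' k ≤ Hq d v' ∅ q := by
      have h1 := sum_le_hasSum (Finset.range (M0 + 1))
        (fun k _ => mul_nonneg (hN0 k) (pow_nonneg hq0.le k)) (ser_H d hd v' ∅ q hq0.le hq1)
      refine le_trans (le_of_eq ?_) h1
      apply Finset.sum_congr rfl
      intro k _
      exact mul_comm _ _
    have hW : ∑ a ∈ Exps (d j) M0, q ^ (∑ i, a i) * w a ≤
        Kq (d j) q * ∑ l, (e l : ℝ) + ((1 - q) ^ (d j))⁻¹ * (q ^ (d j) / (1 - q ^ (d j))) * η := by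
      have hn1 : 0 < d j := hd j
      have e1 : ∀ a : Fin (d j) → ℕ, q ^ (∑ i, a i) * w a =
          ∑ l, (q ^ (∑ i, a i) * ((a l - mina a : ℕ) : ℝ)) * (e l : ℝ) +
            (q ^ (∑ i, a i) * (mina a : ℝ)) * η := by
        intro a
        simp only [hw, wt]
        push_cast
        rw [mul_add, Finset.mul_sum]
        congr 1
        · apply Finset.sum_congr rfl
          intro l _
          ring
        · ring
      rw [Finset.sum_congr rfl (fun a _ => e1 a), Finset.sum_add_distrib, Finset.sum_comm,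
        ← Finset.sum_mul]
      apply add_le_add
      · rw [Finset.mul_sum]
        apply Finset.sum_le_sum
        intro l _
        rw [← Finset.sum_mul]
        exact mul_le_mul_of_nonneg_right (nte_sum_exc (d j) M0 l hq0.le hq1) (Nat.cast_nonneg _)
      · exact mul_le_mul_of_nonneg_right (nte_sum_min (d j) M0 ⟨0, hn1⟩ hq0.le hq1)
          (Nat.cast_nonneg _)
    have hW0 : 0 ≤ ∑ a ∈ Exps (d j) M0, q ^ (∑ i, a i) * w a :=
      Finset.sum_nonneg fun a _ => mul_nonneg (pow_nonneg hq0.le _) (hw0 a)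
    have hH0 : 0 ≤ ∑ k ∈ Finset.range (M0 + 1), q ^ k * N' k :=
      Finset.sum_nonneg fun k _ => mul_nonneg (pow_nonneg hq0.le _) (hN0 k)
    rw [mul_comm (Hq d v' ∅ q)]
    exact mul_le_mul hW hH hH0 (le_trans hW0 hW)
  rw [t1]
  linarith

alias nt_sum_E := nt_sum_E_pr

end Pool.Agent.KSX
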