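import Pool.Agent.Lib_helper77.KSZ.XBase
import Pool.Agent.Lib_helper77.KSZ.XASY
import Pool.Agent.Lib_helper77.KSZ.XEXQ
import Pool.Agent.Lib_helper77.KSZ.XNTB
import Pool.Agent.Lib_helper77.KSZ.XNTE

/-!
# Block TSE: the torus step for a near-equality sequence, the case `B = ∅`
-/

namespace Pool.Agent.KSX

open MvPolynomial Pool.Agent.KSS Filter Topology

/-! ## general lemmas -/

theorem tse_lim {ι : Type} (U : Ultrafilter ι) (f : ι → ℝ) (C : ℝ)
    (h : ∀ᶠ n in U, |f n| ≤ C) : ∃ x, Tendsto f U (𝓝 x) := by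
  have hc : IsCompact (Set.Icc (-C) C) := isCompact_Icc
  have hm : Set.Icc (-C) C ∈ (U.map f : Filter ℝ) := by
    rw [Ultrafilter.coe_map, Filter.mem_map]
    have : ∀ᶠ n in (U : Filter ι), f n ∈ Set.Icc (-C) C := h.mono fun n hn => abs_le.1 hn
    exact this
  obtain ⟨x, _, hx⟩ := hc.ultrafilter_le_nhds (U.map f) (le_principal_iff.2 hm)
  exact ⟨x, hx⟩

theorem tse_sq {ι : Type} {U : Filter ι} {X r : ι → ℝ} {c : ℝ} (hc : 0 < c)
    (h0 : ∀ᶠ n in U, 0 ≤ X n) (h1 : ∀ᶠ n in U, c * X n ≤ r n) (hr : Tendsto r U (𝓝 0)) :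
    Tendsto X U (𝓝 0) := by
  have h2 : Tendsto (fun n => r n / c) U (𝓝 0) := by simpa using hr.div_const c
  refine tendsto_of_tendsto_of_tendsto_of_le_of_le' tendsto_const_nhds h2 h0 ?_
  filter_upwards [h1] with n h
  rw [le_div_iff₀ hc]
  linarith

theorem tse_H {p : ℕ} (d : Fin p → ℕ) (v : ℕ) (q : ℝ) : Hq d v ∅ q = 1 / (1 - q) ^ v := by
  simp [Hq]

theorem tse_W {p : ℕ} (d : Fin p → ℕ) (v : ℕ) (q : ℝ) (hq1 : q < 1) :
    Wq d v ∅ q = v * q / (1 - q) ^ (v + 1) := by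
  unfold Wq
  rw [tse_H]
  simp only [Finset.sum_empty, sub_zero]
  have h : (1 - q) ≠ 0 := by linarith
  rw [pow_succ]
  field_simp

theorem tse_Wpos {p : ℕ} (d : Fin p → ℕ) (v : ℕ) (hv : 0 < v) (q : ℝ) (hq0 : 0 < q)
    (hq1 : q < 1) : 0 < Wq d v ∅ q := by
  rw [tse_W d v q hq1]
  have h : 0 < 1 - q := by linarith
  have h2 : (0 : ℝ) < v := by exact_mod_cast hv
  positivity

noncomputable def tse_g {p : ℕ} (d : Fin p → ℕ) (v : ℕ) (n : ℕ) (q : ℝ) : ℝ :=
  q ^ n / (1 - q ^ n) * Hq d v ∅ q / Wq d v ∅ q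

theorem tse_g_lim {p : ℕ} (d : Fin p → ℕ) (hd : ∀ i, 1 ≤ d i) (v : ℕ) (hv : 0 < v) (n : ℕ)
    (hn : 1 ≤ n) {ι : Type} (U : Filter ι) (q : ι → ℝ) (h1 : Tendsto q U (𝓝 1))
    (h2 : ∀ᶠ k in U, q k < 1) :
    Tendsto (fun k => tse_g d v n (q k)) U (𝓝 (1 / ((n : ℝ) * v))) := by
  have h := asy_G d hd v ∅ (by simpa using hv) n hn
  have h3 : Tendsto q U (𝓝[<] 1) := tendsto_nhdsWithin_iff.2 ⟨h1, h2⟩
  have h4 := h.comp h3
  rw [Finset.card_empty, Nat.cast_zero, sub_zero] at h4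
  exact h4

theorem tse_ss {p : ℕ} (d : Fin p → ℕ) (hd : ∀ i, 1 ≤ d i) (v : ℕ) (hv : 0 < v) (q : ℝ)
    (hq0 : 0 < q) (hq1 : q < 1) (M0 : ℕ) (a : Fin p → ℝ) (ha : ∀ i, 0 ≤ a i) (ρ : ℝ)
    (hρ : 0 ≤ ρ) (hdeg : ∑ i, a i * d i + ρ ≤ v) (hβ : ∀ i, a i + ρ * tse_g d v (d i) q ≤ 1)
    (R : Rec p) (hR : R.Of d v) :
    ∑ i, a i * R.g i + ρ * R.s d v ∅ q M0 ≤ R.cd v ∅ := by
  have h := ss_exp d hd v ∅ (by simpa using hv) q hq0 hq1 M0 a ha ρ hρ
    (by
      rw [Finset.compl_empty]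
      simpa [Ind] using hdeg)
    (fun i _ => hβ i) R hR (by simp)
  rw [Finset.compl_empty] at h
  exact h

theorem tse_snn {p : ℕ} (d : Fin p → ℕ) (v : ℕ) (hv : 0 < v) (q : ℝ) (hq0 : 0 < q)
    (hq1 : q < 1) (M0 : ℕ) (R : Rec p) : 0 ≤ R.s d v ∅ q M0 := by
  unfold Rec.s Rec.Lam Rec.sig
  refine div_nonneg ?_ (tse_Wpos d v hv q hq0 hq1).le
  refine Finset.sum_nonneg fun m _ => mul_nonneg (by positivity) ?_
  refine Finset.sum_nonneg fun l _ => ?_
  have : (0 : ℝ) ≤ R.fil m l := Nat.cast_nonneg _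
  linarith

/-! ## the loss -/

noncomputable def tse_loss {p : ℕ} (d : Fin p → ℕ) (v : ℕ) (j : Fin p) (M0 : ℕ) (q : ℝ)
    (R R' : Rec p) (e : Fin (d j) → ℕ) (η : ℕ) : ℝ :=
  ∑ m ∈ Finset.range (M0 + 1), q ^ m *
    ∑ l ∈ Finset.Icc 1 R.L, (((NN d v ∅ m : ℝ) - R.fil m l) - NT d v j R' e η m l)

theorem tse_loss_nn {p : ℕ} (d : Fin p → ℕ) (hd : ∀ i, 1 ≤ d i) (v : ℕ) (j : Fin p)
    (hv : d j < v) (M0 : ℕ) (R R' : Rec p) (e : Fin (d j) → ℕ) (η : ℕ)
    (hT : TorusOut d v j M0 R R' e η) (q : ℝ) (hq0 : 0 < q) :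
    0 ≤ tse_loss d v j M0 q R R' e η := by
  unfold tse_loss
  refine Finset.sum_nonneg fun m hm => mul_nonneg (by positivity) ?_
  refine Finset.sum_nonneg fun l hl => ?_
  rw [Finset.mem_range] at hm
  rw [Finset.mem_Icc] at hl
  have := nt_le d hd v j hv M0 R R' e η hT m l (by omega) hl.1 hl.2
  linarith

theorem tse_loss_le {p : ℕ} (d : Fin p → ℕ) (hd : ∀ i, 1 ≤ d i) (v : ℕ) (j : Fin p)
    (hv : d j < v) (M0 : ℕ) (R R' : Rec p) (e : Fin (d j) → ℕ) (η : ℕ)
    (hT : TorusOut d v j M0 R R' e η) (q : ℝ) (hq0 : 0 < q) (hq1 : q < 1) :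
    tse_loss d v j M0 q R R' e η / Wq d v ∅ q ≤
      ((v - d j : ℕ) : ℝ) / v * R'.s d (v - d j) ∅ q M0 +
        (1 / (v : ℝ) - tse_g d v (d j) q) * ∑ l, (e l : ℝ) + tse_g d v (d j) q * η -
        R.s d v ∅ q M0 := by
  have hv0 : 0 < v := by omega
  have hv' : 0 < v - d j := by omega
  have hW := tse_Wpos d v hv0 q hq0 hq1
  have hW' := tse_Wpos d (v - d j) hv' q hq0 hq1
  have hN := nt_sum_E d hd v j hv M0 R R' e η hT q hq0 hq1
  have hL : tse_loss d v j M0 q R R' e η =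
      (R.L : ℝ) * ∑ m ∈ Finset.range (M0 + 1), q ^ m * (NN d v ∅ m : ℝ) - R.Lam d v ∅ q M0 -
        ∑ m ∈ Finset.range (M0 + 1), q ^ m * ∑ l ∈ Finset.Icc 1 R.L, NT d v j R' e η m l := by
    unfold tse_loss Rec.Lam Rec.sig
    rw [Finset.mul_sum, ← Finset.sum_sub_distrib, ← Finset.sum_sub_distrib]
    refine Finset.sum_congr rfl fun m _ => ?_
    have e1 : ∑ l ∈ Finset.Icc 1 R.L, (((NN d v ∅ m : ℝ) - R.fil m l) - NT d v j R' e η m l) =
        (R.L : ℝ) * (NN d v ∅ m : ℝ) - ∑ l ∈ Finset.Icc 1 R.L, (R.fil m l : ℝ) -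
          ∑ l ∈ Finset.Icc 1 R.L, NT d v j R' e η m l := by
      rw [Finset.sum_sub_distrib, Finset.sum_sub_distrib, Finset.sum_const, Nat.card_Icc]
      simp
    have e2 : ∑ l ∈ Finset.Icc 1 R.L, ((R.fil m l : ℝ) - (NN d v ∅ m : ℝ) + (NN d v ∅ m : ℝ)) =
        ∑ l ∈ Finset.Icc 1 R.L, (R.fil m l : ℝ) := by
      refine Finset.sum_congr rfl fun l _ => by ring
    rw [e1, e2]
    ring
  have hs : R.Lam d v ∅ q M0 = R.s d v ∅ q M0 * Wq d v ∅ q := by
    unfold Rec.s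
    field_simp
  have hs' : R'.Lam d (v - d j) ∅ q M0 = R'.s d (v - d j) ∅ q M0 * Wq d (v - d j) ∅ q := by
    unfold Rec.s
    field_simp
  have hx : 0 < 1 - q := by linarith
  have hvp : (0 : ℝ) < v := by exact_mod_cast hv0
  have hpow : (1 - q) ^ v = (1 - q) ^ (v - d j) * (1 - q) ^ (d j) := by
    rw [← pow_add]
    congr 1
    omega
  have hG : tse_g d v (d j) q * Wq d v ∅ q = q ^ (d j) / (1 - q ^ (d j)) * Hq d v ∅ q := by
    unfold tse_g
    field_simp
  have key : ((1 - q) ^ (d j))⁻¹ * R'.Lam d (v - d j) ∅ q M0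
        + Hq d (v - d j) ∅ q * (Kq (d j) q * ∑ l, (e l : ℝ)
          + ((1 - q) ^ (d j))⁻¹ * (q ^ (d j) / (1 - q ^ (d j))) * η) =
      (((v - d j : ℕ) : ℝ) / v * R'.s d (v - d j) ∅ q M0 +
        (1 / (v : ℝ) - tse_g d v (d j) q) * ∑ l, (e l : ℝ) + tse_g d v (d j) q * η) *
        Wq d v ∅ q := by
    have a1 : ((1 - q) ^ (d j))⁻¹ * Wq d (v - d j) ∅ q =
        ((v - d j : ℕ) : ℝ) / v * Wq d v ∅ q := by
      rw [tse_W d v q hq1, tse_W d (v - d j) q hq1, pow_succ, pow_succ, hpow]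
      field_simp
    have a2 : Hq d (v - d j) ∅ q * ((1 - q) ^ (d j))⁻¹ = Hq d v ∅ q := by
      rw [tse_H, tse_H, hpow]
      field_simp
    have a3 : Hq d (v - d j) ∅ q * Kq (d j) q =
        (1 / (v : ℝ) - tse_g d v (d j) q) * Wq d v ∅ q := by
      rw [sub_mul, hG]
      unfold Kq
      rw [← mul_assoc, a2, tse_W d v q hq1, tse_H, pow_succ]
      field_simp
    calc ((1 - q) ^ (d j))⁻¹ * R'.Lam d (v - d j) ∅ q M0
        + Hq d (v - d j) ∅ q * (Kq (d j) q * ∑ l, (e l : ℝ)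
          + ((1 - q) ^ (d j))⁻¹ * (q ^ (d j) / (1 - q ^ (d j))) * η)
        = R'.s d (v - d j) ∅ q M0 * (((1 - q) ^ (d j))⁻¹ * Wq d (v - d j) ∅ q) +
          (Hq d (v - d j) ∅ q * Kq (d j) q) * ∑ l, (e l : ℝ) +
          (Hq d (v - d j) ∅ q * ((1 - q) ^ (d j))⁻¹) * (q ^ (d j) / (1 - q ^ (d j))) * η := by
          rw [hs']; ring
      _ = _ := by
          rw [a1, a2, a3]
          have : Hq d v ∅ q * (q ^ (d j) / (1 - q ^ (d j))) * η =
              (tse_g d v (d j) q * Wq d v ∅ q) * η := by rw [hG]; ring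
          rw [this]
          ring
  rw [div_le_iff₀ hW, hL, hs]
  rw [key] at hN
  linarith

/-! ## the inequality for a fixed record -/

theorem tse_key {p : ℕ} (d : Fin p → ℕ) (hd : ∀ i, 1 ≤ d i) (v : ℕ) (E : Finset (Fin p))
    (j : Fin p) (hv : d j < v) (M0 : ℕ) (R R' : Rec p) (e : Fin (d j) → ℕ)
    (η : ℕ) (hT : TorusOut d v j M0 R R' e η) (q : ℝ) (hq0 : 0 < q) (hq1 : q < 1) (t ρ : ℝ)
    (ht : 0 ≤ t) (hρ : 0 ≤ ρ)
    (hρ2 : ρ * (1 - d j * tse_g d v (d j) q) = ((v : ℝ) - d j) - t * ∑ i ∈ E.erase j, (d i : ℝ))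
    (hκ : 0 ≤ 1 / (v : ℝ) - tse_g d v (d j) q)
    (hb1 : ∀ i, t + ρ * (((v - d j : ℕ) : ℝ) / v) * tse_g d (v - d j) (d i) q ≤ 1)
    (hb2 : ∀ i, ρ * (((v - d j : ℕ) : ℝ) / v) * tse_g d (v - d j) (d i) q ≤ 1)
    (hb3 : ρ * (1 / (v : ℝ) - tse_g d v (d j) q) +
      ρ * (((v - d j : ℕ) : ℝ) / v) * tse_g d (v - d j) (d j) q ≤ 1) :
    (R.cd v ∅ - R'.cd (v - d j) ∅ - η - ((∑ l, e l - R.L : ℕ) : ℝ)) +
      t * ∑ i ∈ E.erase j, ((R'.g i : ℝ) - R.g i) +
      (1 - ρ * (1 / (v : ℝ) - tse_g d v (d j) q)) * ((∑ l, e l - R.L : ℕ) : ℝ) +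
      (1 - ρ * tse_g d v (d j) q) * ((η : ℝ) - R.g j) +
      ρ * (tse_loss d v j M0 q R R' e η / Wq d v ∅ q) ≤
    R.cd v ∅ - t * ∑ i ∈ E.erase j, (R.g i : ℝ) - (1 - ρ * tse_g d v (d j) q) * R.g j -
      ρ * R.s d v ∅ q M0 := by
  classical
  have hv0 : 0 < v := by omega
  have hv' : 0 < v - d j := by omega
  have hvp : (0 : ℝ) < v := by exact_mod_cast hv0
  have hvR : ((v - d j : ℕ) : ℝ) = (v : ℝ) - d j := Nat.cast_sub hv.le
  have hloss := tse_loss_le d hd v j hv M0 R R' e η hT q hq0 hq1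
  set γ := tse_g d v (d j) q with hγ
  set κ := 1 / (v : ℝ) - γ with hκd
  set α := ((v - d j : ℕ) : ℝ) / v with hα
  have hα0 : 0 ≤ α := by positivity
  set a : Fin p → ℝ := fun i => (if i = j then ρ * κ else 0) +
    (if i ∈ E.erase j then t else 0) with ha
  have hsum : ∀ f : Fin p → ℝ, ∑ i, a i * f i =
      ρ * κ * f j + t * ∑ i ∈ E.erase j, f i := by
    intro f
    have : ∀ i, a i * f i = (if i = j then ρ * κ * f i else 0) +
        (if i ∈ E.erase j then t * f i else 0) := by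
      intro i
      simp only [ha]
      split_ifs <;> ring
    rw [Finset.sum_congr rfl fun i _ => this i, Finset.sum_add_distrib, Finset.sum_ite_eq',
      if_pos (Finset.mem_univ _), Finset.sum_ite_mem, Finset.univ_inter, Finset.mul_sum]
  have hρκ : 0 ≤ ρ * κ := mul_nonneg hρ hκ
  have hD := tse_ss d hd (v - d j) hv' q hq0 hq1 M0 a
    (by
      intro i
      simp only [ha]
      split_ifs <;> linarith)
    (ρ * α) (mul_nonneg hρ hα0)
    (by
      rw [hsum (fun i => (d i : ℝ)), hvR]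
      have e1 : ρ * α = ρ * ((v : ℝ) - d j) / v := by rw [hα, hvR]; ring
      have e2 : ρ * κ * (d j : ℝ) + ρ * α = ρ * (1 - d j * γ) := by
        rw [e1, hκd]
        field_simp
        ring
      linarith)
    (by
      intro i
      simp only [ha]
      by_cases hij : i = j
      · subst hij
        rw [if_pos rfl, if_neg (by simp)]
        linarith [hb3]
      · rw [if_neg hij]
        split_ifs
        · linarith [hb1 i]
        · linarith [hb2 i])
    R' hT.of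
  rw [hsum (fun i => (R'.g i : ℝ))] at hD
  have hE : (∑ l, (e l : ℝ)) = (R'.g j : ℝ) + ((∑ l, e l - R.L : ℕ) : ℝ) := by
    rw [hT.gj']
    have h1 : ∑ l, e l = min R.L (∑ l, e l) + (∑ l, e l - R.L) := by omega
    have h2 : ((∑ l, e l : ℕ) : ℝ) = ((min R.L (∑ l, e l) + (∑ l, e l - R.L) : ℕ) : ℝ) := by
      exact_mod_cast h1
    rw [Nat.cast_add, Nat.cast_sum] at h2
    exact h2
  rw [hE] at hloss
  have h2 := mul_le_mul_of_nonneg_left hloss hρ
  rw [Finset.sum_sub_distrib]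
  nlinarith [h2, hD]

/-! ## the theorem -/

theorem tse_cd {p : ℕ} (d : Fin p → ℕ) (v : ℕ) (j : Fin p) (hv : d j < v) (M0 : ℕ)
    (R R' : Rec p) (e : Fin (d j) → ℕ) (η : ℕ) (hT : TorusOut d v j M0 R R' e η) :
    0 ≤ R.cd v ∅ - R'.cd (v - d j) ∅ - η - ((∑ l, e l - R.L : ℕ) : ℝ) := by
  unfold Rec.cd
  rw [Finset.card_empty, Nat.cast_zero, sub_zero, sub_zero, hT.L_eq, Nat.cast_sub hv.le]
  have h : ((R.τ + η + (∑ l, e l - R.L) : ℕ) : ℝ) ≤ ((R'.τ + d j * R.L : ℕ) : ℝ) := by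
    exact_mod_cast hT.tau_le
  rw [Nat.cast_add, Nat.cast_add, Nat.cast_add, Nat.cast_mul] at h
  nlinarith [h]

theorem tse_alg {x y μ Z Y : ℝ} (hx : 1 ≤ x) (hy : 1 ≤ y) (hμ0 : 0 < μ)
    (hμ : x * y < μ * (x + y)) (hA : x + y ≤ x * Z + y * Y) (hB : μ * Y + (x - μ) * Z ≤ x)
    (hC : Z ≤ 1) : Z = 1 ∧ Y = 1 := by
  have h1 := mul_le_mul_of_nonneg_left hA hμ0.le
  have h2 := mul_le_mul_of_nonneg_left hB (by linarith : (0 : ℝ) ≤ y)
  have h3 : (μ * (x + y) - x * y) * 1 ≤ (μ * (x + y) - x * y) * Z := by nlinarith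
  have h4 : 1 ≤ Z := le_of_mul_le_mul_left h3 (by linarith)
  have hZ : Z = 1 := le_antisymm hC h4
  subst hZ
  refine ⟨rfl, ?_⟩
  have h5 : 1 ≤ Y := by
    have : y * 1 ≤ y * Y := by linarith
    exact le_of_mul_le_mul_left this (by linarith)
  have h6 : Y ≤ 1 := by
    have : μ * Y ≤ μ * 1 := by linarith
    exact le_of_mul_le_mul_left this hμ0
  linarith

theorem tstep_E_pr {p : ℕ} (d : Fin p → ℕ) (hd : ∀ i, 2 ≤ d i) (v : ℕ) (E : Finset (Fin p))
    (j : Fin p) (hj : j ∈ E) (hv : d j < v)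
    {ι : Type} (U : Ultrafilter ι) (R : ι → Rec p) (q : ι → ℝ) (M0 : ι → ℕ)
    (h : NE d v ∅ E U R q M0) (R' : ι → Rec p) (e : ι → Fin (d j) → ℕ) (η : ι → ℕ)
    (hT : ∀ᶠ n in U, TorusOut d v j (M0 n) (R n) (R' n) (e n) (η n)) :
    NE d (v - d j) ∅ E U R' q M0 ∧
      Tendsto (fun n => sn d (v - d j) ∅ R' q M0 n / sn d v ∅ R q M0 n) U (𝓝 1) ∧
      Tendsto (fun n => (∑ l, (e n l : ℝ)) / sn d v ∅ R q M0 n) U (𝓝 (d j)) ∧
      Tendsto (fun n => (η n : ℝ) / sn d v ∅ R q M0 n) U (𝓝 (d j)) ∧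
      Tendsto (fun n => (∑ m ∈ Finset.range (M0 n + 1), q n ^ m *
          ∑ l ∈ Finset.Icc 1 (R n).L, (((NN d v ∅ m : ℝ) - (R n).fil m l)
            - NT d v j (R' n) (e n) (η n) m l))
          / (sn d v ∅ R q M0 n * Wq d v ∅ (q n))) U (𝓝 0) := by
  classical
  have hd1 : ∀ i, 1 ≤ d i := fun i => le_trans (by norm_num) (hd i)
  have hv0 : 0 < v := by omega
  have hv' : 0 < v - d j := by omega
  have hvp : (0 : ℝ) < v := by exact_mod_cast hv0
  have hvR : ((v - d j : ℕ) : ℝ) = (v : ℝ) - d j := Nat.cast_sub hv.le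
  have hv'1 : (1 : ℝ) ≤ (v : ℝ) - d j := by
    rw [← hvR]; exact_mod_cast hv'
  have hn2 : (2 : ℝ) ≤ d j := by exact_mod_cast hd j
  have hv3 : (3 : ℝ) ≤ v := by linarith
  have hdi2 : ∀ i, (2 : ℝ) ≤ d i := fun i => by exact_mod_cast hd i
  -- constants
  set Sg : ℝ := ∑ i ∈ E.erase j, (d i : ℝ) with hSg
  have hSg0 : 0 ≤ Sg := Finset.sum_nonneg fun i _ => Nat.cast_nonneg _
  set t : ℝ := 1 / (4 * (Sg + 1)) with ht
  have ht0 : 0 < t := by positivity
  have ht1 : t ≤ 1 / 4 := by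
    rw [ht]
    exact one_div_le_one_div_of_le (by norm_num) (by linarith)
  have htS : t * Sg ≤ 1 / 4 := by
    rw [ht, div_mul_eq_mul_div, div_le_div_iff₀ (by positivity) (by norm_num)]
    linarith
  have htS0 : 0 ≤ t * Sg := by positivity
  set num : ℝ := ((v : ℝ) - d j) - t * Sg with hnum
  have hnum0 : 0 < num := by linarith
  set r0 : ℝ := num / ((v : ℝ) - 1) with hr0
  have hr00 : 0 < r0 := by
    rw [hr0]; exact div_pos hnum0 (by linarith)
  have hr01 : r0 < 1 := by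
    rw [hr0, div_lt_one (by linarith)]
    linarith
  -- the function γ
  set γ : ι → ℝ := fun k => tse_g d v (d j) (q k) with hγ
  have hq1 : ∀ᶠ k in (U : Filter ι), q k < 1 := h.q01.mono fun k hk => hk.2
  have hq0 : ∀ᶠ k in (U : Filter ι), 0 < q k := h.q01.mono fun k hk => hk.1
  have hγl : Tendsto γ U (𝓝 (1 / ((d j : ℝ) * v))) :=
    tse_g_lim d hd1 v hv0 (d j) (hd1 j) U q h.qlim hq1
  have hγ'l : ∀ i, Tendsto (fun k => tse_g d (v - d j) (d i) (q k)) U
      (𝓝 (1 / ((d i : ℝ) * ((v - d j : ℕ) : ℝ)))) := fun i =>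
    tse_g_lim d hd1 (v - d j) hv' (d i) (hd1 i) U q h.qlim hq1
  set ρ : ι → ℝ := fun k => num / (1 - d j * γ k) with hρ
  have hden : (1 : ℝ) - d j * (1 / ((d j : ℝ) * v)) = ((v : ℝ) - 1) / v := by
    field_simp
  have hρl : Tendsto ρ U (𝓝 (r0 * v)) := by
    have h1 : Tendsto (fun k => (1 : ℝ) - d j * γ k) U (𝓝 (((v : ℝ) - 1) / v)) := by
      rw [← hden]
      exact tendsto_const_nhds.sub (hγl.const_mul _)
    have h2 : ((v : ℝ) - 1) / v ≠ 0 := (div_pos (by linarith) hvp).ne'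
    have h3 := (tendsto_const_nhds (x := num) (f := (U : Filter ι))).div h1 h2
    have h4 : num / (((v : ℝ) - 1) / v) = r0 * v := by
      rw [hr0]
      have : (v : ℝ) - 1 ≠ 0 := by linarith
      field_simp
    rw [h4] at h3
    exact h3
  have hργl : Tendsto (fun k => ρ k * γ k) U (𝓝 (r0 / d j)) := by
    have h1 := hρl.mul hγl
    have h2 : r0 * v * (1 / ((d j : ℝ) * v)) = r0 / d j := by field_simp
    rw [h2] at h1
    exact h1
  have hκl : Tendsto (fun k => 1 / (v : ℝ) - γ k) U (𝓝 (1 / (v : ℝ) - 1 / ((d j : ℝ) * v))) :=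
    tendsto_const_nhds.sub hγl
  have hρκl : Tendsto (fun k => ρ k * (1 / (v : ℝ) - γ k)) U (𝓝 (r0 * (1 - 1 / d j))) := by
    have h1 := hρl.mul hκl
    have h2 : r0 * v * (1 / (v : ℝ) - 1 / ((d j : ℝ) * v)) = r0 * (1 - 1 / d j) := by
      field_simp
    rw [h2] at h1
    exact h1
  have hρα : ∀ i, Tendsto (fun k => ρ k * (((v - d j : ℕ) : ℝ) / v) *
      tse_g d (v - d j) (d i) (q k)) U (𝓝 (r0 / d i)) := by
    intro i
    have h1 := (hρl.mul_const (((v - d j : ℕ) : ℝ) / v)).mul (hγ'l i)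
    have hdi : (d i : ℝ) ≠ 0 := by linarith [hdi2 i]
    have hvv : ((v - d j : ℕ) : ℝ) ≠ 0 := by rw [hvR]; linarith
    have h2 : r0 * v * (((v - d j : ℕ) : ℝ) / v) * (1 / ((d i : ℝ) * ((v - d j : ℕ) : ℝ))) =
        r0 / d i := by field_simp
    rw [h2] at h1
    exact h1
  have hr0d : ∀ i, r0 / d i ≤ 1 / 2 := by
    intro i
    rw [div_le_div_iff₀ (by linarith [hdi2 i]) (by norm_num)]
    linarith [hdi2 i]
  have hinv : 0 < 1 / (d j : ℝ) ∧ 1 / (d j : ℝ) ≤ 1 / 2 :=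
    ⟨by positivity, one_div_le_one_div_of_le (by norm_num) hn2⟩
  -- eventual inequalities
  have ev1 : ∀ᶠ k in (U : Filter ι), ρ k * γ k < 3 / 4 :=
    hργl.eventually_lt_const (by linarith [hr0d j])
  have hc3 : r0 * (1 - 1 / d j) < 1 - 1 / (2 * d j) := by
    have h1 : r0 * (1 - 1 / d j) ≤ 1 * (1 - 1 / (d j : ℝ)) :=
      mul_le_mul_of_nonneg_right hr01.le (by linarith [hinv.2])
    have h2 : 1 / (2 * (d j : ℝ)) < 1 / (d j : ℝ) := by
      refine one_div_lt_one_div_of_lt (by linarith) (by linarith)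
    linarith
  have ev2 : ∀ᶠ k in (U : Filter ι), ρ k * (1 / (v : ℝ) - γ k) < 1 - 1 / (2 * d j) :=
    hρκl.eventually_lt_const hc3
  have ev3 : ∀ᶠ k in (U : Filter ι), r0 * v / 2 < ρ k :=
    hρl.eventually_const_lt (by
      have : 0 < r0 * v := by positivity
      linarith)
  have ev4 : ∀ᶠ k in (U : Filter ι), ∀ i, t + ρ k * (((v - d j : ℕ) : ℝ) / v) *
      tse_g d (v - d j) (d i) (q k) < 1 := by
    rw [eventually_all]
    intro i
    exact ((hρα i).const_add t).eventually_lt_const (by linarith [hr0d i])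
  have ev5 : ∀ᶠ k in (U : Filter ι), ρ k * (1 / (v : ℝ) - γ k) +
      ρ k * (((v - d j : ℕ) : ℝ) / v) * tse_g d (v - d j) (d j) (q k) < 1 := by
    refine (hρκl.add (hρα j)).eventually_lt_const ?_
    have : r0 * (1 - 1 / (d j : ℝ)) + r0 / d j = r0 := by ring
    rw [this]
    exact hr01
  have ev6 : ∀ᶠ k in (U : Filter ι), 0 < 1 / (v : ℝ) - γ k := by
    refine hκl.eventually_const_lt ?_
    have h1 : 1 / ((d j : ℝ) * v) < 1 / (v : ℝ) := by
      refine one_div_lt_one_div_of_lt hvp ?_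
      nlinarith
    linarith
  have ev7 : ∀ᶠ k in (U : Filter ι), 0 < 1 - d j * γ k := by
    have h1 : Tendsto (fun k => (1 : ℝ) - d j * γ k) U (𝓝 (((v : ℝ) - 1) / v)) := by
      rw [← hden]
      exact tendsto_const_nhds.sub (hγl.const_mul _)
    exact h1.eventually_const_lt (div_pos (by linarith) hvp)
  -- notation
  set S : ι → ℝ := sn d v ∅ R q M0 with hS
  set S' : ι → ℝ := sn d (v - d j) ∅ R' q M0 with hS'
  have hSp : ∀ᶠ k in (U : Filter ι), 0 < S k := h.spos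
  set X : ι → ℝ := fun k => ((∑ l, e k l - (R k).L : ℕ) : ℝ) with hX
  set Q : ι → ℝ := fun k => tse_loss d v j (M0 k) (q k) (R k) (R' k) (e k) (η k) with hQ
  set rr : ι → ℝ := fun k => ((R k).cd v ∅ - t * ∑ i ∈ E.erase j, ((R k).g i : ℝ) -
    (1 - ρ k * γ k) * (R k).g j - ρ k * S k) / S k with hrr
  have hcdl : Tendsto (fun k => (R k).cd v ∅ / S k) U (𝓝 (v : ℝ)) := by
    have := h.cdlim
    simpa [Ind] using this
  have hgl : ∀ i ∈ E, Tendsto (fun k => ((R k).g i : ℝ) / S k) U (𝓝 (d i)) := h.glim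
  have hrrl : Tendsto rr U (𝓝 0) := by
    have h1 : Tendsto (fun k => (R k).cd v ∅ / S k - t * ∑ i ∈ E.erase j, (((R k).g i : ℝ) / S k)
        - (1 - ρ k * γ k) * (((R k).g j : ℝ) / S k) - ρ k) U
        (𝓝 ((v : ℝ) - t * ∑ i ∈ E.erase j, (d i : ℝ) - (1 - r0 / d j) * d j - r0 * v)) := by
      refine ((hcdl.sub ((tendsto_finsetSum _ fun i hi => hgl i
        (Finset.mem_of_mem_erase hi)).const_mul t)).sub
        ((tendsto_const_nhds.sub hργl).mul (hgl j hj))).sub hρl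
    have h2 : (v : ℝ) - t * ∑ i ∈ E.erase j, (d i : ℝ) - (1 - r0 / d j) * d j - r0 * v = 0 := by
      have h3 : r0 * ((v : ℝ) - 1) = num := by
        rw [hr0]
        have : (v : ℝ) - 1 ≠ 0 := by linarith
        field_simp
      have h4 : (1 - r0 / d j) * (d j : ℝ) = d j - r0 := by
        have : (d j : ℝ) ≠ 0 := by linarith
        field_simp
      rw [h4]
      rw [← hSg]
      linarith
    rw [h2] at h1
    refine h1.congr' ?_
    filter_upwards [hSp] with k hk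
    simp only [hrr]
    rw [← Finset.sum_div]
    field_simp
  -- the main inequality, divided by S
  have main : ∀ᶠ k in (U : Filter ι),
      ((R k).cd v ∅ - (R' k).cd (v - d j) ∅ - η k - X k) / S k +
      t * ∑ i ∈ E.erase j, (((R' k).g i : ℝ) - (R k).g i) / S k +
      (1 - ρ k * (1 / (v : ℝ) - γ k)) * (X k / S k) +
      (1 - ρ k * γ k) * (((η k : ℝ) - (R k).g j) / S k) +
      ρ k * (Q k / (S k * Wq d v ∅ (q k))) ≤ rr k := by
    filter_upwards [hT, hSp, hq0, hq1, ev3, ev4, ev5, ev6, ev7] with k hTk hk k0 k1 k3 k4 k5 k6 k7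
    have hρ0 : 0 ≤ ρ k := le_trans (by positivity) k3.le
    have hkey := tse_key d hd1 v E j hv (M0 k) (R k) (R' k) (e k) (η k) hTk (q k) k0 k1 t (ρ k)
      ht0.le hρ0
      (by
        have : ρ k * (1 - d j * γ k) = num := by
          simp only [hρ]
          field_simp
        exact this)
      k6.le (fun i => (k4 i).le) (fun i => by linarith [k4 i]) k5.le
    have hkey2 := div_le_div_of_nonneg_right hkey hk.le
    refine le_trans (le_of_eq ?_) hkey2
    have hW := tse_Wpos d v hv0 (q k) k0 k1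
    rw [← Finset.sum_div]
    simp only [hX, hQ, hγ]
    field_simp
  -- nonnegativity of the terms
  have n1 : ∀ᶠ k in (U : Filter ι),
      0 ≤ ((R k).cd v ∅ - (R' k).cd (v - d j) ∅ - η k - X k) / S k := by
    filter_upwards [hT, hSp] with k hTk hk
    exact div_nonneg (tse_cd d v j hv (M0 k) (R k) (R' k) (e k) (η k) hTk) hk.le
  have n2 : ∀ᶠ k in (U : Filter ι), ∀ i ∈ E.erase j,
      0 ≤ (((R' k).g i : ℝ) - (R k).g i) / S k := by
    filter_upwards [hT, hSp] with k hTk hk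
    intro i hi
    refine div_nonneg ?_ hk.le
    have : ((R k).g i : ℝ) ≤ (R' k).g i := by
      exact_mod_cast hTk.g_le i (Finset.ne_of_mem_erase hi)
    linarith
  have n3 : ∀ᶠ k in (U : Filter ι), 0 ≤ X k / S k := by
    filter_upwards [hSp] with k hk
    exact div_nonneg (Nat.cast_nonneg _) hk.le
  have n4 : ∀ᶠ k in (U : Filter ι), 0 ≤ ((η k : ℝ) - (R k).g j) / S k := by
    filter_upwards [hT, hSp] with k hTk hk
    refine div_nonneg ?_ hk.le
    have : ((R k).g j : ℝ) ≤ η k := by exact_mod_cast hTk.gj_le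
    linarith
  have n5 : ∀ᶠ k in (U : Filter ι), 0 ≤ Q k / (S k * Wq d v ∅ (q k)) := by
    filter_upwards [hT, hSp, hq0, hq1] with k hTk hk k0 k1
    refine div_nonneg (tse_loss_nn d hd1 v j hv (M0 k) (R k) (R' k) (e k) (η k) hTk (q k) k0) ?_
    exact mul_nonneg hk.le (tse_Wpos d v hv0 (q k) k0 k1).le
  have n2' : ∀ᶠ k in (U : Filter ι), 0 ≤
      t * ∑ i ∈ E.erase j, (((R' k).g i : ℝ) - (R k).g i) / S k := by
    filter_upwards [n2] with k hk
    exact mul_nonneg ht0.le (Finset.sum_nonneg hk)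
  have n3' : ∀ᶠ k in (U : Filter ι), 0 ≤ (1 - ρ k * (1 / (v : ℝ) - γ k)) * (X k / S k) := by
    filter_upwards [n3, ev2] with k hk h2
    have : 0 < 1 / (2 * (d j : ℝ)) := by positivity
    exact mul_nonneg (by linarith) hk
  have n4' : ∀ᶠ k in (U : Filter ι), 0 ≤
      (1 - ρ k * γ k) * (((η k : ℝ) - (R k).g j) / S k) := by
    filter_upwards [n4, ev1] with k hk h2
    exact mul_nonneg (by linarith) hk
  have n5' : ∀ᶠ k in (U : Filter ι), 0 ≤ ρ k * (Q k / (S k * Wq d v ∅ (q k))) := by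
    filter_upwards [n5, ev3] with k hk h2
    exact mul_nonneg (le_trans (by positivity) h2.le) hk
  -- the limits of the terms
  have l1 : Tendsto (fun k => ((R k).cd v ∅ - (R' k).cd (v - d j) ∅ - η k - X k) / S k) U
      (𝓝 0) := by
    refine tse_sq one_pos n1 ?_ hrrl
    filter_upwards [main, n2', n3', n4', n5'] with k h0 h2 h3 h4 h5
    linarith
  have l2 : ∀ i ∈ E.erase j, Tendsto (fun k => (((R' k).g i : ℝ) - (R k).g i) / S k) U
      (𝓝 0) := by
    intro i hi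
    refine tse_sq ht0 (n2.mono fun k hk => hk i hi) ?_ hrrl
    filter_upwards [main, n1, n2, n3', n4', n5'] with k h0 h1 h2 h3 h4 h5
    have h6 := Finset.single_le_sum (f := fun i => (((R' k).g i : ℝ) - (R k).g i) / S k) h2 hi
    have h7 := mul_le_mul_of_nonneg_left h6 ht0.le
    linarith
  have l3 : Tendsto (fun k => X k / S k) U (𝓝 0) := by
    have hc : (0 : ℝ) < 1 / (2 * d j) := by positivity
    refine tse_sq hc n3 ?_ hrrl
    filter_upwards [main, n1, n2', n3, n4', n5', ev2] with k h0 h1 h2 h3 h4 h5 h6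
    have h7 : 1 / (2 * (d j : ℝ)) * (X k / S k) ≤
        (1 - ρ k * (1 / (v : ℝ) - γ k)) * (X k / S k) :=
      mul_le_mul_of_nonneg_right (by linarith) h3
    linarith
  have l4 : Tendsto (fun k => ((η k : ℝ) - (R k).g j) / S k) U (𝓝 0) := by
    refine tse_sq (by norm_num : (0 : ℝ) < 1 / 4) n4 ?_ hrrl
    filter_upwards [main, n1, n2', n3', n4, n5', ev1] with k h0 h1 h2 h3 h4 h5 h6
    have h7 : 1 / 4 * (((η k : ℝ) - (R k).g j) / S k) ≤
        (1 - ρ k * γ k) * (((η k : ℝ) - (R k).g j) / S k) :=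
      mul_le_mul_of_nonneg_right (by linarith) h4
    linarith
  have l5 : Tendsto (fun k => Q k / (S k * Wq d v ∅ (q k))) U (𝓝 0) := by
    have hc : (0 : ℝ) < r0 * v / 2 := by positivity
    refine tse_sq hc n5 ?_ hrrl
    filter_upwards [main, n1, n2', n3', n4', n5, ev3] with k h0 h1 h2 h3 h4 h5 h6
    have h7 : r0 * v / 2 * (Q k / (S k * Wq d v ∅ (q k))) ≤
        ρ k * (Q k / (S k * Wq d v ∅ (q k))) :=
      mul_le_mul_of_nonneg_right h6.le h5
    linarith
  -- first consequences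
  have lη : Tendsto (fun k => (η k : ℝ) / S k) U (𝓝 (d j)) := by
    have h1 := l4.add (hgl j hj)
    rw [zero_add] at h1
    refine h1.congr fun k => ?_
    rw [← add_div]
    congr 1
    ring
  have lg' : ∀ i ∈ E.erase j, Tendsto (fun k => ((R' k).g i : ℝ) / S k) U (𝓝 (d i)) := by
    intro i hi
    have h1 := (l2 i hi).add (hgl i (Finset.mem_of_mem_erase hi))
    rw [zero_add] at h1
    refine h1.congr fun k => ?_
    rw [← add_div]
    congr 1
    ring
  have lcd' : Tendsto (fun k => (R' k).cd (v - d j) ∅ / S k) U (𝓝 ((v : ℝ) - d j)) := by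
    have h1 := ((hcdl.sub l1).sub lη).sub l3
    rw [sub_zero, sub_zero] at h1
    refine h1.congr fun k => ?_
    rw [← sub_div, ← sub_div, ← sub_div]
    congr 1
    ring
  -- boundedness
  have hγ'b : ∀ᶠ k in (U : Filter ι), ∀ i, ((v - d j : ℕ) : ℝ) *
      tse_g d (v - d j) (d i) (q k) < 1 := by
    rw [eventually_all]
    intro i
    refine ((hγ'l i).const_mul _).eventually_lt_const ?_
    have hvv : ((v - d j : ℕ) : ℝ) ≠ 0 := by rw [hvR]; linarith
    have hdi : (d i : ℝ) ≠ 0 := by linarith [hdi2 i]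
    have e1 : ((v - d j : ℕ) : ℝ) * (1 / ((d i : ℝ) * ((v - d j : ℕ) : ℝ))) = 1 / d i := by
      field_simp
    rw [e1, div_lt_one (by linarith [hdi2 i])]
    linarith [hdi2 i]
  have bZ : ∀ᶠ k in (U : Filter ι), ((v - d j : ℕ) : ℝ) * (S' k / S k) ≤
      (R' k).cd (v - d j) ∅ / S k := by
    filter_upwards [hT, hSp, hq0, hq1, hγ'b] with k hTk hk k0 k1 kb
    have h1 := tse_ss d hd1 (v - d j) hv' (q k) k0 k1 (M0 k) (fun _ => 0) (fun _ => le_rfl)
      ((v - d j : ℕ) : ℝ) (Nat.cast_nonneg _) (by simp) (fun i => by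
        rw [zero_add]; exact (kb i).le) (R' k) hTk.of
    simp only [zero_mul, Finset.sum_const_zero, zero_add] at h1
    rw [← mul_div_assoc]
    exact div_le_div_of_nonneg_right h1 hk.le
  have hv'p : (0 : ℝ) < ((v - d j : ℕ) : ℝ) := by rw [hvR]; linarith
  have bcd : ∀ᶠ k in (U : Filter ι), (R' k).cd (v - d j) ∅ / S k < ((v : ℝ) - d j) + 1 :=
    lcd'.eventually_lt_const (by linarith)
  have nZ : ∀ᶠ k in (U : Filter ι), 0 ≤ S' k / S k := by
    filter_upwards [hSp, hq0, hq1] with k hk k0 k1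
    exact div_nonneg (tse_snn d (v - d j) hv' (q k) k0 k1 (M0 k) (R' k)) hk.le
  obtain ⟨Z, hZ⟩ := tse_lim U (fun k => S' k / S k) (((v : ℝ) - d j) + 1) (by
    filter_upwards [bZ, bcd, nZ] with k h1 h2 h3
    rw [abs_of_nonneg h3]
    have h4 : 1 * (S' k / S k) ≤ ((v - d j : ℕ) : ℝ) * (S' k / S k) :=
      mul_le_mul_of_nonneg_right (by rw [hvR]; exact hv'1) h3
    linarith)
  have bY : ∀ᶠ k in (U : Filter ι), ((R' k).g j : ℝ) / S k ≤
      d j * ((R' k).cd (v - d j) ∅ / S k) := by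
    filter_upwards [hT, hSp, hq0, hq1] with k hTk hk k0 k1
    have h1 := tse_ss d hd1 (v - d j) hv' (q k) k0 k1 (M0 k)
      (fun i => if i = j then 1 / (d j : ℝ) else 0) (fun i => by
        split_ifs
        · positivity
        · exact le_rfl) 0 le_rfl (by
        simp only [ite_mul, zero_mul, Finset.sum_ite_eq', Finset.mem_univ, if_true, add_zero]
        rw [hvR]
        have : (1 : ℝ) / d j * d j = 1 := by field_simp
        rw [this]
        exact hv'1) (fun i => by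
        rw [zero_mul, add_zero]
        split_ifs
        · linarith [hinv.2]
        · norm_num) (R' k) hTk.of
    simp only [ite_mul, zero_mul, Finset.sum_ite_eq', Finset.mem_univ, if_true, add_zero] at h1
    have h2 : ((R' k).g j : ℝ) ≤ d j * (R' k).cd (v - d j) ∅ := by
      have h3 := mul_le_mul_of_nonneg_left h1 (by linarith : (0 : ℝ) ≤ d j)
      have h4 : (d j : ℝ) * (1 / d j * (R' k).g j) = (R' k).g j := by field_simp
      rw [h4] at h3
      exact h3
    rw [← mul_div_assoc]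
    exact div_le_div_of_nonneg_right h2 hk.le
  obtain ⟨Y, hY⟩ := tse_lim U (fun k => ((R' k).g j : ℝ) / S k) (d j * (((v : ℝ) - d j) + 1)) (by
    filter_upwards [bY, bcd, hSp] with k h1 h2 h3
    rw [abs_of_nonneg (div_nonneg (Nat.cast_nonneg _) h3.le)]
    refine h1.trans ?_
    exact mul_le_mul_of_nonneg_left h2.le (by linarith))
  -- inequality (A)
  have hE : ∀ᶠ k in (U : Filter ι), (∑ l, (e k l : ℝ)) / S k = ((R' k).g j : ℝ) / S k + X k / S k := by
    filter_upwards [hT] with k hTk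
    rw [← add_div]
    congr 1
    rw [hTk.gj']
    have h1 : ∑ l, e k l = min (R k).L (∑ l, e k l) + (∑ l, e k l - (R k).L) := by omega
    have h2 : ((∑ l, e k l : ℕ) : ℝ) =
        ((min (R k).L (∑ l, e k l) + (∑ l, e k l - (R k).L) : ℕ) : ℝ) := by
      exact_mod_cast h1
    rw [Nat.cast_add, Nat.cast_sum] at h2
    exact h2
  have lE : Tendsto (fun k => (∑ l, (e k l : ℝ)) / S k) U (𝓝 Y) := by
    have h1 := hY.add l3
    rw [add_zero] at h1
    exact h1.congr' (hE.mono fun k hk => hk.symm)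
  have hA0 : ∀ᶠ k in (U : Filter ι), Q k / (S k * Wq d v ∅ (q k)) ≤
      ((v - d j : ℕ) : ℝ) / v * (S' k / S k) +
        (1 / (v : ℝ) - γ k) * ((∑ l, (e k l : ℝ)) / S k) + γ k * ((η k : ℝ) / S k) - 1 := by
    filter_upwards [hT, hSp, hq0, hq1] with k hTk hk k0 k1
    have h1 := tse_loss_le d hd1 v j hv (M0 k) (R k) (R' k) (e k) (η k) hTk (q k) k0 k1
    have h2 := div_le_div_of_nonneg_right h1 hk.le
    have e1 : Q k / (S k * Wq d v ∅ (q k)) = Q k / Wq d v ∅ (q k) / S k := by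
      rw [div_div, mul_comm]
    rw [e1]
    refine h2.trans (le_of_eq ?_)
    simp only [hγ, hS, hS', sn]
    have hk' : (R k).s d v ∅ (q k) (M0 k) ≠ 0 := hk.ne'
    field_simp
  have hA : 0 ≤ ((v - d j : ℕ) : ℝ) / v * Z + (1 / (v : ℝ) - 1 / ((d j : ℝ) * v)) * Y +
      1 / ((d j : ℝ) * v) * d j - 1 := by
    have h1 : Tendsto (fun k => ((v - d j : ℕ) : ℝ) / v * (S' k / S k) +
        (1 / (v : ℝ) - γ k) * ((∑ l, (e k l : ℝ)) / S k) + γ k * ((η k : ℝ) / S k) - 1) U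
        (𝓝 (((v - d j : ℕ) : ℝ) / v * Z + (1 / (v : ℝ) - 1 / ((d j : ℝ) * v)) * Y +
      1 / ((d j : ℝ) * v) * d j - 1)) :=
      (((hZ.const_mul _).add (hκl.mul lE)).add (hγl.mul lη)).sub tendsto_const_nhds
    exact le_of_tendsto_of_tendsto l5 h1 hA0
  -- inequality (B)
  set x : ℝ := ((v - d j : ℕ) : ℝ) with hx
  set y : ℝ := (d j : ℝ) - 1 with hy
  have hx1 : 1 ≤ x := by rw [hvR]; exact hv'1
  have hy1 : 1 ≤ y := by linarith
  set μ : ℝ := min x y with hμ
  have hμ1 : 1 ≤ μ := le_min hx1 hy1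
  have hμx : μ ≤ x := min_le_left _ _
  have hμy : μ ≤ y := min_le_right _ _
  have hμxy : x * y < μ * (x + y) := by
    rcases min_choice x y with hm | hm
    · rw [hμ, hm]; nlinarith
    · rw [hμ, hm]; nlinarith
  have hbB : ∀ᶠ k in (U : Filter ι), μ / d j + (x - μ) * tse_g d (v - d j) (d j) (q k) < 1 := by
    refine (((hγ'l j).const_mul (x - μ)).const_add (μ / d j)).eventually_lt_const ?_
    have e1 : μ / d j + (x - μ) * (1 / ((d j : ℝ) * ((v - d j : ℕ) : ℝ))) =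
        (μ * (x - 1) + x) / (d j * x) := by
      have hx0 : x ≠ 0 := by linarith
      rw [← hx]
      field_simp
      ring
    rw [e1, div_lt_one (by nlinarith)]
    have e2 : μ * (x - 1) ≤ y * (x - 1) := mul_le_mul_of_nonneg_right hμy (by linarith)
    have e3 : (d j : ℝ) = y + 1 := by rw [hy]; ring
    rw [e3]
    nlinarith
  have hbB2 : ∀ᶠ k in (U : Filter ι), ∀ i, (x - μ) * tse_g d (v - d j) (d i) (q k) < 1 := by
    rw [eventually_all]
    intro i
    refine ((hγ'l i).const_mul _).eventually_lt_const ?_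
    have hx0 : x ≠ 0 := by linarith
    have hdi : (0 : ℝ) < d i := by linarith [hdi2 i]
    rw [mul_one_div, div_lt_one (by positivity)]
    nlinarith [hdi2 i]
  have bB : ∀ᶠ k in (U : Filter ι), μ / d j * (((R' k).g j : ℝ) / S k) + (x - μ) * (S' k / S k) ≤
      (R' k).cd (v - d j) ∅ / S k := by
    filter_upwards [hT, hSp, hq0, hq1, hbB, hbB2] with k hTk hk k0 k1 kb kb2
    have h1 := tse_ss d hd1 (v - d j) hv' (q k) k0 k1 (M0 k)
      (fun i => if i = j then μ / (d j : ℝ) else 0) (fun i => by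
        split_ifs
        · exact div_nonneg (by linarith) (by linarith)
        · exact le_rfl) (x - μ) (by linarith) (by
        simp only [ite_mul, zero_mul, Finset.sum_ite_eq', Finset.mem_univ, if_true]
        have : μ / (d j : ℝ) * d j = μ := by field_simp
        rw [this, ← hx]
        linarith) (fun i => by
        by_cases hij : i = j
        · subst hij
          rw [if_pos rfl]
          exact kb.le
        · rw [if_neg hij, zero_add]
          exact (kb2 i).le) (R' k) hTk.of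
    simp only [ite_mul, zero_mul, Finset.sum_ite_eq', Finset.mem_univ, if_true] at h1
    have h2 := div_le_div_of_nonneg_right h1 hk.le
    refine le_trans (le_of_eq ?_) h2
    simp only [hS', sn]
    ring
  have hB : μ / d j * Y + (x - μ) * Z ≤ x := by
    have h1 : Tendsto (fun k => μ / d j * (((R' k).g j : ℝ) / S k) + (x - μ) * (S' k / S k)) U
        (𝓝 (μ / d j * Y + (x - μ) * Z)) := (hY.const_mul _).add (hZ.const_mul _)
    have h2 := le_of_tendsto_of_tendsto h1 lcd' bB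
    rw [← hvR] at h2
    exact h2
  have hC : Z ≤ 1 := by
    have h1 : x * Z ≤ x := by
      have h2 := le_of_tendsto_of_tendsto (hZ.const_mul x) lcd' bZ
      rw [← hvR] at h2
      exact h2
    have h3 : x * Z ≤ x * 1 := by linarith
    exact le_of_mul_le_mul_left h3 (by linarith)
  have hfin : Z = 1 ∧ Y / d j = 1 := by
    have hdj : (d j : ℝ) = y + 1 := by rw [hy]; ring
    have hvx : (v : ℝ) = x + (y + 1) := by rw [hvR, hy]; ring
    refine tse_alg hx1 hy1 (by linarith) hμxy ?_ ?_ hC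
    · have e1 : x / v * Z + (1 / (v : ℝ) - 1 / ((d j : ℝ) * v)) * Y +
          1 / ((d j : ℝ) * v) * d j - 1 = (x * Z + y * (Y / d j) - (x + y)) / v := by
        rw [hy]
        rw [hdj] at *
        have : (v : ℝ) ≠ 0 := hvp.ne'
        have h8 : y + 1 ≠ 0 := by linarith
        field_simp
        rw [hvx]
        ring
      rw [e1] at hA
      have h2 : 0 ≤ x * Z + y * (Y / d j) - (x + y) := by
        by_contra hneg
        push_neg at hneg
        have := div_neg_of_neg_of_pos hneg hvp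
        linarith
      linarith
    · have e1 : μ * (Y / d j) = μ / d j * Y := by ring
      rw [e1]
      exact hB
  obtain ⟨hZ1, hY1⟩ := hfin
  have hY2 : Y = d j := by
    have : (d j : ℝ) ≠ 0 := by linarith
    field_simp at hY1
    exact hY1
  subst hZ1
  rw [hY2] at hY lE
  -- conclusion
  have hS'p : ∀ᶠ k in (U : Filter ι), 0 < S' k := by
    have h1 : ∀ᶠ k in (U : Filter ι), 0 < S' k / S k := hZ.eventually_const_lt one_pos
    filter_upwards [h1, hSp] with k h2 h3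
    have := mul_pos h2 h3
    rwa [div_mul_cancel₀ _ h3.ne'] at this
  have hconv : ∀ (f : ι → ℝ) (c : ℝ), Tendsto (fun k => f k / S k) U (𝓝 c) →
      Tendsto (fun k => f k / S' k) U (𝓝 c) := by
    intro f c hf
    have h1 := hf.div hZ one_ne_zero
    rw [div_one] at h1
    refine h1.congr' ?_
    filter_upwards [hSp, hS'p] with k h2 h3
    show f k / S k / (S' k / S k) = f k / S' k
    field_simp
  refine ⟨?_, hZ, lE, lη, l5⟩
  refine ⟨hT.mono fun k hk => hk.of, Filter.Eventually.of_forall fun k i hi => by simp at hi,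
    h.q01, h.qlim, h.M0lim, hS'p, ?_, ?_, ?_⟩
  · -- L
    have h1 : Tendsto (fun k => (1 - q k) * ((R k).L : ℝ) / S k) U atTop := h.Llim
    have h2 : Tendsto (fun k => S k / S' k) U (𝓝 1) := by
      have h3 := hZ.inv₀ one_ne_zero
      rw [inv_one] at h3
      refine h3.congr fun k => ?_
      rw [inv_div]
    have h3 := h1.atTop_mul_pos one_pos h2
    refine h3.congr' ?_
    filter_upwards [hT, hSp, hS'p] with k hTk h4 h5
    rw [hTk.L_eq]
    show (1 - q k) * ((R k).L : ℝ) / S k * (S k / S' k) = (1 - q k) * ((R k).L : ℝ) / S' k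
    field_simp
  · have h1 := hconv _ _ lcd'
    have h2 : Ind d (v - d j) ∅ = (v : ℝ) - d j := by
      unfold Ind
      rw [Finset.sum_empty, sub_zero]
      exact hvR
    rw [h2]
    exact h1
  · intro i hi
    by_cases hij : i = j
    · subst hij
      exact hconv _ _ hY
    · exact hconv _ _ (lg' i (Finset.mem_erase.2 ⟨hij, hi⟩))

alias tstep_E := tstep_E_pr

end Pool.Agent.KSX
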