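import Pool.Agent.Lib_helper77.KSZ.XBase
import Pool.Agent.Lib_helper77.KSZ.XLAP
import Pool.Agent.Lib_helper77.KSZ.XNUM
import Pool.Agent.Lib_helper77.KSZ.XRTR
import Pool.Agent.Lib_helper77.KSZ.XTSB
import Pool.Agent.Lib_helper77.KSZ.XTSE

/-!
# Strictness, block QQ: no near-equality sequence with `c0 = 0`
-/

namespace Pool.Agent.KSX

open MvPolynomial Pool.Agent.KSS Filter Topology

theorem qq_lim {ι : Type} {U : Ultrafilter ι} {u : ι → ℝ} {a b : ℝ}
    (h : ∀ᶠ n in (U : Filter ι), a ≤ u n ∧ u n ≤ b) :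
    ∃ x, Tendsto u U (𝓝 x) := by
  have h1 : ((U.map u : Ultrafilter ℝ) : Filter ℝ) ≤ 𝓟 (Set.Icc a b) := by
    rw [Ultrafilter.coe_map, le_principal_iff]
    exact h
  obtain ⟨x, -, hx⟩ := isCompact_Icc.ultrafilter_le_nhds (U.map u) h1
  exact ⟨x, by rwa [Ultrafilter.coe_map] at hx⟩

theorem qq_ne_mono {p : ℕ} {d : Fin p → ℕ} {v : ℕ} {B E E' : Finset (Fin p)} {ι : Type}
    {U : Ultrafilter ι} {R : ι → Rec p} {q : ι → ℝ} {M0 : ι → ℕ} (h : NE d v B E U R q M0)
    (hE : E' ⊆ E) : NE d v B E' U R q M0 :=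
  ⟨h.of, h.gB, h.q01, h.qlim, h.M0lim, h.spos, h.Llim, h.cdlim, fun i hi => h.glim i (hE hi)⟩

theorem qq_lt {p : ℕ} (d : Fin p → ℕ) (hd : ∀ i, 2 ≤ d i) (v : ℕ) (F : Finset (Fin p))
    (hF : 2 ≤ F.card) (j : Fin p) (hj : j ∈ F) (hv : ∑ i ∈ F, d i ≤ v) : d j < v := by
  have h1 := Finset.add_sum_erase F d hj
  have h2 : (F.erase j).card • 2 ≤ ∑ i ∈ F.erase j, d i :=
    Finset.card_nsmul_le_sum _ _ _ (fun i _ => hd i)
  rw [Finset.card_erase_of_mem hj, smul_eq_mul] at h2
  omega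

/-- (QQ) no near-equality sequence with `c0 = 0` -/
theorem q_contra_pr {p : ℕ} (d : Fin p → ℕ) (hd : ∀ i, 2 ≤ d i) (v : ℕ) (B E : Finset (Fin p))
    (hBE : Disjoint B E) (hF : 2 ≤ (B ∪ E).card) (j : Fin p)
    (hB : ∑ i ∈ B, d i < v) (hv : ∑ i ∈ B ∪ E, d i ≤ v)
    (hcase : j ∈ B ∨ (B = ∅ ∧ j ∈ E)) (hE : (E.erase j).card ≤ 1)
    (E' : Finset (Fin p)) (hE' : E' ⊆ insert j E) (hP : Pst d (v - d j) (B.erase j) E')
    {ι : Type} (U : Ultrafilter ι) (R : ι → Rec p) (q : ι → ℝ) (M0 : ι → ℕ)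
    (h : NE d v B E U R q M0) (h0 : ∀ᶠ n in U, (R n).c0 = 0) : False := by
  classical
  have hjF : j ∈ B ∪ E := by
    rcases hcase with h | h
    · exact Finset.mem_union_left _ h
    · exact Finset.mem_union_right _ h.2
  have hdv : d j < v := qq_lt d hd v _ hF j hjF hv
  have hdj := hd j
  set s : ι → ℝ := sn d v B R q M0 with hs
  have hspos : ∀ᶠ n in (U : Filter ι), 0 < s n := h.spos
  -- `L / s → ∞`
  have hLs : Tendsto (fun n => ((R n).L : ℝ) / s n) U atTop := by
    refine tendsto_atTop_mono' _ ?_ h.Llim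
    filter_upwards [h.q01, hspos] with n hq hsn
    apply div_le_div_of_nonneg_right _ hsn.le
    have : (0 : ℝ) ≤ (R n).L := Nat.cast_nonneg _
    nlinarith [hq.1]
  have hLpos : ∀ᶠ n in (U : Filter ι), 0 < (R n).L := by
    filter_upwards [hLs.eventually_gt_atTop 0, hspos] with n h1 h2
    by_contra h3
    have : (R n).L = 0 := by omega
    rw [this] at h1
    simp at h1
  have hgpos : ∀ᶠ n in (U : Filter ι), ∀ i ∈ E, 0 < (R n).g i := by
    rw [Filter.eventually_all_finset]
    intro i hi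
    have h1 := h.glim i hi
    have h2 : (0 : ℝ) < d i := by
      have := hd i
      exact_mod_cast (by omega : 0 < d i)
    filter_upwards [h1.eventually_const_lt h2] with n h3
    by_contra h4
    have : (R n).g i = 0 := by omega
    rw [this] at h3
    simp at h3
  have hex : ∀ᶠ n in (U : Filter ι), ∃ r : Rec p × (Fin (d j) → ℕ) × ℕ,
      TorusOut d v j (M0 n) (R n) r.1 r.2.1 r.2.2 ∧
      ((∀ i, d i * r.1.c0 < (R n).L) →
        ∀ l0 : Fin (d j), ∃ o, RitOut d v B E j (M0 n) (R n) r.1 r.2.1 r.2.2 l0 o) := by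
    filter_upwards [h.of, h.gB, hLpos, hgpos, h0] with n h1 h2 h3 h4 h5
    obtain ⟨R', e, η, h6, h7⟩ := rit_rec d hd v B E hBE j hjF hdv hE (M0 n) (R n) h1 h3 h5 h2 h4
    exact ⟨(R', e, η), h6, h7⟩
  obtain ⟨r, hr⟩ := hex.choice
  obtain ⟨R', hR'⟩ : ∃ R' : ι → Rec p, R' = fun n => (r n).1 := ⟨_, rfl⟩
  obtain ⟨e, he⟩ : ∃ e : ι → Fin (d j) → ℕ, e = fun n => (r n).2.1 := ⟨_, rfl⟩
  obtain ⟨η, hη⟩ : ∃ η : ι → ℕ, η = fun n => (r n).2.2 := ⟨_, rfl⟩
  have hT : ∀ᶠ n in (U : Filter ι), TorusOut d v j (M0 n) (R n) (R' n) (e n) (η n) := by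
    filter_upwards [hr] with n hn
    rw [hR', he, hη]
    exact hn.1
  have hRit : ∀ᶠ n in (U : Filter ι), (∀ i, d i * (R' n).c0 < (R n).L) →
      ∀ l0 : Fin (d j), ∃ o, RitOut d v B E j (M0 n) (R n) (R' n) (e n) (η n) l0 o := by
    filter_upwards [hr] with n hn
    rw [hR', he, hη]
    exact hn.2
  clear hr hex hR' he hη
  -- the torus step
  have key : NE d (v - d j) (B.erase j) (insert j E) U R' q M0 ∧
      Tendsto (fun n => sn d (v - d j) (B.erase j) R' q M0 n / s n) U (𝓝 1) ∧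
      Tendsto (fun n => (∑ l, (e n l : ℝ)) / s n) U (𝓝 (d j)) ∧
      (j ∈ E → Tendsto (fun n => (η n : ℝ) / s n) U (𝓝 (d j))) ∧
      Tendsto (fun n => (∑ m ∈ Finset.range (M0 n + 1), q n ^ m *
          ∑ l ∈ Finset.Icc 1 (R n).L, (((NN d v ∅ m : ℝ) - (R n).fil m l)
            - NT d v j (R' n) (e n) (η n) m l))
          / (s n * Wq d v B (q n))) U (𝓝 0) := by
    rcases hcase with hjB | ⟨hB0, hjE⟩
    · obtain ⟨k1, k2, k3, k4⟩ := tstep_B d hd v B E hBE j hjB hB U R q M0 h R' e η hT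
      exact ⟨k1, k2, k3, fun hjE => absurd hjE (Finset.disjoint_left.mp hBE hjB), k4⟩
    · subst hB0
      obtain ⟨k1, k2, k3, k4, k5⟩ := tstep_E d hd v E j hjE hdv U R q M0 h R' e η hT
      rw [Finset.erase_eq_of_notMem (Finset.notMem_empty j), Finset.insert_eq_of_mem hjE]
      exact ⟨k1, k2, k3, fun _ => k4, k5⟩
  obtain ⟨hNE', hs', hes, hηs, hloss⟩ := key
  have hs'pos := hNE'.spos
  set s' : ι → ℝ := sn d (v - d j) (B.erase j) R' q M0 with hs'def
  -- c0' / s → 1
  have hc : Tendsto (fun n => ((R' n).c0 : ℝ) / s n) U (𝓝 1) := by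
    have h1 := (hP ι U R' q M0 (qq_ne_mono hNE' hE')).mul hs'
    rw [mul_one] at h1
    refine h1.congr' ?_
    filter_upwards [hspos, hs'pos] with n a1 a2
    rw [← hs'def]
    field_simp
  have hg' : ∀ i ∈ insert j E, Tendsto (fun n => ((R' n).g i : ℝ) / s n) U (𝓝 (d i)) := by
    intro i hi
    have h1 := (hNE'.glim i hi).mul hs'
    rw [mul_one] at h1
    refine h1.congr' ?_
    filter_upwards [hspos, hs'pos] with n a1 a2
    rw [← hs'def]
    field_simp
  have hsmall : ∀ᶠ n in (U : Filter ι), ∀ i, d i * (R' n).c0 < (R n).L := by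
    rw [Filter.eventually_all]
    intro i
    have h1 : Tendsto (fun n => (d i : ℝ) * (((R' n).c0 : ℝ) / s n)) U (𝓝 (d i * 1)) :=
      hc.const_mul _
    filter_upwards [h1.eventually_lt_const (show (d i : ℝ) * 1 < d i + 1 by linarith),
      hLs.eventually_gt_atTop ((d i : ℝ) + 1), hspos] with n a1 a2 a3
    have a4 : (d i : ℝ) * (((R' n).c0 : ℝ) / s n) < (R n).L / s n := a1.trans a2
    rw [← mul_div_assoc, div_lt_div_iff_of_pos_right a3] at a4
    exact_mod_cast a4
  -- the limits of the `e l / s`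
  have hle : ∀ l : Fin (d j), ∃ x, Tendsto (fun n => (e n l : ℝ) / s n) U (𝓝 x) := by
    intro l
    refine qq_lim (a := 0) (b := d j + 1) ?_
    filter_upwards [hes.eventually_lt_const (show (d j : ℝ) < d j + 1 by linarith), hspos]
      with n a1 a2
    refine ⟨by positivity, le_trans ?_ a1.le⟩
    apply div_le_div_of_nonneg_right _ a2.le
    exact Finset.single_le_sum (f := fun l => (e n l : ℝ)) (fun i _ => Nat.cast_nonneg _)
      (Finset.mem_univ l)
  choose eh heh using hle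
  have heh0 : ∀ l, 0 ≤ eh l := by
    intro l
    refine ge_of_tendsto (heh l) ?_
    filter_upwards [hspos] with n a
    positivity
  have hehs : ∑ l, eh l = d j := by
    have h1 : Tendsto (fun n => ∑ l, (e n l : ℝ) / s n) U (𝓝 (∑ l, eh l)) :=
      tendsto_finsetSum _ (fun l _ => heh l)
    have h2 : (fun n => ∑ l, (e n l : ℝ) / s n) = fun n => (∑ l, (e n l : ℝ)) / s n := by
      funext n
      rw [Finset.sum_div]
    rw [h2] at h1
    exact tendsto_nhds_unique h1 hes
  obtain ⟨l0, hl0⟩ : ∃ l0, 1 ≤ eh l0 := by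
    by_contra hcon
    push Not at hcon
    have h1 : ∑ l, eh l < ∑ _l : Fin (d j), (1 : ℝ) := by
      apply Finset.sum_lt_sum_of_nonempty
      · exact ⟨⟨0, by omega⟩, Finset.mem_univ _⟩
      · exact fun l _ => hcon l
    rw [hehs] at h1
    simp at h1
  have hRit2 : ∀ᶠ n in (U : Filter ι), ∃ o,
      RitOut d v B E j (M0 n) (R n) (R' n) (e n) (η n) l0 o := by
    filter_upwards [hRit, hsmall] with n a1 a2
    exact a1 a2 l0
  obtain ⟨o, ho⟩ := hRit2.choice
  -- `Theta / s → 0`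
  have hηB : j ∈ B → ∀ᶠ n in (U : Filter ι), η n = (R n).L := by
    intro hjB
    filter_upwards [hT, h.gB] with n a1 a2
    have := a1.gj_le
    have := a1.eta_le
    have := a2 j hjB
    omega
  have hB' : ∀ᶠ n in (U : Filter ι), ∀ i ∈ B.erase j, (R' n).g i = (R' n).L := hNE'.gB
  have hgsum : Tendsto (fun n => ∑ i ∈ E.erase j, (((d i : ℝ) - 1) * (((R' n).c0 : ℝ) / s n) -
      ((R' n).g i : ℝ) / s n)) U (𝓝 (∑ i ∈ E.erase j, (((d i : ℝ) - 1) * 1 - d i))) := by
    refine tendsto_finsetSum _ (fun i hi => ?_)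
    exact (hc.const_mul _).sub (hg' i (Finset.mem_insert_of_mem (Finset.mem_of_mem_erase hi)))
  have hΘ : Tendsto (fun n => Theta d v (B ∪ E) j (R n) (R' n) (η n) / s n) U (𝓝 0) := by
    have hcard : ((B ∪ E).card : ℝ) = B.card + E.card := by
      rw [Finset.card_union_of_disjoint hBE]
      push_cast
      ring
    rcases hcase with hjB | ⟨hB0, hjE⟩
    · have hjE : j ∉ E := Finset.disjoint_left.mp hBE hjB
      have hFe : (B ∪ E).erase j = B.erase j ∪ E.erase j := by
        ext i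
        simp only [Finset.mem_erase, Finset.mem_union]
        tauto
      have hdis : Disjoint (B.erase j) (E.erase j) :=
        (hBE.mono (Finset.erase_subset _ _) (Finset.erase_subset _ _))
      have hBc : ((B.erase j).card : ℝ) = B.card - 1 := by
        rw [Finset.card_erase_of_mem hjB, Nat.cast_sub (Finset.card_pos.mpr ⟨j, hjB⟩)]
        simp
      have hEc : E.erase j = E := Finset.erase_eq_of_notMem hjE
      have hBs : ∑ i ∈ B, (d i : ℝ) = d j + ∑ i ∈ B.erase j, (d i : ℝ) :=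
        (Finset.add_sum_erase B (fun i => (d i : ℝ)) hjB).symm
      have hmain : Tendsto (fun n => (R n).cd v B / s n -
          ((v : ℝ) - d j + 1 - (B ∪ E).card) * (((R' n).c0 : ℝ) / s n) +
          (∑ i ∈ B.erase j, ((d i : ℝ) - 1)) * (((R' n).c0 : ℝ) / s n) +
          ∑ i ∈ E.erase j, (((d i : ℝ) - 1) * (((R' n).c0 : ℝ) / s n) -
            ((R' n).g i : ℝ) / s n)) U
          (𝓝 (Ind d v B - ((v : ℝ) - d j + 1 - (B ∪ E).card) * 1 +
            (∑ i ∈ B.erase j, ((d i : ℝ) - 1)) * 1 +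
            ∑ i ∈ E.erase j, (((d i : ℝ) - 1) * 1 - d i))) :=
        ((h.cdlim.sub (hc.const_mul _)).add (hc.const_mul _)).add hgsum
      have hz : Ind d v B - ((v : ℝ) - d j + 1 - (B ∪ E).card) * 1 +
            (∑ i ∈ B.erase j, ((d i : ℝ) - 1)) * 1 +
            ∑ i ∈ E.erase j, (((d i : ℝ) - 1) * 1 - d i) = 0 := by
        have e1 : ∑ i ∈ E.erase j, (((d i : ℝ) - 1) * 1 - d i) = -(E.card : ℝ) := by
          rw [hEc]
          have : ∀ i ∈ E, (((d i : ℝ) - 1) * 1 - d i) = -1 := fun i _ => by ring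
          rw [Finset.sum_congr rfl this]
          simp
        rw [e1, Finset.sum_sub_distrib, Finset.sum_const, nsmul_eq_mul, mul_one, hBc, hcard, Ind,
          hBs]
        ring
      rw [hz] at hmain
      refine hmain.congr' ?_
      filter_upwards [hspos, hηB hjB, hB', hT] with n a1 a2 a3 a4
      have a5 : ∑ i ∈ (B ∪ E).erase j, (((d i : ℝ) - 1) * (R' n).c0 - (R' n).g i) =
          (∑ i ∈ B.erase j, ((d i : ℝ) - 1)) * (R' n).c0 - (B.card - 1) * (R n).L +
          ∑ i ∈ E.erase j, (((d i : ℝ) - 1) * (R' n).c0 - (R' n).g i) := by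
        rw [hFe, Finset.sum_union hdis]
        congr 1
        rw [Finset.sum_sub_distrib, ← Finset.sum_mul]
        congr 1
        rw [Finset.sum_congr rfl (fun i hi => by rw [a3 i hi, a4.L_eq])]
        rw [Finset.sum_const, nsmul_eq_mul, hBc]
      have a6 : ∑ i ∈ E.erase j, (((d i : ℝ) - 1) * (((R' n).c0 : ℝ) / s n) -
            ((R' n).g i : ℝ) / s n) =
          (∑ i ∈ E.erase j, (((d i : ℝ) - 1) * (R' n).c0 - (R' n).g i)) / s n := by
        rw [Finset.sum_div]
        refine Finset.sum_congr rfl fun i _ => ?_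
        ring
      rw [a6, Theta, a5, a2, Rec.cd]
      field_simp
      ring
    · subst hB0
      have hEc : ((E.erase j).card : ℝ) = E.card - 1 := by
        rw [Finset.card_erase_of_mem hjE, Nat.cast_sub (Finset.card_pos.mpr ⟨j, hjE⟩)]
        simp
      have hmain : Tendsto (fun n => (R n).cd v ∅ / s n - (η n : ℝ) / s n -
          ((v : ℝ) - d j + 1 - (∅ ∪ E).card) * (((R' n).c0 : ℝ) / s n) +
          ∑ i ∈ E.erase j, (((d i : ℝ) - 1) * (((R' n).c0 : ℝ) / s n) -
            ((R' n).g i : ℝ) / s n)) U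
          (𝓝 (Ind d v ∅ - d j - ((v : ℝ) - d j + 1 - (∅ ∪ E).card) * 1 +
            ∑ i ∈ E.erase j, (((d i : ℝ) - 1) * 1 - d i))) :=
        ((h.cdlim.sub (hηs hjE)).sub (hc.const_mul _)).add hgsum
      have hz : Ind d v ∅ - d j - ((v : ℝ) - d j + 1 - (∅ ∪ E).card) * 1 +
            ∑ i ∈ E.erase j, (((d i : ℝ) - 1) * 1 - d i) = 0 := by
        have e1 : ∑ i ∈ E.erase j, (((d i : ℝ) - 1) * 1 - d i) = -((E.erase j).card : ℝ) := by
          have : ∀ i ∈ E.erase j, (((d i : ℝ) - 1) * 1 - d i) = -1 := fun i _ => by ring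
          rw [Finset.sum_congr rfl this]
          simp
        rw [e1, hEc, hcard, Ind]
        simp
        ring
      rw [hz] at hmain
      refine hmain.congr' ?_
      filter_upwards [hspos] with n a1
      have a6 : ∑ i ∈ E.erase j, (((d i : ℝ) - 1) * (((R' n).c0 : ℝ) / s n) -
            ((R' n).g i : ℝ) / s n) =
          (∑ i ∈ E.erase j, (((d i : ℝ) - 1) * (R' n).c0 - (R' n).g i)) / s n := by
        rw [Finset.sum_div]
        refine Finset.sum_congr rfl fun i _ => ?_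
        ring
      rw [a6, Theta, Rec.cd, Finset.empty_union]
      simp only [Finset.card_empty, Nat.cast_zero, sub_zero]
      field_simp
  -- upper limits for `o`
  have hup : ∀ t, ∃ (u : ι → ℝ) (x : ℝ), Tendsto u U (𝓝 x) ∧
      (∀ᶠ n in (U : Filter ι), (o n t : ℝ) / s n ≤ u n) ∧
      (∀ l, t = Sum.inl (Sum.inl l) → x = eh l) ∧ (∀ i, t = Sum.inl (Sum.inr i) → x = 1) ∧
      (∀ i : E, t = Sum.inr i → x = d i) := by
    rintro ((l | i) | i)
    · refine ⟨fun n => (e n l : ℝ) / s n + Theta d v (B ∪ E) j (R n) (R' n) (η n) / s n,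
        eh l + 0, (heh l).add hΘ, ?_, ?_, ?_, ?_⟩
      · filter_upwards [ho, hspos] with n a1 a2
        rw [← add_div]
        exact div_le_div_of_nonneg_right (a1.o_y l) a2.le
      · intro l' hl'
        simp only [Sum.inl.injEq] at hl'
        rw [hl', add_zero]
      · intro i hi
        simp at hi
      · intro i hi
        simp at hi
    · refine ⟨fun n => ((R' n).c0 : ℝ) / s n + Theta d v (B ∪ E) j (R n) (R' n) (η n) / s n,
        1 + 0, hc.add hΘ, ?_, ?_, ?_, ?_⟩
      · filter_upwards [ho, hspos] with n a1 a2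
        rw [← add_div]
        exact div_le_div_of_nonneg_right (a1.o_x i) a2.le
      · intro l hl
        simp at hl
      · intro i' _
        rw [add_zero]
      · intro i' hi'
        simp at hi'
    · by_cases hij : (i : Fin p) = j
      · have hjE : j ∈ E := hij ▸ i.2
        refine ⟨fun n => (η n : ℝ) / s n + Theta d v (B ∪ E) j (R n) (R' n) (η n) / s n,
          d j + 0, (hηs hjE).add hΘ, ?_, ?_, ?_, ?_⟩
        · filter_upwards [ho, hspos] with n a1 a2
          rw [← add_div]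
          exact div_le_div_of_nonneg_right (a1.o_j i hij) a2.le
        · intro l hl
          simp at hl
        · intro i' hi'
          simp at hi'
        · intro i' hi'
          simp only [Sum.inr.injEq] at hi'
          rw [← hi', hij, add_zero]
      · refine ⟨fun n => ((R' n).g i : ℝ) / s n + Theta d v (B ∪ E) j (R n) (R' n) (η n) / s n,
          d i + 0, (hg' i (Finset.mem_insert_of_mem i.2)).add hΘ, ?_, ?_, ?_, ?_⟩
        · filter_upwards [ho, hspos] with n a1 a2
          rw [← add_div]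
          exact div_le_div_of_nonneg_right (a1.o_g i hij) a2.le
        · intro l hl
          simp at hl
        · intro i' hi'
          simp at hi'
        · intro i' hi'
          simp only [Sum.inr.injEq] at hi'
          rw [hi', add_zero]
  have hlo : ∀ t, ∃ x, Tendsto (fun n => (o n t : ℝ) / s n) U (𝓝 x) := by
    intro t
    obtain ⟨u, x, hu, hle, -⟩ := hup t
    refine qq_lim (a := 0) (b := x + 1) ?_
    filter_upwards [hle, hu.eventually_lt_const (show x < x + 1 by linarith), hspos]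
      with n a1 a2 a3
    exact ⟨by positivity, a1.trans a2.le⟩
  choose oh hoh using hlo
  have hoh0 : ∀ t, 0 ≤ oh t := by
    intro t
    refine ge_of_tendsto (hoh t) ?_
    filter_upwards [hspos] with n a
    positivity
  have hoE : ∀ i : E, oh (Sum.inr i) = d i := by
    intro i
    obtain ⟨u, x, hu, hle, -, -, hx⟩ := hup (Sum.inr i)
    apply le_antisymm
    · rw [← hx i rfl]
      exact le_of_tendsto_of_tendsto (hoh _) hu hle
    · refine le_of_tendsto_of_tendsto (h.glim i i.2) (hoh _) ?_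
      filter_upwards [ho, hspos] with n a1 a2
      apply div_le_div_of_nonneg_right _ a2.le
      exact_mod_cast a1.o_ge i
  have hoy : ∀ l, oh (Sum.inl (Sum.inl l)) ≤ eh l := by
    intro l
    obtain ⟨u, x, hu, hle, hx, -, -⟩ := hup (Sum.inl (Sum.inl l))
    rw [← hx l rfl]
    exact le_of_tendsto_of_tendsto (hoh _) hu hle
  have hox : ∀ i, oh (Sum.inl (Sum.inr i)) ≤ 1 := by
    intro i
    obtain ⟨u, x, hu, hle, -, hx, -⟩ := hup (Sum.inl (Sum.inr i))
    rw [← hx i rfl]
    exact le_of_tendsto_of_tendsto (hoh _) hu hle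
  -- the sum
  have hsum : ∑ t, oh t ≤ Ind d v B := by
    have h1 : Tendsto (fun n => ∑ t, (o n t : ℝ) / s n) U (𝓝 (∑ t, oh t)) :=
      tendsto_finsetSum _ (fun t _ => hoh t)
    refine le_of_tendsto_of_tendsto h1 h.cdlim ?_
    filter_upwards [ho, hspos] with n a1 a2
    rw [← Finset.sum_div]
    apply div_le_div_of_nonneg_right _ a2.le
    have a3 := a1.sum_le
    have a4 : ((∑ t, o n t + (R n).τ + B.card * (R n).L : ℕ) : ℝ) ≤ ((v * (R n).L : ℕ) : ℝ) := by
      exact_mod_cast a3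
    push_cast at a4
    rw [Rec.cd]
    linarith
  have hsum2 : ∑ l, oh (Sum.inl (Sum.inl l)) + ∑ i, oh (Sum.inl (Sum.inr i)) ≤
      (v : ℝ) - ∑ i ∈ B ∪ E, (d i : ℝ) := by
    rw [Fintype.sum_sum_type, Fintype.sum_sum_type, Finset.sum_congr rfl (fun i _ => hoE i)] at hsum
    rw [Finset.sum_union hBE]
    have e1 : ∑ i : E, ((d i : ℕ) : ℝ) = ∑ i ∈ E, (d i : ℝ) :=
      Finset.sum_coe_sort E (fun i => (d i : ℝ))
    rw [e1, Ind] at hsum
    linarith
  obtain ⟨n, hn⟩ := ho.exists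
  have hcl := hn.card_le
  refine num_contra d hd v (B ∪ E) hF j hjF (v - d j + 1 - (B ∪ E).card) (by omega) eh heh0 hehs
    l0 hl0 (fun l => oh (Sum.inl (Sum.inl l))) (fun l => hoh0 _) hoy
    (fun i => oh (Sum.inl (Sum.inr i))) (fun i => hoh0 _) hox hsum2 ?_
  intro lam hlam
  exact lap_lim d hd v B E hBE j hB hdv hcase U R q M0 h R' e η hT hB' l0 o ho hc hes hηs hηB eh heh
    oh hoh hoE hloss lam hlam

alias q_contra := q_contra_pr

end Pool.Agent.KSX
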