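import Pool.Agent.Lib_helper77.KSZ.XBase
import Pool.Agent.Lib_helper56.KSS.J3
import Pool.Agent.Lib_helper77.KSZ.XGRD

/-!
# Block SHF: division by `t^{c0}`
-/

namespace Pool.Agent.KSX

open MvPolynomial Pool.Agent.KSS Filter Topology

theorem shf_scale {k A V : Type} [Fintype V] [Field k] [CommRing A] [Algebra k A] {m : ℕ}
    {F : MvPolynomial V k} (hF : F.IsHomogeneous m) (a : A) (y : V → A) :
    aeval (fun q => a * y q) F = a ^ m * aeval y F := by
  rw [aeval_def, aeval_def, eval₂_eq', eval₂_eq', Finset.mul_sum]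
  apply Finset.sum_congr rfl
  intro α hα
  have h1 : ∑ i, α i = m := by
    have h := hF (mem_support_iff.mp hα)
    rw [Finsupp.weight_apply, Finsupp.sum_fintype _ _ (by simp)] at h
    simpa using h
  simp only [mul_pow]
  rw [Finset.prod_mul_distrib, Finset.prod_pow_eq_pow_sum, h1]
  ring

/-- congruent arguments have congruent values -/
theorem shf_congr {k A V : Type} [Field k] [CommRing A] [Algebra k A] (a : A) (y z : V → A)
    (h : ∀ q, a ∣ y q - z q) (F : MvPolynomial V k) : a ∣ aeval y F - aeval z F := by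
  rw [← Ideal.mem_span_singleton, ← Ideal.Quotient.eq]
  have h1 : ∀ u : V → A, Ideal.Quotient.mk (Ideal.span {a}) (aeval u F) =
      aeval (fun q => Ideal.Quotient.mk (Ideal.span {a}) (u q)) F := by
    intro u
    exact MvPolynomial.comp_aeval_apply u (Ideal.Quotient.mkₐ k (Ideal.span {a})) F
  rw [h1, h1]
  have h2 : (fun q => Ideal.Quotient.mk (Ideal.span {a}) (y q)) =
      fun q => Ideal.Quotient.mk (Ideal.span {a}) (z q) := by
    funext q
    rw [Ideal.Quotient.eq, Ideal.mem_span_singleton]
    exact h q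
  rw [h2]

/-- coefficients of values lie in the algebra generated by the coefficients -/
theorem shf_mem {k κ : Type} [Field k] [Field κ] [Algebra k κ] {V : Type}
    (y : V → PowerSeries κ) (N : ℕ) (E : IntermediateField k κ)
    (hE : ∀ q, ∀ ν < N, PowerSeries.coeff ν (y q) ∈ E) (F : MvPolynomial V k) :
    ∀ ν < N, PowerSeries.coeff ν (aeval y F) ∈ E := by
  induction F using MvPolynomial.induction_on with
  | C a =>
    intro ν _
    rw [MvPolynomial.aeval_C]
    rw [PowerSeries.algebraMap_apply, PowerSeries.coeff_C]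
    split_ifs
    · exact E.algebraMap_mem a
    · exact E.zero_mem
  | add f g hf hg =>
    intro ν hν
    rw [map_add, map_add]
    exact E.add_mem (hf ν hν) (hg ν hν)
  | mul_X f q hf =>
    intro ν hν
    rw [map_mul, MvPolynomial.aeval_X, PowerSeries.coeff_mul]
    apply E.sum_mem
    intro ij hij
    rw [Finset.HasAntidiagonal.mem_antidiagonal] at hij
    exact E.mul_mem (hf _ (by omega)) (hE q _ (by omega))

/-- the coefficient of `t^μ` is affine in the coefficients of `t^μ` of the arguments -/
theorem shf_taylor {k κ : Type} [Field k] [Field κ] [Algebra k κ] {v : ℕ}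
    (y : Fin v → PowerSeries κ) (μ : ℕ) (hμ : 1 ≤ μ) (E : IntermediateField k κ)
    (hE : ∀ q, ∀ ν < μ, PowerSeries.coeff ν (y q) ∈ E) (F : MvPolynomial (Fin v) k) :
    PowerSeries.coeff μ (aeval y F) - ∑ q, aeval (fun q => PowerSeries.coeff 0 (y q)) (pderiv q F) *
      PowerSeries.coeff μ (y q) ∈ E := by
  have h0 : ∀ f : MvPolynomial (Fin v) k, PowerSeries.coeff 0 (aeval y f) =
      aeval (fun q => PowerSeries.coeff 0 (y q)) f := by
    intro f
    rw [PowerSeries.coeff_zero_eq_constantCoeff_apply]
    have h3 : (PowerSeries.constantCoeff : PowerSeries κ →+* κ) (aeval y f) =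
        aeval (fun q => PowerSeries.constantCoeff (y q)) f := by
      rw [aeval_def, aeval_def, hom_eval₂]
      congr 1
    simpa using h3
  induction F using MvPolynomial.induction_on with
  | C a =>
    rw [MvPolynomial.aeval_C]
    rw [PowerSeries.algebraMap_apply, PowerSeries.coeff_C, if_neg (by omega)]
    simp [E.zero_mem]
  | add f g hf hg =>
    have h := E.add_mem hf hg
    have e : PowerSeries.coeff μ (aeval y (f + g)) -
        ∑ q, aeval (fun q => PowerSeries.coeff 0 (y q)) (pderiv q (f + g)) *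
          PowerSeries.coeff μ (y q) =
        (PowerSeries.coeff μ (aeval y f) -
          ∑ q, aeval (fun q => PowerSeries.coeff 0 (y q)) (pderiv q f) * PowerSeries.coeff μ (y q)) +
        (PowerSeries.coeff μ (aeval y g) -
          ∑ q, aeval (fun q => PowerSeries.coeff 0 (y q)) (pderiv q g) *
            PowerSeries.coeff μ (y q)) := by
      simp only [map_add, add_mul, Finset.sum_add_distrib]
      ring
    rw [e]
    exact h
  | mul_X f s hf =>
    have hs0 : PowerSeries.coeff 0 (y s) ∈ E := hE s 0 (by omega)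
    obtain ⟨n, rfl⟩ : ∃ n, μ = n + 1 := ⟨μ - 1, by omega⟩
    have hmid : ∑ i ∈ Finset.range n, PowerSeries.coeff (i + 1) (aeval y f) *
        PowerSeries.coeff (n + 1 - (i + 1)) (y s) ∈ E := by
      apply E.sum_mem
      intro i hi
      rw [Finset.mem_range] at hi
      exact E.mul_mem (shf_mem y (n + 1) E hE f _ (by omega)) (hE s _ (by omega))
    have hmul : PowerSeries.coeff (n + 1) (aeval y (f * X s)) =
        PowerSeries.coeff (n + 1) (aeval y f) * PowerSeries.coeff 0 (y s) +
        aeval (fun q => PowerSeries.coeff 0 (y q)) f * PowerSeries.coeff (n + 1) (y s) +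
        ∑ i ∈ Finset.range n, PowerSeries.coeff (i + 1) (aeval y f) *
          PowerSeries.coeff (n + 1 - (i + 1)) (y s) := by
      rw [map_mul, MvPolynomial.aeval_X, PowerSeries.coeff_mul,
        Finset.Nat.sum_antidiagonal_eq_sum_range_succ_mk, Finset.sum_range_succ,
        Finset.sum_range_succ', ← h0 f]
      simp only [Nat.sub_self, Nat.sub_zero]
      ring
    have hder : ∑ q, aeval (fun q => PowerSeries.coeff 0 (y q)) (pderiv q (f * X s)) *
          PowerSeries.coeff (n + 1) (y q) =
        (∑ q, aeval (fun q => PowerSeries.coeff 0 (y q)) (pderiv q f) *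
          PowerSeries.coeff (n + 1) (y q)) * PowerSeries.coeff 0 (y s) +
        aeval (fun q => PowerSeries.coeff 0 (y q)) f * PowerSeries.coeff (n + 1) (y s) := by
      have : ∀ q, aeval (fun q => PowerSeries.coeff 0 (y q)) (pderiv q (f * X s)) *
          PowerSeries.coeff (n + 1) (y q) =
          aeval (fun q => PowerSeries.coeff 0 (y q)) (pderiv q f) *
            PowerSeries.coeff (n + 1) (y q) * PowerSeries.coeff 0 (y s) +
          (if q = s then aeval (fun q => PowerSeries.coeff 0 (y q)) f *
            PowerSeries.coeff (n + 1) (y q) else 0) := by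
        intro q
        rw [Derivation.leibniz, smul_eq_mul, smul_eq_mul, map_add, map_mul, map_mul,
          MvPolynomial.aeval_X, pderiv_X]
        by_cases hqs : q = s
        · subst hqs
          simp
          ring
        · rw [if_neg hqs, Pi.single_eq_of_ne (fun h => hqs h.symm)]
          simp
          ring
      simp only [this, Finset.sum_add_distrib, Finset.sum_ite_eq', Finset.mem_univ, if_true,
        Finset.sum_mul]
    rw [hmul, hder]
    have e : PowerSeries.coeff (n + 1) (aeval y f) * PowerSeries.coeff 0 (y s) +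
        aeval (fun q => PowerSeries.coeff 0 (y q)) f * PowerSeries.coeff (n + 1) (y s) +
        ∑ i ∈ Finset.range n, PowerSeries.coeff (i + 1) (aeval y f) *
          PowerSeries.coeff (n + 1 - (i + 1)) (y s) -
        ((∑ q, aeval (fun q => PowerSeries.coeff 0 (y q)) (pderiv q f) *
          PowerSeries.coeff (n + 1) (y q)) * PowerSeries.coeff 0 (y s) +
          aeval (fun q => PowerSeries.coeff 0 (y q)) f * PowerSeries.coeff (n + 1) (y s)) =
        (PowerSeries.coeff (n + 1) (aeval y f) -
          ∑ q, aeval (fun q => PowerSeries.coeff 0 (y q)) (pderiv q f) *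
            PowerSeries.coeff (n + 1) (y q)) * PowerSeries.coeff 0 (y s) +
        ∑ i ∈ Finset.range n, PowerSeries.coeff (i + 1) (aeval y f) *
          PowerSeries.coeff (n + 1 - (i + 1)) (y s) := by ring
    rw [e]
    exact E.add_mem (E.mul_mem hf hs0) hmid

/-- unique solvability over a subfield -/
theorem shf_field {k κ J : Type} [Field k] [Field κ] [Algebra k κ] [Fintype J] {ι : Type}
    [Fintype ι] (E : IntermediateField k κ) (col : J → ι → κ) (hcol : ∀ j i, col j i ∈ E)
    (hli : LinearIndependent κ col) (hcard : Fintype.card J = Fintype.card ι) (Y : J → κ)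
    (hY : ∀ i, ∑ j, col j i * Y j ∈ E) (j : J) : Y j ∈ E := by
  classical
  let col' : J → ι → E := fun j i => ⟨col j i, hcol j i⟩
  let w : ι → E := fun i => ⟨∑ j, col j i * Y j, hY i⟩
  have hli' : LinearIndependent E col' := by
    rw [Fintype.linearIndependent_iff] at hli ⊢
    intro g hg i
    have h1 : ∑ j, ((g j : E) : κ) • col j = 0 := by
      funext t
      have := congrArg (fun z : ι → E => ((z t : E) : κ)) hg
      simp only [Finset.sum_apply, Pi.smul_apply, smul_eq_mul, Pi.zero_apply] at this ⊢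
      rw [← ZeroMemClass.coe_zero E, ← this]
      push_cast
      rfl
    have := hli (fun j => ((g j : E) : κ)) h1 i
    exact_mod_cast this
  have htop : Submodule.span E (Set.range col') = ⊤ := by
    apply hli'.span_eq_top_of_card_eq_finrank'
    rw [Module.finrank_fintype_fun_eq_card, hcard]
  have hw : w ∈ Submodule.span E (Set.range col') := by rw [htop]; trivial
  rw [Submodule.mem_span_range_iff_exists_fun] at hw
  obtain ⟨c, hc⟩ := hw
  have h1 : ∑ j, (Y j - ((c j : E) : κ)) • col j = 0 := by
    funext t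
    have := congrArg (fun z : ι → E => ((z t : E) : κ)) hc
    simp only [Finset.sum_apply, Pi.smul_apply, smul_eq_mul, Pi.zero_apply, sub_mul,
      Finset.sum_sub_distrib] at this ⊢
    have h2 : ((w t : E) : κ) = ∑ j, col j t * Y j := rfl
    have h3 : ((∑ j, c j * col' j t : E) : κ) = ∑ j, ((c j : E) : κ) * col j t := by
      push_cast
      rfl
    rw [h2, h3] at this
    rw [this, sub_eq_zero]
    apply Finset.sum_congr rfl
    intro j _
    ring
  have h2 := (Fintype.linearIndependent_iff.mp hli) _ h1 j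
  rw [sub_eq_zero] at h2
  rw [h2]
  exact (c j).2

/-- one step: `r` independent equations among the coefficients of `t^μ` -/
theorem shf_step {k κ : Type} [Field k] [Field κ] [Algebra k κ] {v : ℕ}
    (y : Fin v → PowerSeries κ) (μ : ℕ) (hμ : 1 ≤ μ) {ι : Type} [Fintype ι]
    (F : ι → MvPolynomial (Fin v) k) (hF : ∀ i, PowerSeries.coeff μ (aeval y (F i)) = 0)
    (hlin : LinearIndependent κ
      (fun i => fun q => aeval (fun q => PowerSeries.coeff 0 (y q)) (pderiv q (F i)))) :
    tau k (fun s : Fin v × Fin (μ + 1) => PowerSeries.coeff (s.2 : ℕ) (y s.1)) + Fintype.card ι ≤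
      tau k (fun s : Fin v × Fin μ => PowerSeries.coeff (s.2 : ℕ) (y s.1)) + v := by
  classical
  -- the columns
  let M : Matrix ι (Fin v) κ := fun i q => aeval (fun q => PowerSeries.coeff 0 (y q)) (pderiv q (F i))
  have hrank : M.rank = Fintype.card ι := LinearIndependent.rank_matrix hlin
  obtain ⟨J, a, ha, hspan, hli⟩ := exists_linearIndependent' κ (fun q : Fin v => fun i => M i q)
  have : Finite J := Finite.of_injective a ha
  have : Fintype J := Fintype.ofFinite J
  have hcard : Fintype.card J = Fintype.card ι := by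
    rw [← hrank, Matrix.rank_eq_finrank_span_cols]
    have h1 := finrank_span_eq_card hli
    rw [hspan] at h1
    rw [← h1]
    rfl
  let Z : {q : Fin v // q ∉ Set.range a} → κ := fun q => PowerSeries.coeff μ (y q)
  let X1 : Fin v × Fin μ → κ := fun s => PowerSeries.coeff (s.2 : ℕ) (y s.1)
  let E : IntermediateField k κ := IntermediateField.adjoin k (Set.range (Sum.elim X1 Z))
  have hE1 : ∀ q, ∀ ν < μ, PowerSeries.coeff ν (y q) ∈ E := fun q ν hν =>
    IntermediateField.subset_adjoin _ _ ⟨Sum.inl (q, ⟨ν, hν⟩), rfl⟩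
  have hE2 : ∀ q, q ∉ Set.range a → PowerSeries.coeff μ (y q) ∈ E := fun q hq =>
    IntermediateField.subset_adjoin _ _ ⟨Sum.inr ⟨q, hq⟩, rfl⟩
  have hM : ∀ i q, M i q ∈ E := by
    intro i q
    have h := shf_mem y μ E hE1 (pderiv q (F i)) 0 (by omega)
    have h3 : PowerSeries.coeff 0 (aeval y (pderiv q (F i))) =
        aeval (fun q => PowerSeries.coeff 0 (y q)) (pderiv q (F i)) := by
      rw [PowerSeries.coeff_zero_eq_constantCoeff_apply]
      have h3 : (PowerSeries.constantCoeff : PowerSeries κ →+* κ) (aeval y (pderiv q (F i))) =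
          aeval (fun q => PowerSeries.constantCoeff (y q)) (pderiv q (F i)) := by
        rw [aeval_def, aeval_def, hom_eval₂]
        congr 1
      simpa using h3
    rw [h3] at h
    exact h
  have hsum : ∀ i, ∑ q, M i q * PowerSeries.coeff μ (y q) ∈ E := by
    intro i
    have h := shf_taylor y μ hμ E hE1 (F i)
    rw [hF i, zero_sub] at h
    have := E.neg_mem h
    rwa [neg_neg] at this
  have hY : ∀ j : J, PowerSeries.coeff μ (y (a j)) ∈ E := by
    refine shf_field E (fun j i => M i (a j)) (fun j i => hM i (a j)) hli hcard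
      (fun j => PowerSeries.coeff μ (y (a j))) ?_
    intro i
    have h1 := hsum i
    have h2 : ∑ q, M i q * PowerSeries.coeff μ (y q) =
        ∑ j, M i (a j) * PowerSeries.coeff μ (y (a j)) +
        ∑ q ∈ Finset.univ.filter (fun q => q ∉ Set.range a), M i q * PowerSeries.coeff μ (y q) := by
      rw [← Finset.sum_filter_add_sum_filter_not Finset.univ (fun q => q ∈ Set.range a)]
      congr 1
      have h3 : Finset.univ.filter (fun q => q ∈ Set.range a) = Finset.univ.image a := by
        ext q
        simp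
      rw [h3, Finset.sum_image (fun _ _ _ _ h => ha h)]
    rw [h2] at h1
    have h4 : ∑ q ∈ Finset.univ.filter (fun q => q ∉ Set.range a),
        M i q * PowerSeries.coeff μ (y q) ∈ E := by
      apply E.sum_mem
      intro q hq
      exact E.mul_mem (hM i q) (hE2 q (Finset.mem_filter.mp hq).2)
    have h5 := E.sub_mem h1 h4
    rwa [add_sub_cancel_right] at h5
  have hall : ∀ s : Fin v × Fin (μ + 1), PowerSeries.coeff (s.2 : ℕ) (y s.1) ∈ E := by
    rintro ⟨q, ν⟩
    rcases Nat.lt_succ_iff_lt_or_eq.mp ν.2 with h | h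
    · exact hE1 q ν h
    · simp only [h]
      by_cases hq : q ∈ Set.range a
      · obtain ⟨j, rfl⟩ := hq
        exact hY j
      · exact hE2 q hq
  have h1 : tau k (fun s : Fin v × Fin (μ + 1) => PowerSeries.coeff (s.2 : ℕ) (y s.1)) ≤
      tau k (Sum.elim X1 Z) := by
    rw [Pool.Agent.Lib_helper56.KSS.tau_eq, Pool.Agent.Lib_helper56.KSS.tau_eq]
    apply Pool.Agent.Lib_helper56.KSS.tau_le_of_closure
    intro s
    exact Pool.Agent.Lib_helper56.KSS.mem_closure_of_field (hall s)
  have h2 : tau k (Sum.elim X1 Z) ≤ tau k X1 + tau k Z := by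
    rw [Pool.Agent.Lib_helper56.KSS.tau_eq, Pool.Agent.Lib_helper56.KSS.tau_eq,
      Pool.Agent.Lib_helper56.KSS.tau_eq]
    exact Pool.Agent.Lib_helper56.KSS.tau_sum_le X1 Z
  have h3 : tau k Z ≤ Fintype.card {q : Fin v // q ∉ Set.range a} := by
    rw [Pool.Agent.Lib_helper56.KSS.tau_eq, ← Nat.card_eq_fintype_card]
    exact Pool.Agent.Lib_helper56.KSS.tau_le_card Z
  have h4 : Fintype.card {q : Fin v // q ∉ Set.range a} + Fintype.card ι = v := by
    have h5 : Fintype.card {q : Fin v // q ∈ Set.range a} = Fintype.card J := by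
      have := Set.card_range_of_injective ha
      rw [← this]
    rw [← hcard, ← h5, Fintype.card_subtype_compl, Fintype.card_fin]
    have h6 : Fintype.card {q : Fin v // q ∈ Set.range a} ≤ Fintype.card (Fin v) :=
      Fintype.card_subtype_le _
    rw [Fintype.card_fin] at h6
    omega
  have h7 : tau k X1 = tau k (fun s : Fin v × Fin μ => PowerSeries.coeff (s.2 : ℕ) (y s.1)) := rfl
  omega

/-- the coefficients below `N` against those below `N0` -/
theorem shf_sum {k κ : Type} [Field k] [Field κ] [Algebra k κ] {p v : ℕ}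
    (G : Fin p → MvPolynomial (Fin v) k) (y : Fin v → PowerSeries κ) (B : Finset (Fin p))
    (b : Fin p → ℕ) (N0 : ℕ) (hN0 : 1 ≤ N0)
    (hG : ∀ i ∈ B, ∀ ν < b i, PowerSeries.coeff ν (aeval y (G i)) = 0)
    (hlin : ∀ C ⊆ B, LinearIndependent κ
      (fun i : C => fun q => aeval (fun q => PowerSeries.coeff 0 (y q)) (pderiv q (G i))))
    (N : ℕ) (hN : N0 ≤ N) :
    tau k (fun s : Fin v × Fin N => PowerSeries.coeff (s.2 : ℕ) (y s.1)) +
      ∑ i ∈ B, (min N (b i) - N0) ≤
      tau k (fun s : Fin v × Fin N0 => PowerSeries.coeff (s.2 : ℕ) (y s.1)) + v * (N - N0) := by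
  classical
  induction N, hN using Nat.le_induction with
  | base =>
    have : ∑ i ∈ B, (min N0 (b i) - N0) = 0 := by
      apply Finset.sum_eq_zero
      intro i _
      have := min_le_left N0 (b i)
      omega
    rw [this]
    simp
  | succ N hN ih =>
    have h1 := shf_step y N (by omega) (fun i : (B.filter fun i => N < b i) => G i)
      (fun i => hG i (Finset.mem_filter.mp i.2).1 N (Finset.mem_filter.mp i.2).2)
      (hlin _ (Finset.filter_subset _ _))
    rw [Fintype.card_coe] at h1
    have h2 : ∑ i ∈ B, (min (N + 1) (b i) - N0) =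
        ∑ i ∈ B, (min N (b i) - N0) + (B.filter fun i => N < b i).card := by
      rw [Finset.card_filter, ← Finset.sum_add_distrib]
      apply Finset.sum_congr rfl
      intro i _
      split_ifs with h
      · rw [min_eq_left (by omega), min_eq_left (by omega)]
        omega
      · rw [min_eq_right (by omega), min_eq_right (by omega)]
        omega
    have h3 : v * (N + 1 - N0) = v * (N - N0) + v := by
      rw [show N + 1 - N0 = N - N0 + 1 by omega]
      ring
    rw [h2, h3]
    omega

/-- (SHF) division by `t^{c0}` -/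
theorem shift_rec_pr {p : ℕ} (d : Fin p → ℕ) (hd : ∀ i, 2 ≤ d i) (v : ℕ) (B : Finset (Fin p))
    (dm : ℕ) (hdm : ∀ i, d i ≤ dm) (R : Rec p) (hR : R.Of d v) (hB : ∀ i ∈ B, R.g i = R.L)
    (hL : dm * R.c0 < R.L) (hdm1 : 1 ≤ dm) :
    ∃ R' : Rec p, R'.Of d v ∧ R'.c0 = 0 ∧ R'.L = R.L - dm * R.c0 ∧ (∀ i ∈ B, R'.g i = R'.L) ∧
      (∀ i, R.g i < R.L → d i * R.c0 ≤ R.g i ∧ R'.g i = min R'.L (R.g i - d i * R.c0)) ∧
      (∀ m l, l ≤ R.L → R.fil m l ≤ R'.fil m (min (l - R.c0 * m) R'.L)) ∧
      R'.cd v B + Ind d v B * R.c0 ≤ R.cd v B := by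
  classical
  rcases Nat.eq_zero_or_pos R.c0 with hc | hc
  · refine ⟨R, hR, hc, by rw [hc]; simp, hB, ?_, ?_, ?_⟩
    · intro i hi
      rw [hc]
      simp [hi.le]
    · intro m l hl
      rw [hc, Nat.zero_mul, Nat.sub_zero, min_eq_left hl]
    · rw [hc]
      simp
  obtain ⟨L, τ, fil, g, c⟩ := R
  simp only at hL hc hB ⊢
  obtain ⟨k, _, _, G, κ, _, _, x, hG, hτ, hfil, hgg, hc0⟩ := hR
  simp only at x hτ hfil hgg hc0
  have hd1 : ∀ i, 1 ≤ d i := fun i => (by omega : 1 ≤ 2).trans (hd i)
  -- `v > 0`
  have hne : Nonempty (Fin v) := by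
    by_contra h
    rw [not_nonempty_iff] at h
    have : c0J x = 0 := by
      unfold c0J
      rw [iInf, Set.range_eq_empty]
      exact Nat.sInf_empty
    omega
  have hcL : dm * c < L := hL
  have hcdm : c ≤ dm * c := Nat.le_mul_of_pos_left c hdm1
  have hle : ∀ q, c ≤ ordL L (arc (x q)) := fun q => by
    rw [← hc0]
    exact ciInf_le (OrderBot.bddBelow _) q
  have hdvd : ∀ q, (PowerSeries.X : PowerSeries κ) ^ c ∣ arc (x q) := fun q =>
    (pow_dvd_pow _ (hle q)).trans (Pool.Agent.Lib_helper56.KSS.ordL_dvd L _)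
  choose y hy using hdvd
  have hcoef : ∀ q ν, PowerSeries.coeff ν (y q) = PowerSeries.coeff (ν + c) (arc (x q)) := by
    intro q ν
    rw [hy q, PowerSeries.coeff_X_pow_mul]
  have hlead : (fun q => PowerSeries.coeff 0 (y q)) = lead x c := by
    funext q
    rw [hcoef, Nat.zero_add]
    rfl
  obtain ⟨L', hL'⟩ : ∃ L', L' = L - dm * c := ⟨_, rfl⟩
  have hL'pos : 0 < L' := by omega
  let x' : Fin v → Fin L' → κ := fun q μ => PowerSeries.coeff (μ : ℕ) (y q)
  -- values
  have hev : ∀ {m : ℕ} {F : MvPolynomial (Fin v) k}, F.IsHomogeneous m →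
      ev x F = (PowerSeries.X : PowerSeries κ) ^ (m * c) * aeval y F := by
    intro m F hF
    unfold ev
    have : (fun i => arc (x i)) = fun q => (PowerSeries.X : PowerSeries κ) ^ c * y q :=
      funext hy
    rw [this, shf_scale hF, ← pow_mul, Nat.mul_comm c m]
  have hev' : ∀ F : MvPolynomial (Fin v) k, (PowerSeries.X : PowerSeries κ) ^ L' ∣
      aeval y F - ev x' F := by
    intro F
    apply shf_congr
    intro q
    rw [PowerSeries.X_pow_dvd_iff]
    intro ν hν
    rw [map_sub, sub_eq_zero]
    simp [arc, x', hν]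
  have hiff : ∀ {m : ℕ} {F : MvPolynomial (Fin v) k}, F.IsHomogeneous m → ∀ l ≤ L',
      ((PowerSeries.X : PowerSeries κ) ^ l ∣ ev x' F ↔
        (PowerSeries.X : PowerSeries κ) ^ (l + m * c) ∣ ev x F) := by
    intro m F hF l hl
    have h1 : (PowerSeries.X : PowerSeries κ) ^ l ∣ aeval y F - ev x' F :=
      (pow_dvd_pow _ hl).trans (hev' F)
    have h2 : (PowerSeries.X : PowerSeries κ) ^ l ∣ ev x' F ↔
        (PowerSeries.X : PowerSeries κ) ^ l ∣ aeval y F := (dvd_iff_dvd_of_dvd_sub h1).symm
    rw [h2, hev hF, Nat.add_comm, pow_add]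
    exact (mul_dvd_mul_iff_left (pow_ne_zero _ PowerSeries.X_ne_zero)).symm
  have hdc : ∀ i, d i * c ≤ dm * c := fun i => Nat.mul_le_mul_right c (hdm i)
  have hgle : ∀ i, d i * c ≤ g i := by
    intro i
    rw [← hgg i]
    have h1 := (Pool.Agent.Lib_helper56.KSS.dvd_iff_le_ordL (L := L) (l := d i * c)
      (by have := hdc i; omega) (ev x (G i))).mp (by rw [hev (hG.1 i)]; exact dvd_mul_right _ _)
    exact h1
  have hg' : ∀ i, ordL L' (ev x' (G i)) = min L' (g i - d i * c) := by
    intro i
    have key : ∀ l ≤ L', (l ≤ ordL L' (ev x' (G i)) ↔ l ≤ g i - d i * c) := by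
      intro l hl
      rw [← Pool.Agent.Lib_helper56.KSS.dvd_iff_le_ordL hl, hiff (hG.1 i) l hl,
        Pool.Agent.Lib_helper56.KSS.dvd_iff_le_ordL (L := L)
          (by have := hdc i; omega : l + d i * c ≤ L), hgg i]
      have := hgle i
      omega
    have h1 := Pool.Agent.Lib_helper56.KSS.ordL_le L' (ev x' (G i))
    apply le_antisymm
    · exact le_min h1 ((key _ h1).mp le_rfl)
    · exact (key _ (min_le_left _ _)).mpr (min_le_right _ _)
  have hgL : ∀ i, g i ≤ L := fun i => by
    rw [← hgg i]
    exact Pool.Agent.Lib_helper56.KSS.ordL_le _ _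
  refine ⟨recJ G x', ⟨k, _, _, G, κ, _, _, x', hG, rfl, fun _ _ _ => rfl, fun _ => rfl, rfl⟩,
    ?_, hL', ?_, ?_, ?_, ?_⟩
  · -- order at the vertex
    show c0J x' = 0
    obtain ⟨q, hq⟩ := exists_eq_ciInf_of_finite (f := fun i => ordL L (arc (x i)))
    have hq' : ordL L (arc (x q)) = c := hq.trans hc0
    have h1 := Pool.Agent.Lib_helper56.KSS.order_eq_of_ordL_lt (κ := κ) (L := L)
      (f := arc (x q)) (by rw [hq']; omega)
    rw [hq'] at h1
    have h2 : PowerSeries.coeff c (arc (x q)) ≠ 0 := (PowerSeries.order_eq_nat.mp h1).1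
    have h3 : ordL L' (arc (x' q)) = 0 := by
      by_contra h
      have h4 : 1 ≤ ordL L' (arc (x' q)) := by omega
      have h5 := (Pool.Agent.Lib_helper56.KSS.dvd_iff_le_ordL (by omega : 1 ≤ L')
        (arc (x' q))).mpr h4
      rw [PowerSeries.X_pow_dvd_iff] at h5
      have h6 := h5 0 (by omega)
      apply h2
      have h7 : PowerSeries.coeff 0 (arc (x' q)) = PowerSeries.coeff 0 (y q) := by
        simp [arc, x', hL'pos]
      rw [h7, hcoef, Nat.zero_add] at h6
      exact h6
    have h8 : c0J x' ≤ ordL L' (arc (x' q)) := ciInf_le (OrderBot.bddBelow _) q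
    omega
  · intro i hi
    show ordL L' (ev x' (G i)) = L'
    rw [hg' i, hB i hi]
    apply min_eq_left
    have := hdc i
    omega
  · intro i _
    exact ⟨hgle i, hg' i⟩
  · intro m l hl
    rw [← hfil m l hl]
    show Module.finrank k (Fil k x m l) ≤ Module.finrank k (Fil k x' m (min (l - c * m) L'))
    have hfin : Module.Finite k (Fil k x' m (min (l - c * m) L')) := by
      rw [Pool.Agent.Lib_helper56.KSS.Fil_eq]
      have : Finite {e : Fin v →₀ ℕ | e.degree = m} := by
        have h := Finsupp.finite_of_degree_le (σ := Fin v) m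
        exact Set.Finite.subset h (fun e he => le_of_eq he)
      exact Pool.Agent.Lib_helper56.KSS.FM_finite x' _ _
    apply Submodule.finrank_mono
    rintro F ⟨hF, hF2⟩
    refine ⟨hF, ?_⟩
    rw [hiff hF _ (min_le_right _ _)]
    rcases Nat.lt_or_ge l (m * c) with h | h
    · have e : l - c * m = 0 := by rw [Nat.mul_comm]; omega
      rw [e, Nat.zero_min, Nat.zero_add, hev hF]
      exact dvd_mul_right _ _
    · refine (pow_dvd_pow _ ?_).trans hF2
      have := min_le_left (l - c * m) L'
      rw [Nat.mul_comm c m] at this ⊢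
      omega
  · -- the codimension
    have hlin0 := grad_indep d hd1 G hG (lead x c) (by
      intro h
      obtain ⟨q, hq⟩ := exists_eq_ciInf_of_finite (f := fun i => ordL L (arc (x i)))
      have hq' : ordL L (arc (x q)) = c := hq.trans hc0
      have h1 := Pool.Agent.Lib_helper56.KSS.order_eq_of_ordL_lt (κ := κ) (L := L)
        (f := arc (x q)) (by rw [hq']; omega)
      rw [hq'] at h1
      exact (PowerSeries.order_eq_nat.mp h1).1 (congrFun h q)) B
    have hz : ∀ i ∈ B, ∀ ν < L - d i * c, PowerSeries.coeff ν (aeval y (G i)) = 0 := by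
      intro i hi ν hν
      have h1 : (PowerSeries.X : PowerSeries κ) ^ L ∣ ev x (G i) := by
        have := Pool.Agent.Lib_helper56.KSS.ordL_dvd L (ev x (G i))
        rwa [hgg i, hB i hi] at this
      rw [hev (hG.1 i)] at h1
      have h2 : (PowerSeries.X : PowerSeries κ) ^ (d i * c) *
          (PowerSeries.X : PowerSeries κ) ^ (L - d i * c) ∣
          (PowerSeries.X : PowerSeries κ) ^ (d i * c) * aeval y (G i) := by
        rw [← pow_add]
        have : d i * c + (L - d i * c) = L := by have := hdc i; omega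
        rwa [this]
      rw [mul_dvd_mul_iff_left (pow_ne_zero _ PowerSeries.X_ne_zero)] at h2
      exact PowerSeries.X_pow_dvd_iff.mp h2 ν hν
    have hz0 : ∀ i ∈ B, aeval (lead x c) (G i) = 0 := by
      intro i hi
      have h1 := hz i hi 0 (by have := hdc i; omega)
      rw [← hlead]
      have h3 : (PowerSeries.constantCoeff : PowerSeries κ →+* κ) (aeval y (G i)) =
          aeval (fun q => PowerSeries.constantCoeff (y q)) (G i) := by
        rw [aeval_def, aeval_def, hom_eval₂]
        congr 1
      simp only [PowerSeries.coeff_zero_eq_constantCoeff_apply] at h1 ⊢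
      rw [← h3]
      exact h1
    have hlin : ∀ C ⊆ B, LinearIndependent κ
        (fun i : C => fun q => aeval (fun q => PowerSeries.coeff 0 (y q)) (pderiv q (G i))) := by
      intro C hC
      rw [hlead]
      rcases B.eq_empty_or_nonempty with hBe | ⟨i0, hi0⟩
      · have : IsEmpty C := by
          constructor
          rintro ⟨i, hi⟩
          have := hC hi
          rw [hBe] at this
          exact absurd this (Finset.notMem_empty i)
        exact linearIndependent_empty_type
      · have h := hlin0 i0 (fun i hi _ => hz0 i hi)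
        exact h.comp (fun i : C => (⟨i.1, hC i.2⟩ : B)) (by
          intro a b hab
          exact Subtype.ext (congrArg (fun z : B => (z : Fin p)) hab))
    have hsum := shf_sum G y B (fun i => L - d i * c) L' hL'pos hz hlin (L - c) (by omega)
    -- the jet `x`
    have htx : tauJ k x ≤ tau k (fun s : Fin v × Fin (L - c) => PowerSeries.coeff (s.2 : ℕ) (y s.1)) := by
      unfold tauJ
      rw [Pool.Agent.Lib_helper56.KSS.tau_eq, Pool.Agent.Lib_helper56.KSS.tau_eq]
      apply Pool.Agent.Lib_helper56.KSS.tau_le_of_closure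
      rintro ⟨q, μ⟩
      have e : x q μ = PowerSeries.coeff (μ : ℕ) (arc (x q)) :=
        (Pool.Agent.Lib_helper56.KSS.coeff_arc (x q) μ).symm
      simp only
      rw [e]
      rcases Nat.lt_or_ge (μ : ℕ) c with h | h
      · have : PowerSeries.coeff (μ : ℕ) (arc (x q)) = 0 := by
          have hdv : (PowerSeries.X : PowerSeries κ) ^ c ∣ arc (x q) := by
            rw [hy q]; exact dvd_mul_right _ _
          exact PowerSeries.X_pow_dvd_iff.mp hdv _ h
        rw [this]
        exact Pool.Agent.Lib_helper56.KSS.zero_mem_closure _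
      · have h2 : PowerSeries.coeff (μ : ℕ) (arc (x q)) = PowerSeries.coeff ((μ : ℕ) - c) (y q) := by
          rw [hcoef, Nat.sub_add_cancel h]
        rw [h2]
        apply Matroid.mem_closure_of_mem _ _ (Set.subset_univ _)
        exact ⟨(q, ⟨(μ : ℕ) - c, by have := μ.2; omega⟩), rfl⟩
    have htx' : tauJ k x' = tau k (fun s : Fin v × Fin L' => PowerSeries.coeff (s.2 : ℕ) (y s.1)) :=
      rfl
    show ((v : ℝ) - B.card) * L' - (tauJ k x' : ℝ) + ((v : ℝ) - ∑ i ∈ B, (d i : ℝ)) * c ≤
      ((v : ℝ) - B.card) * L - (τ : ℝ)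
    rw [← hτ]
    have hs : ∑ i ∈ B, (min (L - c) (L - d i * c) - L') = ∑ i ∈ B, (L - d i * c - L') := by
      apply Finset.sum_congr rfl
      intro i _
      have h1 : c ≤ d i * c := Nat.le_mul_of_pos_left c (hd1 i)
      rw [min_eq_right (by omega)]
    rw [hs] at hsum
    have h9 : tauJ k x + ∑ i ∈ B, (L - d i * c - L') ≤ tauJ k x' + v * (L - c - L') := by
      rw [htx']
      omega
    have h10 : (tauJ k x : ℝ) + ∑ i ∈ B, ((L : ℝ) - d i * c - L') ≤
        tauJ k x' + v * ((L : ℝ) - c - L') := by
      have h11 : ((tauJ k x + ∑ i ∈ B, (L - d i * c - L') : ℕ) : ℝ) ≤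
          ((tauJ k x' + v * (L - c - L') : ℕ) : ℝ) := by exact_mod_cast h9
      push_cast at h11
      have h12 : ∀ i ∈ B, ((L - d i * c - L' : ℕ) : ℝ) = (L : ℝ) - d i * c - L' := by
        intro i _
        have := hdc i
        rw [Nat.cast_sub (by omega), Nat.cast_sub (by omega)]
        push_cast
        ring
      rw [Finset.sum_congr rfl h12] at h11
      have h13 : ((L - c - L' : ℕ) : ℝ) = (L : ℝ) - c - L' := by
        rw [Nat.cast_sub (by omega), Nat.cast_sub (by omega)]
      rw [h13] at h11
      exact h11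
    simp only [Finset.sum_sub_distrib, Finset.sum_const, nsmul_eq_mul, ← Finset.sum_mul] at h10
    nlinarith [h10]

alias shift_rec := shift_rec_pr

end Pool.Agent.KSX
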