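import Pool.Agent.Lib_helper77.KSZ.XBase
import Pool.Agent.Lib_helper77.KSZ.XASY
import Pool.Agent.Lib_helper77.KSZ.XBAS
import Pool.Agent.Lib_helper77.KSZ.XEXQ
import Pool.Agent.Lib_helper77.KSZ.XSER
import Pool.Agent.Lib_helper77.KSZ.XSHF

/-!
# Block SHL: reduction of a near-equality sequence to order zero at the vertex
-/

namespace Pool.Agent.KSX

open MvPolynomial Pool.Agent.KSS Filter Topology

theorem shl_bddlim {ι : Type} (U : Ultrafilter ι) (f : ι → ℝ) (C : ℝ)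
    (h : ∀ᶠ n in U, |f n| ≤ C) : ∃ x, Tendsto f U (𝓝 x) := by
  have hc : IsCompact (Set.Icc (-C) C) := isCompact_Icc
  have hm : Set.Icc (-C) C ∈ (U.map f : Filter ℝ) := by
    rw [Ultrafilter.coe_map, Filter.mem_map]
    have : ∀ᶠ n in (U : Filter ι), f n ∈ Set.Icc (-C) C := h.mono fun n hn => abs_le.1 hn
    exact this
  obtain ⟨x, _, hx⟩ := hc.ultrafilter_le_nhds (U.map f) (le_principal_iff.2 hm)
  exact ⟨x, hx⟩

theorem shl_card {p : ℕ} (d : Fin p → ℕ) (hd : ∀ i, 1 ≤ d i) (v : ℕ) (B : Finset (Fin p))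
    (hB : ∑ i ∈ B, d i < v) : B.card < v := by
  refine lt_of_le_of_lt ?_ hB
  rw [Finset.card_eq_sum_ones]
  exact Finset.sum_le_sum fun i _ => hd i

theorem shl_term {p : ℕ} (d : Fin p → ℕ) (hd : ∀ i, 1 ≤ d i) (v : ℕ) (hv : 1 ≤ v)
    (B : Finset (Fin p)) (hBv : B.card ≤ v) (R : Rec p) (hR : R.Of d v)
    (hgB : ∀ i ∈ B, R.g i = R.L) (m l : ℕ) (hl : l ≤ R.L) :
    0 ≤ (R.fil m l : ℝ) - (NN d v ∅ m : ℝ) + (NN d v B m : ℝ) ∧
      (R.fil m l : ℝ) - (NN d v ∅ m : ℝ) + (NN d v B m : ℝ) ≤ (NN d v B m : ℝ) := by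
  have hb := bas_rec d hd v hv R hR
  have h1 := hb.ge B hBv hgB m l hl
  have h2 := hb.le m l hl
  have h1' : (NN d v ∅ m : ℝ) - (NN d v B m : ℝ) ≤ (R.fil m l : ℝ) := by exact_mod_cast h1
  have h2' : (R.fil m l : ℝ) ≤ (NN d v ∅ m : ℝ) := by exact_mod_cast h2
  constructor <;> linarith

theorem shl_signn {p : ℕ} (d : Fin p → ℕ) (hd : ∀ i, 1 ≤ d i) (v : ℕ) (hv : 1 ≤ v)
    (B : Finset (Fin p)) (hBv : B.card ≤ v) (R : Rec p) (hR : R.Of d v)
    (hgB : ∀ i ∈ B, R.g i = R.L) (m : ℕ) : 0 ≤ R.sig d v B m := by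
  unfold Rec.sig
  refine Finset.sum_nonneg fun l hl => ?_
  rw [Finset.mem_Icc] at hl
  exact (shl_term d hd v hv B hBv R hR hgB m l hl.2).1

/-- the order at the vertex is bounded by the codimension -/
theorem shl_c0 {p : ℕ} (d : Fin p → ℕ) (hd : ∀ i, 1 ≤ d i) (v : ℕ) (B : Finset (Fin p))
    (hB : ∑ i ∈ B, d i < v) : ∃ C : ℝ, 0 < C ∧ ∀ R : Rec p, R.Of d v →
      (∀ i ∈ B, R.g i = R.L) → (R.c0 : ℝ) ≤ C * R.cd v B := by
  have hBv := shl_card d hd v B hB
  have hv : 1 ≤ v := by omega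
  have hD : (0 : ℝ) < (v : ℝ) - B.card := by
    have : (B.card : ℝ) < v := by exact_mod_cast hBv
    linarith
  have hpd : (0 : ℝ) < ∏ i ∈ B, (d i : ℝ) :=
    Finset.prod_pos fun i _ => by exact_mod_cast hd i
  have e1 : ∀ᶠ q in 𝓝[<] (1 : ℝ), 0 < (1 - q) ^ (v - B.card + 1) * Wq d v B q :=
    (asy_W d hd v B hBv.le).eventually_const_lt (mul_pos hD hpd)
  have e2 : ∀ᶠ q in 𝓝[<] (1 : ℝ), 0 < q :=
    eventually_nhdsWithin_of_eventually_nhds (eventually_gt_nhds zero_lt_one)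
  have e3 : ∀ᶠ q in 𝓝[<] (1 : ℝ), q < 1 := self_mem_nhdsWithin
  obtain ⟨q, hq1, hq2, hq3⟩ := (e1.and (e2.and e3)).exists
  have hW : 0 < Wq d v B q :=
    (mul_pos_iff_of_pos_left (pow_pos (by linarith) _)).1 hq1
  have hs := ser_W d hd v B q hq2.le hq3
  obtain ⟨m, hm⟩ : ∃ m : ℕ, 0 < (m : ℝ) * (NN d v B m : ℝ) * q ^ m := by
    by_contra hcon
    push Not at hcon
    have := hasSum_le hcon hs hasSum_zero
    linarith
  have hqm : 0 < q ^ m := pow_pos hq2 m
  have hm1 : 0 < (m : ℝ) * (NN d v B m : ℝ) := (mul_pos_iff_of_pos_right hqm).1 hm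
  have hm0 : m ≠ 0 := by
    rintro rfl
    simp at hm1
  have hmp : (0 : ℝ) < m := by exact_mod_cast Nat.pos_of_ne_zero hm0
  have hN : (1 : ℝ) ≤ (NN d v B m : ℝ) := by
    have h1 : (0 : ℝ) < (NN d v B m : ℝ) := (mul_pos_iff_of_pos_left hmp).1 hm1
    have h2 : 0 < NN d v B m := by exact_mod_cast h1
    exact_mod_cast h2
  have hInd : 0 < Ind d v B := by
    unfold Ind
    have : ((∑ i ∈ B, d i : ℕ) : ℝ) < v := by exact_mod_cast hB
    rw [Nat.cast_sum] at this
    linarith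
  set G : Fin p → ℝ := fun i => q ^ (d i) / (1 - q ^ (d i)) * Hq d v B q / Wq d v B q with hG
  set ρ : ℝ := min (Ind d v B) (1 / (1 + ∑ i, |G i|)) with hρ
  have hsum : 0 ≤ ∑ i, |G i| := Finset.sum_nonneg fun i _ => abs_nonneg _
  have hρ0 : 0 < ρ := lt_min hInd (by positivity)
  refine ⟨Wq d v B q / (ρ * q ^ m), by positivity, ?_⟩
  intro R hR hgB
  have hb := bas_rec d hd v hv R hR
  have h1 := ss_exp d hd v B hB q hq2 hq3 m (fun _ => 0) (fun _ => le_rfl) ρ hρ0.le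
    (by
      simp only [zero_mul, Finset.sum_const_zero, zero_add]
      exact min_le_left _ _)
    (fun i _ => by
      rw [zero_add]
      have h2 : ρ ≤ 1 / (1 + ∑ i, |G i|) := min_le_right _ _
      have h3 : |G i| ≤ ∑ i, |G i| :=
        Finset.single_le_sum (f := fun i => |G i|) (fun i _ => abs_nonneg _) (Finset.mem_univ i)
      calc ρ * (q ^ (d i) / (1 - q ^ (d i)) * Hq d v B q / Wq d v B q) = ρ * G i := rfl
        _ ≤ ρ * |G i| := mul_le_mul_of_nonneg_left (le_abs_self _) hρ0.le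
        _ ≤ 1 / (1 + ∑ i, |G i|) * (1 + ∑ i, |G i|) :=
            mul_le_mul h2 (by linarith) (abs_nonneg _) (by positivity)
        _ = 1 := by field_simp) R hR hgB
  simp only [zero_mul, Finset.sum_const_zero, zero_add] at h1
  have hsig : (R.c0 : ℝ) ≤ R.sig d v B m := by
    unfold Rec.sig
    have hsub : Finset.Icc 1 R.c0 ⊆ Finset.Icc 1 R.L := Finset.Icc_subset_Icc le_rfl hb.c0_le
    refine le_trans ?_ (Finset.sum_le_sum_of_subset_of_nonneg hsub fun l hl _ => ?_)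
    · have h2 : ∀ l ∈ Finset.Icc 1 R.c0, (1 : ℝ) ≤
          (R.fil m l : ℝ) - (NN d v ∅ m : ℝ) + (NN d v B m : ℝ) := by
        intro l hl
        rw [Finset.mem_Icc] at hl
        have h3 := hb.full m l (hl.2.trans hb.c0_le)
          (hl.2.trans (Nat.le_mul_of_pos_right _ (Nat.pos_of_ne_zero hm0)))
        have h4 : (R.fil m l : ℝ) = (NN d v ∅ m : ℝ) := by exact_mod_cast h3
        rw [h4]
        linarith
      have h5 := Finset.sum_le_sum h2
      rw [Finset.sum_const, Nat.card_Icc] at h5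
      simpa using h5
    · rw [Finset.mem_Icc] at hl
      exact (shl_term d hd v hv B hBv.le R hR hgB m l hl.2).1
  have hLam : q ^ m * (R.c0 : ℝ) ≤ R.Lam d v B q m := by
    unfold Rec.Lam
    have h2 := Finset.single_le_sum (f := fun m => q ^ m * R.sig d v B m)
      (s := Finset.range (m + 1)) (fun i _ => mul_nonneg (pow_nonneg hq2.le i)
        (shl_signn d hd v hv B hBv.le R hR hgB i)) (Finset.mem_range.2 (Nat.lt_succ_self m))
    refine le_trans (mul_le_mul_of_nonneg_left hsig hqm.le) h2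
  have h6 : ρ * (q ^ m * R.c0 / Wq d v B q) ≤ R.cd v B := by
    refine le_trans (mul_le_mul_of_nonneg_left ?_ hρ0.le) h1
    unfold Rec.s
    exact div_le_div_of_nonneg_right hLam hW.le
  have h7 := mul_le_mul_of_nonneg_left h6 (by positivity : 0 ≤ Wq d v B q / (ρ * q ^ m))
  refine le_trans (le_of_eq ?_) h7
  field_simp

/-- comparison of the filtrations, one degree -/
theorem shl_sig {p : ℕ} (d : Fin p → ℕ) (hd : ∀ i, 1 ≤ d i) (v : ℕ) (hv : 1 ≤ v)
    (B : Finset (Fin p)) (hBv : B.card ≤ v) (R R2 : Rec p) (hR : R.Of d v) (hR2 : R2.Of d v)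
    (hg : ∀ i ∈ B, R.g i = R.L) (hg2 : ∀ i ∈ B, R2.g i = R2.L) (dm : ℕ)
    (hL : dm * R.c0 < R.L) (hL2 : R2.L = R.L - dm * R.c0)
    (hf : ∀ m l, l ≤ R.L → R.fil m l ≤ R2.fil m (min (l - R.c0 * m) R2.L)) (m : ℕ) :
    R.sig d v B m ≤ R2.sig d v B m + R.c0 * ((m : ℝ) * (NN d v B m : ℝ)) +
      (if m < dm then (dm : ℝ) * R.c0 * (NN d v B m : ℝ) else 0) := by
  classical
  set H : ℝ := (NN d v B m : ℝ) with hH
  set f : ℕ → ℝ := fun l => (R2.fil m l : ℝ) - (NN d v ∅ m : ℝ) + H with hfd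
  have hf0 : ∀ l, l ≤ R2.L → 0 ≤ f l ∧ f l ≤ H := fun l hl =>
    shl_term d hd v hv B hBv R2 hR2 hg2 m l hl
  have hH0 : 0 ≤ H := (hf0 0 (Nat.zero_le _)).1.trans (hf0 0 (Nat.zero_le _)).2
  have hstep : R.sig d v B m ≤ ∑ l ∈ Finset.Icc 1 R.L,
      ((if l ≤ R.c0 * m then H else 0) +
        (if R.c0 * m < l ∧ l - R.c0 * m ≤ R2.L then f (l - R.c0 * m) else 0) +
        (if R2.L < l - R.c0 * m then H else 0)) := by
    unfold Rec.sig
    refine Finset.sum_le_sum fun l hl => ?_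
    rw [Finset.mem_Icc] at hl
    have h1 := hf m l hl.2
    have h2 : (R.fil m l : ℝ) ≤ (R2.fil m (min (l - R.c0 * m) R2.L) : ℝ) := by exact_mod_cast h1
    have h3 : (R.fil m l : ℝ) - (NN d v ∅ m : ℝ) + H ≤ f (min (l - R.c0 * m) R2.L) := by
      simp only [hfd]
      linarith
    refine h3.trans ?_
    by_cases c1 : l ≤ R.c0 * m
    · rw [if_pos c1, if_neg (fun h => absurd h.1 (not_lt.2 c1)),
        if_neg (by
          rw [Nat.sub_eq_zero_of_le c1]
          exact Nat.not_lt_zero _)]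
      have := (hf0 _ (min_le_right (l - R.c0 * m) R2.L)).2
      linarith
    · have c1' : R.c0 * m < l := not_le.1 c1
      rw [if_neg c1]
      by_cases c2 : l - R.c0 * m ≤ R2.L
      · rw [if_pos ⟨c1', c2⟩, if_neg (not_lt.2 c2), min_eq_left c2]
        linarith
      · rw [if_neg (fun h => c2 h.2), if_pos (not_le.1 c2)]
        have := (hf0 _ (min_le_right (l - R.c0 * m) R2.L)).2
        linarith
  rw [Finset.sum_add_distrib, Finset.sum_add_distrib] at hstep
  have p1 : ∑ l ∈ Finset.Icc 1 R.L, (if l ≤ R.c0 * m then H else 0) ≤ R.c0 * ((m : ℝ) * H) := by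
    rw [← Finset.sum_filter, Finset.sum_const, nsmul_eq_mul]
    have hc : ((Finset.Icc 1 R.L).filter (fun l => l ≤ R.c0 * m)).card ≤ R.c0 * m := by
      have hsub : (Finset.Icc 1 R.L).filter (fun l => l ≤ R.c0 * m) ⊆
          Finset.Icc 1 (R.c0 * m) := by
        intro l hl
        rw [Finset.mem_filter, Finset.mem_Icc] at hl
        exact Finset.mem_Icc.2 ⟨hl.1.1, hl.2⟩
      refine (Finset.card_le_card hsub).trans ?_
      rw [Nat.card_Icc]
      omega
    have hc' : (((Finset.Icc 1 R.L).filter (fun l => l ≤ R.c0 * m)).card : ℝ) ≤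
        (R.c0 : ℝ) * m := by exact_mod_cast hc
    calc (((Finset.Icc 1 R.L).filter (fun l => l ≤ R.c0 * m)).card : ℝ) * H
        ≤ ((R.c0 : ℝ) * m) * H := mul_le_mul_of_nonneg_right hc' hH0
      _ = R.c0 * ((m : ℝ) * H) := by ring
  have p2 : ∑ l ∈ Finset.Icc 1 R.L,
      (if R.c0 * m < l ∧ l - R.c0 * m ≤ R2.L then f (l - R.c0 * m) else 0) ≤
      R2.sig d v B m := by
    rw [← Finset.sum_filter]
    set F := (Finset.Icc 1 R.L).filter (fun l => R.c0 * m < l ∧ l - R.c0 * m ≤ R2.L) with hF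
    have hinj : Set.InjOn (fun l => l - R.c0 * m) (F : Set ℕ) := by
      intro a ha b hb hab
      have ha' := (Finset.mem_filter.1 (Finset.mem_coe.1 ha)).2.1
      have hb' := (Finset.mem_filter.1 (Finset.mem_coe.1 hb)).2.1
      simp only at hab
      omega
    have h1 : ∑ l ∈ F, f (l - R.c0 * m) = ∑ l ∈ F.image (fun l => l - R.c0 * m), f l :=
      (Finset.sum_image hinj).symm
    rw [h1]
    unfold Rec.sig
    refine Finset.sum_le_sum_of_subset_of_nonneg ?_ ?_
    · intro l hl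
      rw [Finset.mem_image] at hl
      obtain ⟨a, ha, rfl⟩ := hl
      rw [hF, Finset.mem_filter] at ha
      rw [Finset.mem_Icc]
      exact ⟨by omega, ha.2.2⟩
    · intro l hl _
      rw [Finset.mem_Icc] at hl
      exact (hf0 l hl.2).1
  have p3 : ∑ l ∈ Finset.Icc 1 R.L, (if R2.L < l - R.c0 * m then H else 0) ≤
      (if m < dm then (dm : ℝ) * R.c0 * H else 0) := by
    rw [← Finset.sum_filter, Finset.sum_const, nsmul_eq_mul]
    split_ifs with hm
    · have hc : ((Finset.Icc 1 R.L).filter (fun l => R2.L < l - R.c0 * m)).card ≤ dm * R.c0 := by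
        have hsub : (Finset.Icc 1 R.L).filter (fun l => R2.L < l - R.c0 * m) ⊆
            Finset.Ioc R2.L R.L := by
          intro l hl
          rw [Finset.mem_filter, Finset.mem_Icc] at hl
          exact Finset.mem_Ioc.2 ⟨by omega, hl.1.2⟩
        refine (Finset.card_le_card hsub).trans ?_
        rw [Nat.card_Ioc]
        omega
      have hc' : (((Finset.Icc 1 R.L).filter (fun l => R2.L < l - R.c0 * m)).card : ℝ) ≤
          (dm : ℝ) * R.c0 := by exact_mod_cast hc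
      exact mul_le_mul_of_nonneg_right hc' hH0
    · have hemp : (Finset.Icc 1 R.L).filter (fun l => R2.L < l - R.c0 * m) = ∅ := by
        rw [Finset.filter_eq_empty_iff]
        intro l hl
        rw [Finset.mem_Icc] at hl
        have h2 : dm * R.c0 ≤ R.c0 * m := by
          rw [mul_comm]
          exact Nat.mul_le_mul_left _ (not_lt.1 hm)
        omega
      rw [hemp]
      simp
  linarith

/-- comparison of the weighted sums -/
theorem shl_Lam {p : ℕ} (d : Fin p → ℕ) (hd : ∀ i, 1 ≤ d i) (v : ℕ) (hv : 1 ≤ v)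
    (B : Finset (Fin p)) (hBv : B.card ≤ v) (R R2 : Rec p) (hR : R.Of d v) (hR2 : R2.Of d v)
    (hg : ∀ i ∈ B, R.g i = R.L) (hg2 : ∀ i ∈ B, R2.g i = R2.L) (dm : ℕ)
    (hL : dm * R.c0 < R.L) (hL2 : R2.L = R.L - dm * R.c0)
    (hf : ∀ m l, l ≤ R.L → R.fil m l ≤ R2.fil m (min (l - R.c0 * m) R2.L)) (q : ℝ)
    (hq0 : 0 < q) (hq1 : q < 1) (M0 : ℕ) :
    R.Lam d v B q M0 ≤ R2.Lam d v B q M0 + R.c0 * Wq d v B q +
      R.c0 * ((dm : ℝ) * ∑ m ∈ Finset.range dm, (NN d v B m : ℝ)) := by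
  have hNN : ∀ m, (0 : ℝ) ≤ (NN d v B m : ℝ) := fun m =>
    (shl_term d hd v hv B hBv R hR hg m 0 (Nat.zero_le _)).1.trans
      (shl_term d hd v hv B hBv R hR hg m 0 (Nat.zero_le _)).2
  have h1 : R.Lam d v B q M0 ≤ ∑ m ∈ Finset.range (M0 + 1), (q ^ m * R2.sig d v B m +
      R.c0 * ((m : ℝ) * (NN d v B m : ℝ) * q ^ m) +
      (if m < dm then R.c0 * ((dm : ℝ) * (NN d v B m : ℝ)) else 0)) := by
    unfold Rec.Lam
    refine Finset.sum_le_sum fun m _ => ?_
    have h2 := mul_le_mul_of_nonneg_left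
      (shl_sig d hd v hv B hBv R R2 hR hR2 hg hg2 dm hL hL2 hf m) (pow_nonneg hq0.le m)
    refine h2.trans ?_
    have hq : q ^ m ≤ 1 := pow_le_one₀ hq0.le hq1.le
    split_ifs with hm
    · have h3 : q ^ m * ((dm : ℝ) * R.c0 * (NN d v B m : ℝ)) ≤
          1 * ((dm : ℝ) * R.c0 * (NN d v B m : ℝ)) :=
        mul_le_mul_of_nonneg_right hq
          (mul_nonneg (mul_nonneg (Nat.cast_nonneg _) (Nat.cast_nonneg _)) (hNN m))
      nlinarith [h3]
    · refine le_of_eq ?_
      ring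
  refine h1.trans ?_
  rw [Finset.sum_add_distrib, Finset.sum_add_distrib]
  refine add_le_add (add_le_add (le_refl _) ?_) ?_
  · rw [← Finset.mul_sum]
    refine mul_le_mul_of_nonneg_left ?_ (Nat.cast_nonneg _)
    refine sum_le_hasSum _ (fun m _ => ?_) (ser_W d hd v B q hq0.le hq1)
    exact mul_nonneg (mul_nonneg (Nat.cast_nonneg _) (hNN m)) (pow_nonneg hq0.le m)
  · rw [← Finset.sum_filter, Finset.mul_sum, Finset.mul_sum]
    refine Finset.sum_le_sum_of_subset_of_nonneg ?_ ?_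
    · intro m hm
      rw [Finset.mem_filter] at hm
      exact Finset.mem_range.2 hm.2
    · intro m _ _
      exact mul_nonneg (Nat.cast_nonneg _) (mul_nonneg (Nat.cast_nonneg _) (hNN m))

theorem shift_lim_pr {p : ℕ} (d : Fin p → ℕ) (hd : ∀ i, 2 ≤ d i) (v : ℕ) (B E : Finset (Fin p))
    (hBE : Disjoint B E) (hB : ∑ i ∈ B, d i < v)
    {ι : Type} (U : Ultrafilter ι) (R : ι → Rec p) (q : ι → ℝ) (M0 : ι → ℕ)
    (h : NE d v B E U R q M0)
    (hnot : ¬ Tendsto (fun n => ((R n).c0 : ℝ) / sn d v B R q M0 n) U (𝓝 1)) :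
    ∃ R2 : ι → Rec p, NE d v B E U R2 q M0 ∧ ∀ᶠ n in U, (R2 n).c0 = 0 := by
  classical
  have hd1 : ∀ i, 1 ≤ d i := fun i => le_trans (by norm_num) (hd i)
  have hBv := shl_card d hd1 v B hB
  have hv : 1 ≤ v := by omega
  have hD : (0 : ℝ) < (v : ℝ) - B.card := by
    have : (B.card : ℝ) < v := by exact_mod_cast hBv
    linarith
  have hInd : 0 < Ind d v B := by
    unfold Ind
    have : ((∑ i ∈ B, d i : ℕ) : ℝ) < v := by exact_mod_cast hB
    rw [Nat.cast_sum] at this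
    linarith
  have hIndD : Ind d v B ≤ (v : ℝ) - B.card := by
    unfold Ind
    have h1 : B.card ≤ ∑ i ∈ B, d i := by
      rw [Finset.card_eq_sum_ones]
      exact Finset.sum_le_sum fun i _ => hd1 i
    have h2 : (B.card : ℝ) ≤ ((∑ i ∈ B, d i : ℕ) : ℝ) := by exact_mod_cast h1
    rw [Nat.cast_sum] at h2
    linarith
  set S : ι → ℝ := sn d v B R q M0 with hS
  have hSp : ∀ᶠ k in (U : Filter ι), 0 < S k := h.spos
  have hq0 : ∀ᶠ k in (U : Filter ι), 0 < q k := h.q01.mono fun k hk => hk.1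
  have hq1 : ∀ᶠ k in (U : Filter ι), q k < 1 := h.q01.mono fun k hk => hk.2
  have hqt : Tendsto q U (𝓝[<] 1) := tendsto_nhdsWithin_iff.2 ⟨h.qlim, hq1⟩
  have hcd : Tendsto (fun k => (R k).cd v B / S k) U (𝓝 (Ind d v B)) := h.cdlim
  obtain ⟨C, hC0, hC⟩ := shl_c0 d hd1 v B hB
  -- boundedness of c0
  have hcb : ∀ᶠ k in (U : Filter ι), ((R k).c0 : ℝ) / S k ≤ C * (Ind d v B + 1) := by
    have h1 : ∀ᶠ k in (U : Filter ι), (R k).cd v B / S k < Ind d v B + 1 :=
      hcd.eventually_lt_const (by linarith)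
    filter_upwards [h.of, h.gB, hSp, h1] with k h2 h3 h4 h5
    have h6 := div_le_div_of_nonneg_right (hC (R k) h2 h3) h4.le
    refine h6.trans ?_
    rw [mul_div_assoc]
    exact mul_le_mul_of_nonneg_left h5.le hC0.le
  have hcn : ∀ᶠ k in (U : Filter ι), 0 ≤ ((R k).c0 : ℝ) / S k := by
    filter_upwards [hSp] with k h4
    exact div_nonneg (Nat.cast_nonneg _) h4.le
  obtain ⟨c, hc⟩ := shl_bddlim U (fun k => ((R k).c0 : ℝ) / S k) (C * (Ind d v B + 1)) (by
    filter_upwards [hcb, hcn] with k h1 h2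
    rw [abs_of_nonneg h2]
    exact h1)
  -- L / S tends to infinity
  have hLS : Tendsto (fun k => ((R k).L : ℝ) / S k) U atTop := by
    refine tendsto_atTop_mono' _ ?_ h.Llim
    filter_upwards [hSp, hq0, hq1] with k h1 h2 h3
    show (1 - q k) * ((R k).L : ℝ) / S k ≤ ((R k).L : ℝ) / S k
    refine div_le_div_of_nonneg_right ?_ h1.le
    have : (0 : ℝ) ≤ (R k).L := Nat.cast_nonneg _
    nlinarith
  set dm : ℕ := ∑ i, d i + 1 with hdm
  have hdmi : ∀ i, d i ≤ dm := fun i =>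
    (Finset.single_le_sum (f := d) (fun _ _ => Nat.zero_le _) (Finset.mem_univ i)).trans
      (Nat.le_succ _)
  have hdm1 : 1 ≤ dm := Nat.succ_le_succ (Nat.zero_le _)
  have hLc : ∀ᶠ k in (U : Filter ι), dm * (R k).c0 < (R k).L := by
    have h1 := hLS.eventually_gt_atTop ((dm : ℝ) * (C * (Ind d v B + 1)))
    filter_upwards [h1, hcb, hSp] with k h2 h3 h4
    have h5 : (dm : ℝ) * (((R k).c0 : ℝ) / S k) ≤ (dm : ℝ) * (C * (Ind d v B + 1)) :=
      mul_le_mul_of_nonneg_left h3 (Nat.cast_nonneg _)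
    have h6 : (dm : ℝ) * (R k).c0 / S k < ((R k).L : ℝ) / S k := by
      rw [mul_div_assoc]
      linarith
    have h7 := (div_lt_div_iff_of_pos_right h4).1 h6
    exact_mod_cast h7
  -- the new records
  have hex : ∀ᶠ k in (U : Filter ι), ∃ R' : Rec p, R'.Of d v ∧ R'.c0 = 0 ∧
      R'.L = (R k).L - dm * (R k).c0 ∧ (∀ i ∈ B, R'.g i = R'.L) ∧
      (∀ i, (R k).g i < (R k).L → d i * (R k).c0 ≤ (R k).g i ∧
        R'.g i = min R'.L ((R k).g i - d i * (R k).c0)) ∧
      (∀ m l, l ≤ (R k).L → (R k).fil m l ≤ R'.fil m (min (l - (R k).c0 * m) R'.L)) ∧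
      R'.cd v B + Ind d v B * (R k).c0 ≤ (R k).cd v B := by
    filter_upwards [h.of, h.gB, hLc] with k h1 h2 h3
    exact shift_rec d hd v B dm hdmi (R k) h1 h2 h3 hdm1
  obtain ⟨R2, hR2⟩ : ∃ R2 : ι → Rec p, ∀ᶠ k in (U : Filter ι), (R2 k).Of d v ∧ (R2 k).c0 = 0 ∧
      (R2 k).L = (R k).L - dm * (R k).c0 ∧ (∀ i ∈ B, (R2 k).g i = (R2 k).L) ∧
      (∀ i, (R k).g i < (R k).L → d i * (R k).c0 ≤ (R k).g i ∧
        (R2 k).g i = min (R2 k).L ((R k).g i - d i * (R k).c0)) ∧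
      (∀ m l, l ≤ (R k).L → (R k).fil m l ≤ (R2 k).fil m (min (l - (R k).c0 * m) (R2 k).L)) ∧
      (R2 k).cd v B + Ind d v B * (R k).c0 ≤ (R k).cd v B := by
    refine ⟨fun k => if hk : ∃ R' : Rec p, R'.Of d v ∧ R'.c0 = 0 ∧
      R'.L = (R k).L - dm * (R k).c0 ∧ (∀ i ∈ B, R'.g i = R'.L) ∧
      (∀ i, (R k).g i < (R k).L → d i * (R k).c0 ≤ (R k).g i ∧
        R'.g i = min R'.L ((R k).g i - d i * (R k).c0)) ∧
      (∀ m l, l ≤ (R k).L → (R k).fil m l ≤ R'.fil m (min (l - (R k).c0 * m) R'.L)) ∧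
      R'.cd v B + Ind d v B * (R k).c0 ≤ (R k).cd v B then hk.choose else default, ?_⟩
    filter_upwards [hex] with k hk
    rw [dif_pos hk]
    exact hk.choose_spec
  set S2 : ι → ℝ := sn d v B R2 q M0 with hS2
  -- ss_exp for the new records
  have hG : ∀ i, Tendsto (fun k => q k ^ (d i) / (1 - q k ^ (d i)) * Hq d v B (q k) /
      Wq d v B (q k)) U (𝓝 (1 / ((d i : ℝ) * ((v : ℝ) - B.card)))) := fun i =>
    (asy_G d hd1 v B hBv (d i) (hd1 i)).comp hqt
  have hGb : ∀ᶠ k in (U : Filter ι), ∀ i, Ind d v B * (q k ^ (d i) / (1 - q k ^ (d i)) *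
      Hq d v B (q k) / Wq d v B (q k)) < 1 := by
    rw [eventually_all]
    intro i
    refine ((hG i).const_mul _).eventually_lt_const ?_
    have hdi : (2 : ℝ) ≤ d i := by exact_mod_cast hd i
    rw [mul_one_div, div_lt_one (by positivity)]
    nlinarith
  have hss : ∀ᶠ k in (U : Filter ι), Ind d v B * S2 k ≤ (R2 k).cd v B := by
    filter_upwards [hR2, hq0, hq1, hGb] with k hk k0 k1 kb
    have h1 := ss_exp d hd1 v B hB (q k) k0 k1 (M0 k) (fun _ => 0) (fun _ => le_rfl)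
      (Ind d v B) hInd.le (by simp) (fun i _ => by
        rw [zero_add]
        exact (kb i).le) (R2 k) hk.1 hk.2.2.2.1
    simp only [zero_mul, Finset.sum_const_zero, zero_add] at h1
    exact h1
  have hss0 : ∀ᶠ k in (U : Filter ι), 0 ≤ (R2 k).cd v B := by
    filter_upwards [hR2, hq0, hq1] with k hk k0 k1
    have h1 := ss_exp d hd1 v B hB (q k) k0 k1 (M0 k) (fun _ => 0) (fun _ => le_rfl)
      0 le_rfl (by simpa using hInd.le) (fun i _ => by simp) (R2 k) hk.1 hk.2.2.2.1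
    simp only [zero_mul, Finset.sum_const_zero, zero_add] at h1
    exact h1
  have hcdc : Tendsto (fun k => (R k).cd v B / S k - Ind d v B * (((R k).c0 : ℝ) / S k)) U
      (𝓝 (Ind d v B - Ind d v B * c)) := hcd.sub (hc.const_mul _)
  have hub : ∀ᶠ k in (U : Filter ι), (R2 k).cd v B / S k ≤
      (R k).cd v B / S k - Ind d v B * (((R k).c0 : ℝ) / S k) := by
    filter_upwards [hR2, hSp] with k hk h1
    have h2 := hk.2.2.2.2.2.2
    rw [← mul_div_assoc, ← sub_div]
    refine div_le_div_of_nonneg_right ?_ h1.le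
    linarith
  -- c < 1
  have hc1 : c < 1 := by
    have h1 : c ≤ 1 := by
      have h2 : 0 ≤ Ind d v B - Ind d v B * c := by
        refine ge_of_tendsto hcdc ?_
        filter_upwards [hub, hss0, hSp] with k h3 h4 h5
        exact (div_nonneg h4 h5.le).trans h3
      nlinarith
    refine lt_of_le_of_ne h1 ?_
    rintro rfl
    exact hnot hc
  -- lower bound for S2
  have hWp : ∀ᶠ k in (U : Filter ι), 0 < Wq d v B (q k) := by
    have hpd : (0 : ℝ) < ∏ i ∈ B, (d i : ℝ) :=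
      Finset.prod_pos fun i _ => by exact_mod_cast hd1 i
    have e1 := ((asy_W d hd1 v B hBv.le).comp hqt).eventually_const_lt (mul_pos hD hpd)
    filter_upwards [e1, hq1] with k h1 h2
    exact (mul_pos_iff_of_pos_left (pow_pos (by linarith) _)).1 h1
  set K : ℝ := (dm : ℝ) * ∑ m ∈ Finset.range dm, (NN d v B m : ℝ) with hK
  have hKW : Tendsto (fun k => K / Wq d v B (q k)) U (𝓝 0) := by
    have hpd : (0 : ℝ) < ∏ i ∈ B, (d i : ℝ) :=
      Finset.prod_pos fun i _ => by exact_mod_cast hd1 i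
    have e1 := (asy_W d hd1 v B hBv.le).comp hqt
    have e2 : Tendsto (fun k => (1 - q k) ^ (v - B.card + 1)) U (𝓝 0) := by
      have h1 : Tendsto (fun k => (1 - q k)) U (𝓝 0) := by
        have := (tendsto_const_nhds (x := (1 : ℝ)) (f := (U : Filter ι))).sub h.qlim
        rwa [sub_self] at this
      have h2 := h1.pow (v - B.card + 1)
      rwa [zero_pow (Nat.succ_ne_zero _)] at h2
    have e3 := ((e2.const_mul K).div e1 (mul_pos hD hpd).ne')
    rw [mul_zero, zero_div] at e3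
    refine e3.congr' ?_
    filter_upwards [hq1, hWp] with k h1 h2
    have h3 : (1 - q k) ^ (v - B.card + 1) ≠ 0 := (pow_pos (by linarith) _).ne'
    show K * (1 - q k) ^ (v - B.card + 1) /
      ((1 - q k) ^ (v - B.card + 1) * Wq d v B (q k)) = K / Wq d v B (q k)
    field_simp
  have hlb : ∀ᶠ k in (U : Filter ι), 1 - ((R k).c0 : ℝ) / S k -
      ((R k).c0 : ℝ) / S k * (K / Wq d v B (q k)) ≤ S2 k / S k := by
    filter_upwards [hR2, h.of, h.gB, hSp, hq0, hq1, hWp, hLc] with k hk h1 h2 h3 h4 h5 h6 h7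
    have h8 := shl_Lam d hd1 v hv B hBv.le (R k) (R2 k) h1 hk.1 h2 hk.2.2.2.1 dm h7 hk.2.2.1
      hk.2.2.2.2.2.1 (q k) h4 h5 (M0 k)
    have h9 : (R k).Lam d v B (q k) (M0 k) = S k * Wq d v B (q k) := by
      show _ = (R k).s d v B (q k) (M0 k) * _
      unfold Rec.s
      field_simp
    have h10 : (R2 k).Lam d v B (q k) (M0 k) = S2 k * Wq d v B (q k) := by
      show _ = (R2 k).s d v B (q k) (M0 k) * _
      unfold Rec.s
      field_simp
    rw [h9, h10] at h8
    have h11 : S k ≤ S2 k + (R k).c0 + (R k).c0 * (K / Wq d v B (q k)) := by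
      have h12 : S k * Wq d v B (q k) ≤
          (S2 k + (R k).c0 + (R k).c0 * (K / Wq d v B (q k))) * Wq d v B (q k) := by
        refine h8.trans (le_of_eq ?_)
        rw [hK]
        field_simp
      exact le_of_mul_le_mul_right h12 h6
    have h13 := div_le_div_of_nonneg_right h11 h3.le
    rw [div_self h3.ne'] at h13
    have h14 : (S2 k + (R k).c0 + (R k).c0 * (K / Wq d v B (q k))) / S k =
        S2 k / S k + ((R k).c0 : ℝ) / S k + ((R k).c0 : ℝ) / S k * (K / Wq d v B (q k)) := by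
      ring
    rw [h14] at h13
    linarith
  have hS2l : Tendsto (fun k => S2 k / S k) U (𝓝 (1 - c)) := by
    have l1 : Tendsto (fun k => 1 - ((R k).c0 : ℝ) / S k -
        ((R k).c0 : ℝ) / S k * (K / Wq d v B (q k))) U (𝓝 (1 - c)) := by
      have := (tendsto_const_nhds (x := (1 : ℝ)) (f := (U : Filter ι))).sub hc |>.sub
        (hc.mul hKW)
      rw [mul_zero, sub_zero] at this
      exact this
    have l2 : Tendsto (fun k => ((R k).cd v B / S k - Ind d v B * (((R k).c0 : ℝ) / S k)) /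
        Ind d v B) U (𝓝 (1 - c)) := by
      have := hcdc.div_const (Ind d v B)
      have e : (Ind d v B - Ind d v B * c) / Ind d v B = 1 - c := by field_simp
      rw [e] at this
      exact this
    refine tendsto_of_tendsto_of_tendsto_of_le_of_le' l1 l2 hlb ?_
    filter_upwards [hub, hss, hSp] with k h1 h2 h3
    rw [le_div_iff₀ hInd]
    refine le_trans ?_ h1
    have h4 := div_le_div_of_nonneg_right h2 h3.le
    refine le_trans (le_of_eq ?_) h4
    ring
  have hlam : 0 < 1 - c := by linarith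
  have hS2p : ∀ᶠ k in (U : Filter ι), 0 < S2 k := by
    have h1 : ∀ᶠ k in (U : Filter ι), 0 < S2 k / S k := hS2l.eventually_const_lt hlam
    filter_upwards [h1, hSp] with k h2 h3
    have := mul_pos h2 h3
    rwa [div_mul_cancel₀ _ h3.ne'] at this
  have hconv : ∀ (f : ι → ℝ) (x : ℝ), Tendsto (fun k => f k / S k) U (𝓝 (x * (1 - c))) →
      Tendsto (fun k => f k / S2 k) U (𝓝 x) := by
    intro f x hf
    have h1 := hf.div hS2l hlam.ne'
    rw [mul_div_assoc, div_self hlam.ne', mul_one] at h1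
    refine h1.congr' ?_
    filter_upwards [hSp, hS2p] with k h2 h3
    show f k / S k / (S2 k / S k) = f k / S2 k
    field_simp
  have hcd2 : Tendsto (fun k => (R2 k).cd v B / S k) U (𝓝 (Ind d v B * (1 - c))) := by
    have e : Ind d v B - Ind d v B * c = Ind d v B * (1 - c) := by ring
    rw [e] at hcdc
    refine tendsto_of_tendsto_of_tendsto_of_le_of_le' (hS2l.const_mul (Ind d v B)) hcdc ?_ hub
    filter_upwards [hss, hSp] with k h2 h3
    have h4 := div_le_div_of_nonneg_right h2 h3.le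
    refine le_trans (le_of_eq ?_) h4
    ring
  refine ⟨R2, ⟨hR2.mono fun k hk => hk.1, hR2.mono fun k hk => hk.2.2.2.1, h.q01, h.qlim,
    h.M0lim, hS2p, ?_, hconv _ _ hcd2, ?_⟩, hR2.mono fun k hk => hk.2.1⟩
  · -- L
    have h1 : Tendsto (fun k => (1 - q k) * ((R k).L : ℝ) / S k -
        (dm : ℝ) * (C * (Ind d v B + 1))) U atTop :=
      tendsto_atTop_add_const_right _ (-((dm : ℝ) * (C * (Ind d v B + 1)))) h.Llim
    have h2 : Tendsto (fun k => S k / S2 k) U (𝓝 (1 - c)⁻¹) := by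
      refine (hS2l.inv₀ hlam.ne').congr fun k => ?_
      rw [inv_div]
    have h3 := h1.atTop_mul_pos (inv_pos.2 hlam) h2
    refine tendsto_atTop_mono' _ ?_ h3
    filter_upwards [hR2, hSp, hS2p, hq0, hq1, hcb, hLc] with k hk h4 h5 h6 h7 h8 h9
    have h10 : ((R2 k).L : ℝ) = (R k).L - dm * (R k).c0 := by
      rw [hk.2.2.1, Nat.cast_sub h9.le, Nat.cast_mul]
    show ((1 - q k) * ((R k).L : ℝ) / S k - (dm : ℝ) * (C * (Ind d v B + 1))) *
      (S k / S2 k) ≤ (1 - q k) * ((R2 k).L : ℝ) / S2 k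
    have h11 : (1 - q k) * ((R2 k).L : ℝ) / S2 k =
        ((1 - q k) * ((R k).L : ℝ) / S k - (1 - q k) * ((dm : ℝ) * (((R k).c0 : ℝ) / S k))) *
          (S k / S2 k) := by
      rw [h10]
      field_simp
    rw [h11]
    refine mul_le_mul_of_nonneg_right ?_ (div_nonneg h4.le h5.le)
    have h12 : (1 - q k) * ((dm : ℝ) * (((R k).c0 : ℝ) / S k)) ≤
        1 * ((dm : ℝ) * (C * (Ind d v B + 1))) := by
      refine mul_le_mul (by linarith) (mul_le_mul_of_nonneg_left h8 (Nat.cast_nonneg _)) ?_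
        zero_le_one
      exact mul_nonneg (Nat.cast_nonneg _) (div_nonneg (Nat.cast_nonneg _) h4.le)
    linarith
  · -- g
    intro i hi
    have hgi : Tendsto (fun k => ((R k).g i : ℝ) / S k) U (𝓝 (d i)) := h.glim i hi
    have hlim : Tendsto (fun k => ((R k).g i : ℝ) / S k - d i * (((R k).c0 : ℝ) / S k)) U
        (𝓝 (d i * (1 - c))) := by
      have := hgi.sub (hc.const_mul (d i : ℝ))
      have e : (d i : ℝ) - d i * c = d i * (1 - c) := by ring
      rw [e] at this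
      exact this
    refine hconv (fun k => ((R2 k).g i : ℝ)) _ (hlim.congr' ?_)
    have hbig := hLS.eventually_gt_atTop ((d i : ℝ) + 1 + (dm : ℝ) * (C * (Ind d v B + 1)))
    have hgb : ∀ᶠ k in (U : Filter ι), ((R k).g i : ℝ) / S k < (d i : ℝ) + 1 :=
      hgi.eventually_lt_const (by linarith)
    filter_upwards [hR2, hSp, hbig, hgb, hcb, hLc] with k hk h1 h2 h3 h4 h5
    have h6 : (0 : ℝ) ≤ (dm : ℝ) * (C * (Ind d v B + 1)) :=
      mul_nonneg (Nat.cast_nonneg _) (mul_nonneg hC0.le (by linarith))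
    have h7 : (R k).g i < (R k).L := by
      have : ((R k).g i : ℝ) / S k < ((R k).L : ℝ) / S k := by linarith
      have := (div_lt_div_iff_of_pos_right h1).1 this
      exact_mod_cast this
    obtain ⟨h8, h9⟩ := hk.2.2.2.2.1 i h7
    have h10 : (R k).g i - d i * (R k).c0 ≤ (R2 k).L := by
      have h11 : (dm : ℝ) * (((R k).c0 : ℝ) / S k) ≤ (dm : ℝ) * (C * (Ind d v B + 1)) :=
        mul_le_mul_of_nonneg_left h4 (Nat.cast_nonneg _)
      have h12 : (((R k).g i : ℝ) + dm * (R k).c0) / S k < ((R k).L : ℝ) / S k := by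
        rw [add_div, mul_div_assoc]
        linarith
      have h13 := (div_lt_div_iff_of_pos_right h1).1 h12
      have h14 : (R k).g i + dm * (R k).c0 < (R k).L := by exact_mod_cast h13
      rw [hk.2.2.1]
      omega
    rw [h9, min_eq_right h10, Nat.cast_sub h8, Nat.cast_mul, sub_div, mul_div_assoc]

alias shift_lim := shift_lim_pr

end Pool.Agent.KSX
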