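import Pool.Agent.Lib_helper77.KSZ.XBase
import Pool.Agent.Lib_helper77.KSZ.XQLC
import Pool.Agent.Lib_helper77.KSZ.XQQ
import Pool.Agent.Lib_helper77.KSZ.XSHL

/-!
# Block IND: relative strictness by induction
-/

namespace Pool.Agent.KSX

open MvPolynomial Pool.Agent.KSS Filter Topology

theorem ind_aux {p : ℕ} (d : Fin p → ℕ) (hd : ∀ i, 2 ≤ d i) (n : ℕ) : ∀ (v : ℕ), v ≤ n →
    ∀ (B E : Finset (Fin p)), Disjoint B E → ∑ i ∈ B, d i < v →
    ((2 ≤ B.card ∧ E = ∅) ∨ (B.card = 1 ∧ E.card = 1) ∨ (B = ∅ ∧ E.card = 2)) →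
    Pst d v B E := by
  induction n with
  | zero =>
    intro v hv B E _ hB _
    omega
  | succ n ih =>
    intro v hv B E hBE hB hcase ι U R q M0 h
    by_contra hnot
    obtain ⟨R2, h2, h0⟩ := shift_lim d hd v B E hBE hB U R q M0 h hnot
    rcases lt_or_ge v (∑ i ∈ B ∪ E, d i) with hv' | hv'
    · exact lc_contra d hd v B E hBE hB hv' U R2 q M0 h2 h0
    · rcases hcase with ⟨hc, rfl⟩ | ⟨hc, hcE⟩ | ⟨rfl, hcE⟩
      · obtain ⟨j, hj⟩ : B.Nonempty := by
          rw [← Finset.card_pos]
          omega
        have hsum : ∑ i ∈ B.erase j, d i + d j = ∑ i ∈ B, d i := Finset.sum_erase_add _ _ hj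
        have hdj := hd j
        have hlt : ∑ i ∈ B.erase j, d i < v - d j := by omega
        have hce : (B.erase j).card = B.card - 1 := Finset.card_erase_of_mem hj
        have hF : 2 ≤ (B ∪ ∅).card := by rwa [Finset.union_empty]
        by_cases h3 : 3 ≤ B.card
        · exact q_contra d hd v B ∅ hBE hF j hB hv' (Or.inl hj) (by simp) ∅ (by simp)
            (ih (v - d j) (by omega) (B.erase j) ∅ (by simp) hlt (Or.inl ⟨by omega, rfl⟩))
            U R2 q M0 h2 h0
        · exact q_contra d hd v B ∅ hBE hF j hB hv' (Or.inl hj) (by simp) {j} (by simp)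
            (ih (v - d j) (by omega) (B.erase j) {j} (by simp) hlt
              (Or.inr (Or.inl ⟨by omega, by simp⟩)))
            U R2 q M0 h2 h0
      · obtain ⟨j, rfl⟩ := Finset.card_eq_one.mp hc
        have hjE : j ∉ E := by
          rw [Finset.disjoint_singleton_left] at hBE
          exact hBE
        have hF : 2 ≤ ({j} ∪ E).card := by
          rw [Finset.card_union_of_disjoint hBE]
          simp [hcE]
        have hdj := hd j
        rw [Finset.sum_singleton] at hB
        have hin : (insert j E).card = 2 := by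
          rw [Finset.card_insert_of_notMem hjE, hcE]
        have he : ({j} : Finset (Fin p)).erase j = ∅ := by simp
        refine q_contra d hd v {j} E hBE hF j (by simpa using hB) hv' (Or.inl (by simp)) ?_
          (insert j E) (Finset.Subset.refl _) ?_ U R2 q M0 h2 h0
        · rw [Finset.erase_eq_of_notMem hjE, hcE]
        · rw [he]
          exact ih (v - d j) (by omega) ∅ (insert j E) (by simp) (by simpa using (by omega : 0 < v - d j))
            (Or.inr (Or.inr ⟨rfl, hin⟩))
      · obtain ⟨j, hj⟩ : E.Nonempty := by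
          rw [← Finset.card_pos]
          omega
        have hdj := hd j
        have hce : (E.erase j).card = 1 := by rw [Finset.card_erase_of_mem hj, hcE]
        obtain ⟨i, hi⟩ := Finset.card_eq_one.mp hce
        have hsum : ∑ i ∈ E.erase j, d i + d j = ∑ i ∈ E, d i := Finset.sum_erase_add _ _ hj
        rw [hi, Finset.sum_singleton] at hsum
        have hdi := hd i
        have hv2 : ∑ i ∈ E, d i ≤ v := by
          rwa [Finset.empty_union] at hv'
        have hlt : 0 < v - d j := by omega
        have he : (∅ : Finset (Fin p)).erase j = ∅ := by simp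
        refine q_contra d hd v ∅ E hBE (by simp [hcE]) j hB hv' (Or.inr ⟨rfl, hj⟩) hce.le
          E (Finset.subset_insert _ _) ?_ U R2 q M0 h2 h0
        rw [he]
        exact ih (v - d j) (by omega) ∅ E (by simp) (by simpa using hlt)
          (Or.inr (Or.inr ⟨rfl, hcE⟩))

/-- (IND) relative strictness -/
theorem pst_all_pr {p : ℕ} (d : Fin p → ℕ) (hd : ∀ i, 2 ≤ d i) (v : ℕ) (B E : Finset (Fin p))
    (hBE : Disjoint B E) (hB : ∑ i ∈ B, d i < v)
    (hcase : (2 ≤ B.card ∧ E = ∅) ∨ (B.card = 1 ∧ E.card = 1) ∨ (B = ∅ ∧ E.card = 2)) :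
    Pst d v B E :=
  ind_aux d hd v v le_rfl B E hBE hB hcase

alias pst_all := pst_all_pr

end Pool.Agent.KSX
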