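import Pool.Agent.Lib_helper77.KSZ.XLIB
import Pool.Agent.Lib_helper77.KSZ.XIND

/-!
# Strictness: all degrees `≥ 1`, at least two of them `≥ 2`
-/

namespace Pool.Agent.KSX

open MvPolynomial Pool.Agent.KSS Filter Topology

theorem lin_NN0 {p p' : ℕ} (d : Fin p → ℕ) (d' : Fin p' → ℕ) (v m : ℕ) :
    NN d v ∅ m = NN d' v ∅ m := by
  unfold NN HS
  simp

theorem lin_prod {M : Type} [CommMonoid M] {p : ℕ} (g : Fin (p + 1) → M) (j : Fin (p + 1)) :
    ∏ i, g i = g j * ∏ i, g (j.succAbove i) := by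
  rw [Fin.prod_univ_succAbove g j]

theorem lin_NN {p : ℕ} (d : Fin (p + 1) → ℕ) (j : Fin (p + 1)) (hj : d j = 1) (v m : ℕ) :
    NN d (v + 1) Finset.univ m = NN (fun i => d (j.succAbove i)) v Finset.univ m := by
  unfold NN HS
  congr 1
  rw [lin_prod (fun i => (1 : PowerSeries ℤ) - PowerSeries.X ^ d i) j, hj, pow_one]
  have h1 : (1 - (PowerSeries.X : PowerSeries ℤ)) *
      (PowerSeries.invOneSubPow ℤ (v + 1) : (PowerSeries ℤ)ˣ) =
      ((PowerSeries.invOneSubPow ℤ v : (PowerSeries ℤ)ˣ) : PowerSeries ℤ) := by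
    have h2 := PowerSeries.invOneSubPow_inv_eq_one_sub_pow ℤ (v + 1)
    have h3 := PowerSeries.invOneSubPow_inv_eq_one_sub_pow ℤ v
    have h4 : (((PowerSeries.invOneSubPow ℤ v)⁻¹ : (PowerSeries ℤ)ˣ) : PowerSeries ℤ) *
        (1 - PowerSeries.X) = (((PowerSeries.invOneSubPow ℤ (v + 1))⁻¹ : (PowerSeries ℤ)ˣ) :
          PowerSeries ℤ) := by
      have h5 : (((PowerSeries.invOneSubPow ℤ v)⁻¹ : (PowerSeries ℤ)ˣ) : PowerSeries ℤ) =
        (1 - PowerSeries.X) ^ v := h3
      have h6 : (((PowerSeries.invOneSubPow ℤ (v + 1))⁻¹ : (PowerSeries ℤ)ˣ) : PowerSeries ℤ) =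
        (1 - PowerSeries.X) ^ (v + 1) := h2
      rw [h5, h6, pow_succ]
    have e1 : ((PowerSeries.invOneSubPow ℤ v : (PowerSeries ℤ)ˣ) : PowerSeries ℤ) *
        (((PowerSeries.invOneSubPow ℤ v)⁻¹ : (PowerSeries ℤ)ˣ) : PowerSeries ℤ) = 1 :=
      Units.mul_inv _
    have e2 : (((PowerSeries.invOneSubPow ℤ (v + 1))⁻¹ : (PowerSeries ℤ)ˣ) : PowerSeries ℤ) *
        ((PowerSeries.invOneSubPow ℤ (v + 1) : (PowerSeries ℤ)ˣ) : PowerSeries ℤ) = 1 :=
      Units.inv_mul _
    calc (1 - (PowerSeries.X : PowerSeries ℤ)) *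
        ((PowerSeries.invOneSubPow ℤ (v + 1) : (PowerSeries ℤ)ˣ) : PowerSeries ℤ)
        = (((PowerSeries.invOneSubPow ℤ v : (PowerSeries ℤ)ˣ) : PowerSeries ℤ) *
          (((PowerSeries.invOneSubPow ℤ v)⁻¹ : (PowerSeries ℤ)ˣ) : PowerSeries ℤ)) *
            (1 - PowerSeries.X) *
            ((PowerSeries.invOneSubPow ℤ (v + 1) : (PowerSeries ℤ)ˣ) : PowerSeries ℤ) := by
          rw [e1, one_mul]
      _ = ((PowerSeries.invOneSubPow ℤ v : (PowerSeries ℤ)ˣ) : PowerSeries ℤ) *
          (((((PowerSeries.invOneSubPow ℤ v)⁻¹ : (PowerSeries ℤ)ˣ) : PowerSeries ℤ) *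
            (1 - PowerSeries.X)) *
            ((PowerSeries.invOneSubPow ℤ (v + 1) : (PowerSeries ℤ)ˣ) : PowerSeries ℤ)) := by
          ring
      _ = ((PowerSeries.invOneSubPow ℤ v : (PowerSeries ℤ)ˣ) : PowerSeries ℤ) := by
          rw [h4, e2, mul_one]
  rw [mul_comm (1 - PowerSeries.X) (∏ i, _), mul_assoc, h1]

theorem lin_Wq {p : ℕ} (d : Fin (p + 1) → ℕ) (j : Fin (p + 1)) (hj : d j = 1) (v : ℕ) (q : ℝ)
    (hq : q < 1) :
    Wq d (v + 1) Finset.univ q = Wq (fun i => d (j.succAbove i)) v Finset.univ q := by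
  have hq' : (1 - q) ≠ 0 := by linarith
  unfold Wq Hq
  rw [lin_prod (fun i => 1 - q ^ d i) j, hj, pow_one,
    Fin.sum_univ_succAbove (fun i => (d i : ℝ) * q ^ d i / (1 - q ^ d i)) j, hj, pow_one]
  have h1 : (1 - q) * (∏ i, (1 - q ^ d (j.succAbove i))) / (1 - q) ^ (v + 1) =
      (∏ i, (1 - q ^ d (j.succAbove i))) / (1 - q) ^ v := by
    rw [pow_succ]
    field_simp
  rw [h1]
  push_cast
  ring

theorem lin_pst {p v : ℕ} (hv : 1 ≤ v) (d : Fin (p + 1) → ℕ) (j : Fin (p + 1)) (hj : d j = 1)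
    (h : Pst (fun i => d (j.succAbove i)) v Finset.univ ∅) :
    Pst d (v + 1) Finset.univ ∅ := by
  classical
  intro ι U R q M0 hNE
  have hex : ∀ n : ι, ∃ R' : Rec p, ((R n).Of d (v + 1) ∧ (R n).g j = (R n).L) →
      R'.Of (fun i => d (j.succAbove i)) v ∧ R'.L = (R n).L ∧ R'.τ = (R n).τ ∧
      R'.c0 = (R n).c0 ∧ (∀ i, R'.g i = (R n).g (j.succAbove i)) ∧
      ∀ m l, l ≤ (R n).L →
        ((R n).fil m l : ℤ) = R'.fil m l + (NN d (v + 1) ∅ m - NN d v ∅ m) := by
    intro n
    by_cases hn : (R n).Of d (v + 1) ∧ (R n).g j = (R n).L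
    · obtain ⟨R', h1⟩ := lib_rec hv d j hj (R n) hn.1 hn.2
      exact ⟨R', fun _ => h1⟩
    · exact ⟨default, fun h => absurd h hn⟩
  choose R' hR' using hex
  have hev : ∀ᶠ n in U, (R n).Of d (v + 1) ∧ (R n).g j = (R n).L := by
    filter_upwards [hNE.of, hNE.gB] with n h1 h2
    exact ⟨h1, h2 j (Finset.mem_univ _)⟩
  have hs : ∀ᶠ n in U, sn (fun i => d (j.succAbove i)) v Finset.univ R' q M0 n =
      sn d (v + 1) Finset.univ R q M0 n := by
    filter_upwards [hev, hNE.q01] with n h1 h2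
    obtain ⟨h3, h4, h5, h6, h7, h8⟩ := hR' n h1
    unfold sn Rec.s
    rw [lin_Wq d j hj v (q n) h2.2]
    congr 1
    unfold Rec.Lam
    refine Finset.sum_congr rfl fun m _ => ?_
    congr 1
    unfold Rec.sig
    rw [h4]
    refine Finset.sum_congr rfl fun l hl => ?_
    rw [Finset.mem_Icc] at hl
    have h9 := h8 m l hl.2
    have h10 : ((R n).fil m l : ℝ) = (R' n).fil m l + ((NN d (v + 1) ∅ m : ℝ) - NN d v ∅ m) := by
      exact_mod_cast h9
    rw [h10, lin_NN d j hj v m, lin_NN0 d (fun i => d (j.succAbove i)) v m]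
    ring
  have hcd : ∀ᶠ n in U, (R' n).cd v Finset.univ = (R n).cd (v + 1) Finset.univ := by
    filter_upwards [hev] with n h1
    obtain ⟨h3, h4, h5, h6, h7, h8⟩ := hR' n h1
    unfold Rec.cd
    rw [h4, h5]
    simp only [Finset.card_univ, Fintype.card_fin]
    push_cast
    ring
  have hInd : Ind (fun i => d (j.succAbove i)) v Finset.univ = Ind d (v + 1) Finset.univ := by
    unfold Ind
    rw [Fin.sum_univ_succAbove (fun i => (d i : ℝ)) j, hj]
    push_cast
    ring
  have hNE' : NE (fun i => d (j.succAbove i)) v Finset.univ ∅ U R' q M0 :=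
    { of := by
        filter_upwards [hev] with n h1
        exact (hR' n h1).1
      gB := by
        filter_upwards [hev, hNE.gB] with n h1 h2 i _
        obtain ⟨h3, h4, h5, h6, h7, h8⟩ := hR' n h1
        rw [h7, h4]
        exact h2 _ (Finset.mem_univ _)
      q01 := hNE.q01
      qlim := hNE.qlim
      M0lim := hNE.M0lim
      spos := by
        filter_upwards [hs, hNE.spos] with n h1 h2
        rw [h1]
        exact h2
      Llim := by
        refine hNE.Llim.congr' ?_
        filter_upwards [hs, hev] with n h1 h2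
        rw [h1, (hR' n h2).2.1]
      cdlim := by
        rw [hInd]
        refine hNE.cdlim.congr' ?_
        filter_upwards [hs, hcd] with n h1 h2
        rw [h1, h2]
      glim := by simp }
  refine (h ι U R' q M0 hNE').congr' ?_
  filter_upwards [hs, hev] with n h1 h2
  rw [h1, (hR' n h2).2.2.2.1]

/-- relative strictness for all multidegrees with at least two degrees `≥ 2` -/
theorem pst_ge_one {p : ℕ} : ∀ (d : Fin p → ℕ) (_ : ∀ i, 1 ≤ d i) (v : ℕ)
    (_ : ∑ i, d i < v) (_ : 2 ≤ (Finset.univ.filter fun i => 2 ≤ d i).card),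
    Pst d v Finset.univ ∅ := by
  induction p with
  | zero =>
    intro d _ v _ h2
    simp at h2
  | succ p ih =>
    intro d hd v hv h2
    by_cases hall : ∀ i, 2 ≤ d i
    · refine pst_all d hall v Finset.univ ∅ (by simp) (by simpa using hv) (Or.inl ⟨?_, rfl⟩)
      refine h2.trans (Finset.card_le_card (Finset.filter_subset _ _))
    · push Not at hall
      obtain ⟨j, hj⟩ := hall
      have hj1 : d j = 1 := le_antisymm (by omega) (hd j)
      obtain ⟨v', rfl⟩ : ∃ v', v = v' + 1 := ⟨v - 1, by omega⟩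
      have hsum : ∑ i, d (j.succAbove i) < v' := by
        rw [Fin.sum_univ_succAbove d j, hj1] at hv
        omega
      refine lin_pst (by omega) d j hj1 (ih (fun i => d (j.succAbove i)) (fun i => hd _) v' hsum ?_)
      have hcard : (Finset.univ.filter fun i : Fin (p + 1) => 2 ≤ d i).card ≤
          (Finset.univ.filter fun i : Fin p => 2 ≤ d (j.succAbove i)).card := by
        have hsub : (Finset.univ.filter fun i : Fin (p + 1) => 2 ≤ d i) ⊆
            (Finset.univ.filter fun i : Fin p => 2 ≤ d (j.succAbove i)).image j.succAbove := by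
          intro i hi
          rw [Finset.mem_filter] at hi
          have hij : i ≠ j := by
            rintro rfl
            omega
          obtain ⟨i', rfl⟩ := Fin.exists_succAbove_eq hij
          exact Finset.mem_image_of_mem _ (Finset.mem_filter.2 ⟨Finset.mem_univ _, hi.2⟩)
        exact (Finset.card_le_card hsub).trans Finset.card_image_le
      exact h2.trans hcard

end Pool.Agent.KSX
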