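import Pool.Agent.Lib_helper77.KSZ.KStab
import Pool.Agent.Lib_helper77.KSZ.Fin4
import Pool.Agent.Lib_helper77.KSZ.Lin
import Pool.Agent.Lib_helper77.KSSP.VG

/-!
# Uniform K-stability of very general Fano complete intersections
-/

namespace Pool.Agent.KSS

open MvPolynomial
open scoped ENNReal

theorem expVan_eq {n k : ℕ} (d : Fin k → ℕ) (hd : ∀ i, 1 ≤ d i) (hF : ∑ i, d i ≤ n + k)
    (f : Fin k → MvPolynomial (Fin (n + k + 1)) ℂ) (hf : Gen d f) (E : DivisorOver f n) :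
    ExpVan d E = E.Svol (n + k + 1 - ∑ i, d i) := by
  have hhom : ∀ i, ∃ e, (f i).IsHomogeneous e := fun i => ⟨d i, hf.1 i⟩
  have hcard : (Finset.univ : Finset (Fin k)).card ≤ n + k + 1 := by
    rw [Finset.card_univ, Fintype.card_fin]; omega
  have hSec : ∀ m, (Module.finrank ℂ (Sec f m) : ℤ) = NN d (n + k + 1) Finset.univ m := by
    intro m
    have h0 := hilb_pr d hd (n + k + 1) Finset.univ hcard ℂ f hf m
    rw [Finset.coe_univ, Set.image_univ] at h0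
    have h1 := fb_sec f hhom m
    have h2 := finrank_hom_pr ℂ d (n + k + 1) m
    have h3 : (Module.finrank ℂ (Sec f m) : ℤ) + (Module.finrank ℂ (IM (Set.range f) m) : ℤ) =
      (Module.finrank ℂ (homogeneousSubmodule (Fin (n + k + 1)) ℂ m) : ℤ) := by exact_mod_cast h1
    rw [h2, h0] at h3
    linarith
  have hvol := vo_vol d (n + k + 1 - ∑ i, d i) (by omega) f hSec E
  unfold ExpVan DivisorOver.Svol
  rw [hvol]

theorem kstable_main (n k : ℕ) (d : Fin k → ℕ) (hd : ∀ i, 1 ≤ d i)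
    (h2 : 2 ≤ (Finset.univ.filter fun i => 2 ≤ d i).card) (hF : ∑ i, d i ≤ n + k) :
    (∃ f : Fin k → MvPolynomial (Fin (n + k + 1)) ℂ, Gen d f) ∧
      ∃ ε : ℝ, 0 < ε ∧ ∀ f : Fin k → MvPolynomial (Fin (n + k + 1)) ℂ, Gen d f →
        SmoothCI f ∧ ∀ E : DivisorOver f n,
          ENNReal.ofReal (1 + ε) * ExpVan d E ≤ (E.A : ℝ≥0∞) := by
  refine ⟨vg_exists d, ?_⟩
  obtain ⟨ε, hε, h⟩ := fin_main d hd hF
    (Pool.Agent.KSX.pst_ge_one d hd (n + k + 1) (by omega) h2)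
  refine ⟨ε, hε, fun f hf => ⟨sm_smooth d hd f hf, fun E => ?_⟩⟩
  rw [expVan_eq d hd hF f hf E]
  exact h f hf E

end Pool.Agent.KSS
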