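import Pool.Agent.Lib_helper80.KSX.EQB
import Pool.Agent.Lib_helper56.KSS.T

/-! Refined local inequality, part 1: limits of jets and substitutions.  MP_2c2240_ag. -/

namespace Pool.Agent.Lib_helper80.KSX

open MvPolynomial Pool.Agent.KSS Pool.Agent.Lib_helper56.KSS

/-- a jet as a point -/
abbrev pt {V F : Type} {L : ℕ} (x : V → Fin L → F) : V × Fin L → F := fun p => x p.1 p.2

/-- weights of the coordinates of a jet -/
abbrev pw {V : Type} (L : ℕ) (w : V → ℕ) : V × Fin L → ℕ := fun p => w p.1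

theorem limJ {O : Type} [CommRing O] {K : Type} [Field K] [Algebra O K] {k1 : Type} [Field k1]
    (π : O →+* k1) {F : Type} [Field F] [Algebra K F] {F0 : Type} [Field F0] [Algebra k1 F0]
    {V : Type} (w : V → ℕ) {L : ℕ} {x : V → Fin L → F} {z : V → Fin L → F0}
    (h : Lim (K := K) π (pw L w) (pt x) (pt z)) :
    ∀ (P : MvPolynomial V O) (D : ℕ), IsWeightedHomogeneous w P D → ∀ l ≤ L,
        (PowerSeries.X : PowerSeries F) ^ l ∣ ev x (MvPolynomial.map (algebraMap O K) P) →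
        (PowerSeries.X : PowerSeries F0) ^ l ∣ ev z (MvPolynomial.map π P) := by
  intro P D hP l hl hd
  rw [PowerSeries.X_pow_dvd_iff] at hd ⊢
  intro μ hμ
  have h3 := hd μ hμ
  rw [← aeval_cJ, ← map_cJ] at h3
  have h4 := h (cJ L P μ) D (cJ_homog w hP μ) h3
  rw [map_cJ] at h4
  rw [← aeval_cJ]
  exact h4

theorem tlimJ {k : Type} [Field k] {F : Type} [Field F] [Algebra k F] {F0 : Type} [Field F0]
    [Algebra k F0] {V : Type} (w ω : V → ℕ) {L : ℕ} {x : V → Fin L → F} {z : V → Fin L → F0}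
    (h : TLim (k := k) (pw L w) (pw L ω) (pt x) (pt z)) :
    ∀ (P : MvPolynomial V k) (D χ : ℕ), IsWeightedHomogeneous w P D →
        (∀ d ∈ P.support, χ ≤ Finsupp.weight ω d) → ∀ l ≤ L,
        (PowerSeries.X : PowerSeries F) ^ l ∣ ev x P →
        (PowerSeries.X : PowerSeries F0) ^ l ∣ ev z (weightedHomogeneousComponent ω χ P) := by
  intro P D χ hP hχ l hl hd
  rw [PowerSeries.X_pow_dvd_iff] at hd ⊢
  intro μ hμ
  have h3 := hd μ hμ
  rw [← aeval_cJ] at h3
  have h4 := h (cJ L P μ) D χ (cJ_homog w hP μ) h3 (cJ_support ω χ P hχ μ)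
  rw [← cJ_whc] at h4
  rw [← aeval_cJ]
  exact h4

theorem Spec.tlim {k F Fz Fz' I : Type} [Field k] [Field F] [Algebra k F] [Field Fz] [Algebra k Fz]
    [Field Fz'] [Algebra k Fz'] {w ω : I → ℕ} {y : I → F} {z : I → Fz} {z' : I → Fz'}
    (h : Spec (k := k) w y z) (h' : TLim (k := k) w ω z z') : TLim (k := k) w ω y z' :=
  fun P D χ hP h0 hχ => h' P D χ hP (h P D hP h0) hχ

/-- orders do not drop -/
theorem lim_ord {O : Type} [CommRing O] {K : Type} [Field K] [Algebra O K] {k1 : Type} [Field k1]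
    (π : O →+* k1) {F : Type} [Field F] [Algebra K F] {F0 : Type} [Field F0] [Algebra k1 F0]
    {V : Type} (w : V → ℕ) {L : ℕ} {x : V → Fin L → F} {z : V → Fin L → F0}
    (h : Lim (K := K) π (pw L w) (pt x) (pt z)) (i : V) :
    ordL L (arc (x i)) ≤ ordL L (arc (z i)) := by
  rw [← dvd_iff_le_ordL (ordL_le _ _)]
  have h1 := limJ π w h (X i) (w i) (isWeightedHomogeneous_X _ _ _) (ordL L (arc (x i)))
    (ordL_le _ _) (by rw [map_X, ev_X]; exact ordL_dvd _ _)
  rwa [map_X, ev_X] at h1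

theorem tlim_ord {k : Type} [Field k] {F : Type} [Field F] [Algebra k F] {F0 : Type} [Field F0]
    [Algebra k F0] {V : Type} (w ω : V → ℕ) {L : ℕ} {x : V → Fin L → F} {z : V → Fin L → F0}
    (h : TLim (k := k) (pw L w) (pw L ω) (pt x) (pt z)) (i : V) :
    ordL L (arc (x i)) ≤ ordL L (arc (z i)) := by
  rw [← dvd_iff_le_ordL (ordL_le _ _)]
  have h1 := tlimJ w ω h (X i) (w i) (ω i) (isWeightedHomogeneous_X _ _ _)
    (fun d hd => ((isWeightedHomogeneous_X k ω i) (mem_support_iff.1 hd)).ge) (ordL L (arc (x i)))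
    (ordL_le _ _) (by rw [ev_X]; exact ordL_dvd _ _)
  rwa [weightedHomogeneousComponent_eq_self (isWeightedHomogeneous_X k ω i), ev_X] at h1

theorem spec_ord {k : Type} [Field k] {F : Type} [Field F] [Algebra k F] {F0 : Type} [Field F0]
    [Algebra k F0] {V : Type} (w : V → ℕ) {L : ℕ} {x : V → Fin L → F} {z : V → Fin L → F0}
    (h : Spec (k := k) (pw L w) (pt x) (pt z)) (i : V) :
    ordL L (arc (x i)) ≤ ordL L (arc (z i)) := by
  rw [← dvd_iff_le_ordL (ordL_le _ _), PowerSeries.X_pow_dvd_iff]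
  intro μ hμ
  have hμL : μ < L := lt_of_lt_of_le hμ (ordL_le _ _)
  have h1 := coeff_arc (z i) ⟨μ, hμL⟩
  simp only at h1
  rw [h1]
  have h2 := h (X (i, ⟨μ, hμL⟩)) _ (isWeightedHomogeneous_X _ _ _) (by
    rw [aeval_X]
    exact eq_zero_of_lt_ordL (x i) ⟨μ, hμL⟩ hμ)
  rwa [aeval_X] at h2

section sub

variable {R : Type} [CommRing R]

theorem whom_bind {I J : Type} {u : I → ℕ} {w : J → ℕ} (g : I → MvPolynomial J R)
    (hg : ∀ i, IsWeightedHomogeneous w (g i) (u i)) (d : I →₀ ℕ) (c : R) :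
    IsWeightedHomogeneous w (bind₁ g (monomial d c)) (Finsupp.weight u d) := by
  rw [bind₁_monomial]
  have h2 : IsWeightedHomogeneous w (∏ i ∈ d.support, g i ^ d i) (∑ i ∈ d.support, d i • u i) := by
    apply IsWeightedHomogeneous.prod
    intro i _
    exact (hg i).pow (d i)
  have h3 := (isWeightedHomogeneous_C w c).mul h2
  rw [zero_add] at h3
  rw [Finsupp.weight_apply, Finsupp.sum]
  exact h3

theorem whom_bind' {I J : Type} {u : I → ℕ} {w : J → ℕ} (g : I → MvPolynomial J R)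
    (hg : ∀ i, IsWeightedHomogeneous w (g i) (u i)) {P : MvPolynomial I R} {D : ℕ}
    (hP : IsWeightedHomogeneous u P D) : IsWeightedHomogeneous w (bind₁ g P) D := by
  rw [P.as_sum, map_sum]
  apply IsWeightedHomogeneous.sum
  intro d hd
  have := whom_bind g hg d (coeff d P)
  rwa [hP (mem_support_iff.1 hd)] at this

theorem whc_bind {I J : Type} {u : I → ℕ} {w : J → ℕ} (g : I → MvPolynomial J R)
    (hg : ∀ i, IsWeightedHomogeneous w (g i) (u i)) (χ : ℕ) (P : MvPolynomial I R) :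
    weightedHomogeneousComponent w χ (bind₁ g P) = bind₁ g (weightedHomogeneousComponent u χ P) := by
  induction P using MvPolynomial.induction_on' with
  | monomial d a =>
    have h1 := whom_bind g hg d a
    by_cases h : Finsupp.weight u d = χ
    · subst h
      rw [weightedHomogeneousComponent_eq_self (isWeightedHomogeneous_monomial u d a rfl),
        weightedHomogeneousComponent_eq_self h1]
    · rw [h1.weightedHomogeneousComponent_ne _ (Ne.symm h),
        (isWeightedHomogeneous_monomial u d a rfl).weightedHomogeneousComponent_ne _ (Ne.symm h),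
        map_zero]
  | add p q hp hq => rw [map_add, map_add, map_add, map_add, hp, hq]

theorem supp_bind {I J : Type} {u : I → ℕ} {w : J → ℕ} (g : I → MvPolynomial J R)
    (hg : ∀ i, IsWeightedHomogeneous w (g i) (u i)) (χ : ℕ) (P : MvPolynomial I R)
    (hP : ∀ d ∈ P.support, χ ≤ Finsupp.weight u d) :
    ∀ d ∈ (bind₁ g P).support, χ ≤ Finsupp.weight w d := by
  intro d hd
  by_contra hcon
  push Not at hcon
  have h1 : weightedHomogeneousComponent u (Finsupp.weight w d) P = 0 := by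
    ext d'
    rw [coeff_weightedHomogeneousComponent, coeff_zero]
    split_ifs with h
    · by_contra h2
      have := hP d' (mem_support_iff.2 h2)
      omega
    · rfl
  have h2 := whc_bind g hg (Finsupp.weight w d) P
  rw [h1, map_zero] at h2
  have h3 := congrArg (coeff d) h2
  rw [coeff_zero, coeff_weightedHomogeneousComponent, if_pos rfl] at h3
  exact (mem_support_iff.1 hd) h3

/-- substitution of a jet in polynomials -/
noncomputable def subJ {k κ V T : Type} [Field k] [Field κ] [Algebra k κ] {L : ℕ}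
    (Ψ : T → MvPolynomial V k) (x : V → Fin L → κ) : T → Fin L → κ :=
  fun t μ => PowerSeries.coeff (μ : ℕ) (ev x (Ψ t))

/-- the substitution on the level of points -/
noncomputable def subP {V T : Type} (L : ℕ) (Ψ : T → MvPolynomial V R) :
    MvPolynomial (T × Fin L) R →ₐ[R] MvPolynomial (V × Fin L) R :=
  bind₁ fun p : T × Fin L => cJ L (Ψ p.1) (p.2 : ℕ)

theorem subP_map {S : Type} [CommRing S] (f : R →+* S) {V T : Type} (L : ℕ)
    (Ψ : T → MvPolynomial V R) (P : MvPolynomial (T × Fin L) R) :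
    MvPolynomial.map f (subP L Ψ P) = subP L (fun t => MvPolynomial.map f (Ψ t)) (MvPolynomial.map f P) := by
  unfold subP
  rw [map_bind₁]
  congr 1
  congr 1
  funext p
  rw [map_cJ]

theorem aeval_subP {k κ V T : Type} [Field k] [Field κ] [Algebra k κ] {L : ℕ}
    (Ψ : T → MvPolynomial V k) (x : V → Fin L → κ) (P : MvPolynomial (T × Fin L) k) :
    aeval (pt x) (subP L Ψ P) = aeval (pt (subJ Ψ x)) P := by
  unfold subP
  rw [aeval_bind₁]
  congr 1
  congr 1
  funext p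
  rw [aeval_cJ]
  rfl

theorem subP_homog {V T : Type} {w : V → ℕ} {u : T → ℕ} {L : ℕ} (Ψ : T → MvPolynomial V R)
    (hΨ : ∀ t, IsWeightedHomogeneous w (Ψ t) (u t)) {P : MvPolynomial (T × Fin L) R} {D : ℕ}
    (hP : IsWeightedHomogeneous (pw L u) P D) : IsWeightedHomogeneous (pw L w) (subP L Ψ P) D := by
  have h1 : ∀ p : T × Fin L, IsWeightedHomogeneous (pw L w) (cJ L (Ψ p.1) (p.2 : ℕ)) (pw L u p) :=
    fun p => cJ_homog w (hΨ p.1) _
  exact whom_bind' (u := pw L u) (w := pw L w) (fun p : T × Fin L => cJ L (Ψ p.1) (p.2 : ℕ)) h1 hP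

theorem subP_whc {V T : Type} {w : V → ℕ} {u : T → ℕ} {L : ℕ} (Ψ : T → MvPolynomial V R)
    (hΨ : ∀ t, IsWeightedHomogeneous w (Ψ t) (u t)) (χ : ℕ) (P : MvPolynomial (T × Fin L) R) :
    weightedHomogeneousComponent (pw L w) χ (subP L Ψ P) =
      subP L Ψ (weightedHomogeneousComponent (pw L u) χ P) := by
  have h1 : ∀ p : T × Fin L, IsWeightedHomogeneous (pw L w) (cJ L (Ψ p.1) (p.2 : ℕ)) (pw L u p) :=
    fun p => cJ_homog w (hΨ p.1) _
  exact whc_bind (w := pw L w) (u := pw L u) (fun p : T × Fin L => cJ L (Ψ p.1) (p.2 : ℕ)) h1 χ P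

theorem subP_supp {V T : Type} {w : V → ℕ} {u : T → ℕ} {L : ℕ} (Ψ : T → MvPolynomial V R)
    (hΨ : ∀ t, IsWeightedHomogeneous w (Ψ t) (u t)) (χ : ℕ) (P : MvPolynomial (T × Fin L) R)
    (hP : ∀ d ∈ P.support, χ ≤ Finsupp.weight (pw L u) d) :
    ∀ d ∈ (subP L Ψ P).support, χ ≤ Finsupp.weight (pw L w) d := by
  have h1 : ∀ p : T × Fin L, IsWeightedHomogeneous (pw L w) (cJ L (Ψ p.1) (p.2 : ℕ)) (pw L u p) :=
    fun p => cJ_homog w (hΨ p.1) _
  exact supp_bind (w := pw L w) (u := pw L u) (fun p : T × Fin L => cJ L (Ψ p.1) (p.2 : ℕ)) h1 χ P hP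

theorem Lim.sub {O : Type} [CommRing O] {K : Type} [Field K] [Algebra O K] {k1 : Type} [Field k1]
    {π : O →+* k1} {F : Type} [Field F] [Algebra K F] {F0 : Type} [Field F0] [Algebra k1 F0]
    {V T : Type} {w : V → ℕ} {L : ℕ} {x : V → Fin L → F} {z : V → Fin L → F0}
    (h : Lim (K := K) π (pw L w) (pt x) (pt z)) (u : T → ℕ) (Ψ : T → MvPolynomial V O)
    (hΨ : ∀ t, IsWeightedHomogeneous w (Ψ t) (u t)) :
    Lim (K := K) π (pw L u) (pt (subJ (fun t => MvPolynomial.map (algebraMap O K) (Ψ t)) x))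
      (pt (subJ (fun t => MvPolynomial.map π (Ψ t)) z)) := by
  intro P D hP h0
  have h1 := subP_homog Ψ hΨ hP
  rw [← aeval_subP, ← subP_map] at h0
  rw [← aeval_subP, ← subP_map]
  exact h _ D h1 h0

theorem TLim.sub {k : Type} [Field k] {F : Type} [Field F] [Algebra k F] {F0 : Type} [Field F0]
    [Algebra k F0] {V T : Type} {w ω : V → ℕ} {L : ℕ} {x : V → Fin L → F} {z : V → Fin L → F0}
    (h : TLim (k := k) (pw L w) (pw L ω) (pt x) (pt z)) (u υ : T → ℕ) (Ψ : T → MvPolynomial V k)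
    (hΨ : ∀ t, IsWeightedHomogeneous w (Ψ t) (u t))
    (hΨ' : ∀ t, IsWeightedHomogeneous ω (Ψ t) (υ t)) :
    TLim (k := k) (pw L u) (pw L υ) (pt (subJ Ψ x)) (pt (subJ Ψ z)) := by
  intro P D χ hP h0 hχ
  have h1 := subP_homog Ψ hΨ hP
  have h2 := subP_whc Ψ hΨ' χ P
  have h3 := subP_supp Ψ hΨ' χ P hχ
  rw [← aeval_subP] at h0
  rw [← aeval_subP, ← h2]
  exact h _ D χ h1 h0 h3

/-- the arc of a substituted jet -/
theorem arc_subJ {k κ V T : Type} [Field k] [Field κ] [Algebra k κ] {L : ℕ}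
    (Ψ : T → MvPolynomial V k) (x : V → Fin L → κ) (t : T) :
    (PowerSeries.X : PowerSeries κ) ^ L ∣ arc (subJ Ψ x t) - ev x (Ψ t) := by
  rw [PowerSeries.X_pow_dvd_iff]
  intro μ hμ
  rw [map_sub]
  have h1 := coeff_arc (subJ Ψ x t) ⟨μ, hμ⟩
  simp only at h1
  rw [h1]
  simp [subJ]

theorem ordL_congr {κ : Type} [Field κ] {L : ℕ} {f g : PowerSeries κ}
    (h : (PowerSeries.X : PowerSeries κ) ^ L ∣ f - g) : ordL L f = ordL L g := by
  have h2 : (PowerSeries.X : PowerSeries κ) ^ L ∣ f + -g := by rwa [← sub_eq_add_neg]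
  have h3 := ordL_eq_of_dvd_add h2
  rw [h3]
  apply le_antisymm
  · rw [← dvd_iff_le_ordL (ordL_le _ _)]
    have := ordL_dvd L (-g)
    rwa [dvd_neg] at this
  · rw [← dvd_iff_le_ordL (ordL_le _ _), dvd_neg]
    exact ordL_dvd L g

theorem ordL_subJ {k κ V T : Type} [Field k] [Field κ] [Algebra k κ] {L : ℕ}
    (Ψ : T → MvPolynomial V k) (x : V → Fin L → κ) (t : T) :
    ordL L (arc (subJ Ψ x t)) = ordL L (ev x (Ψ t)) := ordL_congr (arc_subJ Ψ x t)

/-- evaluation at a substituted jet -/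
theorem ev_subJ {k κ V T : Type} [Field k] [Field κ] [Algebra k κ] {L : ℕ}
    (Ψ : T → MvPolynomial V k) (x : V → Fin L → κ) (P : MvPolynomial T k) :
    (PowerSeries.X : PowerSeries κ) ^ L ∣ ev (subJ Ψ x) P - ev x (bind₁ Ψ P) := by
  induction P using MvPolynomial.induction_on with
  | C a =>
    unfold ev
    rw [bind₁_C_right, aeval_C, aeval_C, sub_self]
    exact dvd_zero _
  | add p q hp hq =>
    rw [map_add, ev_add, ev_add]
    have : ev (subJ Ψ x) p + ev (subJ Ψ x) q - (ev x (bind₁ Ψ p) + ev x (bind₁ Ψ q)) =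
        (ev (subJ Ψ x) p - ev x (bind₁ Ψ p)) + (ev (subJ Ψ x) q - ev x (bind₁ Ψ q)) := by ring
    rw [this]
    exact dvd_add hp hq
  | mul_X p t hp =>
    rw [map_mul, ev_mul, ev_mul, bind₁_X_right, ev_X]
    have : ev (subJ Ψ x) p * arc (subJ Ψ x t) - ev x (bind₁ Ψ p) * ev x (Ψ t) =
        (ev (subJ Ψ x) p - ev x (bind₁ Ψ p)) * arc (subJ Ψ x t) +
          ev x (bind₁ Ψ p) * (arc (subJ Ψ x t) - ev x (Ψ t)) := by ring
    rw [this]
    exact dvd_add (hp.mul_right _) ((arc_subJ Ψ x t).mul_left _)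

end sub

end Pool.Agent.Lib_helper80.KSX
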