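import Pool.Agent.Lib_helper77.KSZ.R1

/-! Refined local inequality, part 2: double toric degeneration.  MP_2c2240_ag. -/

namespace Pool.Agent.Lib_helper80.KSX

open MvPolynomial Pool.Agent.KSS Pool.Agent.Lib_helper56.KSS

theorem wfin {T : Type} [Finite T] (u : T → ℕ) (hu : ∀ t, 0 < u t) (m : ℕ) :
    {d : T →₀ ℕ | Finsupp.weight u d = m}.Finite := by
  apply (slc_finite u hu m).subset
  intro d hd
  exact (show Finsupp.weight u d = m from hd).le

/-- the full torus separates monomials -/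
theorem full_sep {T : Type} [Fintype T] (u : T → ℕ) (hu : ∀ t, 0 < u t) (M0 : ℕ) :
    ∃ ω : T → ℕ, ∀ m ≤ M0, ∀ d d' : T →₀ ℕ, Finsupp.weight u d = m → Finsupp.weight u d' = m →
      Finsupp.weight ω d = Finsupp.weight ω d' → d = d' := by
  classical
  refine ⟨fun t => (M0 + 1) ^ ((Fintype.equivFin T t : Fin (Fintype.card T)) : ℕ), ?_⟩
  intro m hm d d' hd hd' h
  have hle : ∀ d : T →₀ ℕ, Finsupp.weight u d = m → ∀ t, d t ≤ m := by
    intro d hd t
    rw [← hd, Finsupp.weight_apply, Finsupp.sum_fintype _ _ (by intro i; rw [zero_smul])]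
    have h1 := Finset.single_le_sum (f := fun t => d t • u t) (fun _ _ => Nat.zero_le _)
      (Finset.mem_univ t)
    have h2 := hu t
    simp only [smul_eq_mul] at h1 ⊢
    have h3 : d t * 1 ≤ d t * u t := Nat.mul_le_mul_left _ h2
    omega
  have h3 := digits_zero ((M0 : ℤ) + 1) (Fintype.card T)
    (fun i => (d ((Fintype.equivFin T).symm i) : ℤ) - d' ((Fintype.equivFin T).symm i)) (by
    intro i
    have ha := hle d hd ((Fintype.equivFin T).symm i)
    have hb := hle d' hd' ((Fintype.equivFin T).symm i)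
    rw [abs_lt]
    constructor <;> omega) (by
    have hw : ∀ d : T →₀ ℕ, (Finsupp.weight
        (fun t => (M0 + 1) ^ ((Fintype.equivFin T t : Fin (Fintype.card T)) : ℕ)) d : ℤ) =
        ∑ i : Fin (Fintype.card T), (d ((Fintype.equivFin T).symm i) : ℤ) * ((M0 : ℤ) + 1) ^ (i : ℕ) := by
      intro d
      rw [Finsupp.weight_apply, Finsupp.sum_fintype _ _ (by intro i; rw [zero_smul]),
        ← (Fintype.equivFin T).symm.sum_comp]
      push_cast
      simp only [smul_eq_mul, Equiv.apply_symm_apply]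
      push_cast
      rfl
    simp only [sub_mul, Finset.sum_sub_distrib]
    rw [← hw, ← hw, h, sub_self])
  ext t
  have := h3 (Fintype.equivFin T t)
  rw [Equiv.symm_apply_apply] at this
  omega

theorem TD {O : Type} [CommRing O] [IsDomain O] [ValuationRing O] {K : Type} [Field K]
    [Algebra O K] [IsFractionRing O K] {k1 : Type} [Field k1] (π : O →+* k1)
    (hπ : Function.Surjective π)
    {F F1 F2 : Type} [Field F] [Algebra K F] [Field F1] [Algebra k1 F1] [Field F2] [Algebra k1 F2]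
    {T : Type} [Fintype T] {L : ℕ} (u υ : T → ℕ) (hu : ∀ t, 0 < u t) (y : T → Fin L → F)
    (y1 : T → Fin L → F1) (y2 : T → Fin L → F2)
    (h1 : Lim (K := K) π (pw L u) (pt y) (pt y1))
    (h2 : TLim (k := k1) (pw L u) (pw L υ) (pt y1) (pt y2)) (M0 : ℕ) :
    ∃ o o3 : T → ℕ, (∀ t, ordL L (arc (y t)) ≤ o t) ∧ (∀ t, o t ≤ o3 t) ∧
      (∀ t, ordL L (arc (y2 t)) ≤ o3 t) ∧
      tauJ K y + ∑ t, o t ≤ Fintype.card T * L ∧ tauJ k1 y2 + ∑ t, o3 t ≤ Fintype.card T * L ∧
      ∀ m ≤ M0, ∀ l ≤ L, Module.finrank K (FM K y {d | Finsupp.weight u d = m} l) ≤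
        Nat.card {d : T →₀ ℕ | Finsupp.weight u d = m ∧ l ≤ ∑ t, d t * o t} := by
  classical
  obtain ⟨ω, hω⟩ := full_sep u hu M0
  obtain ⟨A1, _, _, a1, ha1, ha2, ha3⟩ := EQh (K := K) π hπ (pw L u) (pt y) (pt y1) h1
  obtain ⟨A2, _, _, a2, hb1, hb2, hb3⟩ := EQTI (k := k1) (pw L u) (pw L υ) (fun p => hu p.1) a1
    (pt y2) (ha3.tlim h2)
  obtain ⟨A3, _, _, z3, hc1, hc2⟩ := TI (k := k1) (pw L u) (pw L ω) (fun p => hu p.1) (pt y2)
  have hc2' : TLim (k := k1) (pw L u) (pw L ω) (pt y2) z3 := fun P D χ hP h0 hχ => hc2 P D χ hP h0 hχ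
  obtain ⟨A4, _, _, a3, hd1, hd2, hd3⟩ := EQTI (k := k1) (pw L u) (pw L ω) (fun p => hu p.1) a2 z3
    (hb3.tlim hc2')
  -- jets
  obtain ⟨j1, hj1⟩ : ∃ j1 : T → Fin L → A1, pt j1 = a1 := ⟨fun t μ => a1 (t, μ), rfl⟩
  obtain ⟨j2, hj2⟩ : ∃ j2 : T → Fin L → A2, pt j2 = a2 := ⟨fun t μ => a2 (t, μ), rfl⟩
  obtain ⟨j3, hj3⟩ : ∃ j3 : T → Fin L → A4, pt j3 = a3 := ⟨fun t μ => a3 (t, μ), rfl⟩
  obtain ⟨jz, hjz⟩ : ∃ jz : T → Fin L → A3, pt jz = z3 := ⟨fun t μ => z3 (t, μ), rfl⟩
  subst hj1 hj2 hj3 hjz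
  refine ⟨fun t => ordL L (arc (j3 t)), fun t => ordL L (arc (jz t)), ?_, ?_, ?_, ?_, ?_, ?_⟩
  · intro t
    exact ((lim_ord (K := K) π u ha2 t).trans (tlim_ord u υ hb2 t)).trans (tlim_ord u ω hd2 t)
  · intro t
    exact spec_ord u hd3 t
  · intro t
    exact tlim_ord u ω hc2' t
  · have h3 := tauJ_add_ord_le (k := k1) j3
    have h4 : tauJ K y ≤ tauJ k1 j3 := by
      unfold tauJ
      rw [tau_eq, tau_eq]
      exact (ha1.trans hb1).trans hd1
    simp only
    omega
  · have h3 := tauJ_add_ord_le (k := k1) jz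
    have h4 : tauJ k1 y2 ≤ tauJ k1 jz := by
      unfold tauJ
      rw [tau_eq, tau_eq]
      exact hc1
    simp only
    omega
  · intro m hm l hl
    have hMf := wfin u hu m
    have i1 : Finite {d : T →₀ ℕ | Finsupp.weight u d = m} := hMf
    have hA := FM_special π u y j1 (limJ π u ha2) {d | Finsupp.weight u d = m} m (fun d hd => hd) l hl
    -- the second degeneration
    have hC : ∀ S' : Finset (T →₀ ℕ), (∀ d ∈ S', Finsupp.weight u d = m) →
        Module.finrank k1 (FM k1 j2 (S' : Set (T →₀ ℕ)) l) ≤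
          (S'.filter fun d => l ≤ ∑ t, d t * ordL L (arc (j3 t))).card := by
      intro S' hS'
      have h3 := FM_initial u ω j2 j3 (tlimJ u ω hd2) (S' : Set (T →₀ ℕ)) m
        (fun d hd => hS' d hd) l hl (S'.image (Finsupp.weight ω)) (fun d hd =>
          Finset.mem_image_of_mem _ hd)
      apply h3.trans
      rw [Finset.sum_image (by
        intro d hd d' hd' h
        exact hω m hm d d' (hS' d hd) (hS' d' hd') h), Finset.card_filter]
      apply Finset.sum_le_sum
      intro d hd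
      have h4 : {d' : T →₀ ℕ | d' ∈ (S' : Set (T →₀ ℕ)) ∧
          Finsupp.weight ω d' = Finsupp.weight ω d} = {d} := by
        ext d'
        constructor
        · rintro ⟨ha, hb⟩
          exact hω m hm d' d (hS' d' ha) (hS' d hd) hb
        · rintro rfl
          exact ⟨hd, rfl⟩
      rw [h4]
      exact tor_single j3 d l hl
    have hB := FM_initial u υ j1 j2 (tlimJ u υ hb2) {d : T →₀ ℕ | Finsupp.weight u d = m} m
      (fun d hd => hd) l hl (hMf.toFinset.image (Finsupp.weight υ)) (fun d hd =>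
        Finset.mem_image_of_mem _ (hMf.mem_toFinset.2 hd))
    have hD : ∀ χ ∈ hMf.toFinset.image (Finsupp.weight υ), Module.finrank k1 (FM k1 j2
        {d | d ∈ {d : T →₀ ℕ | Finsupp.weight u d = m} ∧ Finsupp.weight υ d = χ} l) ≤
        ((hMf.toFinset.filter fun d => l ≤ ∑ t, d t * ordL L (arc (j3 t))).filter
          fun d => Finsupp.weight υ d = χ).card := by
      intro χ _
      have h3 : {d | d ∈ {d : T →₀ ℕ | Finsupp.weight u d = m} ∧ Finsupp.weight υ d = χ} =
          ((hMf.toFinset.filter fun d => Finsupp.weight υ d = χ : Finset (T →₀ ℕ)) :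
            Set (T →₀ ℕ)) := by
        ext d
        rw [Finset.mem_coe, Finset.mem_filter, hMf.mem_toFinset]
        rfl
      rw [h3]
      apply (hC (hMf.toFinset.filter fun d => Finsupp.weight υ d = χ) (by
        intro d hd
        exact hMf.mem_toFinset.1 (Finset.mem_filter.1 hd).1)).trans
      rw [Finset.filter_comm]
    have hE := Finset.card_eq_sum_card_fiberwise
      (s := hMf.toFinset.filter fun d => l ≤ ∑ t, d t * ordL L (arc (j3 t)))
      (t := hMf.toFinset.image (Finsupp.weight υ)) (f := Finsupp.weight υ) (by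
        intro d hd
        exact Finset.mem_image_of_mem _ (Finset.mem_filter.1 hd).1)
    have hF : Nat.card {d : T →₀ ℕ | Finsupp.weight u d = m ∧ l ≤ ∑ t, d t * ordL L (arc (j3 t))} =
        (hMf.toFinset.filter fun d => l ≤ ∑ t, d t * ordL L (arc (j3 t))).card := by
      have h3 : {d : T →₀ ℕ | Finsupp.weight u d = m ∧ l ≤ ∑ t, d t * ordL L (arc (j3 t))} =
          ((hMf.toFinset.filter fun d => l ≤ ∑ t, d t * ordL L (arc (j3 t)) : Finset (T →₀ ℕ)) :
            Set (T →₀ ℕ)) := by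
        ext d
        rw [Finset.mem_coe, Finset.mem_filter, hMf.mem_toFinset]
        rfl
      rw [h3]
      exact (Set.ncard_coe_finset _)
    simp only
    rw [hF, hE]
    exact (hA.trans hB).trans (Finset.sum_le_sum hD)

end Pool.Agent.Lib_helper80.KSX
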