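import Pool.Agent.Lib_helper77.KSZ.R2
import Pool.Agent.Lib_helper77.KSZ.XBase

/-! Refined local inequality, part 3: transcendence degrees and counting.  MP_2c2240_ag. -/

namespace Pool.Agent.Lib_helper80.KSX

open MvPolynomial Pool.Agent.KSS Pool.Agent.Lib_helper56.KSS

section mid

variable {k κ : Type} [Field k] [Field κ] [Algebra k κ]

/-- relative version of a comparison of transcendence degrees -/
theorem tau_mid {I1 I2 I3 I4 I5 I6 : Type} [Finite I1] [Finite I2] [Finite I3] [Finite I4]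
    [Finite I5] [Finite I6] (X : I1 → κ) (S : I2 → κ) (Y : I3 → κ) (Z : I4 → κ) (W : I5 → κ)
    (Φ : I6 → κ) (c : ℕ)
    (hS : ∀ i, S i ∈ (AlgebraicIndependent.matroid k κ).closure (Set.range X))
    (hX : Pool.Agent.Lib_helper56.KSS.tau k X ≤ Pool.Agent.Lib_helper56.KSS.tau k S + c)
    (hW : ∀ i, W i ∈ (AlgebraicIndependent.matroid k κ).closure
      (Set.range X ∪ Set.range Y ∪ Set.range Z))
    (hSΦ : ∀ i, S i ∈ (AlgebraicIndependent.matroid k κ).closure (Set.range Φ))
    (hYΦ : ∀ i, Y i ∈ (AlgebraicIndependent.matroid k κ).closure (Set.range Φ)) :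
    Pool.Agent.Lib_helper56.KSS.tau k W ≤
      Pool.Agent.Lib_helper56.KSS.tau k Φ + c + Nat.card I4 := by
  obtain ⟨M, hM⟩ : ∃ M, M = AlgebraicIndependent.matroid k κ := ⟨_, rfl⟩
  have h1 : Pool.Agent.Lib_helper56.KSS.tau k W ≤
      Pool.Agent.Lib_helper56.KSS.tau k (Sum.elim (Sum.elim X Y) Z) := by
    apply tau_le_of_closure
    intro i
    rw [Set.Sum.elim_range, Set.Sum.elim_range]
    exact hW i
  have h2 := tau_sum_le (K := k) (Sum.elim X Y) Z
  have h3 := tau_le_card (K := k) Z
  have h4 : (AlgebraicIndependent.matroid k κ).eRk (Set.range S) +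
      (AlgebraicIndependent.matroid k κ).eRk (Set.range X ∪ Set.range Y) ≤
      (AlgebraicIndependent.matroid k κ).eRk (Set.range X) +
      (AlgebraicIndependent.matroid k κ).eRk (Set.range Φ) := by
    have h5 := (AlgebraicIndependent.matroid k κ).eRk_inter_add_eRk_union_le
      ((AlgebraicIndependent.matroid k κ).closure (Set.range X))
      ((AlgebraicIndependent.matroid k κ).closure (Set.range Φ))
    rw [Matroid.eRk_closure_eq, Matroid.eRk_closure_eq] at h5
    refine le_trans (add_le_add ?_ ?_) h5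
    · apply (AlgebraicIndependent.matroid k κ).eRk_mono
      rintro _ ⟨i, rfl⟩
      exact ⟨hS i, hSΦ i⟩
    · apply (AlgebraicIndependent.matroid k κ).eRk_mono
      rintro _ (⟨i, rfl⟩ | ⟨i, rfl⟩)
      · left
        exact (AlgebraicIndependent.matroid k κ).mem_closure_of_mem ⟨i, rfl⟩ (Set.subset_univ _)
      · right
        exact hYΦ i
  rw [← Set.Sum.elim_range, ← coe_tau, ← coe_tau, ← coe_tau, ← coe_tau] at h4
  have h5 : Pool.Agent.Lib_helper56.KSS.tau k S +
      Pool.Agent.Lib_helper56.KSS.tau k (Sum.elim X Y) ≤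
      Pool.Agent.Lib_helper56.KSS.tau k X + Pool.Agent.Lib_helper56.KSS.tau k Φ := by
    exact_mod_cast h4
  omega

/-- all the coordinates of the torus fixed jet, in terms of those of `x'`, `y_l` (`l ≠ l0`), `z`
and a tail of `y_{l0}` -/
theorem tail_mem {B : Type} {a L : ℕ} (y : Option (Fin (a + 1)) → Fin L → κ) (x' : B → Fin L → κ)
    (G : MvPolynomial B k)
    (hrel : (PowerSeries.X : PowerSeries κ) ^ L ∣ (∏ l : Fin (a + 1), arc (y (some l))) + ev x' G)
    (l0 : Fin (a + 1)) (μ : Fin L)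
    (hμ : (μ : ℕ) < L - ∑ l ∈ Finset.univ.erase l0, ordL L (arc (y (some l)))) :
    y (some l0) μ ∈ (AlgebraicIndependent.matroid k κ).closure
      ((Set.range fun p : B × Fin L => x' p.1 p.2) ∪
        Set.range fun p : {l : Fin (a + 1) // l ≠ l0} × Fin L => y (some p.1) p.2) := by
  classical
  obtain ⟨E', hE'⟩ : ∃ E', E' = ∑ l ∈ Finset.univ.erase l0, ordL L (arc (y (some l))) := ⟨_, rfl⟩
  rw [← hE'] at hμ
  let K0 : IntermediateField k κ := IntermediateField.adjoin k
    ((Set.range fun p : B × Fin L => x' p.1 p.2) ∪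
      Set.range fun p : {l : Fin (a + 1) // l ≠ l0} × Fin L => y (some p.1) p.2)
  have hx'K : ∀ i μ, x' i μ ∈ K0 := fun i μ =>
    IntermediateField.subset_adjoin k _ (Or.inl ⟨(i, μ), rfl⟩)
  have hyK : ∀ l, l ≠ l0 → ∀ μ, y (some l) μ ∈ K0 := fun l hl μ =>
    IntermediateField.subset_adjoin k _ (Or.inr ⟨(⟨l, hl⟩, μ), rfl⟩)
  have hord : (∏ l ∈ Finset.univ.erase l0, arc (y (some l))).order = (E' : ℕ∞) := by
    have h1 := ordL_prod (Finset.univ.erase l0) L (fun l => arc (y (some l)))
    rw [← hE', min_eq_right (by omega)] at h1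
    rw [order_eq_of_ordL_lt (L := L) (by rw [h1]; omega), h1]
  rw [← Finset.prod_erase_mul Finset.univ _ (Finset.mem_univ l0)] at hrel
  have h2 := last_coeff_mem (K0 := K0) (∏ l ∈ Finset.univ.erase l0, arc (y (some l))) (ev x' G)
    (y (some l0)) (CoefIn.prod _ _ fun l hl => CoefIn.arc _ (hyK l (Finset.ne_of_mem_erase hl)))
    (CoefIn.ev x' hx'K G) hord hrel μ μ.2 (by omega)
  exact mem_closure_of_field (K := k) h2

end mid

section cnt

/-- counting: codimensions of the filtration pull back along a substitution -/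
theorem cnt_fil {k κ : Type} [Field k] [Field κ] [Algebra k κ] {V T : Type} [Fintype V] [Fintype T]
    {L : ℕ} (x : V → Fin L → κ) (u : T → ℕ) (hu : ∀ t, 0 < u t) (Ψ : T → MvPolynomial V k)
    (hΨ : ∀ t, (Ψ t).IsHomogeneous (u t)) (m l : ℕ) (hl : l ≤ L) :
    Nat.card {d : T →₀ ℕ | Finsupp.weight u d = m} + Module.finrank k (Fil k x m l) ≤
      Module.finrank k (homogeneousSubmodule V k m) +
        Module.finrank k (FM k (subJ Ψ x) {d | Finsupp.weight u d = m} l) := by
  classical
  have i1 : Finite {d : T →₀ ℕ | Finsupp.weight u d = m} := wfin u hu m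
  have i2 : Module.Finite k (restrictSupport k {d : T →₀ ℕ | Finsupp.weight u d = m}) :=
    Module.Finite.of_basis (basisRestrictSupport k _)
  have i3 : Module.Finite k (homogeneousSubmodule V k m) := by
    rw [hom_eq]
    have : Finite {d : V →₀ ℕ | d.degree = m} := degree_finite m
    exact Module.Finite.of_basis (basisRestrictSupport k _)
  have i4 := FM_finite (k := k) (subJ Ψ x) {d : T →₀ ℕ | Finsupp.weight u d = m} l
  have hle : Fil k x m l ≤ homogeneousSubmodule V k m := fun F hF => hF.1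
  have h1 := slc_rank (Fil k x m l).mkQ (homogeneousSubmodule V k m)
  have h2 : homogeneousSubmodule V k m ⊓ LinearMap.ker (Fil k x m l).mkQ = Fil k x m l := by
    rw [Submodule.ker_mkQ]
    exact inf_eq_right.2 hle
  rw [h2] at h1
  have h3 := slc_rank ((Fil k x m l).mkQ.comp (bind₁ Ψ).toLinearMap)
    (restrictSupport k {d : T →₀ ℕ | Finsupp.weight u d = m})
  rw [slc_card] at h3
  have hhom : ∀ P ∈ restrictSupport k {d : T →₀ ℕ | Finsupp.weight u d = m},
      (bind₁ Ψ P).IsHomogeneous m := by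
    intro P hP
    rw [mem_restrictSupport_iff] at hP
    exact whom_bind' (u := u) (w := fun _ => 1) Ψ (fun t => hΨ t) (fun d hd =>
      hP (mem_support_iff.2 hd))
  have i5 : Module.Finite k ((homogeneousSubmodule V k m).map (Fil k x m l).mkQ) :=
    Module.Finite.map _ _
  have h4 : Module.finrank k ((restrictSupport k {d : T →₀ ℕ | Finsupp.weight u d = m}).map
      ((Fil k x m l).mkQ.comp (bind₁ Ψ).toLinearMap)) ≤
      Module.finrank k ((homogeneousSubmodule V k m).map (Fil k x m l).mkQ) := by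
    apply Submodule.finrank_mono
    rintro _ ⟨P, hP, rfl⟩
    exact ⟨bind₁ Ψ P, hhom P hP, rfl⟩
  have h5 : Module.finrank k (restrictSupport k {d : T →₀ ℕ | Finsupp.weight u d = m} ⊓
      LinearMap.ker ((Fil k x m l).mkQ.comp (bind₁ Ψ).toLinearMap) :
        Submodule k (MvPolynomial T k)) ≤
      Module.finrank k (FM k (subJ Ψ x) {d | Finsupp.weight u d = m} l) := by
    apply Submodule.finrank_mono
    rintro P ⟨hP1, hP2⟩
    rw [mem_FM]
    refine ⟨fun d hd => (mem_restrictSupport_iff k).1 hP1 hd, ?_⟩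
    have h6 : bind₁ Ψ P ∈ Fil k x m l := by
      have h7 : (Fil k x m l).mkQ (bind₁ Ψ P) = 0 := hP2
      rwa [Submodule.mkQ_apply, Submodule.Quotient.mk_eq_zero] at h7
    have h7 := (pow_dvd_pow (PowerSeries.X : PowerSeries κ) hl).trans (ev_subJ Ψ x P)
    have h8 : ev (subJ Ψ x) P = (ev (subJ Ψ x) P - ev x (bind₁ Ψ P)) + ev x (bind₁ Ψ P) := by ring
    rw [h8]
    exact dvd_add h7 h6.2
  omega

/-- the number of monomials of order `< l` -/
theorem cnt_eq {T : Type} [Fintype T] (u : T → ℕ) (hu : ∀ t, 0 < u t) (o : T → ℕ) (m l : ℕ) :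
    Pool.Agent.KSX.cnt u o m l + Nat.card {d : T →₀ ℕ | Finsupp.weight u d = m ∧
      l ≤ ∑ t, d t * o t} = Nat.card {d : T →₀ ℕ | Finsupp.weight u d = m} := by
  classical
  have hMf := wfin u hu m
  have h1 : Nat.card {d : T →₀ ℕ | Finsupp.weight u d = m} = hMf.toFinset.card := by
    rw [← Set.ncard_coe_finset, Set.Finite.coe_toFinset]
    rfl
  have h2 : Nat.card {d : T →₀ ℕ | Finsupp.weight u d = m ∧ l ≤ ∑ t, d t * o t} =
      (hMf.toFinset.filter fun d => l ≤ ∑ t, d t * o t).card := by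
    have h3 : {d : T →₀ ℕ | Finsupp.weight u d = m ∧ l ≤ ∑ t, d t * o t} =
        ((hMf.toFinset.filter fun d => l ≤ ∑ t, d t * o t : Finset (T →₀ ℕ)) :
          Set (T →₀ ℕ)) := by
      ext d
      rw [Finset.mem_coe, Finset.mem_filter, hMf.mem_toFinset]
      rfl
    rw [h3]
    exact (Set.ncard_coe_finset _)
  have h4 : Pool.Agent.KSX.cnt u o m l = (hMf.toFinset.filter fun d => ¬ l ≤ ∑ t, d t * o t).card := by
    unfold Pool.Agent.KSX.cnt
    rw [← Set.ncard_coe_finset]
    apply Nat.card_congr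
    refine ⟨fun b => ⟨Finsupp.equivFunOnFinite.symm b.1, ?_⟩, fun d => ⟨d.1, ?_⟩, ?_, ?_⟩
    · rw [Finset.mem_coe, Finset.mem_filter, hMf.mem_toFinset]
      refine ⟨?_, ?_⟩
      · change Finsupp.weight u _ = m
        rw [Finsupp.weight_apply, Finsupp.sum_fintype _ _ (by intro i; rw [zero_smul])]
        refine Eq.trans ?_ b.2.1
        apply Finset.sum_congr rfl
        intro t _
        rw [smul_eq_mul, mul_comm]
        rfl
      · rw [not_le]
        refine lt_of_eq_of_lt ?_ b.2.2
        apply Finset.sum_congr rfl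
        intro t _
        rw [mul_comm]
        rfl
    · have h5 := d.2
      rw [Finset.mem_coe, Finset.mem_filter, hMf.mem_toFinset] at h5
      refine ⟨?_, ?_⟩
      · have h6 : Finsupp.weight u (d : T →₀ ℕ) = m := h5.1
        rw [Finsupp.weight_apply, Finsupp.sum_fintype _ _ (by intro i; rw [zero_smul])] at h6
        refine Eq.trans ?_ h6
        apply Finset.sum_congr rfl
        intro t _
        rw [smul_eq_mul, mul_comm]
      · refine lt_of_eq_of_lt ?_ (not_le.1 h5.2)
        apply Finset.sum_congr rfl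
        intro t _
        rw [mul_comm]
    · intro b
      rfl
    · intro d
      apply Subtype.ext
      exact Finsupp.equivFunOnFinite_symm_coe _
  rw [h1, h2, h4, add_comm]
  exact Finset.card_filter_add_card_filter_not _

end cnt

end Pool.Agent.Lib_helper80.KSX
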