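import Pool.Agent.Lib_helper77.KSZ.R3
import Pool.Agent.Lib_helper77.KSZ.XKER

/-! Refined local inequality, part 4.  MP_2c2240_ag. -/

namespace Pool.Agent.Lib_helper80.KSX

open MvPolynomial Pool.Agent.KSS Pool.Agent.Lib_helper56.KSS
open Pool.Agent.KSX (c0J lead grad cnt ker_tau)

/-- linearly independent rows: a nonzero maximal minor -/
theorem exists_minor {κ : Type} [Field κ] {ι : Type} [Fintype ι] [DecidableEq ι] {b : ℕ}
    (M : ι → Fin b → κ) (h : LinearIndependent κ M) :
    ∃ J : ι → Fin b, Function.Injective J ∧ (Matrix.of fun i i' => M i (J i')).det ≠ 0 := by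
  classical
  let A : Matrix ι (Fin b) κ := Matrix.of M
  have h1 : A.rank = Fintype.card ι := LinearIndependent.rank_matrix h
  have h2 : Submodule.span κ (Set.range A.col) = ⊤ := by
    apply Submodule.eq_top_of_finrank_eq
    rw [← Matrix.rank_eq_finrank_span_cols, h1, Module.finrank_fintype_fun_eq_card]
  obtain ⟨K, a, ha1, ha2, ha3⟩ := exists_linearIndependent' κ A.col
  rw [h2] at ha2
  have hKfin : Finite K := Finite.of_injective a ha1
  have := Fintype.ofFinite K
  let bs : Module.Basis K κ (ι → κ) := Module.Basis.mk ha3 (by rw [ha2])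
  have hcard : Fintype.card K = Fintype.card ι := by
    rw [← Module.finrank_eq_card_basis bs, Module.finrank_fintype_fun_eq_card]
  let eq : ι ≃ K := (Fintype.equivOfCardEq hcard).symm
  refine ⟨fun i => a (eq i), ha1.comp eq.injective, ?_⟩
  have h3 : LinearIndependent κ (fun i : ι => A.col (a (eq i))) := ha3.comp eq eq.injective
  have h4 : LinearIndependent κ (Matrix.of fun i i' => M i (a (eq i')) : Matrix ι ι κ).col := h3
  rw [Matrix.linearIndependent_cols_iff_isUnit, Matrix.isUnit_iff_isUnit_det] at h4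
  exact h4.ne_zero

section loc

variable {p a b v L : ℕ} (e : Fin (a + 1) ⊕ Fin b ≃ Fin v)

/-- index type of the coordinates -/
abbrev TT (a n' : ℕ) (l0 : Fin (a + 1)) (E : Finset (Fin p)) : Type :=
  ({l : Fin (a + 1) // l ≠ l0} ⊕ Fin n') ⊕ E

/-- degrees -/
abbrev tu (d : Fin p → ℕ) (a n' : ℕ) (l0 : Fin (a + 1)) (E : Finset (Fin p)) : TT a n' l0 E → ℕ :=
  Sum.elim (fun _ => 1) (fun i => d i)

/-- the substitution -/
noncomputable def PS {R : Type} [CommRing R] (n' : ℕ) (l0 : Fin (a + 1)) (E : Finset (Fin p))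
    (j : Fin p) (ρ : Fin n' → Fin b) (GG : Fin p → MvPolynomial (Fin v) R) :
    TT a n' l0 E → MvPolynomial (Option (Fin v)) R :=
  Sum.elim (Sum.elim (fun l => X (yz e (some l))) (fun q => X (incl e (ρ q))))
    (fun i => if (i : Fin p) = j then X none else rename some (GG i))

theorem PS_map {R S : Type} [CommRing R] [CommRing S] (f : R →+* S) (n' : ℕ) (l0 : Fin (a + 1))
    (E : Finset (Fin p)) (j : Fin p) (ρ : Fin n' → Fin b) (GG : Fin p → MvPolynomial (Fin v) R)
    (t : TT a n' l0 E) : MvPolynomial.map f (PS e n' l0 E j ρ GG t) =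
      PS e n' l0 E j ρ (fun i => MvPolynomial.map f (GG i)) t := by
  unfold PS
  rcases t with (l | q) | i
  · simp only [Sum.elim_inl, map_X]
  · simp only [Sum.elim_inl, Sum.elim_inr, map_X]
  · simp only [Sum.elim_inr]
    split_ifs
    · rw [map_X]
    · rw [map_rename]

theorem PS_homog {R : Type} [CommRing R] (d : Fin p → ℕ) (n' : ℕ) (l0 : Fin (a + 1))
    (E : Finset (Fin p)) (j : Fin p) (ha : d j = a + 1) (ρ : Fin n' → Fin b)
    (GG : Fin p → MvPolynomial (Fin v) R)
    (hG : ∀ i, (GG i).IsHomogeneous (d i)) (t : TT a n' l0 E) :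
    IsWeightedHomogeneous (wO (Fin v) a) (PS e n' l0 E j ρ GG t) (tu d a n' l0 E t) := by
  unfold PS tu
  rcases t with (l | q) | i
  · simp only [Sum.elim_inl]
    exact isWeightedHomogeneous_X R (wO (Fin v) a) (yz e (some (l : Fin (a + 1))))
  · simp only [Sum.elim_inl, Sum.elim_inr]
    exact isWeightedHomogeneous_X R (wO (Fin v) a) (incl e (ρ q))
  · simp only [Sum.elim_inr]
    split_ifs with h
    · rw [h, ha]
      exact isWeightedHomogeneous_X R (wO (Fin v) a) none
    · exact rename_some_homog (hG i)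

open Classical in
/-- weights for the one-parameter group -/
noncomputable def tω (d : Fin p → ℕ) (B0 n' : ℕ) (l0 : Fin (a + 1)) (E : Finset (Fin p))
    (j : Fin p) (ρ : Fin n' → Fin b) : TT a n' l0 E → ℕ :=
  Sum.elim (Sum.elim (fun l => ωO e B0 (yz e (some l))) (fun q => ωO e B0 (incl e (ρ q))))
    (fun i => if (i : Fin p) = j then ωO e B0 none else d i * CC a B0)

theorem PS_ω {k1 : Type} [Field k1] (d : Fin p → ℕ) (B0 n' : ℕ) (l0 : Fin (a + 1))
    (E : Finset (Fin p)) (j : Fin p) (ρ : Fin n' → Fin b) (GG : Fin p → MvPolynomial (Fin v) k1)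
    (G' : Fin p → MvPolynomial (Fin b) k1) (hG : ∀ i, (G' i).IsHomogeneous (d i))
    (hGG : ∀ i, i ≠ j → GG i = rename (emb e) (G' i)) (t : TT a n' l0 E) :
    IsWeightedHomogeneous (ωO e B0) (PS e n' l0 E j ρ GG t) (tω e d B0 n' l0 E j ρ t) := by
  unfold PS tω
  rcases t with (l | q) | i
  · simp only [Sum.elim_inl]
    exact isWeightedHomogeneous_X k1 (ωO e B0) (yz e (some (l : Fin (a + 1))))
  · simp only [Sum.elim_inl, Sum.elim_inr]
    exact isWeightedHomogeneous_X k1 (ωO e B0) (incl e (ρ q))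
  · simp only [Sum.elim_inr]
    by_cases h : (i : Fin p) = j
    · rw [if_pos h, if_pos h]
      exact isWeightedHomogeneous_X k1 (ωO e B0) none
    · rw [if_neg h, if_neg h, hGG i h, rename_rename]
      exact incl_ω_homog e B0 (hG i)

end loc

end Pool.Agent.Lib_helper80.KSX
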