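import Pool.Agent.Lib_helper77.KSZ.R4
import Pool.Agent.Lib_helper77.KSZ.XKER

/-! Refined local inequality, part 5: the local statement.  MP_2c2240_ag. -/

namespace Pool.Agent.Lib_helper80.KSX

open MvPolynomial Pool.Agent.KSS Pool.Agent.Lib_helper56.KSS
open Pool.Agent.KSX (c0J lead grad cnt ker_tau)

theorem coeff_mem_closure {k κ V : Type} [Field k] [Field κ] [Algebra k κ] {L : ℕ}
    (x : V → Fin L → κ) (F : MvPolynomial V k) (μ : ℕ) :
    PowerSeries.coeff μ (ev x F) ∈ (AlgebraicIndependent.matroid k κ).closure (Set.range (pt x)) := by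
  apply mem_closure_of_adjoin
  rw [Algebra.adjoin_range_eq_range_aeval, ← aeval_cJ]
  exact ⟨_, rfl⟩

theorem coeff_zero_of_lt {κ : Type} [Field κ] {L : ℕ} (f : PowerSeries κ) (μ : ℕ)
    (h : μ < ordL L f) : PowerSeries.coeff μ f = 0 :=
  (PowerSeries.X_pow_dvd_iff.1 (ordL_dvd L f)) μ h

theorem subJ_X {k κ V T : Type} [Field k] [Field κ] [Algebra k κ] {L : ℕ}
    (Ψ : T → MvPolynomial V k) (x : V → Fin L → κ) (t : T) (i : V) (h : Ψ t = X i) (μ : Fin L) :
    subJ Ψ x t μ = x i μ := by
  unfold subJ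
  rw [h, ev_X, coeff_arc]

section loc

variable {p a b v L : ℕ} (e : Fin (a + 1) ⊕ Fin b ≃ Fin v)

/-- the lower bounds of the orders of the coordinates -/
noncomputable def tlb (n' : ℕ) (l0 : Fin (a + 1)) (E : Finset (Fin p)) (j : Fin p)
    (ee : Fin (a + 1) → ℕ) (c0 η : ℕ) (g' : Fin p → ℕ) : TT a n' l0 E → ℕ :=
  Sum.elim (Sum.elim (fun l => ee l) (fun _ => c0)) (fun i => if (i : Fin p) = j then η else g' i)

theorem rit_local (d : Fin p → ℕ) (hd : ∀ i, 2 ≤ d i) (j : Fin p) (ha : d j = a + 1)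
    (B E : Finset (Fin p)) (hBE : Disjoint B E) (hj : j ∈ B ∪ E) (M0 B0 : ℕ) (hv : a + 1 + b = v)
    {k : Type} [Field k] [CharZero k] {κ : Type} [Field κ] [Algebra k κ]
    (G : Fin p → MvPolynomial (Fin v) k) (hG : ∀ i, (G i).IsHomogeneous (d i))
    (x : Fin v → Fin L → κ) (hL : 0 < L) (hB : ∀ i ∈ B, ordL L (ev x (G i)) = L)
    (hmin : ∀ J : ↥(B ∪ E) → Fin v, Function.Injective J →
      (Matrix.of fun i i' : ↥(B ∪ E) => grad G (lead x 0) i (J i')).det ≠ 0)
    {O : Type} [CommRing O] [IsDomain O] [ValuationRing O] [Algebra O k] [IsFractionRing O k]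
    {k1 : Type} [Field k1] [CharZero k1] (π : O →+* k1) (hπ : Function.Surjective π)
    (GO : Fin p → MvPolynomial (Fin v) O)
    (hGO1 : ∀ i, MvPolynomial.map (algebraMap O k) (GO i) = G i)
    (hGO2 : ∀ i, (GO i).IsHomogeneous (d i))
    (G' : Fin p → MvPolynomial (Fin b) k1) (hG' : ∀ i, (G' i).IsHomogeneous (d i))
    (hGG : ∀ i, i ≠ j → MvPolynomial.map π (GO i) = rename (emb e) (G' i))
    (s : k) (hs : s ≠ 0) (xt : Option (Fin v) → Fin L → κ) (hxt1 : ∀ i, xt (some i) = x i)
    (hxt2 : ∀ μ : Fin L, xt none μ = algebraMap k κ s⁻¹ * PowerSeries.coeff (μ : ℕ) (ev x (G j)))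
    {F1 F2 : Type} [Field F1] [Algebra k1 F1] [Field F2] [Algebra k1 F2]
    (x1 : Option (Fin v) → Fin L → F1) (x2 : Option (Fin v) → Fin L → F2)
    (h12 : tauJ k x ≤ tauJ k1 x2)
    (h2 : Lim (K := k) π (pw L (wO (Fin v) a)) (pt xt) (pt x1))
    (h4 : TLim (k := k1) (pw L (wO (Fin v) a)) (pw L (ωO e B0)) (pt x1) (pt x2))
    (hrel : (PowerSeries.X : PowerSeries F2) ^ L ∣
      (∏ l : Fin (a + 1), arc (x2 (yz e (some l)))) + ev (fun i => x2 (incl e i)) (G' j))
    (hη : ordL L (ev x (G j)) ≤ ordL L (arc (x2 none)))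
    (hg' : ∀ i, i ≠ j → ordL L (ev x (G i)) ≤ ordL L (ev (fun i => x2 (incl e i)) (G' i)))
    (hc0 : c0J (fun i => x2 (incl e i)) < L)
    (hli : LinearIndependent F2 (fun i : ↥((B ∪ E).erase j) =>
      grad G' (lead (fun i => x2 (incl e i)) (c0J (fun i => x2 (incl e i)))) i))
    (l0 : Fin (a + 1)) :
    (B ∪ E).card ≤ b + 1 ∧ ∃ o : TT a (b + 1 - (B ∪ E).card) l0 E → ℕ,
      (∀ m ≤ M0, ∀ l ≤ L, cnt (tu d a (b + 1 - (B ∪ E).card) l0 E) o m l +
        Module.finrank k (Fil k x m l) ≤ Module.finrank k (homogeneousSubmodule (Fin v) k m)) ∧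
      ∑ t, o t + tauJ k x + B.card * L ≤ v * L ∧
      (∀ i : E, ordL L (ev x (G i)) ≤ o (Sum.inr i)) ∧
      (∀ t, (o t : ℝ) ≤ (tlb (b + 1 - (B ∪ E).card) l0 E j (fun l => ordL L (arc (x2 (yz e (some l)))))
        (c0J (fun i => x2 (incl e i))) (ordL L (arc (x2 none)))
        (fun i => ordL L (ev (fun i => x2 (incl e i)) (G' i))) t : ℝ) +
        ((v : ℝ) * L - tauJ k x - ordL L (arc (x2 none)) -
          ((v : ℝ) - ((a + 1 : ℕ) : ℝ) + 1 - (B ∪ E).card) * c0J (fun i => x2 (incl e i)) +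
          ∑ i ∈ (B ∪ E).erase j, (((d i : ℝ) - 1) * c0J (fun i => x2 (incl e i)) -
            ordL L (ev (fun i => x2 (incl e i)) (G' i))))) := by
  classical
  obtain ⟨x', hx'⟩ : ∃ x' : Fin b → Fin L → F2, x' = fun i => x2 (incl e i) := ⟨_, rfl⟩
  rw [← hx'] at hrel hg' hc0 hli ⊢
  obtain ⟨c0, hc0def⟩ : ∃ c0, c0 = c0J x' := ⟨_, rfl⟩
  rw [← hc0def] at hc0 hli ⊢
  obtain ⟨η, hηdef⟩ : ∃ η, η = ordL L (arc (x2 none)) := ⟨_, rfl⟩
  rw [← hηdef] at hη ⊢
  -- the minor
  obtain ⟨J', hJ'1, hJ'2⟩ := exists_minor _ hli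
  have hcardF : ((B ∪ E).erase j).card = (B ∪ E).card - 1 := Finset.card_erase_of_mem hj
  have hFpos : 0 < (B ∪ E).card := Finset.card_pos.2 ⟨j, hj⟩
  have hJcard : ((B ∪ E).erase j).card ≤ b := by
    have := Fintype.card_le_of_injective J' hJ'1
    rwa [Fintype.card_coe, Fintype.card_fin] at this
  have hF : (B ∪ E).card ≤ b + 1 := by omega
  refine ⟨hF, ?_⟩
  obtain ⟨n', hn'⟩ : ∃ n', n' = b + 1 - (B ∪ E).card := ⟨_, rfl⟩
  rw [← hn']
  -- the remaining coordinates
  have hρc : Fintype.card {q : Fin b // q ∉ Set.range J'} = n' := by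
    have h5 : Fintype.card {q : Fin b // q ∈ Set.range J'} = ((B ∪ E).erase j).card := by
      rw [← Fintype.card_coe]
      exact (Fintype.card_congr (Equiv.ofInjective J' hJ'1)).symm
    have h6 := Fintype.card_subtype_compl (fun q : Fin b => q ∈ Set.range J')
    rw [h5, Fintype.card_fin] at h6
    have h7 : Fintype.card {q : Fin b // q ∉ Set.range J'} =
        Fintype.card {q : Fin b // ¬ (q ∈ Set.range J')} := Fintype.card_congr (Equiv.refl _)
    rw [h7, h6]
    omega
  obtain ⟨eρ⟩ : Nonempty (Fin n' ≃ {q : Fin b // q ∉ Set.range J'}) := by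
    rw [← Fintype.card_eq, hρc, Fintype.card_fin]
  obtain ⟨ρ, hρ⟩ : ∃ ρ : Fin n' → Fin b, ρ = fun q => (eρ q : Fin b) := ⟨_, rfl⟩
  have hρs : ∀ q : Fin b, q ∉ Set.range J' → ∃ q', ρ q' = q := by
    intro q hq
    refine ⟨eρ.symm ⟨q, hq⟩, ?_⟩
    rw [hρ]
    simp
  -- the jets of the coordinates
  obtain ⟨Ψ, hΨ⟩ : ∃ Ψ, Ψ = PS e n' l0 E j ρ GO := ⟨_, rfl⟩
  have hu : ∀ t, 0 < tu d a n' l0 E t := by
    rintro ((l | q) | i)
    · exact one_pos
    · exact one_pos
    · have := hd i
      simp only [tu, Sum.elim_inr]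
      omega
  have hLim := Lim.sub h2 (tu d a n' l0 E) Ψ (by
    rw [hΨ]
    exact PS_homog e d n' l0 E j ha ρ GO hGO2)
  have hPSk : (fun t => MvPolynomial.map (algebraMap O k) (Ψ t)) = PS e n' l0 E j ρ G := by
    funext t
    rw [hΨ, PS_map]
    simp only [hGO1]
  have hPSk1 : (fun t => MvPolynomial.map π (Ψ t)) =
      PS e n' l0 E j ρ (fun i => MvPolynomial.map π (GO i)) := by
    funext t
    rw [hΨ, PS_map]
  rw [hPSk, hPSk1] at hLim
  have hTLim := TLim.sub h4 (tu d a n' l0 E) (tω e d B0 n' l0 E j ρ)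
    (PS e n' l0 E j ρ (fun i => MvPolynomial.map π (GO i)))
    (PS_homog e d n' l0 E j ha ρ _ (fun i => homog_map _ (hGO2 i)))
    (PS_ω e d B0 n' l0 E j ρ _ G' hG' hGG)
  obtain ⟨o, o3, ho1, ho2, ho3, ho4, ho5, ho6⟩ := TD π hπ (tu d a n' l0 E) (tω e d B0 n' l0 E j ρ) hu
    (subJ (PS e n' l0 E j ρ G) xt) _ _ hLim hTLim M0
  have hsomex : (fun i => xt (some i)) = x := by funext i; exact hxt1 i
  -- the same jet over `k`
  obtain ⟨Ψk, hΨk⟩ : ∃ Ψk : TT a n' l0 E → MvPolynomial (Fin v) k, Ψk =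
      Sum.elim (Sum.elim (fun l : {l : Fin (a + 1) // l ≠ l0} => X (e (Sum.inl (l : Fin (a + 1)))))
        (fun q => X (e (Sum.inr (ρ q)))))
        (fun i : E => if (i : Fin p) = j then s⁻¹ • G j else G i) := ⟨_, rfl⟩
  have hsub : subJ Ψk x = subJ (PS e n' l0 E j ρ G) xt := by
    funext t μ
    rcases t with (l | q) | i
    · have e1 := subJ_X Ψk x (Sum.inl (Sum.inl l)) (e (Sum.inl (l : Fin (a + 1))))
        (by rw [hΨk]; rfl) μ
      have e2 := subJ_X (PS e n' l0 E j ρ G) xt (Sum.inl (Sum.inl l)) (yz e (some (l : Fin (a + 1))))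
        rfl μ
      rw [e1, e2]
      exact (congrFun (hxt1 _) μ).symm
    · have e1 := subJ_X Ψk x (Sum.inl (Sum.inr q)) (e (Sum.inr (ρ q))) (by rw [hΨk]; rfl) μ
      have e2 := subJ_X (PS e n' l0 E j ρ G) xt (Sum.inl (Sum.inr q)) (incl e (ρ q)) rfl μ
      rw [e1, e2]
      exact (congrFun (hxt1 _) μ).symm
    · rw [hΨk]
      unfold subJ PS
      simp only [Sum.elim_inr]
      split_ifs with h
      · rw [ev_smul, PowerSeries.coeff_C_mul, ev_X, coeff_arc, hxt2]
      · rw [ev_rename, hsomex]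
  have hΨkh : ∀ t, (Ψk t).IsHomogeneous (tu d a n' l0 E t) := by
    intro t
    rw [hΨk]
    rcases t with (l | q) | i
    · exact isHomogeneous_X _ _
    · exact isHomogeneous_X _ _
    · simp only [Sum.elim_inr, tu]
      split_ifs with h
      · rw [h]
        exact (homogeneousSubmodule (Fin v) k (d j)).smul_mem _ (hG j)
      · exact hG i
  -- membership of the coordinates of `x`
  obtain ⟨J, hJ⟩ : ∃ J : ↥(B ∪ E) → Fin v, J = fun i : ↥(B ∪ E) =>
      if h : (i : Fin p) = j then e (Sum.inl l0)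
      else e (Sum.inr (J' ⟨i, Finset.mem_erase.2 ⟨h, i.2⟩⟩)) := ⟨_, rfl⟩
  have hJinj : Function.Injective J := by
    intro i i' h
    rw [hJ] at h
    simp only at h
    apply Subtype.ext
    by_cases h1 : (i : Fin p) = j
    · by_cases h3 : (i' : Fin p) = j
      · rw [h1, h3]
      · rw [dif_pos h1, dif_neg h3] at h
        have := e.injective h
        simp at this
    · by_cases h3 : (i' : Fin p) = j
      · rw [dif_neg h1, dif_pos h3] at h
        have := e.injective h
        simp at this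
      · rw [dif_neg h1, dif_neg h3] at h
        have h5 := hJ'1 (Sum.inr_injective (e.injective h))
        exact congrArg (fun z : ↥((B ∪ E).erase j) => (z : Fin p)) h5
  have hnotJ : ∀ q : Fin v, q ∉ Set.range J →
      (∃ l : {l : Fin (a + 1) // l ≠ l0}, q = e (Sum.inl l)) ∨ ∃ q' : Fin n', q = e (Sum.inr (ρ q')) := by
    intro q hq
    rcases hq' : e.symm q with l | i
    · left
      have h5 : q = e (Sum.inl l) := by rw [← hq', Equiv.apply_symm_apply]
      refine ⟨⟨l, ?_⟩, h5⟩
      rintro rfl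
      apply hq
      refine ⟨⟨j, hj⟩, ?_⟩
      rw [hJ]
      simp only
      rw [dif_pos trivial, h5]
    · right
      have h5 : q = e (Sum.inr i) := by rw [← hq', Equiv.apply_symm_apply]
      have h6 : i ∉ Set.range J' := by
        rintro ⟨i', rfl⟩
        apply hq
        have h7 := Finset.mem_erase.1 i'.2
        refine ⟨⟨i', h7.2⟩, ?_⟩
        rw [hJ]
        simp only
        rw [dif_neg h7.1, h5]
      obtain ⟨q', rfl⟩ := hρs i h6
      exact ⟨q', h5⟩
  -- transcendence degrees of the generic jets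
  have htau : tauJ k x ≤ tauJ k (subJ (PS e n' l0 E j ρ G) xt) := by
    rw [← hsub]
    have h5 := ker_tau d G hG x 0 hL (fun q => Nat.zero_le _) (B ∪ E) J (hmin J hJinj)
    simp only [mul_zero, Finset.sum_const_zero, add_zero] at h5
    apply h5.trans
    unfold tauJ
    rw [tau_eq, tau_eq]
    apply tau_le_of_closure
    have hmem : ∀ (t : TT a n' l0 E) (μ : Fin L), subJ Ψk x t μ ∈
        (AlgebraicIndependent.matroid k κ).closure (Set.range fun p : TT a n' l0 E × Fin L =>
          subJ Ψk x p.1 p.2) := fun t μ =>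
      (AlgebraicIndependent.matroid k κ).mem_closure_of_mem ⟨(t, μ), rfl⟩ (Set.subset_univ _)
    rintro (⟨⟨q, hq⟩, μ⟩ | ⟨⟨i, hi⟩, μ⟩)
    · simp only [Sum.elim_inl]
      rcases hnotJ q hq with ⟨l, rfl⟩ | ⟨q', rfl⟩
      · have h6 := hmem (Sum.inl (Sum.inl l)) μ
        rwa [subJ_X Ψk x (Sum.inl (Sum.inl l)) (e (Sum.inl (l : Fin (a + 1)))) (by rw [hΨk]; rfl)] at h6
      · have h6 := hmem (Sum.inl (Sum.inr q')) μ
        rwa [subJ_X Ψk x (Sum.inl (Sum.inr q')) (e (Sum.inr (ρ q'))) (by rw [hΨk]; rfl)] at h6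
    · simp only [Sum.elim_inr]
      rcases Finset.mem_union.1 hi with h6 | h6
      · rw [coeff_zero_of_lt (L := L) _ (μ : ℕ) (by rw [hB i h6]; exact μ.2)]
        exact zero_mem_closure _
      · have h7 := hmem (Sum.inr ⟨i, h6⟩) μ
        by_cases h8 : i = j
        · have h9 : PowerSeries.coeff (μ : ℕ) (ev x (G i)) = s • subJ Ψk x (Sum.inr ⟨i, h6⟩) μ := by
            unfold subJ
            rw [hΨk]
            simp only [Sum.elim_inr]
            rw [if_pos h8, ev_smul, PowerSeries.coeff_C_mul, Algebra.smul_def, ← mul_assoc, ← map_mul,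
              mul_inv_cancel₀ hs, map_one, one_mul, h8]
          rw [h9]
          apply mem_closure_of_adjoin
          apply Subalgebra.smul_mem
          apply Algebra.subset_adjoin
          exact ⟨(Sum.inr ⟨i, h6⟩, μ), rfl⟩
        · have h9 : PowerSeries.coeff (μ : ℕ) (ev x (G i)) = subJ Ψk x (Sum.inr ⟨i, h6⟩) μ := by
            unfold subJ
            rw [hΨk]
            simp only [Sum.elim_inr]
            rw [if_neg h8]
          rw [h9]
          exact h7
  -- the number of coordinates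
  have hcBE : (B ∪ E).card = B.card + E.card := Finset.card_union_of_disjoint hBE
  have hcT : Fintype.card (TT a n' l0 E) + B.card = v := by
    have h5 : Fintype.card {l : Fin (a + 1) // l ≠ l0} = a := by
      have h6 := Fintype.card_subtype_compl (fun l : Fin (a + 1) => l = l0)
      rw [Fintype.card_fin, Fintype.card_subtype_eq] at h6
      have h7 : Fintype.card {l : Fin (a + 1) // l ≠ l0} =
          Fintype.card {l : Fin (a + 1) // ¬ (l = l0)} := Fintype.card_congr (Equiv.refl _)
      rw [h7, h6]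
      omega
    rw [Fintype.card_sum, Fintype.card_sum, h5, Fintype.card_fin, Fintype.card_coe]
    omega
  refine ⟨o, ?_, ?_, ?_, ?_⟩
  · intro m hm l hl
    have h5 := cnt_fil x (tu d a n' l0 E) hu Ψk hΨkh m l hl
    rw [hsub] at h5
    have h6 := ho6 m hm l hl
    have h7 := cnt_eq (tu d a n' l0 E) hu o m l
    omega
  · have h5 : Fintype.card (TT a n' l0 E) * L + B.card * L = v * L := by
      rw [← add_mul, hcT]
    omega
  · intro i
    refine le_trans ?_ (ho1 (Sum.inr i))
    rw [ordL_subJ]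
    unfold PS
    simp only [Sum.elim_inr]
    by_cases h : (i : Fin p) = j
    · rw [if_pos h, ev_X, h, ← dvd_iff_le_ordL (ordL_le _ _), PowerSeries.X_pow_dvd_iff]
      intro μ hμ
      have hμL : μ < L := lt_of_lt_of_le hμ (ordL_le _ _)
      have h6 := coeff_arc (xt none) ⟨μ, hμL⟩
      simp only at h6
      rw [h6, hxt2]
      simp only
      rw [coeff_zero_of_lt _ μ hμ, mul_zero]
    · rw [if_neg h, ev_rename, hsomex]
  · -- transcendence degree of the special jet
    obtain ⟨Ψ1, hΨ1⟩ : ∃ Ψ1, Ψ1 = PS e n' l0 E j ρ (fun i => MvPolynomial.map π (GO i)) := ⟨_, rfl⟩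
    rw [← hΨ1] at ho3 ho5
    have hΨx : ∀ i, (i : Fin p) ≠ j → ev x2 (rename some (MvPolynomial.map π (GO i))) = ev x' (G' i) := by
      intro i hi
      rw [hGG i hi, rename_rename, hx']
      exact ev_rename x2 (incl e) (G' i)
    have hker := ker_tau d G' hG' x' c0 hc0 (by
      intro q
      rw [hc0def]
      unfold c0J
      exact ciInf_le ⟨0, by rintro _ ⟨i, rfl⟩; exact Nat.zero_le _⟩ q) ((B ∪ E).erase j) J' hJ'2
    have hB' : ∀ i ∈ B, i ≠ j → ordL L (ev x' (G' i)) = L := fun i hi hij =>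
      le_antisymm (ordL_le _ _) (by
        have h5 := hg' i hij
        rwa [hB i hi] at h5)
    have hηB : j ∈ B → η = L := fun h => le_antisymm (by rw [hηdef]; exact ordL_le _ _) (by
      have h5 := hη
      rwa [hB j h] at h5)
    obtain ⟨E', hE'⟩ : ∃ E', E' = ∑ l ∈ Finset.univ.erase l0, ordL L (arc (x2 (yz e (some l)))) :=
      ⟨_, rfl⟩
    have hmem : ∀ (t : TT a n' l0 E) (μ : Fin L), subJ Ψ1 x2 t μ ∈
        (AlgebraicIndependent.matroid k1 F2).closure (Set.range (pt (subJ Ψ1 x2))) := fun t μ =>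
      (AlgebraicIndependent.matroid k1 F2).mem_closure_of_mem ⟨(t, μ), rfl⟩ (Set.subset_univ _)
    have hmid := tau_mid (k := k1) (pt x')
      (Sum.elim (fun s : {q : Fin b // q ∉ Set.range J'} × Fin L => x' s.1 s.2)
        (fun s : ↥((B ∪ E).erase j) × Fin L => PowerSeries.coeff (s.2 : ℕ) (ev x' (G' s.1))))
      (Sum.elim (fun p : {l : Fin (a + 1) // l ≠ l0} × Fin L => x2 (yz e (some p.1)) p.2)
        (fun μ : Fin L => x2 none μ))
      (fun μ : {μ : Fin L // L - E' ≤ (μ : ℕ)} => x2 (yz e (some l0)) μ)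
      (pt x2) (pt (subJ Ψ1 x2)) (∑ i ∈ (B ∪ E).erase j, (d i - 1) * c0)
      (by
        rintro (⟨q, μ⟩ | ⟨i, μ⟩)
        · exact (AlgebraicIndependent.matroid k1 F2).mem_closure_of_mem ⟨((q : Fin b), μ), rfl⟩
            (Set.subset_univ _)
        · exact coeff_mem_closure x' (G' i) μ)
      (by
        have h5 := hker
        unfold tauJ at h5
        rw [tau_eq, tau_eq] at h5
        exact h5)
      (by
        have hS : ∀ A A' : Set F2, A ⊆ A' → (AlgebraicIndependent.matroid k1 F2).closure A ⊆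
            (AlgebraicIndependent.matroid k1 F2).closure A' := fun A A' h =>
          (AlgebraicIndependent.matroid k1 F2).closure_subset_closure h
        rintro ⟨o', μ⟩
        rcases cases_var e o' with ⟨o'', rfl⟩ | ⟨i, rfl⟩
        · cases o'' with
          | none =>
            apply (AlgebraicIndependent.matroid k1 F2).mem_closure_of_mem _ (Set.subset_univ _)
            left
            right
            exact ⟨Sum.inr μ, rfl⟩
          | some l =>
            by_cases hl : l = l0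
            · subst hl
              by_cases hμ : (μ : ℕ) < L - E'
              · have h5 := tail_mem (k := k1) (fun o => x2 (yz e o)) x' (G' j) hrel l μ (by
                  rw [← hE']
                  exact hμ)
                refine hS _ _ ?_ h5
                rintro _ (⟨q, rfl⟩ | ⟨q, rfl⟩)
                · left
                  left
                  exact ⟨q, rfl⟩
                · left
                  right
                  exact ⟨Sum.inl q, rfl⟩
              · apply (AlgebraicIndependent.matroid k1 F2).mem_closure_of_mem _ (Set.subset_univ _)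
                right
                exact ⟨⟨μ, not_lt.1 hμ⟩, rfl⟩
            · apply (AlgebraicIndependent.matroid k1 F2).mem_closure_of_mem _ (Set.subset_univ _)
              left
              right
              exact ⟨Sum.inl (⟨l, hl⟩, μ), rfl⟩
        · apply (AlgebraicIndependent.matroid k1 F2).mem_closure_of_mem _ (Set.subset_univ _)
          left
          left
          exact ⟨(i, μ), by rw [hx']⟩)
      (by
        rintro (⟨⟨q, hq⟩, μ⟩ | ⟨⟨i, hi⟩, μ⟩)
        · simp only [Sum.elim_inl]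
          obtain ⟨q', rfl⟩ := hρs q hq
          have h6 := hmem (Sum.inl (Sum.inr q')) μ
          rw [subJ_X Ψ1 x2 (Sum.inl (Sum.inr q')) (incl e (ρ q')) (by rw [hΨ1]; rfl)] at h6
          rw [hx']
          exact h6
        · simp only [Sum.elim_inr]
          obtain ⟨hij, hi'⟩ := Finset.mem_erase.1 hi
          rcases Finset.mem_union.1 hi' with h6 | h6
          · rw [coeff_zero_of_lt (L := L) _ (μ : ℕ) (by rw [hB' i h6 hij]; exact μ.2)]
            exact zero_mem_closure _
          · have h7 := hmem (Sum.inr ⟨i, h6⟩) μ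
            have h9 : PowerSeries.coeff (μ : ℕ) (ev x' (G' i)) = subJ Ψ1 x2 (Sum.inr ⟨i, h6⟩) μ := by
              unfold subJ
              rw [hΨ1]
              unfold PS
              simp only [Sum.elim_inr]
              rw [if_neg hij, hΨx i hij]
            rw [h9]
            exact h7)
      (by
        rintro (⟨l, μ⟩ | μ)
        · simp only [Sum.elim_inl]
          have h6 := hmem (Sum.inl (Sum.inl l)) μ
          rwa [subJ_X Ψ1 x2 (Sum.inl (Sum.inl l)) (yz e (some (l : Fin (a + 1)))) (by rw [hΨ1]; rfl)] at h6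
        · simp only [Sum.elim_inr]
          rcases Finset.mem_union.1 hj with h6 | h6
          · rw [eq_zero_of_lt_ordL (x2 none) μ (by rw [← hηdef, hηB h6]; exact μ.2)]
            exact zero_mem_closure _
          · have h7 := hmem (Sum.inr ⟨j, h6⟩) μ
            rwa [subJ_X Ψ1 x2 (Sum.inr ⟨j, h6⟩) none (by
              rw [hΨ1]
              unfold PS
              simp only [Sum.elim_inr]
              rw [if_pos trivial])] at h7)
    have hZ : Nat.card {μ : Fin L // L - E' ≤ (μ : ℕ)} ≤ E' := by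
      have h5 : Nat.card {μ : Fin L // L - E' ≤ (μ : ℕ)} ≤ Nat.card (Finset.Ico (L - E') L) := by
        apply Nat.card_le_card_of_injective (fun μ => (⟨(μ.1 : ℕ), Finset.mem_Ico.2 ⟨μ.2, μ.1.2⟩⟩ :
          Finset.Ico (L - E') L))
        intro μ μ' h
        apply Subtype.ext
        apply Fin.ext
        exact congrArg (fun z : Finset.Ico (L - E') L => (z : ℕ)) h
      have h6 : Nat.card (Finset.Ico (L - E') L) = L - (L - E') := by
        rw [Nat.card_eq_fintype_card, Fintype.card_coe, Nat.card_Ico]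
      omega
    -- the lower bounds
    obtain ⟨lb, hlb⟩ : ∃ lb : TT a n' l0 E → ℕ, lb = tlb n' l0 E j
      (fun l => ordL L (arc (x2 (yz e (some l))))) c0 η (fun i => ordL L (ev x' (G' i))) := ⟨_, rfl⟩
    rw [← hlb]
    have hlbo : ∀ t, lb t ≤ o3 t := by
      intro t
      refine le_trans ?_ (ho3 t)
      rw [ordL_subJ, hlb, hΨ1]
      unfold tlb PS
      rcases t with (l | q) | i
      · simp only [Sum.elim_inl]
        rw [ev_X]
      · simp only [Sum.elim_inl, Sum.elim_inr]
        rw [ev_X, hc0def, hx']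
        unfold c0J
        exact ciInf_le ⟨0, by rintro _ ⟨i, rfl⟩; exact Nat.zero_le _⟩ (ρ q)
      · simp only [Sum.elim_inr]
        by_cases h : (i : Fin p) = j
        · rw [if_pos h, if_pos h, ev_X, hηdef]
        · rw [if_neg h, if_neg h, hΨx i h]
    have hlbs : ∑ t, lb t = E' + n' * c0 + ∑ i ∈ E, (if i = j then η else ordL L (ev x' (G' i))) := by
      rw [hlb]
      unfold tlb
      rw [Fintype.sum_sum_type, Fintype.sum_sum_type]
      simp only [Sum.elim_inl, Sum.elim_inr, Finset.sum_const, Finset.card_univ, Fintype.card_fin,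
        smul_eq_mul]
      rw [Finset.sum_coe_sort E (fun i => if i = j then η else ordL L (ev x' (G' i))), hE']
      congr 2
      symm
      apply Finset.sum_subtype
      intro l
      simp
    have hBsum : ∑ i ∈ B, (if i = j then η else ordL L (ev x' (G' i))) = B.card * L := by
      rw [← smul_eq_mul, ← Finset.sum_const]
      apply Finset.sum_congr rfl
      intro i hi
      by_cases h : i = j
      · rw [if_pos h, hηB (h ▸ hi)]
      · rw [if_neg h, hB' i hi h]
    have hFsum : ∑ i ∈ B ∪ E, (if i = j then η else ordL L (ev x' (G' i))) =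
        η + ∑ i ∈ (B ∪ E).erase j, ordL L (ev x' (G' i)) := by
      rw [← Finset.add_sum_erase _ _ hj, if_pos rfl]
      congr 1
      apply Finset.sum_congr rfl
      intro i hi
      rw [if_neg (Finset.ne_of_mem_erase hi)]
    rw [Finset.sum_union hBE, hBsum] at hFsum
    have hchain : tauJ k x ≤ tauJ k1 (subJ Ψ1 x2) + (∑ i ∈ (B ∪ E).erase j, (d i - 1) * c0) + E' := by
      apply h12.trans
      unfold tauJ
      rw [tau_eq, tau_eq]
      exact Nat.le_trans hmid (Nat.add_le_add_left hZ _)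
    have hcTL : Fintype.card (TT a n' l0 E) * L + B.card * L = v * L := by
      rw [← add_mul, hcT]
    intro t0
    have hsingle : o3 t0 + ∑ t, lb t ≤ ∑ t, o3 t + lb t0 := by
      have h5 : ∑ t, (o3 t - lb t) + ∑ t, lb t = ∑ t, o3 t := by
        rw [← Finset.sum_add_distrib]
        exact Finset.sum_congr rfl fun t _ => Nat.sub_add_cancel (hlbo t)
      have h6 := Finset.single_le_sum (f := fun t => o3 t - lb t) (fun _ _ => Nat.zero_le _)
        (Finset.mem_univ t0)
      have h7 := hlbo t0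
      omega
    have hfin : o t0 + E' + n' * c0 + (B.card * L + ∑ i ∈ E, (if i = j then η else ordL L (ev x' (G' i))))
        + tauJ k x ≤ v * L + lb t0 + (∑ i ∈ (B ∪ E).erase j, (d i - 1) * c0) + E' := by
      have h5 := ho2 t0
      omega
    rw [hFsum] at hfin
    have hfin2 : o t0 + n' * c0 + (η + ∑ i ∈ (B ∪ E).erase j, ordL L (ev x' (G' i)))
        + tauJ k x ≤ v * L + lb t0 + (∑ i ∈ (B ∪ E).erase j, (d i - 1) * c0) := by omega
    have hn'r : (n' : ℝ) = (v : ℝ) - ((a + 1 : ℕ) : ℝ) + 1 - (B ∪ E).card := by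
      have h5 : n' + (B ∪ E).card = b + 1 := by omega
      have h6 : ((n' + (B ∪ E).card : ℕ) : ℝ) = ((b + 1 : ℕ) : ℝ) := by rw [h5]
      have h7 : (v : ℝ) = ((a + 1 + b : ℕ) : ℝ) := by rw [hv]
      push_cast at h6 h7 ⊢
      rw [h7]
      linarith
    have hdr : ((∑ i ∈ (B ∪ E).erase j, (d i - 1) * c0 : ℕ) : ℝ) =
        ∑ i ∈ (B ∪ E).erase j, ((d i : ℝ) - 1) * c0 := by
      push_cast
      apply Finset.sum_congr rfl
      intro i _
      rw [Nat.cast_sub (by have := hd i; omega), Nat.cast_one]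
    have hfin3 : (((o t0 + n' * c0 + (η + ∑ i ∈ (B ∪ E).erase j, ordL L (ev x' (G' i)))
        + tauJ k x : ℕ)) : ℝ) ≤ ((v * L + lb t0 + (∑ i ∈ (B ∪ E).erase j, (d i - 1) * c0) : ℕ) : ℝ) := by
      exact_mod_cast hfin2
    rw [Nat.cast_add (v * L + lb t0), hdr] at hfin3
    push_cast at hfin3
    rw [← hn'r, Finset.sum_sub_distrib]
    linarith

end loc

end Pool.Agent.Lib_helper80.KSX
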