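import Pool.Agent.Lib_helper77.KSZ.XBase

/-!
# KSX, block LIA: generic forms stay generic after the elimination of a variable
-/

namespace Pool.Agent.KSX

open MvPolynomial Pool.Agent.KSS Filter Topology

theorem lia_linSub_rename {k : Type} [Field k] {v : ℕ} (a : Fin (v + 1) → k)
    (F : MvPolynomial (Fin v) k) : linSub a (rename Fin.castSucc F) = F := by
  unfold linSub
  rw [aeval_rename]
  have : (Fin.lastCases (-∑ i : Fin v, C (a i.castSucc / a (Fin.last v)) * X i) (fun i => X i)
      : Fin (v + 1) → MvPolynomial (Fin v) k) ∘ Fin.castSucc = X := by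
    funext i
    simp
  rw [this]
  simp

theorem lia_linSub_map {K0 k : Type} [Field K0] [Field k] (φ : K0 →+* k) {v : ℕ}
    (a : Fin (v + 1) → K0) (F : MvPolynomial (Fin (v + 1)) K0) :
    linSub (fun i => φ (a i)) (MvPolynomial.map φ F) = MvPolynomial.map φ (linSub a F) := by
  have h : ((linSub (fun i => φ (a i)) : MvPolynomial (Fin (v + 1)) k →ₐ[k] _) :
      MvPolynomial (Fin (v + 1)) k →+* MvPolynomial (Fin v) k).comp (MvPolynomial.map φ) =
      (MvPolynomial.map φ).comp ((linSub a : MvPolynomial (Fin (v + 1)) K0 →ₐ[K0] _) :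
        MvPolynomial (Fin (v + 1)) K0 →+* MvPolynomial (Fin v) K0) := by
    apply MvPolynomial.ringHom_ext
    · intro r
      simp [linSub]
    · intro i
      refine Fin.lastCases ?_ (fun i => ?_) i
      · simp [linSub]
      · simp [linSub]
  exact congrArg (fun f : MvPolynomial (Fin (v + 1)) K0 →+* MvPolynomial (Fin v) k => f F) h

theorem lia_castSucc {v : ℕ} (β : Fin (v + 1) →₀ ℕ) (h : β (Fin.last v) = 0) :
    ∃ α : Fin v →₀ ℕ, β = Finsupp.mapDomain Fin.castSucc α := by
  refine ⟨Finsupp.comapDomain Fin.castSucc β (Fin.castSucc_injective v).injOn, ?_⟩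
  symm
  apply Finsupp.mapDomain_comapDomain _ (Fin.castSucc_injective v)
  intro i hi
  have hi' : β i ≠ 0 := by simpa using hi
  revert hi'
  refine Fin.lastCases ?_ (fun i => ?_) i
  · intro h'
    exact absurd h h'
  · intro _
    exact ⟨i, rfl⟩

theorem lia_mapDomain_last {v : ℕ} (α : Fin v →₀ ℕ) :
    (Finsupp.mapDomain Fin.castSucc α : Fin (v + 1) →₀ ℕ) (Fin.last v) = 0 := by
  apply Finsupp.mapDomain_of_notMem_range
  rintro ⟨i, hi⟩
  exact absurd hi (Fin.castSucc_lt_last i).ne

/-- the coefficients after the substitution are translates by elements of `K` -/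
theorem lia_coeff {k : Type} [Field k] [CharZero k] {v : ℕ} (K : IntermediateField ℚ k)
    (a : Fin (v + 1) → k) (ha : ∀ i, a i ∈ K) (F : MvPolynomial (Fin (v + 1)) k)
    (hF : ∀ β, β (Fin.last v) ≠ 0 → F.coeff β ∈ K) (α : Fin v →₀ ℕ) :
    (linSub a F).coeff α - F.coeff (Finsupp.mapDomain Fin.castSucc α) ∈ K := by
  classical
  have h1 : (linSub a F).coeff α - F.coeff (Finsupp.mapDomain Fin.castSucc α) =
      ∑ β ∈ F.support, ((linSub a (monomial β (F.coeff β))).coeff α -
        (monomial β (F.coeff β)).coeff (Finsupp.mapDomain Fin.castSucc α)) := by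
    conv_lhs => rw [F.as_sum]
    rw [map_sum, coeff_sum, coeff_sum, Finset.sum_sub_distrib]
  rw [h1]
  refine sum_mem fun β _ => ?_
  by_cases hβ : β (Fin.last v) = 0
  · obtain ⟨γ, rfl⟩ := lia_castSucc β hβ
    rw [← rename_monomial, lia_linSub_rename, rename_monomial, coeff_monomial, coeff_monomial]
    have : (Finsupp.mapDomain Fin.castSucc γ : Fin (v + 1) →₀ ℕ) = Finsupp.mapDomain Fin.castSucc α
        ↔ γ = α :=
      ⟨fun h => Finsupp.mapDomain_injective (Fin.castSucc_injective v) h, fun h => by rw [h]⟩
    simp only [this, sub_self]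
    exact K.zero_mem
  · have h2 : (monomial β (F.coeff β)).coeff (Finsupp.mapDomain Fin.castSucc α) = 0 := by
      rw [coeff_monomial, if_neg]
      intro h
      apply hβ
      rw [h, lia_mapDomain_last]
    rw [h2, sub_zero]
    set a' : Fin (v + 1) → K := fun i => ⟨a i, ha i⟩ with ha'
    have h3 : linSub a (monomial β (F.coeff β)) =
        MvPolynomial.map (algebraMap K k) (linSub a' (monomial β ⟨F.coeff β, hF β hβ⟩)) := by
      rw [← lia_linSub_map, map_monomial]
      rfl
    rw [h3, coeff_map]
    exact (coeff α (linSub a' (monomial β ⟨F.coeff β, hF β hβ⟩))).2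

/-- translation keeps algebraic independence -/
theorem lia_translate {K k ι : Type} [Field K] [Field k] [Algebra K k] {x : ι → k}
    (hx : AlgebraicIndependent K x) (h : ι → K) :
    AlgebraicIndependent K (fun i => x i + algebraMap K k (h i)) := by
  have e1 : (aeval (fun i => x i + algebraMap K k (h i)) : MvPolynomial ι K →ₐ[K] k) =
      (aeval x).comp (aeval (fun i => X i + C (h i)) : MvPolynomial ι K →ₐ[K] MvPolynomial ι K) := by
    apply MvPolynomial.algHom_ext
    intro i
    simp
  have e2 : ((aeval (fun i => X i - C (h i)) : MvPolynomial ι K →ₐ[K] MvPolynomial ι K)).comp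
      (aeval (fun i => X i + C (h i)) : MvPolynomial ι K →ₐ[K] MvPolynomial ι K) =
        AlgHom.id K _ := by
    apply MvPolynomial.algHom_ext
    intro i
    simp
  have e3 : Function.Injective
      (aeval (fun i => X i + C (h i)) : MvPolynomial ι K →ₐ[K] MvPolynomial ι K) := by
    apply Function.LeftInverse.injective (g := (aeval (fun i => X i - C (h i)) :
      MvPolynomial ι K →ₐ[K] MvPolynomial ι K))
    intro p
    exact congrArg (fun f : MvPolynomial ι K →ₐ[K] MvPolynomial ι K => f p) e2
  unfold AlgebraicIndependent at hx ⊢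
  rw [e1, AlgHom.coe_comp]
  exact hx.comp e3

/-- (LIA) generic forms stay generic when a generic linear form is used to eliminate the last
variable -/
theorem lia_gen_pr {p v : ℕ} (d : Fin (p + 1) → ℕ) (j : Fin (p + 1)) (hj : d j = 1) {k : Type}
    [Field k] [CharZero k] (G : Fin (p + 1) → MvPolynomial (Fin (v + 1)) k) (hG : Gen d G) :
    (G j).coeff (Finsupp.single (Fin.last v) 1) ≠ 0 ∧
      G j = ∑ i, C ((G j).coeff (Finsupp.single i 1)) * X i ∧
      Gen (fun i => d (j.succAbove i))
        (fun i => linSub (fun i => (G j).coeff (Finsupp.single i 1)) (G (j.succAbove i))) := by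
  classical
  obtain ⟨hhom, hai⟩ := hG
  set c : (Σ i : Fin (p + 1), {α : Fin (v + 1) →₀ ℕ // α.degree = d i}) → k :=
    fun c => (G c.1).coeff c.2.1 with hc
  have hdeg : ∀ i : Fin (v + 1), (Finsupp.single i 1 : Fin (v + 1) →₀ ℕ).degree = d j := by
    intro i
    rw [Finsupp.degree_single, hj]
  refine ⟨?_, ?_, ?_, ?_⟩
  · exact hai.ne_zero ⟨j, ⟨_, hdeg (Fin.last v)⟩⟩
  · ext β
    rw [coeff_sum]
    simp only [coeff_C_mul]
    by_cases hβ : β.degree = 1
    · obtain ⟨i, hi⟩ : ∃ i, β = Finsupp.single i 1 := by
        rw [Finsupp.degree_eq_sum] at hβ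
        obtain ⟨i, hi⟩ : ∃ i, β i ≠ 0 := by
          by_contra hcon
          push Not at hcon
          simp [hcon] at hβ
        refine ⟨i, ?_⟩
        ext l
        have h1 := Finset.add_sum_erase Finset.univ (fun i => β i) (Finset.mem_univ i)
        by_cases hl : l = i
        · subst hl
          rw [Finsupp.single_eq_same]
          omega
        · rw [Finsupp.single_eq_of_ne hl]
          have h2 : β l ≤ ∑ x ∈ Finset.univ.erase i, β x :=
            Finset.single_le_sum (f := fun i => β i) (fun _ _ => Nat.zero_le _)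
              (Finset.mem_erase.2 ⟨hl, Finset.mem_univ l⟩)
          omega
      subst hi
      rw [Finset.sum_eq_single i]
      · rw [coeff_X]
        simp
      · intro l _ hl
        rw [coeff_X, if_neg, mul_zero]
        intro h
        exact hl (Finsupp.single_left_injective one_ne_zero h)
      · intro h
        exact absurd (Finset.mem_univ i) h
    · rw [(hhom j).coeff_eq_zero (by rw [hj]; exact hβ)]
      symm
      apply Finset.sum_eq_zero
      intro i _
      rw [coeff_X, if_neg, mul_zero]
      intro h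
      apply hβ
      rw [← h, Finsupp.degree_single]
  · intro i
    unfold linSub
    have := (hhom (j.succAbove i)).aeval (n := 1) (Fin.lastCases
      (-∑ i' : Fin v, C ((G j).coeff (Finsupp.single i'.castSucc 1) /
        (G j).coeff (Finsupp.single (Fin.last v) 1)) * X i') (fun i => X i)
      : Fin (v + 1) → MvPolynomial (Fin v) k) ?_
    · rw [one_mul] at this
      exact this
    · intro l
      refine Fin.lastCases ?_ (fun l => ?_) l
      · simp only [Fin.lastCases_last]
        apply IsHomogeneous.neg
        apply IsHomogeneous.sum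
        intro i' _
        apply IsHomogeneous.C_mul
        exact isHomogeneous_X _ _
      · simp only [Fin.lastCases_castSucc]
        exact isHomogeneous_X _ _
  · set U : Set (Σ i : Fin (p + 1), {α : Fin (v + 1) →₀ ℕ // α.degree = d i}) :=
      {s | s.1 = j ∨ s.2.1 (Fin.last v) ≠ 0} with hU
    set K : IntermediateField ℚ k := IntermediateField.adjoin ℚ (c '' U) with hK
    have hmem : ∀ s ∈ U, c s ∈ K := fun s hs =>
      IntermediateField.subset_adjoin ℚ _ ⟨s, hs, rfl⟩
    have h1 : AlgebraicIndependent K (fun s : (Uᶜ : Set _) => c s) := by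
      rw [hK, IntermediateField.algebraicIndependent_adjoin_iff]
      exact hai.adjoin_of_disjoint disjoint_compl_right
    set a : Fin (v + 1) → k := fun i => (G j).coeff (Finsupp.single i 1) with ha
    have haK : ∀ i, a i ∈ K := fun i => hmem ⟨j, ⟨_, hdeg i⟩⟩ (Or.inl rfl)
    set w : (Σ i : Fin p, {α : Fin v →₀ ℕ // α.degree = d (j.succAbove i)}) → (Uᶜ : Set _) :=
      fun s => ⟨⟨j.succAbove s.1, ⟨Finsupp.mapDomain Fin.castSucc s.2.1, by
        rw [Finsupp.degree_mapDomain]; exact s.2.2⟩⟩, by
          rw [hU]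
          simp only [Set.mem_compl_iff, Set.mem_ofPred_eq, not_or, not_not]
          exact ⟨Fin.succAbove_ne j s.1, lia_mapDomain_last s.2.1⟩⟩ with hw
    have hwinj : Function.Injective w := by
      rintro ⟨i, α, hα⟩ ⟨i', α', hα'⟩ h
      simp only [hw, Subtype.mk.injEq, Sigma.mk.injEq] at h
      obtain ⟨h1, h2⟩ := h
      have h3 : i = i' := Fin.succAbove_right_injective h1
      subst h3
      simp only [heq_eq_eq, Subtype.mk.injEq] at h2
      have h4 := Finsupp.mapDomain_injective (Fin.castSucc_injective v) h2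
      subst h4
      rfl
    have h2 := h1.comp w hwinj
    have hcoef : ∀ s : (Σ i : Fin p, {α : Fin v →₀ ℕ // α.degree = d (j.succAbove i)}),
        (linSub a (G (j.succAbove s.1))).coeff s.2.1 -
          (G (j.succAbove s.1)).coeff (Finsupp.mapDomain Fin.castSucc s.2.1) ∈ K := by
      intro s
      apply lia_coeff K a haK
      intro β hβ
      by_cases hd : β.degree = d (j.succAbove s.1)
      · exact hmem ⟨j.succAbove s.1, ⟨β, hd⟩⟩ (Or.inr hβ)
      · rw [(hhom _).coeff_eq_zero hd]
        exact K.zero_mem
    have h3 := lia_translate h2 (fun s => (⟨_, hcoef s⟩ : K))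
    have h4 := h3.restrictScalars (R := ℚ) (algebraMap ℚ K).injective
    convert h4 using 1
    funext s
    simp only [hw, hc, Function.comp]
    change _ = (G (j.succAbove s.1)).coeff (Finsupp.mapDomain Fin.castSucc s.2.1) +
      ((linSub a (G (j.succAbove s.1))).coeff s.2.1 -
          (G (j.succAbove s.1)).coeff (Finsupp.mapDomain Fin.castSucc s.2.1))
    ring

alias lia_gen := lia_gen_pr

end Pool.Agent.KSX
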