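import Pool.Agent.Lib_helper77.KSZ.XBase
import Pool.Agent.Lib_helper56.KSS.J3
import Pool.Agent.Lib_helper77.KSZ.XLIA

/-!
# KSX, block LIB: elimination of a form of degree 1, records
-/

namespace Pool.Agent.KSX

open MvPolynomial Pool.Agent.KSS Filter Topology

/-- dimension of a preimage -/
theorem lib_comap {k V V' : Type} [Field k] [AddCommGroup V] [Module k V] [AddCommGroup V']
    [Module k V'] [Module.Finite k V] [Module.Finite k V'] (T : V →ₗ[k] V')
    (hT : Function.Surjective T) (W : Submodule k V') :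
    (Module.finrank k (W.comap T) : ℤ) =
      Module.finrank k W + (Module.finrank k V - Module.finrank k V') := by
  have h1 := LinearMap.finrank_range_add_finrank_ker (W.mkQ.comp T)
  have h2 : LinearMap.range (W.mkQ.comp T) = ⊤ :=
    LinearMap.range_eq_top.2 ((Submodule.mkQ_surjective W).comp hT)
  have h3 : LinearMap.ker (W.mkQ.comp T) = W.comap T := by
    rw [LinearMap.ker_comp, Submodule.ker_mkQ]
  rw [h2, h3, finrank_top] at h1
  have h4 := Submodule.finrank_quotient_add_finrank W
  omega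

/-- the substitution keeps homogeneous polynomials -/
theorem lib_hom {k : Type} [Field k] {v : ℕ} (a : Fin (v + 1) → k)
    {F : MvPolynomial (Fin (v + 1)) k} {m : ℕ} (hF : F.IsHomogeneous m) :
    (linSub a F).IsHomogeneous m := by
  have h1 := hF.aeval (φ := F) (n := 1)
    (Fin.lastCases (motive := fun _ => MvPolynomial (Fin v) k)
      (-∑ i : Fin v, C (a i.castSucc / a (Fin.last v)) * X i) (fun i => X i)) (by
      intro i
      refine Fin.lastCases ?_ (fun i => ?_) i
      · rw [Fin.lastCases_last]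
        refine IsHomogeneous.neg (IsHomogeneous.sum _ _ _ (fun i _ => ?_))
        have := (isHomogeneous_C (Fin v) (a i.castSucc / a (Fin.last v))).mul
          (isHomogeneous_X k i)
        rwa [zero_add] at this
      · rw [Fin.lastCases_castSucc]
        exact isHomogeneous_X k i)
  rw [one_mul] at h1
  exact h1

theorem lib_sec {k : Type} [Field k] {v : ℕ} (a : Fin (v + 1) → k)
    (F : MvPolynomial (Fin v) k) : linSub a (rename Fin.castSucc F) = F := by
  unfold linSub
  rw [aeval_rename]
  have h1 : (Fin.lastCases (motive := fun _ => MvPolynomial (Fin v) k)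
      (-∑ i : Fin v, C (a i.castSucc / a (Fin.last v)) * X i) (fun i => X i)) ∘ Fin.castSucc =
      (X : Fin v → MvPolynomial (Fin v) k) := by
    funext i
    simp only [Function.comp, Fin.lastCases_castSucc]
  rw [h1]
  exact aeval_X_left_apply F

/-- the map between forms -/
theorem lib_T {k : Type} [Field k] {v : ℕ} (a : Fin (v + 1) → k) (m : ℕ) :
    ∃ T : homogeneousSubmodule (Fin (v + 1)) k m →ₗ[k] homogeneousSubmodule (Fin v) k m,
      ∀ F, (T F : MvPolynomial (Fin v) k) = linSub a F :=
  ⟨LinearMap.restrict (linSub a).toLinearMap (fun _ hF => lib_hom a hF), fun _ => rfl⟩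

theorem lib_fil {k κ : Type} [Field k] [Field κ] [Algebra k κ] {v L : ℕ} (a : Fin (v + 1) → k)
    (x : Fin (v + 1) → Fin L → κ) (x' : Fin v → Fin L → κ)
    (hsub : ∀ F : MvPolynomial (Fin (v + 1)) k, ev x F = ev x' (linSub a F)) {p : ℕ}
    (d : Fin p → ℕ) (m l : ℕ) :
    (Module.finrank k (Fil k x m l) : ℤ) =
      Module.finrank k (Fil k x' m l) + (NN d (v + 1) ∅ m - NN d v ∅ m) := by
  obtain ⟨T, hTF⟩ := lib_T a m
  have hT : Function.Surjective T := by
    rintro ⟨F, hF⟩
    refine ⟨⟨rename Fin.castSucc F, IsHomogeneous.rename_isHomogeneous hF⟩, ?_⟩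
    apply Subtype.ext
    rw [hTF]
    exact lib_sec a F
  have hle1 : Fil k x m l ≤ homogeneousSubmodule (Fin (v + 1)) k m := fun F hF => hF.1
  have hle2 : Fil k x' m l ≤ homogeneousSubmodule (Fin v) k m := fun F hF => hF.1
  have e1 := (Submodule.comapSubtypeEquivOfLe hle1).finrank_eq
  have e2 := (Submodule.comapSubtypeEquivOfLe hle2).finrank_eq
  have e3 : (Fil k x m l).comap (homogeneousSubmodule (Fin (v + 1)) k m).subtype =
      ((Fil k x' m l).comap (homogeneousSubmodule (Fin v) k m).subtype).comap T := by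
    ext F
    rw [Submodule.mem_comap, Submodule.mem_comap, Submodule.mem_comap, Submodule.subtype_apply,
      Submodule.subtype_apply, hTF]
    constructor
    · rintro ⟨h1, h2⟩
      refine ⟨lib_hom a h1, ?_⟩
      rw [← hsub]
      exact h2
    · rintro ⟨h1, h2⟩
      refine ⟨F.2, ?_⟩
      rw [hsub]
      exact h2
  have hf1 : Module.Finite k (homogeneousSubmodule (Fin (v + 1)) k m) :=
    Module.Finite.iff_fg.2 (homogeneousSubmodule_fg (Fin (v + 1)) k m)
  have hf2 : Module.Finite k (homogeneousSubmodule (Fin v) k m) :=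
    Module.Finite.iff_fg.2 (homogeneousSubmodule_fg (Fin v) k m)
  have e4 := lib_comap T hT ((Fil k x' m l).comap (homogeneousSubmodule (Fin v) k m).subtype)
  rw [← e1, e3, e4, e2, finrank_hom k d (v + 1) m, finrank_hom k d v m]

theorem lib_rec_pr {p v : ℕ} (hv : 1 ≤ v) (d : Fin (p + 1) → ℕ) (j : Fin (p + 1)) (hj : d j = 1)
    (R : Rec (p + 1)) (hR : R.Of d (v + 1)) (hg : R.g j = R.L) :
    ∃ R' : Rec p, R'.Of (fun i => d (j.succAbove i)) v ∧ R'.L = R.L ∧ R'.τ = R.τ ∧
      R'.c0 = R.c0 ∧ (∀ i, R'.g i = R.g (j.succAbove i)) ∧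
      ∀ m l, l ≤ R.L → (R.fil m l : ℤ) = R'.fil m l + (NN d (v + 1) ∅ m - NN d v ∅ m) := by
  obtain ⟨k, _, _, G, κ, _, _, x, hG, htau, hfil, hgg, hc0⟩ := hR
  obtain ⟨ha0, hGj, hG'⟩ := lia_gen d j hj G hG
  obtain ⟨a, ha⟩ : ∃ a : Fin (v + 1) → k, a = fun i => (G j).coeff (Finsupp.single i 1) :=
    ⟨_, rfl⟩
  have haL : a (Fin.last v) ≠ 0 := by rw [ha]; exact ha0
  have hGj' : G j = ∑ i, C (a i) * X i := by rw [ha]; exact hGj
  have hG'' : Gen (fun i => d (j.succAbove i)) (fun i => linSub a (G (j.succAbove i))) := by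
    rw [ha]; exact hG'
  obtain ⟨x', hx'⟩ : ∃ x' : Fin v → Fin R.L → κ, x' = fun i => x i.castSucc := ⟨_, rfl⟩
  -- the relation
  have hev : ev x (G j) = ∑ i, algebraMap k (PowerSeries κ) (a i) * arc (x i) := by
    unfold ev
    rw [hGj', map_sum]
    refine Finset.sum_congr rfl (fun i _ => ?_)
    rw [map_mul, aeval_X, aeval_C]
  have hz : ev x (G j) = 0 := by
    ext μ
    rw [map_zero]
    by_cases hμ : μ < R.L
    · have h1 : (PowerSeries.X : PowerSeries κ) ^ R.L ∣ ev x (G j) := by
        rw [Lib_helper56.KSS.dvd_iff_le_ordL le_rfl, hgg, hg]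
      exact (PowerSeries.X_pow_dvd_iff.1 h1) μ hμ
    · rw [hev, map_sum]
      refine Finset.sum_eq_zero (fun i _ => ?_)
      rw [PowerSeries.algebraMap_apply, PowerSeries.coeff_C_mul]
      simp [arc, hμ]
  have haP : algebraMap k (PowerSeries κ) (a (Fin.last v)) *
      algebraMap k (PowerSeries κ) (a (Fin.last v))⁻¹ = 1 := by
    rw [← map_mul, mul_inv_cancel₀ haL, map_one]
  have hlast : arc (x (Fin.last v)) =
      -∑ i : Fin v, algebraMap k (PowerSeries κ) (a i.castSucc / a (Fin.last v)) * arc (x' i) := by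
    rw [hz, Fin.sum_univ_castSucc] at hev
    have h1 : arc (x (Fin.last v)) = algebraMap k (PowerSeries κ) (a (Fin.last v))⁻¹ *
        (algebraMap k (PowerSeries κ) (a (Fin.last v)) * arc (x (Fin.last v))) := by
      rw [← mul_assoc, mul_comm (algebraMap k (PowerSeries κ) (a (Fin.last v))⁻¹), haP, one_mul]
    have h2 : algebraMap k (PowerSeries κ) (a (Fin.last v)) * arc (x (Fin.last v)) =
        -∑ i : Fin v, algebraMap k (PowerSeries κ) (a i.castSucc) * arc (x i.castSucc) := by
      linear_combination -hev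
    rw [h1, h2, mul_neg, Finset.mul_sum]
    congr 1
    refine Finset.sum_congr rfl (fun i _ => ?_)
    rw [div_eq_mul_inv, map_mul, hx']
    ring
  have hsub : ∀ F : MvPolynomial (Fin (v + 1)) k, ev x F = ev x' (linSub a F) := by
    intro F
    have h1 : (aeval (fun i => arc (x i)) : MvPolynomial (Fin (v + 1)) k →ₐ[k] PowerSeries κ) =
        (aeval (fun i => arc (x' i)) : MvPolynomial (Fin v) k →ₐ[k] PowerSeries κ).comp
          (linSub a) := by
      apply MvPolynomial.algHom_ext
      intro i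
      rw [aeval_X, AlgHom.comp_apply]
      unfold linSub
      rw [aeval_X]
      refine Fin.lastCases ?_ (fun i => ?_) i
      · rw [Fin.lastCases_last, map_neg, map_sum, hlast]
        congr 1
        refine Finset.sum_congr rfl (fun i _ => ?_)
        rw [map_mul, aeval_X, aeval_C]
      · rw [Fin.lastCases_castSucc, aeval_X, hx']
    exact congrArg (fun φ : MvPolynomial (Fin (v + 1)) k →ₐ[k] PowerSeries κ => φ F) h1
  refine ⟨⟨R.L, tauJ k x', fun m l => Module.finrank k (Fil k x' m l),
    fun i => ordL R.L (ev x' (linSub a (G (j.succAbove i)))), c0J x'⟩, ?_, rfl, ?_, ?_, ?_, ?_⟩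
  · exact ⟨k, _, _, fun i => linSub a (G (j.succAbove i)), κ, _, _, x', hG'', rfl,
      fun _ _ _ => rfl, fun _ => rfl, rfl⟩
  · -- the transcendence degree
    show tauJ k x' = R.τ
    rw [← htau]
    unfold tauJ
    rw [Lib_helper56.KSS.tau_eq, Lib_helper56.KSS.tau_eq]
    apply le_antisymm
    · refine Lib_helper56.KSS.tau_le_of_closure _ _ (fun q => ?_)
      refine (AlgebraicIndependent.matroid k κ).mem_closure_of_mem ⟨(q.1.castSucc, q.2), ?_⟩
        (Set.subset_univ _)
      rw [hx']
    · refine Lib_helper56.KSS.tau_le_of_closure _ _ (fun q => ?_)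
      obtain ⟨i, μ⟩ := q
      revert i
      refine Fin.lastCases ?_ (fun i => ?_)
      · apply Lib_helper56.KSS.mem_closure_of_adjoin
        have h1 := congrArg (PowerSeries.coeff (μ : ℕ)) hlast
        rw [Lib_helper56.KSS.coeff_arc, map_neg, map_sum] at h1
        show x (Fin.last v) μ ∈ _
        rw [h1]
        refine Subalgebra.neg_mem _ (Subalgebra.sum_mem _ (fun i _ => ?_))
        rw [PowerSeries.algebraMap_apply, PowerSeries.coeff_C_mul, Lib_helper56.KSS.coeff_arc]
        refine Subalgebra.mul_mem _ (Subalgebra.algebraMap_mem _ _) ?_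
        exact Algebra.subset_adjoin ⟨(i, μ), rfl⟩
      · refine (AlgebraicIndependent.matroid k κ).mem_closure_of_mem ⟨(i, μ), ?_⟩
          (Set.subset_univ _)
        rw [hx']
  · -- the order at the vertex
    show c0J x' = R.c0
    rw [← hc0]
    unfold c0J
    have hne : Nonempty (Fin v) := ⟨⟨0, by omega⟩⟩
    have hbdd : ∀ (n : ℕ) (f : Fin n → ℕ), BddBelow (Set.range f) := fun n f =>
      ⟨0, fun _ _ => Nat.zero_le _⟩
    apply le_antisymm
    · refine le_ciInf (fun i => ?_)
      refine Fin.lastCases ?_ (fun i => ?_) i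
      · rw [← Lib_helper56.KSS.dvd_iff_le_ordL]
        · rw [hlast, dvd_neg]
          refine Finset.dvd_sum (fun i _ => Dvd.dvd.mul_left ?_ _)
          rw [Lib_helper56.KSS.dvd_iff_le_ordL]
          · exact ciInf_le (hbdd v _) i
          · exact (ciInf_le (hbdd v _) i).trans (Lib_helper56.KSS.ordL_le _ _)
        · exact (ciInf_le (hbdd v _) ⟨0, by omega⟩).trans (Lib_helper56.KSS.ordL_le _ _)
      · refine (ciInf_le (hbdd v _) i).trans (le_of_eq ?_)
        rw [hx']
    · refine le_ciInf (fun i => ?_)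
      refine (ciInf_le (hbdd (v + 1) _) i.castSucc).trans (le_of_eq ?_)
      rw [hx']
  · intro i
    show ordL R.L (ev x' (linSub a (G (j.succAbove i)))) = R.g (j.succAbove i)
    rw [← hsub, hgg]
  · intro m l hl
    show (R.fil m l : ℤ) = (Module.finrank k (Fil k x' m l) : ℤ) + _
    rw [← hfil m l hl]
    exact lib_fil a x x' hsub d m l

alias lib_rec := lib_rec_pr

end Pool.Agent.KSX
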